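import Pool.Agent.GE2.Defs

/-!
Every frame is reached from the standard one by constant matrices of determinant one, by the
multiplication of the second vector by the variable or its inverse, and by shifts.
-/

set_option autoImplicit false

namespace Pool.Agent.GE2

open LaurentPolynomial

namespace Euc

/-- the matrix `[[a, b], [c, d]]` is admissible for `Q` -/
def Good (Q : S × S → S × S → Prop) (a b c d : S) : Prop :=
  (∃ k : ℤ, a * d - b * c = T k) ∧ ∀ b1 b2, IsFr b1 b2 → Q b1 b2 →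
    Q (a • b1 + c • b2) (b • b1 + d • b2)

lemma dt_mul (a b c d : S) (b1 b2 : S × S) :
    dt (a • b1 + c • b2) (b • b1 + d • b2) = (a * d - b * c) * dt b1 b2 := by
  simp only [dt, Prod.fst_add, Prod.snd_add, Prod.smul_fst, Prod.smul_snd, smul_eq_mul]
  ring

lemma isFr_mul {a b c d : S} (h : ∃ k : ℤ, a * d - b * c = T k) {b1 b2 : S × S}
    (hb : IsFr b1 b2) : IsFr (a • b1 + c • b2) (b • b1 + d • b2) := by
  obtain ⟨k, hk⟩ := h
  obtain ⟨l, hl⟩ := hb
  exact ⟨k + l, by rw [dt_mul, hk, hl, T_add]⟩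

variable {Q : S × S → S × S → Prop}

lemma Good.mul {a b c d a' b' c' d' : S} (h : Good Q a b c d) (h' : Good Q a' b' c' d') :
    Good Q (a * a' + b * c') (a * b' + b * d') (c * a' + d * c') (c * b' + d * d') := by
  refine ⟨?_, ?_⟩
  · obtain ⟨k, hk⟩ := h.1
    obtain ⟨l, hl⟩ := h'.1
    refine ⟨k + l, ?_⟩
    rw [T_add, ← hk, ← hl]
    ring
  · intro b1 b2 hb hQ
    have h1 := h.2 b1 b2 hb hQ
    have h2 := h'.2 _ _ (isFr_mul h.1 hb) h1
    have e1 : a' • (a • b1 + c • b2) + c' • (b • b1 + d • b2)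
        = (a * a' + b * c') • b1 + (c * a' + d * c') • b2 := by
      ext <;> simp only [Prod.fst_add, Prod.snd_add, Prod.smul_fst, Prod.smul_snd, smul_eq_mul] <;>
        ring_nf
    have e2 : b' • (a • b1 + c • b2) + d' • (b • b1 + d • b2)
        = (a * b' + b * d') • b1 + (c * b' + d * d') • b2 := by
      ext <;> simp only [Prod.fst_add, Prod.snd_add, Prod.smul_fst, Prod.smul_snd, smul_eq_mul] <;>
        ring_nf
    rw [e1, e2] at h2
    exact h2

lemma Good.of_eq {a b c d a' b' c' d' : S} (h : Good Q a b c d) (ha : a = a') (hb : b = b')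
    (hc : c = c') (hd : d = d') : Good Q a' b' c' d' := by
  subst ha hb hc hd
  exact h

/-- the hypotheses of the induction -/
structure Hyp (Q : S × S → S × S → Prop) : Prop where
  hsl : ∀ (b1 b2 : S × S) (a b c d : ℚ), IsFr b1 b2 → a * d - b * c = 1 → Q b1 b2 →
      Q ((C a : S) • b1 + (C c : S) • b2) ((C b : S) • b1 + (C d : S) • b2)
  hr : ∀ b1 b2, IsFr b1 b2 → Q b1 b2 → Q b1 ((T 1 : S) • b2)
  hl : ∀ b1 b2, IsFr b1 b2 → Q b1 b2 → Q b1 ((T (-1) : S) • b2)
  hsh : ∀ b1 b2 (i : ℤ), IsFr b1 b2 → Q b1 b2 → Q ((T i : S) • b1) ((T i : S) • b2)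

lemma good_sl (H : Hyp Q) (a b c d : ℚ) (h : a * d - b * c = 1) :
    Good Q (C a) (C b) (C c) (C d) := by
  refine ⟨⟨0, ?_⟩, fun b1 b2 hb hQ => H.hsl b1 b2 a b c d hb h hQ⟩
  rw [← C.map_mul, ← C.map_mul, ← map_sub, h, C.map_one, T_zero]

lemma good_one (H : Hyp Q) : Good Q 1 0 0 1 :=
  (good_sl H 1 0 0 1 (by norm_num)).of_eq C.map_one C.map_zero C.map_zero C.map_one

lemma good_J (H : Hyp Q) : Good Q 0 (-1) 1 0 :=
  (good_sl H 0 (-1) 1 0 (by norm_num)).of_eq C.map_zero (by rw [map_neg, C.map_one]) C.map_one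
    C.map_zero

lemma good_J' (H : Hyp Q) : Good Q 0 1 (-1) 0 :=
  (good_sl H 0 1 (-1) 0 (by norm_num)).of_eq C.map_zero C.map_one (by rw [map_neg, C.map_one])
    C.map_zero

lemma good_scal (H : Hyp Q) (i : ℤ) : Good Q (T i) 0 0 (T i) := by
  refine ⟨⟨i + i, by rw [T_add]; ring⟩, fun b1 b2 hb hQ => ?_⟩
  have := H.hsh b1 b2 i hb hQ
  simpa using this

lemma good_r (H : Hyp Q) : Good Q 1 0 0 (T 1) := by
  refine ⟨⟨1, by ring⟩, fun b1 b2 hb hQ => ?_⟩
  have := H.hr b1 b2 hb hQ
  simpa using this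

lemma good_l (H : Hyp Q) : Good Q 1 0 0 (T (-1)) := by
  refine ⟨⟨-1, by ring⟩, fun b1 b2 hb hQ => ?_⟩
  have := H.hl b1 b2 hb hQ
  simpa using this

lemma good_diag (H : Hyp Q) (n : ℤ) : Good Q 1 0 0 (T n) := by
  induction n using Int.induction_on with
  | zero => exact (good_one H).of_eq rfl rfl rfl T_zero.symm
  | succ i ih =>
    refine (ih.mul (good_r H)).of_eq (by ring) (by ring) (by ring) ?_
    rw [T_add]; ring
  | pred i ih =>
    refine (ih.mul (good_l H)).of_eq (by ring) (by ring) (by ring) ?_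
    rw [sub_eq_add_neg, T_add]; ring

lemma good_e12 (H : Hyp Q) (f : S) : Good Q 1 f 0 1 := by
  induction f using LaurentPolynomial.induction_on' with
  | add p q hp hq =>
    exact (hp.mul hq).of_eq (by ring) (by ring) (by ring) (by ring)
  | C_mul_T n a =>
    have h1 : Good Q 1 (C a) 0 1 :=
      (good_sl H 1 a 0 1 (by norm_num)).of_eq C.map_one rfl C.map_zero C.map_one
    refine (((good_diag H (-n)).mul h1).mul (good_diag H n)).of_eq (by ring) (by ring) (by ring) ?_
    have : (T (-n) * T n : S) = 1 := by rw [← T_add, neg_add_cancel, T_zero]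
    linear_combination this

lemma good_e21 (H : Hyp Q) (f : S) : Good Q 1 0 f 1 :=
  (((good_J H).mul (good_e12 H (-f))).mul (good_J' H)).of_eq (by ring) (by ring) (by ring)
    (by ring)

/-- units -/
lemma unit_form {b e : S} {k : ℤ} (h : b * e = T k) :
    ∃ (β : ℚ) (m : ℤ), β ≠ 0 ∧ b = C β * T m := by
  obtain ⟨n, p, hp⟩ := exists_T_pow b
  obtain ⟨n', q, hq⟩ := exists_T_pow e
  have h1 : (p * q * Polynomial.X ^ k.natAbs).toLaurent
      = (T (k + n + n' + k.natAbs) : S) := by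
    rw [map_mul, map_mul, hp, hq, Polynomial.toLaurent_X_pow, T_add, T_add, T_add, ← h]
    ring
  have hN : ∃ N : ℕ, k + n + n' + k.natAbs = (N : ℤ) := by
    refine ⟨(k + n + n' + k.natAbs).toNat, ?_⟩
    rw [Int.toNat_of_nonneg]
    omega
  obtain ⟨N, hN⟩ := hN
  rw [hN, ← Polynomial.toLaurent_X_pow] at h1
  have h2 := Polynomial.toLaurent_injective h1
  have h3 : p ∣ Polynomial.X ^ N := ⟨q * Polynomial.X ^ k.natAbs, by rw [← h2]; ring⟩
  obtain ⟨i, -, hi⟩ := (dvd_prime_pow Polynomial.prime_X N).1 h3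
  obtain ⟨u, hu⟩ := hi.symm
  obtain ⟨β, hβ, hβu⟩ := Polynomial.isUnit_iff.1 u.isUnit
  refine ⟨β, i - n, hβ.ne_zero, ?_⟩
  have h4 : p.toLaurent = (C β * T i : S) := by
    rw [← hu, map_mul, Polynomial.toLaurent_X_pow, ← hβu, Polynomial.toLaurent_C]
    ring
  rw [hp] at h4
  have h5 : (T n * T (-n) : S) = 1 := by rw [← T_add, add_neg_cancel, T_zero]
  rw [sub_eq_add_neg, T_add]
  linear_combination (T (-(n : ℤ)) : S) * h4 - b * h5

lemma good_diag' (H : Hyp Q) {b e : S} {k : ℤ} (h : b * e = T k) : Good Q b 0 0 e := by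
  obtain ⟨β, m, hβ, rfl⟩ := unit_form h
  have h1 : Good Q (C β) 0 0 (C β⁻¹) :=
    (good_sl H β 0 0 β⁻¹ (by rw [mul_inv_cancel₀ hβ]; ring)).of_eq rfl C.map_zero C.map_zero rfl
  refine (((h1.mul (good_scal H m)).mul (good_diag H (k - 2 * m)))).of_eq (by ring) (by ring)
    (by ring) ?_
  have e1 : (C β * C β⁻¹ : S) = 1 := by rw [← C.map_mul, mul_inv_cancel₀ hβ, C.map_one]
  have e2 : (T m * T (-m) : S) = 1 := by rw [← T_add, add_neg_cancel, T_zero]
  have e3 : (T (k - 2 * m) : S) = T k * T (-m) * T (-m) := by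
    rw [← T_add, ← T_add]; congr 1; ring
  rw [e3, ← h]
  linear_combination e * (T m * T m * T (-m) * T (-m)) * e1 + e * (T m * T (-m) + 1) * e2

lemma good_low (H : Hyp Q) {b d e : S} {k : ℤ} (h : b * e = T k) : Good Q b 0 d e := by
  refine ((good_diag' H h).mul (good_e21 H (d * (b * T (-k))))).of_eq (by ring) (by ring) ?_
    (by ring)
  have e2 : (T k * T (-k) : S) = 1 := by rw [← T_add, add_neg_cancel, T_zero]
  linear_combination d * T (-k) * h + d * e2

open Polynomial in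
lemma good_poly (H : Hyp Q) (p q : ℚ[X]) : ∀ (u v : ℚ), u ≠ 0 → v ≠ 0 → ∀ (c d : S) (k : ℤ),
    (LaurentPolynomial.C u * toLaurent p) * d - (LaurentPolynomial.C v * toLaurent q) * c = T k →
    Good Q (LaurentPolynomial.C u * toLaurent p) (LaurentPolynomial.C v * toLaurent q) c d := by
  induction p, q using EuclideanDomain.GCD.induction with
  | H0 x =>
    intro u v _ _ c d k h
    have h1 : Good Q (LaurentPolynomial.C v * toLaurent x) 0 d (-c) := by
      refine good_low H (k := k) ?_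
      rw [← h, map_zero]
      ring
    refine (h1.mul (good_J' H)).of_eq ?_ (by ring) (by ring) (by ring)
    rw [map_zero]; ring
  | H1 a b ha ih =>
    intro u v hu hv c d k h
    set f : S := LaurentPolynomial.C (v * u⁻¹) * toLaurent (b / a) with hf
    have e0 : toLaurent b = toLaurent a * toLaurent (b / a) + toLaurent (b % a) := by
      rw [← map_mul, ← map_add, EuclideanDomain.div_add_mod]
    have e1 : (LaurentPolynomial.C u * f : S) = LaurentPolynomial.C v * toLaurent (b / a) := by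
      rw [hf, ← mul_assoc, ← LaurentPolynomial.C.map_mul]
      congr 2
      field_simp
    have h1 := ih v (-u) hv (neg_ne_zero.2 hu) (d - c * f) (-c) k (by
      rw [← h, e0, map_neg LaurentPolynomial.C]
      linear_combination (-(toLaurent a * c)) * e1)
    refine ((h1.mul (good_J' H)).mul (good_e12 H f)).of_eq ?_ ?_ (by ring) (by ring)
    · rw [map_neg LaurentPolynomial.C]; ring
    · rw [map_neg LaurentPolynomial.C, e0]
      linear_combination (toLaurent a) * e1

lemma good_all (H : Hyp Q) (a b c d : S) (h : ∃ k : ℤ, a * d - b * c = T k) :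
    Good Q a b c d := by
  obtain ⟨k, hk⟩ := h
  obtain ⟨n, p, hp⟩ := exists_T_pow a
  obtain ⟨n', q, hq⟩ := exists_T_pow b
  have h1 := good_poly H (p * Polynomial.X ^ n') (q * Polynomial.X ^ n) 1 1 one_ne_zero
    one_ne_zero (c * T (n + n')) (d * T (n + n')) (k + (n + n') + (n + n')) (by
      rw [T_add (k + _), T_add k, ← hk, C.map_one, map_mul, map_mul, hp, hq,
        Polynomial.toLaurent_X_pow, Polynomial.toLaurent_X_pow, T_add]
      ring)
  have e2 : (T (n + n') * T (-(n + n')) : S) = 1 := by rw [← T_add, add_neg_cancel, T_zero]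
  refine (h1.mul (good_scal H (-(n + n')))).of_eq ?_ ?_ ?_ ?_
  · rw [C.map_one, map_mul, map_mul, hp, hq, Polynomial.toLaurent_X_pow,
      Polynomial.toLaurent_X_pow]
    rw [T_add] at e2
    linear_combination a * e2
  · rw [C.map_one, map_mul, map_mul, hp, hq, Polynomial.toLaurent_X_pow,
      Polynomial.toLaurent_X_pow]
    rw [T_add] at e2
    linear_combination b * e2
  · linear_combination c * e2
  · linear_combination d * e2

end Euc

/-- every property of frames which holds for the standard frame and is inherited under the four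
moves holds for all frames -/
theorem frame_induction (Q : S × S → S × S → Prop) (h0 : Q (1, 0) (0, 1))
    (hsl : ∀ (b1 b2 : S × S) (a b c d : ℚ), IsFr b1 b2 → a * d - b * c = 1 → Q b1 b2 →
      Q ((C a : S) • b1 + (C c : S) • b2) ((C b : S) • b1 + (C d : S) • b2))
    (hr : ∀ b1 b2, IsFr b1 b2 → Q b1 b2 → Q b1 ((T 1 : S) • b2))
    (hl : ∀ b1 b2, IsFr b1 b2 → Q b1 b2 → Q b1 ((T (-1) : S) • b2))
    (hsh : ∀ b1 b2 (i : ℤ), IsFr b1 b2 → Q b1 b2 → Q ((T i : S) • b1) ((T i : S) • b2))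
    {b1 b2 : S × S} (hB : IsFr b1 b2) : Q b1 b2 := by
  have H : Euc.Hyp Q := ⟨hsl, hr, hl, hsh⟩
  obtain ⟨k, hk⟩ := hB
  have h1 := Euc.good_all H b1.1 b2.1 b1.2 b2.2 ⟨k, by rw [← hk, dt]; ring⟩
  have h2 := h1.2 (1, 0) (0, 1) ⟨0, by simp [dt]⟩ h0
  have e1 : b1.1 • ((1, 0) : S × S) + b1.2 • ((0, 1) : S × S) = b1 := by
    ext <;> simp
  have e2 : b2.1 • ((1, 0) : S × S) + b2.2 • ((0, 1) : S × S) = b2 := by
    ext <;> simp
  rw [e1, e2] at h2
  exact h2

end Pool.Agent.GE2
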