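import Pool.Agent.GE2.Defs

/-!
Two unimodular lattices in the rational plane: the Farey graph of one lattice outside a subgroup is
connected, and the theorem of Minkowski and Hajos in dimension two.
-/

set_option autoImplicit false

namespace Pool.Agent.GE2

lemma fmem_AQ {q : ℚ} : q ∈ AQ ↔ ∃ n : ℤ, (n : ℚ) = q := by
  unfold AQ
  rw [RingHom.mem_range]
  rfl

lemma dt_smul_left (c : ℚ) (x y : ℚ × ℚ) : dt (c • x) y = c * dt x y := by
  simp only [dt, Prod.smul_fst, Prod.smul_snd, smul_eq_mul]; ring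

lemma dt_smul_right (c : ℚ) (x y : ℚ × ℚ) : dt x (c • y) = c * dt x y := by
  simp only [dt, Prod.smul_fst, Prod.smul_snd, smul_eq_mul]; ring

lemma dt_add_left (x y z : ℚ × ℚ) : dt (x + y) z = dt x z + dt y z := by
  simp only [dt, Prod.fst_add, Prod.snd_add]; ring

lemma dt_add_right (x y z : ℚ × ℚ) : dt x (y + z) = dt x y + dt x z := by
  simp only [dt, Prod.fst_add, Prod.snd_add]; ring

lemma dt_neg_right (x y : ℚ × ℚ) : dt x (-y) = -dt x y := by
  simp only [dt, Prod.fst_neg, Prod.snd_neg]; ring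

lemma dt_neg_left (x y : ℚ × ℚ) : dt (-x) y = -dt x y := by
  simp only [dt, Prod.fst_neg, Prod.snd_neg]; ring

lemma dt_sub_right (x y z : ℚ × ℚ) : dt x (y - z) = dt x y - dt x z := by
  simp only [dt, Prod.fst_sub, Prod.snd_sub]; ring

lemma fdt_self (x : ℚ × ℚ) : dt x x = 0 := by
  simp only [dt]; ring

lemma fdt_swap (x y : ℚ × ℚ) : dt x y = -dt y x := by
  simp only [dt]; ring

lemma dt_decomp (x y z : ℚ × ℚ) (h : dt x y = 1) : z = dt z y • x + dt x z • y := by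
  have h1 : x.1 * y.2 - x.2 * y.1 = 1 := h
  ext
  · simp only [dt, Prod.fst_add, Prod.smul_fst, smul_eq_mul]
    linear_combination (-z.1) * h1
  · simp only [dt, Prod.snd_add, Prod.smul_snd, smul_eq_mul]
    linear_combination (-z.2) * h1

section uni

variable {E : Set (ℚ × ℚ)}

/-- coordinates of a unimodular lattice -/
lemma uni_basis (hE : Uni AQ E) : ∃ x y : ℚ × ℚ, dt x y = 1 ∧ x ∈ E ∧ y ∈ E ∧
    ∀ z, z ∈ E ↔ (dt z x ∈ AQ ∧ dt z y ∈ AQ) := by
  obtain ⟨x, y, h, rfl⟩ := hE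
  refine ⟨x, y, h, ?_, ?_, fun z => Iff.rfl⟩
  · refine ⟨?_, ?_⟩
    · rw [fdt_self]; exact AQ.zero_mem
    · rw [h]; exact AQ.one_mem
  · refine ⟨?_, ?_⟩
    · rw [fdt_swap, h]; exact AQ.neg_mem AQ.one_mem
    · rw [fdt_self]; exact AQ.zero_mem

lemma uni_add (hE : Uni AQ E) {u w : ℚ × ℚ} (hu : u ∈ E) (hw : w ∈ E) : u + w ∈ E := by
  obtain ⟨x, y, h, rfl⟩ := hE
  refine ⟨?_, ?_⟩
  · rw [dt_add_left]; exact AQ.add_mem hu.1 hw.1
  · rw [dt_add_left]; exact AQ.add_mem hu.2 hw.2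

lemma uni_neg (hE : Uni AQ E) {u : ℚ × ℚ} (hu : u ∈ E) : -u ∈ E := by
  obtain ⟨x, y, h, rfl⟩ := hE
  refine ⟨?_, ?_⟩
  · rw [dt_neg_left]; exact AQ.neg_mem hu.1
  · rw [dt_neg_left]; exact AQ.neg_mem hu.2

lemma uni_zero (hE : Uni AQ E) : (0 : ℚ × ℚ) ∈ E := by
  obtain ⟨x, y, h, rfl⟩ := hE
  refine ⟨?_, ?_⟩
  · simp only [dt, Prod.fst_zero, Prod.snd_zero, zero_mul, sub_zero]; exact AQ.zero_mem
  · simp only [dt, Prod.fst_zero, Prod.snd_zero, zero_mul, sub_zero]; exact AQ.zero_mem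

lemma uni_int_smul (hE : Uni AQ E) {u : ℚ × ℚ} (hu : u ∈ E) {q : ℚ} (hq : q ∈ AQ) :
    q • u ∈ E := by
  obtain ⟨x, y, h, rfl⟩ := hE
  refine ⟨?_, ?_⟩
  · rw [dt_smul_left]; exact AQ.mul_mem hq hu.1
  · rw [dt_smul_left]; exact AQ.mul_mem hq hu.2

lemma uni_dt (hE : Uni AQ E) {u w : ℚ × ℚ} (hu : u ∈ E) (hw : w ∈ E) : dt u w ∈ AQ := by
  obtain ⟨x, y, h, rfl⟩ := hE
  have e : dt u w = dt w y * dt u x - dt w x * dt u y := by
    have h1 := dt_decomp x y w h
    conv_lhs => rw [h1]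
    rw [dt_add_right, dt_smul_right, dt_smul_right, fdt_swap x w]
    ring
  rw [e]
  exact AQ.sub_mem (AQ.mul_mem hw.2 hu.1) (AQ.mul_mem hw.1 hu.2)

/-- `E` as a subgroup -/
def uniSub (hE : Uni AQ E) : AddSubgroup (ℚ × ℚ) where
  carrier := E
  add_mem' := fun h1 h2 => uni_add hE h1 h2
  zero_mem' := uni_zero hE
  neg_mem' := fun h => uni_neg hE h

lemma fprm_of_dt (hE : Uni AQ E) {u w : ℚ × ℚ} (hu : u ∈ E) (hw : w ∈ E)
    (h : dt u w = 1 ∨ dt u w = -1) : Prm E u := by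
  refine ⟨hu, fun q hq => ?_⟩
  have h1 := uni_dt hE hq hw
  rw [dt_smul_left] at h1
  rcases h with h | h
  · rw [h, mul_one] at h1; exact h1
  · rw [h, mul_neg, mul_one] at h1
    have := AQ.neg_mem h1
    rwa [neg_neg] at this

lemma fprm_of_dt' (hE : Uni AQ E) {u w : ℚ × ℚ} (hu : u ∈ E) (hw : w ∈ E)
    (h : dt u w = 1 ∨ dt u w = -1) : Prm E w := by
  refine fprm_of_dt hE hw hu ?_
  rw [fdt_swap w u]
  rcases h with h | h
  · right; rw [h]
  · left; rw [h, neg_neg]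

lemma Prm.ne_zero {u : ℚ × ℚ} (hu : Prm E u) : u ≠ 0 := by
  rintro rfl
  have h1 := hu.2 (1 / 2) (by rw [smul_zero]; exact hu.1)
  obtain ⟨n, hn⟩ := fmem_AQ.1 h1
  have h2 : (2 * n : ℚ) = 1 := by rw [hn]; norm_num
  have h3 : 2 * n = 1 := by exact_mod_cast h2
  omega

/-- Every nonzero vector has a primitive positive multiple. -/
lemma prim_mult (hE : Uni AQ E) {u : ℚ × ℚ} (hu : u ≠ 0) : ∃ c : ℚ, 0 < c ∧ Prm E (c • u) ∧
    ∃ e ∈ E, dt (c • u) e = 1 := by
  obtain ⟨x, y, h, hx, hy, hmem⟩ := uni_basis hE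
  set α := dt u y with hα
  set β := dt x u with hβ
  have hd := dt_decomp x y u h
  set D : ℤ := (α.den : ℤ) * β.den with hD
  have hD0 : 0 < D := by
    have h1 := α.den_pos
    have h2 := β.den_pos
    positivity
  set m : ℤ := α.num * β.den with hm
  set n : ℤ := β.num * α.den with hn
  have hmα : (m : ℚ) = D * α := by
    rw [hm, hD]
    push_cast
    have := Rat.mul_den_eq_num α
    rw [← this]; ring
  have hnβ : (n : ℚ) = D * β := by
    rw [hn, hD]
    push_cast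
    have := Rat.mul_den_eq_num β
    rw [← this]; ring
  have hmn : ¬ (m = 0 ∧ n = 0) := by
    rintro ⟨h1, h2⟩
    have hDq : (D : ℚ) ≠ 0 := by exact_mod_cast hD0.ne'
    have h3 : α = 0 := by
      have : (D : ℚ) * α = 0 := by rw [← hmα, h1]; norm_num
      exact (mul_eq_zero.1 this).resolve_left hDq
    have h4 : β = 0 := by
      have : (D : ℚ) * β = 0 := by rw [← hnβ, h2]; norm_num
      exact (mul_eq_zero.1 this).resolve_left hDq
    apply hu
    rw [hd, ← hα, ← hβ, h3, h4, zero_smul, zero_smul, add_zero]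
  set g : ℕ := Int.gcd m n with hg
  have hg0 : 0 < g := by
    rw [hg]
    rcases Nat.eq_zero_or_pos (Int.gcd m n) with h1 | h1
    · exact absurd (Int.gcd_eq_zero_iff.1 h1) hmn
    · exact h1
  obtain ⟨m', hm'⟩ : (g : ℤ) ∣ m := Int.gcd_dvd_left m n
  obtain ⟨n', hn'⟩ : (g : ℤ) ∣ n := Int.gcd_dvd_right m n
  have hbez : (g : ℤ) = m * Int.gcdA m n + n * Int.gcdB m n := Int.gcd_eq_gcd_ab m n
  set a := Int.gcdA m n
  set b := Int.gcdB m n
  have hbez' : m' * a + n' * b = 1 := by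
    have h1 : (g : ℤ) * (m' * a + n' * b) = g * 1 := by
      rw [mul_one]
      calc (g : ℤ) * (m' * a + n' * b) = (g * m') * a + (g * n') * b := by ring
        _ = m * a + n * b := by rw [← hm', ← hn']
        _ = g := hbez.symm
    exact mul_left_cancel₀ (by exact_mod_cast hg0.ne') h1
  have hgq : (0 : ℚ) < g := by exact_mod_cast hg0
  have hDq : (0 : ℚ) < D := by exact_mod_cast hD0
  set c : ℚ := D / g with hc
  have hc0 : 0 < c := div_pos hDq hgq
  have hcα : c * α = m' := by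
    rw [hc]
    field_simp
    rw [← hmα, hm']
    push_cast; ring
  have hcβ : c * β = n' := by
    rw [hc]
    field_simp
    rw [← hnβ, hn']
    push_cast; ring
  have hcu : c • u = (m' : ℚ) • x + (n' : ℚ) • y := by
    rw [← hcα, ← hcβ, mul_smul, mul_smul, ← smul_add, ← hd]
  have hcuE : c • u ∈ E := by
    rw [hcu]
    exact uni_add hE (uni_int_smul hE hx (fmem_AQ.2 ⟨m', rfl⟩))
      (uni_int_smul hE hy (fmem_AQ.2 ⟨n', rfl⟩))
  have heE : ((-b : ℤ) : ℚ) • x + (a : ℚ) • y ∈ E :=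
    uni_add hE (uni_int_smul hE hx (fmem_AQ.2 ⟨-b, rfl⟩))
      (uni_int_smul hE hy (fmem_AQ.2 ⟨a, rfl⟩))
  have hdt : dt (c • u) (((-b : ℤ) : ℚ) • x + (a : ℚ) • y) = 1 := by
    rw [hcu]
    have h1 : (m' : ℚ) * a + n' * b = 1 := by exact_mod_cast hbez'
    rw [dt_add_left, dt_smul_left, dt_smul_left, dt_add_right, dt_add_right, dt_smul_right,
      dt_smul_right, dt_smul_right, dt_smul_right, fdt_self, fdt_self, h, fdt_swap y x, h]
    push_cast
    linear_combination h1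
  exact ⟨c, hc0, fprm_of_dt hE hcuE heE (Or.inl hdt), _, heE, hdt⟩

/-- The unique positive scaling. -/
lemma prm_compl (hE : Uni AQ E) {u : ℚ × ℚ} (hu : Prm E u) : ∃ e ∈ E, dt u e = 1 := by
  obtain ⟨c, hc, h1, e, he, hd⟩ := prim_mult hE hu.ne_zero
  have h2 := hu.2 c h1.1
  have h3 := h1.2 c⁻¹ (by rw [smul_smul, inv_mul_cancel₀ hc.ne', one_smul]; exact hu.1)
  obtain ⟨m, hm⟩ := fmem_AQ.1 h2
  obtain ⟨n, hn⟩ := fmem_AQ.1 h3
  have h4 : m * n = 1 := by
    have : (m : ℚ) * n = 1 := by rw [hm, hn, mul_inv_cancel₀ hc.ne']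
    exact_mod_cast this
  have h5 : 0 < m := by
    have : (0 : ℚ) < m := by rw [hm]; exact hc
    exact_mod_cast this
  have h6 : m = 1 := by
    rcases Int.mul_eq_one_iff_eq_one_or_neg_one.1 h4 with ⟨h, _⟩ | ⟨h, _⟩
    · exact h
    · omega
  have h7 : c = 1 := by rw [← hm, h6]; norm_num
  rw [h7, one_smul] at hd
  exact ⟨e, he, hd⟩

end uni

/-- One step down in the Farey graph. -/
lemma farey_step {E : Set (ℚ × ℚ)} (hE : Uni AQ E) (B : AddSubgroup (ℚ × ℚ))
    {u w : ℚ × ℚ} (hu : Prm E u) (hw : Prm E w) (hwB : w ∉ B) {D : ℤ} (hD : dt u w = D)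
    (hD1 : 1 < |D|) : ∃ w' ∈ E, w' ∉ B ∧ (dt w w' = 1 ∨ dt w w' = -1) ∧
      ∃ D' : ℤ, dt u w' = D' ∧ |D'| < |D| := by
  obtain ⟨f, hf, hwf⟩ := prm_compl hE hw
  obtain ⟨r, hr⟩ := fmem_AQ.1 (uni_dt hE hu.1 hf)
  -- shift so that the determinant is between 0 and |D|
  set k : ℤ := -(r / D) with hk
  set f' : ℚ × ℚ := f + (k : ℚ) • w with hf'
  have hf'E : f' ∈ E := uni_add hE hf (uni_int_smul hE hw.1 (fmem_AQ.2 ⟨k, rfl⟩))
  have hD0 : D ≠ 0 := by
    rintro rfl
    simp at hD1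
  set s : ℤ := r % D with hs
  have hs0 : 0 ≤ s := Int.emod_nonneg _ hD0
  have hs1 : s < |D| := Int.emod_lt_abs _ hD0
  have huf' : dt u f' = s := by
    rw [hf', dt_add_right, dt_smul_right, hD, ← hr]
    have : r + k * D = s := by
      rw [hk, hs]
      have := Int.emod_def r D
      rw [this]; ring
    exact_mod_cast this
  have hwf' : dt w f' = 1 := by
    rw [hf', dt_add_right, dt_smul_right, fdt_self, hwf]; ring
  have hs2 : s ≠ 0 := by
    intro h0
    rw [h0] at huf'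
    -- then u divides f'
    have h1 := dt_decomp w f' u hwf'
    have h2 : dt u f' = 0 := by rw [huf']; norm_num
    rw [h2, zero_smul, zero_add] at h1
    -- u = (dt w u) f', so D is a unit
    obtain ⟨q, hq⟩ := fmem_AQ.1 (uni_dt hE hw.1 hu.1)
    have h3 : q = -D := by
      have : (q : ℚ) = -D := by rw [hq, fdt_swap, hD]
      exact_mod_cast this
    have h4 : ((q : ℚ))⁻¹ • u ∈ E := by
      rw [h1, ← hq, smul_smul, inv_mul_cancel₀, one_smul]
      · exact hf'E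
      · rw [h3]; push_cast
        intro h5
        apply hD0
        have : (D : ℚ) = 0 := by linarith
        exact_mod_cast this
    obtain ⟨z, hz⟩ := fmem_AQ.1 (hu.2 _ h4)
    have h5 : z * q = 1 := by
      have h6 : (z : ℚ) * q = 1 := by
        rw [hz, inv_mul_cancel₀]
        rw [h3]; push_cast
        intro h5
        apply hD0
        have : (D : ℚ) = 0 := by linarith
        exact_mod_cast this
      exact_mod_cast h6
    have h6 : |q| = 1 := by
      rcases Int.mul_eq_one_iff_eq_one_or_neg_one.1 h5 with ⟨_, h⟩ | ⟨_, h⟩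
      · rw [h]; norm_num
      · rw [h]; norm_num
    rw [h3, abs_neg] at h6
    omega
  have hs3 : 0 < s := by omega
  rcases lt_or_gt_of_ne hD0 with hneg | hpos
  · -- D < 0 : w = (w + f') + (-f')
    rw [abs_of_neg hneg] at hs1 ⊢
    by_cases hB : f' ∈ B
    · refine ⟨w + f', uni_add hE hw.1 hf'E, ?_, ?_, D + s, ?_, ?_⟩
      · intro h
        apply hwB
        have := B.sub_mem h hB
        rwa [add_sub_cancel_right] at this
      · left
        rw [dt_add_right, fdt_self, hwf', zero_add]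
      · rw [dt_add_right, hD, huf']; push_cast; ring
      · rw [abs_lt]; constructor <;> omega
    · refine ⟨f', hf'E, hB, Or.inl hwf', s, huf', ?_⟩
      rw [abs_of_pos hs3]; exact hs1
  · rw [abs_of_pos hpos] at hs1 ⊢
    by_cases hB : f' ∈ B
    · refine ⟨w - f', ?_, ?_, ?_, D - s, ?_, ?_⟩
      · rw [sub_eq_add_neg]; exact uni_add hE hw.1 (uni_neg hE hf'E)
      · intro h
        apply hwB
        have := B.add_mem h hB
        rwa [sub_add_cancel] at this
      · right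
        rw [dt_sub_right, fdt_self, hwf', zero_sub]
      · rw [dt_sub_right, hD, huf']; push_cast; ring
      · rw [abs_lt]; constructor <;> omega
    · refine ⟨f', hf'E, hB, Or.inl hwf', s, huf', ?_⟩
      rw [abs_of_pos hs3]; exact hs1

theorem farey {E : Set (ℚ × ℚ)} (hE : Uni AQ E) (B : AddSubgroup (ℚ × ℚ))
    (Rel : ℚ × ℚ → ℚ × ℚ → Prop) (hs : ∀ u w, Rel u w → Rel w u)
    (ht : ∀ u v w, Rel u v → Rel v w → Rel u w)
    (hadj : ∀ u w, u ∈ E → w ∈ E → dt u w = 1 → u ∉ B → w ∉ B → Rel u w)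
    {u w : ℚ × ℚ} (hu : Prm E u) (hw : Prm E w) (huB : u ∉ B) (hwB : w ∉ B) : Rel u w := by
  have hadj' : ∀ u w, u ∈ E → w ∈ E → (dt u w = 1 ∨ dt u w = -1) → u ∉ B → w ∉ B →
      Rel u w := by
    intro u w h1 h2 h3 h4 h5
    rcases h3 with h | h
    · exact hadj u w h1 h2 h h4 h5
    · exact hs _ _ (hadj w u h2 h1 (by rw [fdt_swap, h, neg_neg]) h5 h4)
  have key : ∀ n : ℕ, ∀ w : ℚ × ℚ, Prm E w → w ∉ B → ∀ D : ℤ, dt u w = D → D.natAbs = n →
      Rel u w := by
    intro n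
    induction n using Nat.strong_induction_on with
    | _ n ih =>
      intro w hw hwB D hD hn
      rcases Nat.lt_or_ge n 2 with h2 | h2
      · rcases Nat.lt_or_ge n 1 with h1 | h1
        · -- determinant zero
          have hD0 : D = 0 := by omega
          rw [hD0] at hD
          obtain ⟨e, he, hue⟩ := prm_compl hE hu
          have hd := dt_decomp u e w hue
          have hD' : dt u w = 0 := by rw [hD]; norm_num
          rw [hD', zero_smul, add_zero] at hd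
          obtain ⟨q, hq⟩ := fmem_AQ.1 (uni_dt hE hw.1 he)
          have hq0 : (q : ℚ) ≠ 0 := by
            intro h0
            apply hw.ne_zero
            rw [hd, ← hq, h0, zero_smul]
          have h4 : ((q : ℚ))⁻¹ • w ∈ E := by
            rw [hd, ← hq, smul_smul, inv_mul_cancel₀ hq0, one_smul]
            exact hu.1
          obtain ⟨z, hz⟩ := fmem_AQ.1 (hw.2 _ h4)
          have h5 : z * q = 1 := by
            have h6 : (z : ℚ) * q = 1 := by rw [hz, inv_mul_cancel₀ hq0]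
            exact_mod_cast h6
          have hq1 : q = 1 ∨ q = -1 := by
            rcases Int.mul_eq_one_iff_eq_one_or_neg_one.1 h5 with ⟨_, h⟩ | ⟨_, h⟩
            · exact Or.inl h
            · exact Or.inr h
          have hq1' : (q : ℚ) = 1 ∨ (q : ℚ) = -1 := by
            rcases hq1 with h | h
            · left; rw [h]; norm_num
            · right; rw [h]; norm_num
          -- an auxiliary vector
          have hex : ∃ e' ∈ E, e' ∉ B ∧ dt u e' = 1 := by
            by_cases hB : e ∈ B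
            · refine ⟨e + u, uni_add hE he hu.1, ?_, ?_⟩
              · intro h
                apply huB
                have := B.sub_mem h hB
                rwa [add_sub_cancel_left] at this
              · rw [dt_add_right, fdt_self, hue, add_zero]
            · exact ⟨e, he, hB, hue⟩
          obtain ⟨e', he', heB, hue'⟩ := hex
          refine ht u e' w (hadj' u e' hu.1 he' (Or.inl hue') huB heB)
            (hadj' e' w he' hw.1 ?_ heB hwB)
          rw [hd, dt_smul_right, fdt_swap e' u, hue', ← hq]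
          rcases hq1' with h | h
          · right; rw [h]; norm_num
          · left; rw [h]; norm_num
        · have hn1 : n = 1 := by omega
          rw [hn1] at hn
          refine hadj' u w hu.1 hw.1 ?_ huB hwB
          rw [hD]
          rcases Int.natAbs_eq D with h | h
          · left; rw [h, hn]; norm_num
          · right; rw [h, hn]; norm_num
      · obtain ⟨w', hw', hB', hdt, D', hD', hlt⟩ := farey_step hE B hu hw hwB hD (by
          rw [Int.abs_eq_natAbs, hn]; omega)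
        refine ht u w' w (ih D'.natAbs ?_ w' (fprm_of_dt' hE hw.1 hw' hdt) hB' D' hD' rfl)
          (hs _ _ (hadj' w w' hw.1 hw' hdt hwB hB'))
        rw [Int.abs_eq_natAbs, Int.abs_eq_natAbs] at hlt
        omega
  obtain ⟨D, hD⟩ := fmem_AQ.1 (uni_dt hE hu.1 hw.1)
  exact key D.natAbs w hw hwB D hD.symm rfl

/-- Half of the theorem of Minkowski and Hajos. -/
lemma mink_half {E' : Set (ℚ × ℚ)} (hE' : Uni AQ E') {u1 u2 : ℚ × ℚ} (h : dt u1 u2 = 1)
    (n2 : u2 ∉ E') : ∃ z ∈ E', z ≠ 0 ∧ |dt u2 z| < 1 ∧ |dt u1 z| ≤ 1 := by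
  have hu2 : u2 ≠ 0 := by
    rintro rfl
    exact n2 (uni_zero hE')
  obtain ⟨c, hc, hprm, e, he, hd⟩ := prim_mult hE' hu2
  rw [dt_smul_left] at hd
  -- `dt u2 e = 1 / c`
  rcases lt_trichotomy c 1 with h1 | h1 | h1
  · refine ⟨c • u2, hprm.1, hprm.ne_zero, ?_, ?_⟩
    · rw [dt_smul_right, fdt_self, mul_zero, abs_zero]; norm_num
    · rw [dt_smul_right, h, mul_one, abs_of_pos hc]; exact h1.le
  · exfalso
    apply n2
    rw [h1, one_smul] at hprm
    exact hprm.1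
  · -- Dirichlet
    set b : ℚ := dt u1 e with hb
    set n : ℕ := ⌈c⌉₊ - 1 with hn
    have hceil : 2 ≤ ⌈c⌉₊ := by
      have : 1 < ⌈c⌉₊ := Nat.lt_ceil.2 (by exact_mod_cast h1)
      omega
    have hn0 : 0 < n := by omega
    have hn1 : ((n : ℕ) : ℚ) + 1 = ⌈c⌉₊ := by
      have : n + 1 = ⌈c⌉₊ := by omega
      exact_mod_cast this
    have hnc : (n : ℚ) < c := by
      have h2 := Nat.ceil_lt_add_one hc.le
      linarith
    obtain ⟨j, k, hk0, hkn, habs⟩ := Real.exists_int_int_abs_mul_sub_le ((b / c : ℚ) : ℝ) hn0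
    have habs' : |(k : ℚ) * (b / c) - j| ≤ 1 / (n + 1) := by
      have h3 : ((|(k : ℚ) * (b / c) - j| : ℚ) : ℝ) ≤ ((1 / (n + 1) : ℚ) : ℝ) := by
        push_cast
        push_cast at habs
        exact habs
      exact_mod_cast h3
    have hk0q : (0 : ℚ) < k := by exact_mod_cast hk0
    have hknq : (k : ℚ) ≤ n := by exact_mod_cast hkn
    have he2 : dt u2 e = c⁻¹ := by
      field_simp
      linarith
    refine ⟨(k : ℚ) • e + ((-j : ℤ) : ℚ) • (c • u2), uni_add hE'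
      (uni_int_smul hE' he (fmem_AQ.2 ⟨k, rfl⟩)) (uni_int_smul hE' hprm.1 (fmem_AQ.2 ⟨-j, rfl⟩)),
      ?_, ?_, ?_⟩
    · intro h0
      have h4 : dt u2 ((k : ℚ) • e + ((-j : ℤ) : ℚ) • (c • u2)) = 0 := by
        rw [h0]; simp only [dt, Prod.fst_zero, Prod.snd_zero, mul_zero, sub_zero]
      rw [dt_add_right, dt_smul_right, dt_smul_right, dt_smul_right, fdt_self, he2, mul_zero,
        mul_zero, add_zero] at h4
      have : (0 : ℚ) < k * c⁻¹ := by positivity
      linarith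
    · rw [dt_add_right, dt_smul_right, dt_smul_right, dt_smul_right, fdt_self, he2, mul_zero,
        mul_zero, add_zero, abs_of_pos (by positivity)]
      rw [← div_eq_mul_inv, div_lt_one hc]
      linarith
    · rw [dt_add_right, dt_smul_right, dt_smul_right, dt_smul_right, h]
      have e5 : (k : ℚ) * dt u1 e + ((-j : ℤ) : ℚ) * (c * 1) = c * ((k : ℚ) * (b / c) - j) := by
        rw [← hb]
        push_cast
        field_simp
        ring
      rw [e5, abs_mul, abs_of_pos hc]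
      have h6 : c ≤ (n : ℚ) + 1 := by
        rw [hn1]; exact Nat.le_ceil c
      calc c * |(k : ℚ) * (b / c) - j| ≤ c * (1 / (n + 1)) :=
            mul_le_mul_of_nonneg_left habs' hc.le
        _ ≤ 1 := by
            rw [mul_one_div, div_le_one (by positivity)]
            exact h6

theorem mink {E' : Set (ℚ × ℚ)} (hE' : Uni AQ E') {u1 u2 : ℚ × ℚ} (h : dt u1 u2 = 1)
    (n1 : u1 ∉ E') (n2 : u2 ∉ E') :
    ∃ u' ∈ E', u' ≠ 0 ∧ |dt u1 u'| < 1 ∧ |dt u2 u'| < 1 := by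
  obtain ⟨z, hz, hz0, ha, hb⟩ := mink_half hE' h n2
  have h' : dt u2 (-u1) = 1 := by rw [dt_neg_right, fdt_swap, neg_neg, h]
  have n1' : -u1 ∉ E' := by
    intro h3
    have := uni_neg hE' h3
    rw [neg_neg] at this
    exact n1 this
  obtain ⟨z', hz', hz0', ha', hb'⟩ := mink_half hE' h' n1'
  rw [dt_neg_left, abs_neg] at ha'
  rcases hb.lt_or_eq with hb1 | hb1
  · exact ⟨z, hz, hz0, hb1, ha⟩
  rcases hb'.lt_or_eq with hb2 | hb2
  · exact ⟨z', hz', hz0', ha', hb2⟩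
  exfalso
  -- normalise signs
  have hs1 : ∃ y ∈ E', dt u1 y = 1 ∧ |dt u2 y| < 1 := by
    rcases (abs_eq (zero_le_one)).1 hb1 with h1 | h1
    · exact ⟨z, hz, h1, ha⟩
    · refine ⟨-z, uni_neg hE' hz, ?_, ?_⟩
      · rw [dt_neg_right, h1, neg_neg]
      · rw [dt_neg_right, abs_neg]; exact ha
  have hs2 : ∃ y ∈ E', dt u2 y = -1 ∧ |dt u1 y| < 1 := by
    rcases (abs_eq (zero_le_one)).1 hb2 with h1 | h1
    · refine ⟨-z', uni_neg hE' hz', ?_, ?_⟩
      · rw [dt_neg_right, h1]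
      · rw [dt_neg_right, abs_neg]; exact ha'
    · exact ⟨z', hz', h1, ha'⟩
  obtain ⟨y, hy, hy1, hy2⟩ := hs1
  obtain ⟨y', hy', hy1', hy2'⟩ := hs2
  -- y = x u1 + u2 with x = - dt u2 y ; y' = u1 + t u2 with t = dt u1 y'
  have e1 := dt_decomp u1 u2 y h
  have e2 := dt_decomp u1 u2 y' h
  rw [hy1, one_smul] at e1
  rw [fdt_swap y' u2, hy1', neg_neg, one_smul] at e2
  set x : ℚ := dt y u2 with hx
  set t : ℚ := dt u1 y' with ht
  have hxa : |x| < 1 := by
    rw [hx, fdt_swap, abs_neg]; exact hy2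
  obtain ⟨q, hq⟩ := fmem_AQ.1 (uni_dt hE' hy hy')
  have e3 : (q : ℚ) = x * t - 1 := by
    rw [hq]
    conv_lhs => rw [e1, e2]
    rw [dt_add_left, dt_add_right, dt_add_right, dt_smul_left, dt_smul_right, dt_smul_left,
      fdt_self, h, fdt_swap u2 u1, h, dt_smul_right, fdt_self]
    ring
  have hxt : |x * t| < 1 := by
    rw [abs_mul]
    calc |x| * |t| ≤ |x| * 1 := mul_le_mul_of_nonneg_left hy2'.le (abs_nonneg _)
      _ < 1 := by rw [mul_one]; exact hxa
  rw [abs_lt] at hxt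
  have hq1 : (-2 : ℚ) < q := by rw [e3]; linarith [hxt.1]
  have hq2 : (q : ℚ) < 0 := by rw [e3]; linarith [hxt.2]
  have hq1' : (-2 : ℤ) < q := by exact_mod_cast hq1
  have hq2' : q < 0 := by exact_mod_cast hq2
  have hq3 : q = -1 := by omega
  have hxt0 : x * t = 0 := by
    rw [hq3] at e3
    push_cast at e3
    linarith
  rcases mul_eq_zero.1 hxt0 with h0 | h0
  · apply n2
    rw [h0, zero_smul, zero_add] at e1
    rw [← e1]; exact hy
  · apply n1
    rw [h0, zero_smul, add_zero] at e2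
    rw [← e2]; exact hy'

/-- the basic step: a basis of `E` outside of `E'` -/
lemma main_step {E E' : Set (ℚ × ℚ)} (hE : Uni AQ E) (hE' : Uni AQ E')
    (Rel : ℚ × ℚ → ℚ × ℚ → Prop)
    (hpar : ∀ (u : ℚ × ℚ) (q : ℚ), u ≠ 0 → q ≠ 0 → Rel u (q • u))
    (hadj : ∀ u u', Prm E u → Prm E' u' → dt u u' ≠ 0 → |dt u u'| < 1 → Rel u u')
    {u1 u2 : ℚ × ℚ} (h1 : u1 ∈ E) (h2 : u2 ∈ E) (h : dt u1 u2 = 1) (n1 : u1 ∉ E')
    (n2 : u2 ∉ E') : ∃ u', Prm E' u' ∧ u' ∉ E ∧ Rel u1 u' ∧ Rel u2 u' := by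
  obtain ⟨z, hz, hz0, ha, hb⟩ := mink hE' h n1 n2
  obtain ⟨c, hc, hprm, -⟩ := prim_mult hE' hz0
  have hc1 : c ≤ 1 := by
    have h3 := hprm.2 c⁻¹ (by rw [smul_smul, inv_mul_cancel₀ hc.ne', one_smul]; exact hz)
    obtain ⟨n, hn⟩ := fmem_AQ.1 h3
    have h4 : (0 : ℚ) < n := by rw [hn]; positivity
    have h5 : 0 < n := by exact_mod_cast h4
    have h6 : (1 : ℚ) ≤ n := by exact_mod_cast h5
    rw [hn] at h6
    exact (one_le_inv₀ hc).1 h6
  set u' := c • z with hu'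
  have ha' : |dt u1 u'| < 1 := by
    rw [hu', dt_smul_right, abs_mul, abs_of_pos hc]
    calc c * |dt u1 z| ≤ 1 * |dt u1 z| := mul_le_mul_of_nonneg_right hc1 (abs_nonneg _)
      _ < 1 := by rw [one_mul]; exact ha
  have hb' : |dt u2 u'| < 1 := by
    rw [hu', dt_smul_right, abs_mul, abs_of_pos hc]
    calc c * |dt u2 z| ≤ 1 * |dt u2 z| := mul_le_mul_of_nonneg_right hc1 (abs_nonneg _)
      _ < 1 := by rw [one_mul]; exact hb
  have hd := dt_decomp u1 u2 u' h
  have hu'0 := hprm.ne_zero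
  have p1 : Prm E u1 := fprm_of_dt hE h1 h2 (Or.inl h)
  have p2 : Prm E u2 := fprm_of_dt' hE h1 h2 (Or.inl h)
  refine ⟨u', hprm, ?_, ?_, ?_⟩
  · intro hmem
    obtain ⟨m, hm⟩ := fmem_AQ.1 (uni_dt hE h1 hmem)
    obtain ⟨n, hn⟩ := fmem_AQ.1 (uni_dt hE h2 hmem)
    rw [← hm] at ha'
    rw [← hn] at hb'
    have ha2 : |m| < 1 := by exact_mod_cast ha'
    have hb2 : |n| < 1 := by exact_mod_cast hb'
    have hm0 : m = 0 := by
      rw [Int.abs_lt_one_iff] at ha2; exact ha2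
    have hn0 : n = 0 := by
      rw [Int.abs_lt_one_iff] at hb2; exact hb2
    apply hu'0
    rw [hd, fdt_swap u' u2, ← hm, ← hn, hm0, hn0]
    simp
  · by_cases h0 : dt u1 u' = 0
    · rw [h0, zero_smul, add_zero] at hd
      have hq : dt u' u2 ≠ 0 := by
        intro h3
        apply hu'0
        rw [hd, h3, zero_smul]
      rw [hd]
      exact hpar u1 _ p1.ne_zero hq
    · exact hadj u1 u' p1 hprm h0 ha'
  · by_cases h0 : dt u2 u' = 0
    · rw [fdt_swap u' u2, h0, neg_zero, zero_smul, zero_add] at hd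
      have hq : dt u1 u' ≠ 0 := by
        intro h3
        apply hu'0
        rw [hd, h3, zero_smul]
      rw [hd]
      exact hpar u2 _ p2.ne_zero hq
    · exact hadj u2 u' p2 hprm h0 hb'

/-- the directions of one of the lattices -/
lemma main_one {E E' : Set (ℚ × ℚ)} (hE : Uni AQ E) (hE' : Uni AQ E')
    (Rel : ℚ × ℚ → ℚ × ℚ → Prop) (hs : ∀ u w, Rel u w → Rel w u)
    (ht : ∀ u v w, Rel u v → Rel v w → Rel u w)
    (hpar : ∀ (u : ℚ × ℚ) (q : ℚ), u ≠ 0 → q ≠ 0 → Rel u (q • u))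
    (hadj : ∀ u u', Prm E u → Prm E' u' → dt u u' ≠ 0 → |dt u u'| < 1 → Rel u u')
    {u w : ℚ × ℚ} (hu : Prm E u) (hu' : u ∉ E') (hw : Prm E w) (hw' : w ∉ E') : Rel u w := by
  refine farey hE (uniSub hE') Rel hs ht ?_ hu hw hu' hw'
  intro u1 u2 h1 h2 h n1 n2
  obtain ⟨u', -, -, r1, r2⟩ := main_step hE hE' Rel hpar hadj h1 h2 h n1 n2
  exact ht _ _ _ r1 (hs _ _ r2)

/-- from one lattice to the other one -/
lemma main_cross {E E' : Set (ℚ × ℚ)} (hE : Uni AQ E) (hE' : Uni AQ E')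
    (Rel : ℚ × ℚ → ℚ × ℚ → Prop)
    (hpar : ∀ (u : ℚ × ℚ) (q : ℚ), u ≠ 0 → q ≠ 0 → Rel u (q • u))
    (hadj : ∀ u u', Prm E u → Prm E' u' → dt u u' ≠ 0 → |dt u u'| < 1 → Rel u u')
    {u : ℚ × ℚ} (hu : Prm E u) (hu' : u ∉ E') : ∃ u', Prm E' u' ∧ u' ∉ E ∧ Rel u u' := by
  obtain ⟨e, he, hue⟩ := prm_compl hE hu
  have hex : ∃ e' ∈ E, e' ∉ E' ∧ dt u e' = 1 := by
    by_cases hB : e ∈ E'
    · refine ⟨e + u, uni_add hE he hu.1, ?_, ?_⟩
      · intro h
        apply hu'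
        have := (uniSub hE').sub_mem h hB
        rwa [add_sub_cancel_left] at this
      · rw [dt_add_right, fdt_self, hue, add_zero]
    · exact ⟨e, he, hB, hue⟩
  obtain ⟨e', he', heB, hue'⟩ := hex
  obtain ⟨u', h1, h2, r1, -⟩ := main_step hE hE' Rel hpar hadj hu.1 he' hue' hu' heB
  exact ⟨u', h1, h2, r1⟩

theorem main_conn {E E' : Set (ℚ × ℚ)} (hE : Uni AQ E) (hE' : Uni AQ E')
    (Rel : ℚ × ℚ → ℚ × ℚ → Prop) (hs : ∀ u w, Rel u w → Rel w u)
    (ht : ∀ u v w, Rel u v → Rel v w → Rel u w)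
    (hpar : ∀ (u : ℚ × ℚ) (q : ℚ), u ≠ 0 → q ≠ 0 → Rel u (q • u))
    (hadj : ∀ u u', Prm E u → Prm E' u' → dt u u' ≠ 0 → |dt u u'| < 1 → Rel u u')
    {u w : ℚ × ℚ} (hu : (Prm E u ∧ u ∉ E') ∨ (Prm E' u ∧ u ∉ E))
    (hw : (Prm E w ∧ w ∉ E') ∨ (Prm E' w ∧ w ∉ E)) : Rel u w := by
  have hadj' : ∀ u u', Prm E' u → Prm E u' → dt u u' ≠ 0 → |dt u u'| < 1 → Rel u u' := by
    intro a b ha hb h0 h1
    refine hs _ _ (hadj b a hb ha ?_ ?_)
    · intro h
      apply h0
      rw [fdt_swap, h, neg_zero]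
    · rw [fdt_swap, abs_neg]; exact h1
  rcases hu with ⟨hu, hu'⟩ | ⟨hu, hu'⟩
  · rcases hw with ⟨hw, hw'⟩ | ⟨hw, hw'⟩
    · exact main_one hE hE' Rel hs ht hpar hadj hu hu' hw hw'
    · obtain ⟨v, hv, hv', r⟩ := main_cross hE hE' Rel hpar hadj hu hu'
      exact ht _ _ _ r (main_one hE' hE Rel hs ht hpar hadj' hv hv' hw hw')
  · rcases hw with ⟨hw, hw'⟩ | ⟨hw, hw'⟩
    · obtain ⟨v, hv, hv', r⟩ := main_cross hE' hE Rel hpar hadj' hu hu'
      exact ht _ _ _ r (main_one hE hE' Rel hs ht hpar hadj hv hv' hw hw')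
    · exact main_one hE' hE Rel hs ht hpar hadj' hu hu' hw hw'

end Pool.Agent.GE2
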