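import Pool.Agent.GE2.Defs

set_option autoImplicit false

namespace Pool.Agent.GE2

open LaurentPolynomial

/-- the generators in the frozen statement -/
def gens : Set (Matrix.GeneralLinearGroup (Fin 2) (LaurentPolynomial ℤ)) :=
  {g | (∃ i j : Fin 2, ∃ c : LaurentPolynomial ℤ, i ≠ j ∧
            (g : Matrix (Fin 2) (Fin 2) (LaurentPolynomial ℤ)) = Matrix.transvection i j c) ∨
        (∃ d : Fin 2 → (LaurentPolynomial ℤ)ˣ,
            (g : Matrix (Fin 2) (Fin 2) (LaurentPolynomial ℤ)) =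
              Matrix.diagonal (fun k => (d k : LaurentPolynomial ℤ)))}

theorem fin_iota_T (k : ℤ) : iota (T k) = T k := by
  unfold iota T
  rw [AddMonoidAlgebra.mapRingHom_single, map_one]

theorem fin_iota_inj : Function.Injective iota := by
  intro a b h
  apply LaurentPolynomial.ext
  intro n
  have h2 : (iota a).coeff n = (iota b).coeff n := by rw [h]
  simp only [iota, AddMonoidAlgebra.coeff_mapRingHom] at h2
  simpa using h2

theorem fin_iota_int (m : ℤ) : iota (m : R) = C (m : ℚ) := by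
  rw [map_intCast, map_intCast]

/-- the first column -/
noncomputable def fcol (g : Matrix.GeneralLinearGroup (Fin 2) (LaurentPolynomial ℤ)) : S × S :=
  (iota (g.val 0 0), iota (g.val 1 0))

theorem fin_mem_transv {i j : Fin 2} (hij : i ≠ j) (c : LaurentPolynomial ℤ)
    (g : Matrix.GeneralLinearGroup (Fin 2) (LaurentPolynomial ℤ))
    (hg : (g : Matrix (Fin 2) (Fin 2) (LaurentPolynomial ℤ)) = Matrix.transvection i j c) :
    g ∈ Subgroup.closure gens :=
  Subgroup.subset_closure (Or.inl ⟨i, j, c, hij, hg⟩)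

theorem fin_mem_diag (d : Fin 2 → (LaurentPolynomial ℤ)ˣ)
    (g : Matrix.GeneralLinearGroup (Fin 2) (LaurentPolynomial ℤ))
    (hg : (g : Matrix (Fin 2) (Fin 2) (LaurentPolynomial ℤ)) =
      Matrix.diagonal (fun k => (d k : LaurentPolynomial ℤ))) :
    g ∈ Subgroup.closure gens :=
  Subgroup.subset_closure (Or.inr ⟨d, hg⟩)

/-- elementary matrices as elements of the group -/
noncomputable def fel (i j : Fin 2) (hij : i ≠ j) (c : LaurentPolynomial ℤ) :
    Matrix.GeneralLinearGroup (Fin 2) (LaurentPolynomial ℤ) where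
  val := Matrix.transvection i j c
  inv := Matrix.transvection i j (-c)
  val_inv := by rw [Matrix.transvection_mul_transvection_same i j hij]; simp
  inv_val := by rw [Matrix.transvection_mul_transvection_same i j hij]; simp

theorem fel_mem (i j : Fin 2) (hij : i ≠ j) (c : LaurentPolynomial ℤ) :
    fel i j hij c ∈ Subgroup.closure gens := fin_mem_transv hij c _ rfl

/-- diagonal matrices as elements of the group -/
noncomputable def fdi (d : Fin 2 → (LaurentPolynomial ℤ)ˣ) :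
    Matrix.GeneralLinearGroup (Fin 2) (LaurentPolynomial ℤ) where
  val := Matrix.diagonal (fun k => (d k : LaurentPolynomial ℤ))
  inv := Matrix.diagonal (fun k => ((d k)⁻¹ : (LaurentPolynomial ℤ)ˣ).val)
  val_inv := by rw [Matrix.diagonal_mul_diagonal]; simp
  inv_val := by rw [Matrix.diagonal_mul_diagonal]; simp

theorem fdi_mem (d : Fin 2 → (LaurentPolynomial ℤ)ˣ) : fdi d ∈ Subgroup.closure gens :=
  fin_mem_diag d _ rfl

/-- upper triangular matrices -/
theorem fin_upper (g : Matrix.GeneralLinearGroup (Fin 2) (LaurentPolynomial ℤ))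
    (h : g.val 1 0 = 0) : g ∈ Subgroup.closure gens := by
  have hdet : IsUnit (g.val.det) := (Matrix.isUnit_iff_isUnit_det _).1 g.isUnit
  rw [Matrix.det_fin_two, h, mul_zero, sub_zero] at hdet
  obtain ⟨u0, hu0⟩ := isUnit_of_mul_isUnit_left hdet
  obtain ⟨u1, hu1⟩ := isUnit_of_mul_isUnit_right hdet
  have e : g = fdi ![u0, u1] * fel 0 1 (by decide) ((u0⁻¹ : (LaurentPolynomial ℤ)ˣ).val * g.val 0 1) := by
    apply Units.ext
    ext i j
    fin_cases i <;> fin_cases j
    · simp [fdi, fel, Matrix.mul_apply, Fin.sum_univ_two, Matrix.transvection, Matrix.single, hu0]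
    · simp [fdi, fel, Matrix.mul_apply, Fin.sum_univ_two, Matrix.transvection, Matrix.single]
    · simp [fdi, fel, Matrix.mul_apply, Fin.sum_univ_two, Matrix.transvection, Matrix.single, h]
    · simp [fdi, fel, Matrix.mul_apply, Fin.sum_univ_two, Matrix.transvection, Matrix.single, hu1]
  rw [e]
  exact mul_mem (fdi_mem _) (fel_mem _ _ _ _)

/-- integral unimodular columns -/
def FPP (m n : ℤ) : Prop := ∃ γ ∈ Subgroup.closure gens, γ.val 0 0 = (m : R) ∧ γ.val 1 0 = (n : R)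

theorem FPP_one : FPP 1 0 := ⟨1, one_mem _, by simp, by simp⟩

theorem FPP_add1 {m n : ℤ} (k : ℤ) (h : FPP m n) : FPP (m + k * n) n := by
  obtain ⟨γ, hγ, h0, h1⟩ := h
  refine ⟨fel 0 1 (by decide) (k : R) * γ, mul_mem (fel_mem _ _ _ _) hγ, ?_, ?_⟩
  · simp [fel, Matrix.mul_apply, Fin.sum_univ_two, Matrix.transvection, Matrix.single, h0, h1]
  · simp [fel, Matrix.mul_apply, Fin.sum_univ_two, Matrix.transvection, Matrix.single, h1]

theorem FPP_add2 {m n : ℤ} (k : ℤ) (h : FPP m n) : FPP m (n + k * m) := by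
  obtain ⟨γ, hγ, h0, h1⟩ := h
  refine ⟨fel 1 0 (by decide) (k : R) * γ, mul_mem (fel_mem _ _ _ _) hγ, ?_, ?_⟩
  · simp [fel, Matrix.mul_apply, Fin.sum_univ_two, Matrix.transvection, Matrix.single, h0]
  · simp [fel, Matrix.mul_apply, Fin.sum_univ_two, Matrix.transvection, Matrix.single, h0, h1,
      add_comm]

theorem FPP_neg {m n : ℤ} (h : FPP m n) : FPP (-m) n := by
  obtain ⟨γ, hγ, h0, h1⟩ := h
  refine ⟨fdi ![-1, 1] * γ, mul_mem (fdi_mem _) hγ, ?_, ?_⟩
  · simp [fdi, Matrix.mul_apply, Fin.sum_univ_two, h0]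
  · simp [fdi, Matrix.mul_apply, Fin.sum_univ_two, h1]

theorem FPP_swap {m n : ℤ} (h : FPP n (-m)) : FPP m n := by
  have h1 := FPP_add1 (-1) h
  have h2 := FPP_add2 1 h1
  have h3 := FPP_add1 (-1) h2
  have e1 : n + -1 * -m + -1 * (-m + 1 * (n + -1 * -m)) = m := by ring
  have e2 : -m + 1 * (n + -1 * -m) = n := by ring
  rw [e1, e2] at h3
  exact h3

theorem FPP_of_coprime : ∀ (N : ℕ) (m n : ℤ), n.natAbs ≤ N → IsCoprime m n → FPP m n := by
  intro N
  induction N with
  | zero =>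
    intro m n hn hc
    have hn0 : n = 0 := by omega
    subst hn0
    have hu : IsUnit m := isCoprime_zero_right.1 hc
    rcases Int.isUnit_iff.1 hu with rfl | rfl
    · exact FPP_one
    · exact FPP_neg FPP_one
  | succ N ih =>
    intro m n hn hc
    by_cases hn0 : n = 0
    · subst hn0
      exact ih m 0 (by simp) hc
    apply FPP_swap
    have hr : (-(m % n)).natAbs ≤ N := by
      have h1 : 0 ≤ m % n := Int.emod_nonneg _ hn0
      have h2 : m % n < |n| := Int.emod_lt_abs _ hn0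
      rw [Int.abs_eq_natAbs] at h2
      omega
    have hc2 : IsCoprime n (-(m % n)) := by
      have h3 : IsCoprime n (m % n) := by
        have h4 : IsCoprime n m := hc.symm
        have h5 : m % n = m + n * (-(m / n)) := by
          have := Int.emod_add_mul_ediv m n
          linarith
        rw [h5]
        exact h4.add_mul_left_right _
      exact h3.neg_right
    have h6 := FPP_add2 (-(m / n)) (ih n (-(m % n)) hr hc2)
    have h7 : -(m % n) + -(m / n) * n = -m := by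
      have := Int.emod_add_mul_ediv m n
      linarith
    rw [h7] at h6
    exact h6

/-- a nonzero rational vector is a multiple of a coprime integral vector -/
theorem fin_coprime (p q : ℚ) (h : p ≠ 0 ∨ q ≠ 0) :
    ∃ (r : ℚ) (m n : ℤ), r ≠ 0 ∧ IsCoprime m n ∧ p = r * m ∧ q = r * n := by
  have hpd : (p.den : ℚ) ≠ 0 := by exact_mod_cast p.den_nz
  have hqd : (q.den : ℚ) ≠ 0 := by exact_mod_cast q.den_nz
  have hp : p * p.den = p.num := Rat.mul_den_eq_num p
  have hq : q * q.den = q.num := Rat.mul_den_eq_num q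
  have hab : 0 < Int.gcd (p.num * q.den) (q.num * p.den) := by
    rw [Int.gcd_pos_iff]
    rcases h with h | h
    · left
      exact mul_ne_zero (Rat.num_ne_zero.2 h) (by exact_mod_cast q.den_nz)
    · right
      exact mul_ne_zero (Rat.num_ne_zero.2 h) (by exact_mod_cast p.den_nz)
  obtain ⟨m, n, hmn, h1, h2⟩ := Int.exists_gcd_one hab
  have hg : ((Int.gcd (p.num * q.den) (q.num * p.den) : ℤ) : ℚ) ≠ 0 := by
    exact_mod_cast hab.ne'
  refine ⟨((Int.gcd (p.num * q.den) (q.num * p.den) : ℤ) : ℚ) / (p.den * q.den), m, n,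
    div_ne_zero hg (mul_ne_zero hpd hqd), Int.isCoprime_iff_gcd_eq_one.2 hmn, ?_, ?_⟩
  · have h3 : ((p.num * q.den : ℤ) : ℚ) = m * ((Int.gcd (p.num * q.den) (q.num * p.den) : ℤ) : ℚ) := by
      exact_mod_cast h1
    push_cast at h3
    rw [← hp] at h3
    field_simp
    field_simp at h3
    push_cast
    linarith
  · have h3 : ((q.num * p.den : ℤ) : ℚ) = n * ((Int.gcd (p.num * q.den) (q.num * p.den) : ℤ) : ℚ) := by
      exact_mod_cast h2
    push_cast at h3
    rw [← hq] at h3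
    field_simp
    field_simp at h3
    push_cast
    linarith

theorem fin_mem_of_fcol (g h : Matrix.GeneralLinearGroup (Fin 2) (LaurentPolynomial ℤ))
    (hh : h ∈ Subgroup.closure gens) (u : S) (e : fcol g = u • fcol h) :
    g ∈ Subgroup.closure gens := by
  have e0 : iota (g.val 0 0) = u * iota (h.val 0 0) := by
    have := congrArg Prod.fst e
    simpa [fcol] using this
  have e1 : iota (g.val 1 0) = u * iota (h.val 1 0) := by
    have := congrArg Prod.snd e
    simpa [fcol] using this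
  have hinv : (h⁻¹).val 1 0 * h.val 0 0 + (h⁻¹).val 1 1 * h.val 1 0 = 0 := by
    have h1 : (h⁻¹ * h).val 1 0 = 0 := by simp
    rw [Units.val_mul, Matrix.mul_apply, Fin.sum_univ_two] at h1
    exact h1
  have hk : (h⁻¹ * g).val 1 0 = 0 := by
    apply fin_iota_inj
    rw [Units.val_mul, Matrix.mul_apply, Fin.sum_univ_two, map_add, map_mul, map_mul, e0, e1]
    have h2 : iota ((h⁻¹).val 1 0) * (u * iota (h.val 0 0)) + iota ((h⁻¹).val 1 1) * (u * iota (h.val 1 0))
        = u * iota ((h⁻¹).val 1 0 * h.val 0 0 + (h⁻¹).val 1 1 * h.val 1 0) := by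
      rw [map_add, map_mul, map_mul]
      ring
    rw [h2, hinv, map_zero, mul_zero]
  have h3 : g = h * (h⁻¹ * g) := by group
  rw [h3]
  exact mul_mem hh (fin_upper _ hk)

theorem fin_T_mem_AS (k : ℤ) : (T k : S) ∈ AS := ⟨T k, fin_iota_T k⟩

theorem fin_uni_lat {b1 b2 : S × S} (h : IsFr b1 b2) : Uni AS (Lat b1 b2 : Set (S × S)) := by
  obtain ⟨k, hk⟩ := h
  unfold dt at hk
  have hT : (T (-k) : S) * T k = 1 := by rw [← T_add]; simp
  refine ⟨(T (-k) * (-b2.1), T (-k) * b1.1), (-b2.2, b1.2), ?_, ?_⟩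
  · show T (-k) * (-b2.1) * b1.2 - T (-k) * b1.1 * (-b2.2) = 1
    rw [← hT, ← hk]
    ring
  · ext z
    have e1 : (z.1 • b1 + z.2 • b2).1 = T k * dt z (T (-k) * (-b2.1), T (-k) * b1.1) := by
      show z.1 * b1.1 + z.2 * b2.1 = T k * (z.1 * (T (-k) * b1.1) - z.2 * (T (-k) * (-b2.1)))
      have : T k * (z.1 * (T (-k) * b1.1) - z.2 * (T (-k) * (-b2.1)))
        = (T (-k) * T k) * (z.1 * b1.1 + z.2 * b2.1) := by ring
      rw [this, hT, one_mul]
    have e2 : dt z (T (-k) * (-b2.1), T (-k) * b1.1) = T (-k) * (z.1 • b1 + z.2 • b2).1 := by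
      rw [e1, ← mul_assoc, hT, one_mul]
    have e3 : (z.1 • b1 + z.2 • b2).2 = dt z (-b2.2, b1.2) := by
      show z.1 * b1.2 + z.2 * b2.2 = z.1 * b1.2 - z.2 * (-b2.2)
      ring
    constructor
    · rintro ⟨h1, h2⟩
      refine ⟨?_, ?_⟩
      · rw [e2]
        exact AS.mul_mem (fin_T_mem_AS _) h1
      · rw [← e3]
        exact h2
    · rintro ⟨h1, h2⟩
      refine ⟨?_, ?_⟩
      · rw [e1]
        exact AS.mul_mem (fin_T_mem_AS _) h1
      · rw [e3]
        exact h2

theorem fin_frame {b1 b2 : S × S} (hB : IsFr b1 b2)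
    (hU : Uni AQ (M0 (Lat b1 b2 : Set (S × S))))
    (hM : ∀ m ∈ M0 (Lat b1 b2 : Set (S × S)), m ∈ Mc (Lat b1 b2 : Set (S × S))) :
    ∃ g' : Matrix.GeneralLinearGroup (Fin 2) (LaurentPolynomial ℤ), ∀ v : S × S, OnFr b1 b2 v →
      ∃ γ ∈ Subgroup.closure gens, ∃ (r : ℚ) (i : ℤ), r ≠ 0 ∧ v = (T i * C r : S) • fcol (g' * γ) := by
  obtain ⟨x, y, hxy, hE⟩ := hU
  have hx : x ∈ Mc (Lat b1 b2 : Set (S × S)) := by
    apply hM
    rw [hE]
    refine ⟨?_, ?_⟩
    · have : dt x x = 0 := by unfold dt; ring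
      rw [this]
      exact AQ.zero_mem
    · rw [hxy]
      exact AQ.one_mem
  have hy : y ∈ Mc (Lat b1 b2 : Set (S × S)) := by
    apply hM
    rw [hE]
    refine ⟨?_, ?_⟩
    · have : dt y x = -(dt x y) := by unfold dt; ring
      rw [this, hxy]
      exact AQ.neg_mem AQ.one_mem
    · have : dt y y = 0 := by unfold dt; ring
      rw [this]
      exact AQ.zero_mem
  obtain ⟨⟨a00, h00⟩, ⟨a10, h10⟩⟩ := hx
  obtain ⟨⟨a01, h01⟩, ⟨a11, h11⟩⟩ := hy
  have h00' : iota a00 = C x.1 * b1.1 + C x.2 * b2.1 := h00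
  have h10' : iota a10 = C x.1 * b1.2 + C x.2 * b2.2 := h10
  have h01' : iota a01 = C y.1 * b1.1 + C y.2 * b2.1 := h01
  have h11' : iota a11 = C y.1 * b1.2 + C y.2 * b2.2 := h11
  obtain ⟨k, hk⟩ := hB
  unfold dt at hk hxy
  have hCxy : (C x.1 * C y.2 - C x.2 * C y.1 : S) = 1 := by
    rw [← map_mul, ← map_mul, ← map_sub, hxy, map_one]
  have hdet : a00 * a11 - a01 * a10 = T k := by
    apply fin_iota_inj
    rw [fin_iota_T, map_sub, map_mul, map_mul, h00', h10', h01', h11']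
    have : (C x.1 * b1.1 + C x.2 * b2.1) * (C y.1 * b1.2 + C y.2 * b2.2)
        - (C y.1 * b1.1 + C y.2 * b2.1) * (C x.1 * b1.2 + C x.2 * b2.2)
        = (C x.1 * C y.2 - C x.2 * C y.1) * (b1.1 * b2.2 - b1.2 * b2.1) := by ring
    rw [this, hCxy, hk, one_mul]
  have hunit : IsUnit (!![a00, a01; a10, a11]).det := by
    rw [Matrix.det_fin_two_of, hdet]
    exact isUnit_T k
  refine ⟨Matrix.GeneralLinearGroup.mk'' !![a00, a01; a10, a11] hunit, ?_⟩
  rintro v ⟨i, p, q, hpq, hv⟩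
  have hne : p * y.2 - q * y.1 ≠ 0 ∨ -p * x.2 + q * x.1 ≠ 0 := by
    by_contra hcon
    push Not at hcon
    obtain ⟨c1, c2⟩ := hcon
    have hp : p = x.1 * (p * y.2 - q * y.1) + y.1 * (-p * x.2 + q * x.1) := by
      linear_combination (-p) * hxy
    have hq : q = x.2 * (p * y.2 - q * y.1) + y.2 * (-p * x.2 + q * x.1) := by
      linear_combination (-q) * hxy
    rw [c1, c2] at hp hq
    simp at hp hq
    rcases hpq with h | h
    · exact h hp
    · exact h hq
  obtain ⟨r, m, n, hr, hmn, e1, e2⟩ := fin_coprime _ _ hne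
  obtain ⟨γ, hγ, g0, g1⟩ := FPP_of_coprime _ m n le_rfl hmn
  refine ⟨γ, hγ, r, i, hr, ?_⟩
  have hp : p = r * (x.1 * m + y.1 * n) := by
    linear_combination (-p) * hxy + x.1 * e1 + y.1 * e2
  have hq : q = r * (x.2 * m + y.2 * n) := by
    linear_combination (-q) * hxy + x.2 * e1 + y.2 * e2
  have hmC : iota (γ.val 0 0) = C (m : ℚ) := by rw [g0, fin_iota_int]
  have hnC : iota (γ.val 1 0) = C (n : ℚ) := by rw [g1, fin_iota_int]
  rw [hv, hp, hq]
  unfold fcol
  rw [Units.val_mul, Matrix.mul_apply, Matrix.mul_apply, Fin.sum_univ_two, Fin.sum_univ_two]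
  have m00 : (Matrix.GeneralLinearGroup.mk'' !![a00, a01; a10, a11] hunit).val 0 0 = a00 := rfl
  have m01 : (Matrix.GeneralLinearGroup.mk'' !![a00, a01; a10, a11] hunit).val 0 1 = a01 := rfl
  have m10 : (Matrix.GeneralLinearGroup.mk'' !![a00, a01; a10, a11] hunit).val 1 0 = a10 := rfl
  have m11 : (Matrix.GeneralLinearGroup.mk'' !![a00, a01; a10, a11] hunit).val 1 1 = a11 := rfl
  rw [m00, m01, m10, m11]
  have k1 : iota (a00 * γ.val 0 0 + a01 * γ.val 1 0)
      = (C x.1 * b1.1 + C x.2 * b2.1) * C (m : ℚ) + (C y.1 * b1.1 + C y.2 * b2.1) * C (n : ℚ) := by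
    rw [map_add iota, map_mul iota, map_mul iota, hmC, hnC, h00', h01']
  have k2 : iota (a10 * γ.val 0 0 + a11 * γ.val 1 0)
      = (C x.1 * b1.2 + C x.2 * b2.2) * C (m : ℚ) + (C y.1 * b1.2 + C y.2 * b2.2) * C (n : ℚ) := by
    rw [map_add iota, map_mul iota, map_mul iota, hmC, hnC, h10', h11']
  rw [k1, k2]
  apply Prod.ext
  · show T i * C (r * (x.1 * m + y.1 * n)) * b1.1 + T i * C (r * (x.2 * m + y.2 * n)) * b2.1
      = T i * C r * ((C x.1 * b1.1 + C x.2 * b2.1) * C (m : ℚ) + (C y.1 * b1.1 + C y.2 * b2.1) * C (n : ℚ))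
    simp only [map_mul, map_add]
    ring
  · show T i * C (r * (x.1 * m + y.1 * n)) * b1.2 + T i * C (r * (x.2 * m + y.2 * n)) * b2.2
      = T i * C r * ((C x.1 * b1.2 + C x.2 * b2.2) * C (m : ℚ) + (C y.1 * b1.2 + C y.2 * b2.2) * C (n : ℚ))
    simp only [map_mul, map_add]
    ring

/-- vectors on the line of the first column of a product of generators -/
def FQG (v : S × S) : Prop :=
  ∃ h ∈ Subgroup.closure gens, ∃ (q : ℚ) (i : ℤ), q ≠ 0 ∧ v = (T i * C q : S) • fcol h

theorem FQG_step (hlev : ∀ b1 b2 : S × S, IsFr b1 b2 → lev b1 b2 ≠ 0)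
    (hM : ∀ L : Set (S × S), Uni AS L → Uni AQ (M0 L))
    (hone : ∀ b1 b2 : S × S, IsFr b1 b2 → lev b1 b2 = 1 →
      ∀ m ∈ M0 (Lat b1 b2 : Set (S × S)), m ∈ Mc (Lat b1 b2 : Set (S × S)))
    {v w : S × S} (h : Stp 2 v w) (hv : FQG v) : FQG w := by
  obtain ⟨b1, b2, hB, hl, ov, ow⟩ := h
  have hl1 : lev b1 b2 = 1 := by
    have := hlev b1 b2 hB
    omega
  obtain ⟨g', hg'⟩ := fin_frame hB (hM _ (fin_uni_lat hB)) (hone b1 b2 hB hl1)
  obtain ⟨γ, hγ, r, i, hr, e⟩ := hg' v ov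
  obtain ⟨γ', hγ', r', i', hr', e'⟩ := hg' w ow
  obtain ⟨h, hh, q, j, hq, e2⟩ := hv
  have hg1 : g' * γ ∈ Subgroup.closure gens := by
    refine fin_mem_of_fcol (g' * γ) h hh (T (j - i) * C (q / r)) ?_
    have h1 : (T i * C r : S) • fcol (g' * γ) = (T j * C q : S) • fcol h := by rw [← e, ← e2]
    have h2 : (T (-i) * C r⁻¹ : S) * (T i * C r) = 1 := by
      have a1 : (T (-i) : S) * T i = 1 := by rw [← T_add]; simp
      have a2 : (C r⁻¹ : S) * C r = 1 := by rw [← map_mul, inv_mul_cancel₀ hr, map_one]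
      calc (T (-i) * C r⁻¹ : S) * (T i * C r) = (T (-i) * T i) * (C r⁻¹ * C r) := by ring
        _ = 1 := by rw [a1, a2, one_mul]
    have h3 : fcol (g' * γ) = ((T (-i) * C r⁻¹ : S) * (T i * C r)) • fcol (g' * γ) := by
      rw [h2, one_smul]
    rw [h3, mul_smul, h1, smul_smul]
    have h4 : (T (-i) * C r⁻¹ : S) * (T j * C q) = T (j - i) * C (q / r) := by
      rw [T_sub, div_eq_mul_inv, map_mul]
      ring
    rw [h4]
  have hg2 : g' ∈ Subgroup.closure gens := by
    have : g' = (g' * γ) * γ⁻¹ := by group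
    rw [this]
    exact mul_mem hg1 (inv_mem hγ)
  exact ⟨g' * γ', mul_mem hg2 hγ', r', i', hr', e'⟩

/-- uses `M0_uni`, `Mc_of_lev_eq_one`; `hlev` is provided by the assembly -/
theorem closure_top_of (hlev : ∀ b1 b2 : S × S, IsFr b1 b2 → lev b1 b2 ≠ 0)
    (hM : ∀ L : Set (S × S), Uni AS L → Uni AQ (M0 L))
    (hone : ∀ b1 b2 : S × S, IsFr b1 b2 → lev b1 b2 = 1 →
      ∀ m ∈ M0 (Lat b1 b2 : Set (S × S)), m ∈ Mc (Lat b1 b2 : Set (S × S)))
    (h : ∀ g : Matrix.GeneralLinearGroup (Fin 2) (LaurentPolynomial ℤ),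
      Conn 2 (1, 0) (iota (g.val 0 0), iota (g.val 1 0))) :
    Subgroup.closure gens = ⊤ := by
  rw [eq_top_iff]
  intro g _
  have h0 : FQG ((1 : S), (0 : S)) := by
    refine ⟨1, one_mem _, 1, 0, one_ne_zero, ?_⟩
    simp [fcol]
  have h1 : ∀ v w : S × S, Conn 2 v w → FQG v → FQG w := by
    intro v w hc hv
    induction hc with
    | refl => exact hv
    | tail _ hs ih => exact FQG_step hlev hM hone hs ih
  obtain ⟨k, hk, q, i, _, e⟩ := h1 _ _ (h g) h0
  exact fin_mem_of_fcol g k hk _ e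

end Pool.Agent.GE2
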