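import Pool.Agent.GE2.Defs

/-!
Index of `H + Z e` against `H + Z e'` in an abelian group.
-/

set_option autoImplicit false

namespace Pool.Agent.GE2

theorem idx_relIndex_zmul {q : ℚ} (hq : q ≠ 0) (n : ℤ) :
    (AddSubgroup.zmultiples ((n : ℚ) * q)).relIndex (AddSubgroup.zmultiples q) = n.natAbs := by
  have h1 : (zmultiplesHom ℚ q).range = AddSubgroup.zmultiples q := rfl
  have h2 : (AddSubgroup.zmultiples ((n : ℚ) * q)).comap (zmultiplesHom ℚ q)
      = AddSubgroup.zmultiples n := by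
    ext k
    simp only [AddSubgroup.mem_comap, AddSubgroup.mem_zmultiples_iff, zmultiplesHom_apply,
      zsmul_eq_mul]
    constructor
    · rintro ⟨j, hj⟩
      refine ⟨j, ?_⟩
      have : ((j * n : ℤ) : ℚ) = ((k : ℤ) : ℚ) := by
        apply mul_right_cancel₀ hq
        rw [← hj]; push_cast; ring
      have h3 : j * n = k := by exact_mod_cast this
      simpa using h3
    · rintro ⟨j, hj⟩
      refine ⟨j, ?_⟩
      have h3 : j * n = k := by simpa using hj
      rw [← h3]; push_cast; ring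
  rw [← h1, ← AddSubgroup.index_comap, h2, Int.index_zmultiples]

theorem idx_cyclic (V : AddSubgroup ℚ) (a : ℚ)
    (h : (AddSubgroup.zmultiples a).relIndex V ≠ 0) : ∃ q : ℚ, V = AddSubgroup.zmultiples q := by
  set n := (AddSubgroup.zmultiples a).relIndex V with hn
  have h1 : V ≤ AddSubgroup.zmultiples (a / n) := by
    intro v hv
    have h2 : n • v ∈ AddSubgroup.zmultiples a := by
      have h3 := AddSubgroup.nsmul_index_mem ((AddSubgroup.zmultiples a).addSubgroupOf V) ⟨v, hv⟩
      rw [AddSubgroup.mem_addSubgroupOf] at h3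
      exact h3
    obtain ⟨k, hk⟩ := AddSubgroup.mem_zmultiples_iff.1 h2
    refine AddSubgroup.mem_zmultiples_iff.2 ⟨k, ?_⟩
    have h4 : (n : ℚ) ≠ 0 := by exact_mod_cast h
    simp only [zsmul_eq_mul, nsmul_eq_mul] at hk ⊢
    field_simp
    linarith [hk]
  obtain ⟨q, hq⟩ : ∃ q : ℚ, AddSubgroup.zmultiples q = V := by
    have h5 : IsAddCyclic (AddSubgroup.zmultiples (a / n : ℚ)) := inferInstance
    have h6 : IsAddCyclic (V.addSubgroupOf (AddSubgroup.zmultiples (a / n : ℚ))) := inferInstance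
    have h7 : IsAddCyclic V :=
      isAddCyclic_of_surjective (AddSubgroup.addSubgroupOfEquivOfLe h1)
        (AddSubgroup.addSubgroupOfEquivOfLe h1).surjective
    exact (AddSubgroup.isAddCyclic_iff_exists_zmultiples_eq_top V).1 h7
  exact ⟨q, hq.symm⟩

theorem idx_formula {G : Type*} [AddCommGroup G] (H : AddSubgroup G) (φ : G →+ ℚ) (e : G)
    (hH : ∀ h ∈ H, φ h = 0) (he : φ e ≠ 0) :
    (H ⊔ AddSubgroup.zmultiples e).index
      = H.relIndex φ.ker * (AddSubgroup.zmultiples (φ e)).relIndex φ.range := by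
  set G1 := H ⊔ AddSubgroup.zmultiples e with hG1
  have h1 : G1 ⊔ φ.ker = (AddSubgroup.zmultiples (φ e)).comap φ := by
    apply le_antisymm
    · refine sup_le (sup_le ?_ ?_) ?_
      · intro x hx
        rw [AddSubgroup.mem_comap, hH x hx]
        exact AddSubgroup.zero_mem _
      · rw [AddSubgroup.zmultiples_le]
        rw [AddSubgroup.mem_comap]
        exact AddSubgroup.mem_zmultiples _
      · intro x hx
        rw [AddMonoidHom.mem_ker] at hx
        rw [AddSubgroup.mem_comap, hx]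
        exact AddSubgroup.zero_mem _
    · intro x hx
      rw [AddSubgroup.mem_comap] at hx
      obtain ⟨k, hk⟩ := AddSubgroup.mem_zmultiples_iff.1 hx
      rw [AddSubgroup.mem_sup]
      refine ⟨k • e, ?_, x - k • e, ?_, by abel⟩
      · exact AddSubgroup.mem_sup_right (AddSubgroup.zsmul_mem _ (AddSubgroup.mem_zmultiples e) k)
      · rw [AddMonoidHom.mem_ker, map_sub, map_zsmul, hk, sub_self]
  have h2 : G1 ⊓ φ.ker = H := by
    apply le_antisymm
    · rintro x ⟨hx1, hx2⟩
      obtain ⟨y, hy, z, hz, rfl⟩ := AddSubgroup.mem_sup.1 hx1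
      obtain ⟨k, rfl⟩ := AddSubgroup.mem_zmultiples_iff.1 hz
      have h3 : φ (y + k • e) = 0 := hx2
      rw [map_add, hH y hy, zero_add, map_zsmul, zsmul_eq_mul] at h3
      have h4 : (k : ℚ) = 0 := by
        rcases mul_eq_zero.1 h3 with h | h
        · exact h
        · exact absurd h he
      have h5 : k = 0 := by exact_mod_cast h4
      subst h5
      simpa using hy
    · exact le_inf le_sup_left (fun x hx => hH x hx)
  have h3 : G1.relIndex (G1 ⊔ φ.ker) * (G1 ⊔ φ.ker).index = G1.index :=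
    AddSubgroup.relIndex_mul_index le_sup_left
  have h4 : G1.relIndex (G1 ⊔ φ.ker) = H.relIndex φ.ker := by
    rw [AddSubgroup.relIndex_sup_left, ← AddSubgroup.inf_relIndex_right, h2]
  rw [← h3, h4, h1, AddSubgroup.index_comap]

theorem index_lemma {G : Type*} [AddCommGroup G] (H : AddSubgroup G) (φ : G →+ ℚ) (e e' : G)
    (hH : ∀ h ∈ H, φ h = 0) (he : φ e ≠ 0) (he' : φ e' ≠ 0)
    (hfin : (H ⊔ AddSubgroup.zmultiples e).index ≠ 0) :
    ((H ⊔ AddSubgroup.zmultiples e').index : ℚ) * |φ e|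
      = ((H ⊔ AddSubgroup.zmultiples e).index : ℚ) * |φ e'| := by
  rw [idx_formula H φ e hH he] at hfin
  obtain ⟨q, hq⟩ := idx_cyclic φ.range (φ e) (right_ne_zero_of_mul hfin)
  have hmem : ∀ x : G, ∃ n : ℤ, φ x = (n : ℚ) * q := by
    intro x
    have h1 : φ x ∈ φ.range := ⟨x, rfl⟩
    rw [hq] at h1
    obtain ⟨n, hn⟩ := AddSubgroup.mem_zmultiples_iff.1 h1
    exact ⟨n, by rw [← hn, zsmul_eq_mul]⟩
  obtain ⟨n, hn⟩ := hmem e
  obtain ⟨n', hn'⟩ := hmem e'
  have hq0 : q ≠ 0 := by
    rintro rfl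
    exact he (by rw [hn, mul_zero])
  rw [idx_formula H φ e hH he, idx_formula H φ e' hH he', hq, hn, hn', idx_relIndex_zmul hq0,
    idx_relIndex_zmul hq0, abs_mul, abs_mul]
  push_cast
  rw [Nat.cast_natAbs, Nat.cast_natAbs]
  push_cast
  ring

end Pool.Agent.GE2
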