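import Pool.Agent.GE2.JetDefs

/-!
Normal forms of local lattices in the plane over rational power series.
-/

set_option autoImplicit false

namespace Pool.Agent.GE2

/-- the determinant of the two lifted vectors is a unit -/
lemma dt_unit {E : Set (P × P)} (hE : Uni AP E) {e1 e2 : P × P} (h1 : e1 ∈ E) (h2 : e2 ∈ E)
    (c1 : PowerSeries.constantCoeff e1.1 = 1) (c2 : PowerSeries.constantCoeff e2.2 = 1)
    (c3 : PowerSeries.constantCoeff e2.1 = 0) :
    ∃ v ∈ AP, dt e1 e2 * v = 1 := by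
  have hd := hE.dt_mem h1 h2
  have hc : PowerSeries.constantCoeff (dt e1 e2) = 1 := by
    unfold dt
    rw [map_sub, map_mul, map_mul, c1, c2, c3]
    ring
  obtain ⟨v, hv, huv, _⟩ := AP_unit hd hc
  exact ⟨v, hv, huv⟩

/-- common part of `nf` and `nb` -/
lemma pre_nf {E : Set (P × P)} (hE : Uni AP E) {n : ℕ} (hn : 1 ≤ n)
    (h1 : Lam2 (sh 1 E) n) (h2 : Lam2 (sh (-1) E) n)
    {e1 e2 : P × P} (m1 : e1 ∈ E) (m2 : e2 ∈ E)
    (c1 : PowerSeries.constantCoeff e1.1 = 1) (c2 : PowerSeries.constantCoeff e2.2 = 1)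
    (c3 : (PowerSeries.X : P) ^ n ∣ e2.1) (c4 : PowerSeries.constantCoeff e1.2 = 0) :
    ∃ η1 ∈ AP, ∃ η2 ∈ AP, PowerSeries.constantCoeff η1 = 1 ∧ PowerSeries.constantCoeff η2 = 1 ∧
      (PowerSeries.X : P) ^ n ∣ e1.1 - PowerSeries.C (1 / 2) * (η1 + η2) * e2.2 ∧
      (PowerSeries.X : P) ^ n ∣ e1.2 - PowerSeries.C (1 / 2) * (η2 - η1) * e2.2 := by
  have c3' := constantCoeff_eq_zero_of_dvd hn c3
  obtain ⟨v, hv, huv⟩ := dt_unit hE m1 m2 c1 c2 c3'
  -- the shear by 1
  obtain ⟨z, hz, hz2, hz1⟩ := h1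
  obtain ⟨p, hp, q, hq, hpq⟩ := hE.coords m1 m2 hv huv hz
  have f1 : z.1 + PowerSeries.C 1 * z.2 = p * e1.1 + q * e2.1 := congrArg Prod.fst hpq
  have g1 : z.2 = p * e1.2 + q * e2.2 := congrArg Prod.snd hpq
  obtain ⟨z', hz', hz2', hz1'⟩ := h2
  obtain ⟨p', hp', q', hq', hpq'⟩ := hE.coords m1 m2 hv huv hz'
  have f2 : z'.1 + PowerSeries.C (-1) * z'.2 = p' * e1.1 + q' * e2.1 := congrArg Prod.fst hpq'
  have g2 : z'.2 = p' * e1.2 + q' * e2.2 := congrArg Prod.snd hpq'
  have C1 : (PowerSeries.C (1 : ℚ) : P) = 1 := map_one _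
  have Cm1 : (PowerSeries.C (-1 : ℚ) : P) = -1 := by rw [map_neg, map_one]
  rw [C1, one_mul] at f1
  rw [Cm1] at f2
  -- constant coefficients
  have cz1 := constantCoeff_eq_zero_of_dvd hn hz1
  have cz1' := constantCoeff_eq_zero_of_dvd hn hz1'
  have hp0 : PowerSeries.constantCoeff p = 1 := by
    have := congrArg (fun a : P => PowerSeries.constantCoeff a) f1
    simp only [map_add, map_mul, c1, c3', cz1, hz2] at this
    linarith
  have hq0 : PowerSeries.constantCoeff q = 1 := by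
    have := congrArg (fun a : P => PowerSeries.constantCoeff a) g1
    simp only [map_add, map_mul, c4, c2, hz2] at this
    linarith
  have hp0' : PowerSeries.constantCoeff p' = -1 := by
    have := congrArg (fun a : P => PowerSeries.constantCoeff a) f2
    simp only [map_add, map_mul, map_neg, map_one, c1, c3', cz1', hz2'] at this
    linarith
  have hq0' : PowerSeries.constantCoeff q' = 1 := by
    have := congrArg (fun a : P => PowerSeries.constantCoeff a) g2
    simp only [map_add, map_mul, c4, c2, hz2'] at this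
    linarith
  obtain ⟨r, hr, hpr, hr0⟩ := AP_unit hp hp0
  obtain ⟨r', hr', hpr', hr0'⟩ := AP_unit (AP.neg_mem hp') (by rw [map_neg, hp0']; norm_num)
  -- a - c = eta1 d,  a + c = eta2 d
  have k1 : (PowerSeries.X : P) ^ n ∣ (e1.1 - e1.2) - (r * q) * e2.2 := by
    have h : (e1.1 - e1.2) - (r * q) * e2.2 = r * (z.1 - q * e2.1)
        + (e1.1 - e1.2) * (1 - p * r) := by
      have hz1e : z.1 = p * e1.1 + q * e2.1 - z.2 := by rw [← f1]; ring
      rw [hz1e, g1]; ring
    rw [h, hpr, sub_self, mul_zero, add_zero]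
    exact (dvd_sub hz1 (c3.mul_left q)).mul_left r
  have k2 : (PowerSeries.X : P) ^ n ∣ (e1.1 + e1.2) - (r' * q') * e2.2 := by
    have h : (e1.1 + e1.2) - (r' * q') * e2.2 = -(r' * (z'.1 - q' * e2.1))
        + (e1.1 + e1.2) * (1 - -p' * r') := by
      have hz1e : z'.1 = p' * e1.1 + q' * e2.1 + z'.2 := by rw [← f2]; ring
      rw [hz1e, g2]; ring
    rw [h, hpr', sub_self, mul_zero, add_zero]
    exact ((dvd_sub hz1' (c3.mul_left q')).mul_left r').neg_right
  have hC : (PowerSeries.C (1 / 2 : ℚ) : P) * 2 = 1 := by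
    have : (2 : P) = PowerSeries.C (2 : ℚ) := (map_ofNat PowerSeries.C 2).symm
    rw [this, ← map_mul]
    norm_num
  refine ⟨r * q, AP.mul_mem hr hq, r' * q', AP.mul_mem hr' hq', ?_, ?_, ?_, ?_⟩
  · rw [map_mul, hr0, hq0, one_mul]
  · rw [map_mul, hr0', hq0', one_mul]
  · have h : e1.1 - PowerSeries.C (1 / 2) * (r * q + r' * q') * e2.2
        = PowerSeries.C (1 / 2) * (((e1.1 - e1.2) - (r * q) * e2.2)
          + ((e1.1 + e1.2) - (r' * q') * e2.2)) + e1.1 * (1 - PowerSeries.C (1 / 2) * 2) := by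
      ring
    rw [h, hC, sub_self, mul_zero, add_zero]
    exact (dvd_add k1 k2).mul_left _
  · have h : e1.2 - PowerSeries.C (1 / 2) * (r' * q' - r * q) * e2.2
        = PowerSeries.C (1 / 2) * (((e1.1 + e1.2) - (r' * q') * e2.2)
          - ((e1.1 - e1.2) - (r * q) * e2.2)) + e1.2 * (1 - PowerSeries.C (1 / 2) * 2) := by
      ring
    rw [h, hC, sub_self, mul_zero, add_zero]
    exact (dvd_sub k2 k1).mul_left _

lemma C_half_mul_two : (PowerSeries.C (1 / 2 : ℚ) : P) * 2 = 1 := by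
  have : (2 : P) = PowerSeries.C (2 : ℚ) := (map_ofNat PowerSeries.C 2).symm
  rw [this, ← map_mul]
  norm_num

/-- JETA -/
theorem nf {E : Set (P × P)} (hE : Uni AP E) {α n : ℕ} (hα : 1 ≤ α) (hn : α < n)
    (h0 : Lam2 E n) (h1 : Lam2 (sh 1 E) n) (h2 : Lam2 (sh (-1) E) n)
    (ha : Lam1 E α) (hb : ¬ Lam1 E (α + 1)) : ∃ e1 e2 w, NF E α n e1 e2 w := by
  obtain ⟨e2, m2, c2, c3⟩ := h0
  obtain ⟨e1, m1, c1, c4⟩ := ha
  obtain ⟨η1, hη1, η2, hη2, t1, t2, d1, d2⟩ := pre_nf hE (by omega) h1 h2 m1 m2 c1 c2 c3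
    (constantCoeff_eq_zero_of_dvd hα c4)
  have hXX : (PowerSeries.X : P) ^ α ∣ PowerSeries.X ^ n := pow_dvd_pow _ hn.le
  -- X^α divides η2 - η1
  have hdiv : (PowerSeries.X : P) ^ α ∣ η2 - η1 := by
    apply dvd_of_dvd_mul_unit c2
    have h3 : (PowerSeries.X : P) ^ α ∣ PowerSeries.C (1 / 2) * (η2 - η1) * e2.2 := by
      have := dvd_sub c4 (hXX.trans d2)
      rwa [sub_sub_cancel] at this
    have h4 := h3.mul_left 2
    have h5 : 2 * (PowerSeries.C (1 / 2) * (η2 - η1) * e2.2)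
        = (PowerSeries.C (1 / 2) * 2) * ((η2 - η1) * e2.2) := by ring
    rwa [h5, C_half_mul_two, one_mul] at h4
  obtain ⟨w, hw⟩ := hdiv
  have hwAP : w ∈ AP := AP_of_X_pow_mul (n := α) (by rw [← hw]; exact AP.sub_mem hη2 hη1)
  -- the constant coefficient of w is odd
  have hodd : ∃ j : ℤ, PowerSeries.constantCoeff w = 2 * j + 1 := by
    obtain ⟨i, hi⟩ := mem_AQ.mp (mem_AP.mp hwAP 0)
    rw [PowerSeries.coeff_zero_eq_constantCoeff_apply] at hi
    rcases Int.even_or_odd' i with ⟨j, hj | hj⟩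
    · exfalso
      apply hb
      -- modify e1
      have hjAP : (-(PowerSeries.C (j : ℚ) * PowerSeries.X ^ α) : P) ∈ AP :=
        AP.neg_mem (AP.mul_mem (C_mem_AP (mem_AQ.mpr ⟨j, rfl⟩)) (X_pow_mem_AP α))
      have hmem := hE.comb_mem m1 m2 (AP.one_mem) hjAP
      refine ⟨_, hmem, ?_, ?_⟩
      · simp only [map_add, map_mul, map_neg, map_one, c1,
          constantCoeff_eq_zero_of_dvd (by omega : 1 ≤ n) c3]
        ring
      · have h3 : (PowerSeries.X : P) ^ (α + 1) ∣
            PowerSeries.X ^ α * (PowerSeries.C (1 / 2) * w - PowerSeries.C (j : ℚ)) * e2.2 := by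
          apply Dvd.dvd.mul_right
          rw [pow_succ]
          apply mul_dvd_mul_left
          rw [PowerSeries.X_dvd_iff, map_sub, map_mul, hi, hj]
          simp
        have h4 : (PowerSeries.X : P) ^ (α + 1) ∣
            e1.2 - PowerSeries.C (1 / 2) * (η2 - η1) * e2.2 := (pow_dvd_pow _ (by omega)).trans d2
        have h5 := dvd_add h4 h3
        have h6 : e1.2 - PowerSeries.C (1 / 2) * (η2 - η1) * e2.2
            + PowerSeries.X ^ α * (PowerSeries.C (1 / 2) * w - PowerSeries.C (j : ℚ)) * e2.2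
            = 1 * e1.2 + -(PowerSeries.C (j : ℚ) * PowerSeries.X ^ α) * e2.2 := by
          rw [hw]; ring
        rwa [h6] at h5
    · exact ⟨j, by rw [hi, hj]; push_cast; ring⟩
  -- normalisation
  obtain ⟨u, hu, hηu, hu0⟩ := AP_unit hη1 t1
  refine ⟨(u * e1.1, u * e1.2), e2, u * w, hE.mul_mem m1 hu, m2, AP.mul_mem hu hwAP, ?_, ?_, c2,
    c3, ?_, ?_⟩
  · obtain ⟨j, hj⟩ := hodd
    exact ⟨j, by rw [map_mul, hu0, hj, one_mul]⟩
  · change PowerSeries.constantCoeff (u * e1.1) = 1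
    rw [map_mul, hu0, c1, one_mul]
  · change _ ∣ u * e1.1 - _
    have h3 : u * e1.1 - (1 + PowerSeries.C (1 / 2) * PowerSeries.X ^ α * (u * w)) * e2.2
        = u * (e1.1 - PowerSeries.C (1 / 2) * (η1 + η2) * e2.2)
          + (η1 * u - 1) * e2.2 - (1 - PowerSeries.C (1 / 2) * 2) * (u * η1) * e2.2 := by
      have h4 : η2 = η1 + PowerSeries.X ^ α * w := by rw [← hw]; ring
      rw [h4]; ring
    rw [h3, hηu, C_half_mul_two, sub_self, zero_mul, add_zero, zero_mul, zero_mul, sub_zero]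
    exact d1.mul_left u
  · change _ ∣ u * e1.2 - _
    have h3 : u * e1.2 - PowerSeries.C (1 / 2) * PowerSeries.X ^ α * (u * w) * e2.2
        = u * (e1.2 - PowerSeries.C (1 / 2) * (η2 - η1) * e2.2) := by
      rw [hw]; ring
    rw [h3]
    exact d2.mul_left u

/-- JETA -/
theorem nb {E : Set (P × P)} (hE : Uni AP E) {m : ℕ} (hm : 1 ≤ m)
    (h0 : Lam2 E m) (h1 : Lam2 (sh 1 E) m) (h2 : Lam2 (sh (-1) E) m)
    (ha : Lam1 E m) : ∃ e1 e2, NB E m e1 e2 := by
  obtain ⟨e2, m2, c2, c3⟩ := h0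
  obtain ⟨e1, m1, c1, c4⟩ := ha
  obtain ⟨η1, hη1, η2, hη2, t1, t2, d1, d2⟩ := pre_nf hE hm h1 h2 m1 m2 c1 c2 c3
    (constantCoeff_eq_zero_of_dvd hm c4)
  have hdiv : (PowerSeries.X : P) ^ m ∣ η2 - η1 := by
    apply dvd_of_dvd_mul_unit c2
    have h3 : (PowerSeries.X : P) ^ m ∣ PowerSeries.C (1 / 2) * (η2 - η1) * e2.2 := by
      have := dvd_sub c4 d2
      rwa [sub_sub_cancel] at this
    have h4 := h3.mul_left 2
    have h5 : 2 * (PowerSeries.C (1 / 2) * (η2 - η1) * e2.2)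
        = (PowerSeries.C (1 / 2) * 2) * ((η2 - η1) * e2.2) := by ring
    rwa [h5, C_half_mul_two, one_mul] at h4
  obtain ⟨u, hu, hηu, hu0⟩ := AP_unit hη1 t1
  refine ⟨(u * e1.1, u * e1.2), e2, hE.mul_mem m1 hu, m2, ?_, c2, c3, c4.mul_left u, ?_⟩
  · change PowerSeries.constantCoeff (u * e1.1) = 1
    rw [map_mul, hu0, c1, one_mul]
  · change _ ∣ u * e1.1 - e2.2
    have h3 : u * e1.1 - e2.2
        = u * (e1.1 - PowerSeries.C (1 / 2) * (η1 + η2) * e2.2)
          + (PowerSeries.C (1 / 2) * u * e2.2) * (η2 - η1) + (η1 * u - 1) * e2.2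
          - (1 - PowerSeries.C (1 / 2) * 2) * (u * η1) * e2.2 := by
      ring
    rw [h3, hηu, C_half_mul_two, sub_self, zero_mul, add_zero, zero_mul, zero_mul, sub_zero]
    exact dvd_add (d1.mul_left u) (hdiv.mul_left _)

/-- JETA -/
theorem two_blocked {E : Set (P × P)} (hE : Uni AP E) {α n : ℕ} (hα : 1 ≤ α)
    (h0 : Lam2 E n) (h1 : Lam2 (sh 1 E) n) (h2 : Lam2 (sh (-1) E) n) (h3 : Lam2 (sh 2 E) n)
    (ha : Lam1 E α) (hb : ¬ Lam1 E (α + 1)) : n ≤ 2 * α := by
  by_contra hcon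
  push Not at hcon
  obtain ⟨e1, e2, w, m1, m2, hw, ⟨j, hj⟩, c1, c2, c3, d1, d2⟩ :=
    nf hE hα (by omega) h0 h1 h2 ha hb
  have hn : 1 ≤ n := by omega
  have c3' := constantCoeff_eq_zero_of_dvd hn c3
  obtain ⟨v, hv, huv⟩ := dt_unit hE m1 m2 c1 c2 c3'
  obtain ⟨z, hz, hz2, hz1⟩ := h3
  obtain ⟨p, hp, q, hq, hpq⟩ := hE.coords m1 m2 hv huv hz
  have f1 : z.1 + PowerSeries.C 2 * z.2 = p * e1.1 + q * e2.1 := congrArg Prod.fst hpq
  have g1 : z.2 = p * e1.2 + q * e2.2 := congrArg Prod.snd hpq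
  have C2 : (PowerSeries.C (2 : ℚ) : P) = 2 := map_ofNat PowerSeries.C 2
  rw [C2] at f1
  have cz1 := constantCoeff_eq_zero_of_dvd hn hz1
  have hp0 : PowerSeries.constantCoeff p = 2 := by
    have := congrArg (fun a : P => PowerSeries.constantCoeff a) f1
    simp only [map_add, map_mul, c1, c3', cz1, hz2, map_ofNat] at this
    linarith
  -- main congruence
  have key : (PowerSeries.X : P) ^ n ∣ 2 * p - p * PowerSeries.X ^ α * w - 4 * q := by
    have hmul : (PowerSeries.X : P) ^ n ∣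
        (p * (1 - PowerSeries.C (1 / 2) * PowerSeries.X ^ α * w) - 2 * q) * e2.2 := by
      have h4 : (p * (1 - PowerSeries.C (1 / 2) * PowerSeries.X ^ α * w) - 2 * q) * e2.2
          = z.1 - q * e2.1
            - p * (e1.1 - (1 + PowerSeries.C (1 / 2) * PowerSeries.X ^ α * w) * e2.2)
            + 2 * p * (e1.2 - PowerSeries.C (1 / 2) * PowerSeries.X ^ α * w * e2.2) := by
        have hz1e : z.1 = p * e1.1 + q * e2.1 - 2 * z.2 := by rw [← f1]; ring
        rw [hz1e, g1]; ring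
      rw [h4]
      exact dvd_add (dvd_sub (dvd_sub hz1 (c3.mul_left q)) (d1.mul_left p)) (d2.mul_left _)
    have h5 := (dvd_of_dvd_mul_unit c2 hmul).mul_left 2
    have h6 : 2 * (p * (1 - PowerSeries.C (1 / 2) * PowerSeries.X ^ α * w) - 2 * q)
        = 2 * p - p * PowerSeries.X ^ α * w - 4 * q
          + (1 - PowerSeries.C (1 / 2) * 2) * (p * PowerSeries.X ^ α * w) := by ring
    rw [h6, C_half_mul_two, sub_self, zero_mul, add_zero] at h5
    exact h5
  -- lift to the integers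
  obtain ⟨p', rfl⟩ := exists_of_mem_AP hp
  obtain ⟨q', rfl⟩ := exists_of_mem_AP hq
  obtain ⟨w', rfl⟩ := exists_of_mem_AP hw
  have keyZ : (PowerSeries.X : PowerSeries ℤ) ^ n ∣
      2 * p' - p' * PowerSeries.X ^ α * w' - 4 * q' := by
    rw [PowerSeries.X_pow_dvd_iff] at key ⊢
    intro i hi
    have h4 := key i hi
    have h5 : (2 * (PowerSeries.map (Int.castRingHom ℚ)) p' -
        (PowerSeries.map (Int.castRingHom ℚ)) p' * PowerSeries.X ^ α *
          (PowerSeries.map (Int.castRingHom ℚ)) w' -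
        4 * (PowerSeries.map (Int.castRingHom ℚ)) q')
        = PowerSeries.map (Int.castRingHom ℚ) (2 * p' - p' * PowerSeries.X ^ α * w' - 4 * q') := by
      simp only [map_sub, map_mul, map_pow, PowerSeries.map_X, map_ofNat]
    rw [h5, PowerSeries.coeff_map] at h4
    have h6 : ((PowerSeries.coeff i (2 * p' - p' * PowerSeries.X ^ α * w' - 4 * q') : ℤ) : ℚ) = 0 :=
      h4
    exact_mod_cast h6
  have hp0' : PowerSeries.constantCoeff p' = 2 := by
    rw [← PowerSeries.coeff_zero_eq_constantCoeff_apply, PowerSeries.coeff_map,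
      PowerSeries.coeff_zero_eq_constantCoeff_apply] at hp0
    have h4 : ((PowerSeries.constantCoeff p' : ℤ) : ℚ) = 2 := hp0
    exact_mod_cast h4
  have hw0' : PowerSeries.constantCoeff w' = 2 * j + 1 := by
    rw [← PowerSeries.coeff_zero_eq_constantCoeff_apply, PowerSeries.coeff_map,
      PowerSeries.coeff_zero_eq_constantCoeff_apply] at hj
    have h4 : ((PowerSeries.constantCoeff w' : ℤ) : ℚ) = 2 * j + 1 := hj
    exact_mod_cast h4
  -- reduction modulo two
  have hmod : (PowerSeries.X : PowerSeries (ZMod 2)) ^ (n - α) ∣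
      PowerSeries.map (Int.castRingHom (ZMod 2)) p' := by
    obtain ⟨r, hr⟩ := keyZ
    have h4 := congrArg (PowerSeries.map (Int.castRingHom (ZMod 2))) hr
    simp only [map_sub, map_mul, map_pow, PowerSeries.map_X, map_ofNat] at h4
    have e2 : (2 : PowerSeries (ZMod 2)) = 0 := by
      have : (2 : PowerSeries (ZMod 2)) = PowerSeries.C (2 : ZMod 2) :=
        (map_ofNat PowerSeries.C 2).symm
      rw [this]
      have h2 : (2 : ZMod 2) = 0 := by decide
      rw [h2, map_zero]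
    have e4 : (4 : PowerSeries (ZMod 2)) = 0 := by
      have : (4 : PowerSeries (ZMod 2)) = 2 * 2 := by norm_num
      rw [this, e2, zero_mul]
    rw [e2, e4, zero_mul, zero_mul, zero_sub, sub_zero] at h4
    have hun : IsUnit (PowerSeries.map (Int.castRingHom (ZMod 2)) w') := by
      rw [PowerSeries.isUnit_iff_constantCoeff, ← PowerSeries.coeff_zero_eq_constantCoeff_apply,
        PowerSeries.coeff_map, PowerSeries.coeff_zero_eq_constantCoeff_apply, hw0']
      have h2 : (2 : ZMod 2) = 0 := by decide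
      simp [h2]
    have h5 : (PowerSeries.X : PowerSeries (ZMod 2)) ^ α *
        (PowerSeries.X ^ (n - α) * (-(PowerSeries.map (Int.castRingHom (ZMod 2)) r)))
        = PowerSeries.X ^ α * ((PowerSeries.map (Int.castRingHom (ZMod 2)) p') *
          (PowerSeries.map (Int.castRingHom (ZMod 2)) w')) := by
      have h6 : (PowerSeries.X : PowerSeries (ZMod 2)) ^ n
          = PowerSeries.X ^ α * PowerSeries.X ^ (n - α) := by
        rw [← pow_add]; congr 1; omega
      rw [h6] at h4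
      have h7 := congrArg (fun a => -a) h4
      simp only [neg_neg] at h7
      linear_combination -h7
    have hX : (PowerSeries.X : PowerSeries (ZMod 2)) ^ α ≠ 0 := pow_ne_zero _ PowerSeries.X_ne_zero
    have h8 := mul_left_cancel₀ hX h5
    have h9 : (PowerSeries.X : PowerSeries (ZMod 2)) ^ (n - α) ∣
        (PowerSeries.map (Int.castRingHom (ZMod 2)) p') *
          (PowerSeries.map (Int.castRingHom (ZMod 2)) w') := ⟨_, h8.symm⟩
    exact (hun.dvd_mul_right).mp h9
  have hpa : (PowerSeries.coeff α p' : ℤ) % 2 = 0 := by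
    rw [PowerSeries.X_pow_dvd_iff] at hmod
    have h4 := hmod α (by omega)
    rw [PowerSeries.coeff_map] at h4
    have h5 : ((PowerSeries.coeff α p' : ℤ) : ZMod 2) = 0 := h4
    have h6 := (ZMod.intCast_zmod_eq_zero_iff_dvd _ 2).mp h5
    exact Int.emod_eq_zero_of_dvd h6
  have hco : 2 * PowerSeries.coeff α p' - 2 * (2 * j + 1) - 4 * PowerSeries.coeff α q' = 0 := by
    rw [PowerSeries.X_pow_dvd_iff] at keyZ
    have h4 := keyZ α (by omega)
    have h5 : PowerSeries.coeff α (p' * PowerSeries.X ^ α * w') = 2 * (2 * j + 1) := by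
      have : p' * PowerSeries.X ^ α * w' = PowerSeries.X ^ α * (p' * w') := by ring
      rw [this]
      have h6 := PowerSeries.coeff_X_pow_mul (p' * w') α 0
      rw [zero_add] at h6
      rw [h6, PowerSeries.coeff_zero_eq_constantCoeff_apply, map_mul, hp0', hw0']
    have h7 : PowerSeries.coeff α (2 * p') = 2 * PowerSeries.coeff α p' := by
      have : (2 : PowerSeries ℤ) = PowerSeries.C (2 : ℤ) := (map_ofNat PowerSeries.C 2).symm
      rw [this, PowerSeries.coeff_C_mul]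
    have h8 : PowerSeries.coeff α (4 * q') = 4 * PowerSeries.coeff α q' := by
      have : (4 : PowerSeries ℤ) = PowerSeries.C (4 : ℤ) := (map_ofNat PowerSeries.C 4).symm
      rw [this, PowerSeries.coeff_C_mul]
    rw [map_sub, map_sub, h5, h7, h8] at h4
    exact h4
  omega

end Pool.Agent.GE2
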