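import Pool.Agent.GE2.JetDefs

/-!
Job JETB: six statements on normal forms in `ℚ[[X]]²`.
-/

set_option autoImplicit false
set_option linter.unusedVariables false

namespace Pool.Agent.GE2

namespace JetB

open PowerSeries

lemma memAQ {q : ℚ} : q ∈ AQ ↔ ∃ j : ℤ, (j : ℚ) = q := by
  simp [AQ, RingHom.mem_range]

lemma memAP {f : P} : f ∈ AP ↔ ∀ n, coeff n f ∈ AQ := by
  constructor
  · rintro ⟨g, rfl⟩ n
    rw [PowerSeries.coeff_map]
    exact ⟨_, rfl⟩
  · intro h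
    choose g hg using h
    refine ⟨PowerSeries.mk g, ?_⟩
    ext n
    rw [PowerSeries.coeff_map, PowerSeries.coeff_mk, hg]

lemma X_mem : (X : P) ∈ AP := by
  rw [memAP]
  intro n
  rw [PowerSeries.coeff_X]
  split_ifs
  · exact AQ.one_mem
  · exact AQ.zero_mem

section
variable {K : Type*} [CommRing K] {A : Subring K} {E : Set (K × K)}

lemma uni_rep (hE : Uni A E) : ∃ x y : K × K, dt x y = 1 ∧
    ∀ z, z ∈ E ↔ (dt z x ∈ A ∧ dt z y ∈ A) := by
  obtain ⟨x, y, h, rfl⟩ := hE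
  exact ⟨x, y, h, fun z => Iff.rfl⟩

lemma uni_dt (hE : Uni A E) {z z' : K × K} (hz : z ∈ E) (hz' : z' ∈ E) : dt z z' ∈ A := by
  obtain ⟨x, y, h, hx⟩ := uni_rep hE
  obtain ⟨a, b⟩ := (hx z).1 hz
  obtain ⟨c, d⟩ := (hx z').1 hz'
  have : dt z z' = dt z x * dt z' y - dt z y * dt z' x := by
    calc dt z z' = dt x y * dt z z' := by rw [h, one_mul]
      _ = _ := by unfold dt; ring
  rw [this]
  exact A.sub_mem (A.mul_mem a d) (A.mul_mem b c)

lemma uni_lin (hE : Uni A E) {z z' : K × K} (hz : z ∈ E) (hz' : z' ∈ E) {a b : K} (ha : a ∈ A)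
    (hb : b ∈ A) : (a * z.1 + b * z'.1, a * z.2 + b * z'.2) ∈ E := by
  obtain ⟨x, y, h, hx⟩ := uni_rep hE
  obtain ⟨p, q⟩ := (hx z).1 hz
  obtain ⟨c, d⟩ := (hx z').1 hz'
  rw [hx]
  constructor
  · have : dt (a * z.1 + b * z'.1, a * z.2 + b * z'.2) x = a * dt z x + b * dt z' x := by
      unfold dt; ring
    rw [this]
    exact A.add_mem (A.mul_mem ha p) (A.mul_mem hb c)
  · have : dt (a * z.1 + b * z'.1, a * z.2 + b * z'.2) y = a * dt z y + b * dt z' y := by
      unfold dt; ring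
    rw [this]
    exact A.add_mem (A.mul_mem ha q) (A.mul_mem hb d)

lemma uni_coord (hE : Uni A E) {e1 e2 z : K × K} (h1 : e1 ∈ E) (h2 : e2 ∈ E) {v : K}
    (hv : v ∈ A) (hu : v * dt e1 e2 = 1) (hz : z ∈ E) :
    ∃ p ∈ A, ∃ q ∈ A, z.1 = p * e1.1 + q * e2.1 ∧ z.2 = p * e1.2 + q * e2.2 := by
  refine ⟨v * dt z e2, A.mul_mem hv (uni_dt hE hz h2), v * dt e1 z,
    A.mul_mem hv (uni_dt hE h1 hz), ?_, ?_⟩
  · calc z.1 = (v * dt e1 e2) * z.1 := by rw [hu, one_mul]
      _ = _ := by unfold dt; ring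
  · calc z.2 = (v * dt e1 e2) * z.2 := by rw [hu, one_mul]
      _ = _ := by unfold dt; ring

end

/-- a series in `AP` with constant coefficient one has an inverse in `AP` -/
lemma exists_inv {u : P} (hu : u ∈ AP) (h : constantCoeff u = 1) : ∃ v ∈ AP, v * u = 1 := by
  obtain ⟨g, rfl⟩ := hu
  have hg : constantCoeff g = 1 := by
    have : constantCoeff (PowerSeries.map (Int.castRingHom ℚ) g) =
        ((constantCoeff g : ℤ) : ℚ) := by
      rw [← PowerSeries.coeff_zero_eq_constantCoeff_apply, PowerSeries.coeff_map,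
        PowerSeries.coeff_zero_eq_constantCoeff_apply]
      rfl
    rw [this] at h
    exact_mod_cast h
  have hun : IsUnit g := by
    rw [PowerSeries.isUnit_iff_constantCoeff, hg]; exact isUnit_one
  obtain ⟨v, hv⟩ := hun.exists_left_inv
  refine ⟨PowerSeries.map (Int.castRingHom ℚ) v, ⟨v, rfl⟩, ?_⟩
  rw [← map_mul, hv, map_one]

lemma isUnit_of {u : P} (h : constantCoeff u = 1) : IsUnit u := by
  rw [PowerSeries.isUnit_iff_constantCoeff, h]; exact isUnit_one

lemma co_add {j n : ℕ} (h : j < n) (A B : P) : coeff j (A + X ^ n * B) = coeff j A := by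
  rw [map_add, PowerSeries.coeff_X_pow_mul', if_neg (by omega), add_zero]

lemma co_shift (i m : ℕ) (A : P) : coeff (i + m) (X ^ m * A) = coeff i A :=
  PowerSeries.coeff_X_pow_mul A m i

lemma co_self (m : ℕ) (A : P) : coeff m (X ^ m * A) = constantCoeff A := by
  have := PowerSeries.coeff_X_pow_mul A m 0
  simpa using this

lemma cc_X_pow {m : ℕ} (hm : 1 ≤ m) (A : P) : constantCoeff (X ^ m * A) = 0 := by
  rw [map_mul, map_pow]
  simp [show m ≠ 0 by omega]

/-- unpack a normal form -/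
lemma nf_unpack {E : Set (P × P)} {α n : ℕ} {e1 e2 : P × P} {w : P} (h : NF E α n e1 e2 w) :
    ∃ a b c d r s : P, e1 = (a, c) ∧ e2 = (X ^ n * b, d) ∧
      a = (1 + C (1 / 2) * X ^ α * w) * d + X ^ n * r ∧
      c = C (1 / 2) * X ^ α * w * d + X ^ n * s ∧ constantCoeff a = 1 ∧ constantCoeff d = 1 := by
  obtain ⟨h1, h2, hw, hj, ha, hd, ⟨b, hb⟩, ⟨r, hr⟩, ⟨s, hs⟩⟩ := h
  refine ⟨e1.1, b, e1.2, e2.2, r, s, rfl, ?_, ?_, ?_, ha, hd⟩
  · rw [← hb]
  · rw [← hr]; ring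
  · rw [← hs]; ring

lemma nf_det {E : Set (P × P)} (hE : Uni AP E) {α n : ℕ} (hn : 1 ≤ n) {e1 e2 : P × P} {w : P}
    (h : NF E α n e1 e2 w) : ∃ v ∈ AP, v * dt e1 e2 = 1 := by
  apply exists_inv (uni_dt hE h.1 h.2.1)
  obtain ⟨h1, h2, hw, hj, ha, hd, ⟨b, hb⟩, ⟨r, hr⟩, ⟨s, hs⟩⟩ := h
  unfold dt
  rw [hb, map_sub, map_mul, map_mul, ha, hd, cc_X_pow hn]
  ring

end JetB

open JetB PowerSeries

/-- JETB -/
theorem swap_lift {E : Set (P × P)} (hE : Uni AP E) {α m : ℕ} (hα : 1 ≤ α) (hm : 1 ≤ m)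
    {e1 e2 : P × P} {w : P} (h : NF E α (α + m) e1 e2 w) :
    ∃ z1 z2 : P, (PowerSeries.X : P) ^ α ∣ z1 ∧ PowerSeries.constantCoeff z2 = 1 ∧
      (-(PowerSeries.X ^ m * z2), z1 + z2) ∈ E := by
  obtain ⟨a, b, c, d, r, s, rfl, rfl, ha, hc, ha1, hd1⟩ := nf_unpack h
  refine ⟨-X ^ m * c + d - (a - X ^ α * b), a - X ^ α * b, ?_, ?_, ?_⟩
  · refine ⟨-X ^ m * (C (1 / 2) * w * d + X ^ m * s) - C (1 / 2) * w * d - X ^ m * r + b, ?_⟩
    rw [ha, hc, pow_add]
    ring
  · rw [map_sub, ha1, cc_X_pow hα, sub_zero]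
  · have := uni_lin hE h.1 h.2.1 (a := -X ^ m) (b := 1)
      (AP.neg_mem (AP.pow_mem X_mem m)) AP.one_mem
    have e : (-(X ^ m * (a - X ^ α * b)), -X ^ m * c + d - (a - X ^ α * b) + (a - X ^ α * b)) =
        (-X ^ m * (a, c).1 + 1 * (X ^ (α + m) * b, d).1,
          -X ^ m * (a, c).2 + 1 * (X ^ (α + m) * b, d).2) := by
      refine Prod.ext ?_ ?_
      · simp only
        rw [pow_add]; ring
      · simp only
        ring
    rw [e]
    exact this

/-- JETB -/
theorem swap_half {E : Set (P × P)} (hE : Uni AP E) {α m : ℕ} (hα : 1 ≤ α) (hm : 1 ≤ m)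
    {e1 e2 : P × P} {w : P} (h : NF E α (α + m) e1 e2 w)
    (hz : ∃ z1 z2 : P, (PowerSeries.X : P) ^ (α + 1) ∣ z1 ∧ PowerSeries.constantCoeff z2 = 1 ∧
      (-(PowerSeries.X ^ m * z2), z1 + z2) ∈ E) : ¬ Lam2 E (α + m + 1) := by
  obtain ⟨v, hv, hvu⟩ := nf_det hE (by omega) h
  have hw := h.2.2.2.1
  obtain ⟨a, b, c, d, r, s, rfl, rfl, ha, hc, ha1, hd1⟩ := nf_unpack h
  obtain ⟨z1, z2, ⟨t, ht⟩, hz2, hzE⟩ := hz
  obtain ⟨p, hp, q, hq, E1, E2⟩ := uni_coord hE h.1 h.2.1 hv hvu hzE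
  simp only at E1 E2
  obtain ⟨a', ha'⟩ := (isUnit_of ha1).exists_right_inv
  obtain ⟨d', hd'⟩ := (isUnit_of hd1).exists_right_inv
  -- p is divisible by X ^ m
  set p0 : P := -((z2 + q * X ^ α * b) * a') with hp0
  have hpp : p = X ^ m * p0 := by
    calc p = (p * a) * a' := by rw [mul_assoc, ha', mul_one]
      _ = (-(X ^ m * z2) - q * (X ^ (α + m) * b)) * a' := by rw [E1]; ring
      _ = _ := by rw [hp0, pow_add]; ring
  have hp0a : z2 = -(p0 * a) - q * X ^ α * b := by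
    have : p0 * a = -((z2 + q * X ^ α * b) * (a * a')) := by rw [hp0]; ring
    rw [this, ha']; ring
  have c1 : constantCoeff p0 = -1 := by
    have := congrArg (constantCoeff (R := ℚ)) hp0a
    rw [hz2, map_sub, map_neg, map_mul, ha1, mul_assoc, mul_comm q, mul_assoc, cc_X_pow hα] at this
    linarith
  have c0 : constantCoeff c = 0 := by
    have : c = X ^ α * (C (1 / 2) * w * d + X ^ m * s) := by rw [hc, pow_add]; ring
    rw [this, cc_X_pow hα]
  obtain ⟨m', rfl⟩ : ∃ m', m = m' + 1 := ⟨m - 1, by omega⟩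
  -- main congruence
  have key : (p0 + q) * d = X ^ α * (-(C (1 / 2) * w * p0 * d + q * b) +
      X * (t - X ^ m' * (r * p0 + p0 * (C (1 / 2) * w * d + X ^ (m' + 1) * s)))) := by
    have e1 : X ^ (α + 1) * t + z2 = X ^ (m' + 1) * p0 * c + q * d := by
      rw [← ht, E2, hpp]
    rw [hp0a, ha, hc] at e1
    have e2 : (p0 + q) * d = (p0 + q) * d + (X ^ (α + 1) * t + (-(p0 * ((1 + C (1 / 2) * X ^ α * w) * d
        + X ^ (α + (m' + 1)) * r)) - q * X ^ α * b)) - (X ^ (m' + 1) * p0 * (C (1 / 2) * X ^ α * w * d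
        + X ^ (α + (m' + 1)) * s) + q * d) := by rw [e1]; ring
    rw [e2]
    rw [pow_add, pow_add, pow_add]
    ring
  have hT : p0 + q = X ^ α * ((-(C (1 / 2) * w * p0 * d + q * b) +
      X * (t - X ^ m' * (r * p0 + p0 * (C (1 / 2) * w * d + X ^ (m' + 1) * s)))) * d') := by
    calc p0 + q = ((p0 + q) * d) * d' := by rw [mul_assoc, hd', mul_one]
      _ = _ := by rw [key]; ring
  have c2 : constantCoeff q = 1 := by
    have := congrArg (constantCoeff (R := ℚ)) hT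
    rw [cc_X_pow hα, map_add, c1] at this
    linarith
  have cd' : constantCoeff d' = 1 := by
    have := congrArg (constantCoeff (R := ℚ)) hd'
    rw [map_mul, hd1, map_one] at this
    linarith
  have cT := congrArg (coeff (R := ℚ) α) hT
  rw [co_self] at cT
  simp only [map_mul, map_add, map_neg, constantCoeff_X, zero_mul, add_zero, cd', mul_one,
    c1, c2, hd1, constantCoeff_C, one_mul] at cT
  obtain ⟨jp, hjp⟩ := memAQ.1 (memAP.1 (hpp ▸ hp) (α + (m' + 1)))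
  rw [co_shift] at hjp
  obtain ⟨jq, hjq⟩ := memAQ.1 (memAP.1 hq α)
  obtain ⟨j, hj⟩ := hw
  rw [← hjp, ← hjq, hj] at cT
  -- now `b(0)` is a half integer
  rintro ⟨z, hzm, hz2', ⟨u, hu⟩⟩
  obtain ⟨p', hp', q', hq', F1, F2⟩ := uni_coord hE h.1 h.2.1 hv hvu hzm
  simp only at F1 F2
  rw [hu] at F1
  have hpp' : p' = X ^ (α + (m' + 1)) * ((X * u - q' * b) * a') := by
    calc p' = (p' * a) * a' := by rw [mul_assoc, ha', mul_one]
      _ = (X ^ (α + (m' + 1) + 1) * u - q' * (X ^ (α + (m' + 1)) * b)) * a' := by rw [F1]; ring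
      _ = _ := by rw [pow_succ X (α + (m' + 1))]; ring
  have ca' : constantCoeff a' = 1 := by
    have := congrArg (constantCoeff (R := ℚ)) ha'
    rw [map_mul, ha1, map_one] at this
    linarith
  have cq' : constantCoeff q' = 1 := by
    have := congrArg (constantCoeff (R := ℚ)) F2
    rw [hz2', map_add, map_mul, map_mul, hd1, hpp', cc_X_pow (by omega)] at this
    linarith
  obtain ⟨jp', hjp'⟩ := memAQ.1 (memAP.1 hp' (α + (m' + 1)))
  rw [hpp', co_self] at hjp'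
  simp only [map_mul, map_sub, constantCoeff_X, zero_mul, ca', mul_one, cq', one_mul,
    zero_sub] at hjp'
  have : (2 : ℚ) * (jp + jq - jp' : ℤ) = ((2 * j + 1 : ℤ) : ℚ) := by
    push_cast
    rw [hjp']
    linarith
  have h3 : (2 : ℤ) * (jp + jq - jp') = 2 * j + 1 := by exact_mod_cast this
  omega

/-- JETB -/
theorem short_left {E : Set (P × P)} (hE : Uni AP E) {α n k : ℕ} (hk : 1 ≤ k) (hka : 2 * k < α)
    (hn : α < n) {e1 e2 : P × P} {w : P} (h : NF E α n e1 e2 w) (y : ℚ) {f g : P}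
    (hg : PowerSeries.constantCoeff g = 1) (hf : (PowerSeries.X : P) ^ n ∣ f) :
    (PowerSeries.X ^ k * f + g * (1 + PowerSeries.C y * PowerSeries.X ^ k),
      PowerSeries.X ^ k * g) ∉ E := by
  intro hz
  have h1 := uni_dt hE hz h.1
  have h2 := uni_dt hE hz h.2.1
  obtain ⟨j, hj⟩ := h.2.2.2.1
  obtain ⟨a, b, c, d, r, s, rfl, rfl, ha, hc, ha1, hd1⟩ := nf_unpack h
  obtain ⟨f0, rfl⟩ := hf
  set G : P := g * d with hG
  have hG1 : constantCoeff G = 1 := by rw [hG, map_mul, hg, hd1, one_mul]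
  have e2 : dt (X ^ k * (X ^ n * f0) + g * (1 + C y * X ^ k), X ^ k * g) (X ^ n * b, d) =
      (G + C y * (X ^ k * G)) + X ^ n * (X ^ k * f0 * d - X ^ k * g * b) := by
    unfold dt; simp only; rw [hG]; ring
  have e1 : dt (X ^ k * (X ^ n * f0) + g * (1 + C y * X ^ k), X ^ k * g) (a, c) =
      (X ^ α * (C (1 / 2) * w * G * (1 + (C y - 1) * X ^ k)) - X ^ k * G) +
        X ^ n * (X ^ k * f0 * c + g * (1 + C y * X ^ k) * s - X ^ k * g * r) := by
    have : dt (X ^ k * (X ^ n * f0) + g * (1 + C y * X ^ k), X ^ k * g) (a, c) =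
        X ^ n * (X ^ k * f0 * c) + g * (1 + C y * X ^ k) * c - X ^ k * g * a := by
      unfold dt; simp only; ring
    rw [this]
    conv_lhs => rw [ha]
    rw [hG]
    have hc' : g * (1 + C y * X ^ k) * c = g * (1 + C y * X ^ k) *
      (C (1 / 2) * X ^ α * w * d + X ^ n * s) := by rw [← hc]
    rw [hc']
    ring
  rw [e1] at h1
  rw [e2] at h2
  have H : ∀ i < n, coeff i G + y * coeff i (X ^ k * G) ∈ AQ := by
    intro i hi
    have := memAP.1 h2 i
    rw [co_add hi, map_add, PowerSeries.coeff_C_mul] at this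
    exact this
  have U : ∀ i < n, coeff i (X ^ α * (C (1 / 2) * w * G * (1 + (C y - 1) * X ^ k))) -
      coeff i (X ^ k * G) ∈ AQ := by
    intro i hi
    have := memAP.1 h1 i
    rw [co_add hi, map_sub] at this
    exact this
  have stepA : ∀ i, i + k < α → coeff i G ∈ AQ := by
    intro i hi
    have := U (i + k) (by omega)
    rw [co_shift, PowerSeries.coeff_X_pow_mul', if_neg (by omega), zero_sub] at this
    simpa using AQ.neg_mem this
  have stepB : y ∈ AQ := by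
    have h3 := H k (by omega)
    rw [co_self, hG1, mul_one] at h3
    have h4 := AQ.sub_mem h3 (stepA k (by omega))
    simpa using h4
  have stepC : ∀ i < n, coeff i G ∈ AQ := by
    intro i
    induction i using Nat.strong_induction_on with
    | _ i ih =>
      intro hi
      have h3 := H i hi
      rw [PowerSeries.coeff_X_pow_mul'] at h3
      split_ifs at h3 with h5
      · have h4 := AQ.sub_mem h3 (AQ.mul_mem stepB (ih (i - k) (by omega) (by omega)))
        simpa using h4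
      · simpa using h3
  have h6 := U α hn
  rw [co_self] at h6
  have h7 : coeff α (X ^ k * G) ∈ AQ := by
    rw [PowerSeries.coeff_X_pow_mul', if_pos (by omega)]
    exact stepC _ (by omega)
  have h8 := AQ.add_mem h6 h7
  rw [sub_add_cancel] at h8
  have h9 : constantCoeff (C (1 / 2) * w * G * (1 + (C y - 1) * X ^ k)) =
      1 / 2 * (2 * j + 1 : ℚ) := by
    have : constantCoeff ((C y - 1 : P) * X ^ k) = 0 := by
      rw [mul_comm]; exact cc_X_pow hk _
    rw [map_mul, map_mul, map_mul, map_add, this, hG1, hj, constantCoeff_C, map_one]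
    ring
  rw [h9] at h8
  obtain ⟨i, hi⟩ := memAQ.1 h8
  have : ((2 * i : ℤ) : ℚ) = ((2 * j + 1 : ℤ) : ℚ) := by
    push_cast; rw [hi]; ring
  have h10 : (2 * i : ℤ) = 2 * j + 1 := by exact_mod_cast this
  omega

/-- JETB -/
theorem case_B {F : Set (P × P)} (hF : Uni AP F) {m : ℕ} (hm : 1 ≤ m) {e1 e2 : P × P} {w : P}
    (h : NF F m (m + 1) e1 e2 w) :
    NB F m e1 e2 ∧ Half (PowerSeries.coeff m e1.2) ∧
      Half (PowerSeries.coeff m (e1.1 - e2.2)) := by
  have hE1 := h.1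
  have hE2 := h.2.1
  obtain ⟨j, hj⟩ := h.2.2.2.1
  obtain ⟨a, b, c, d, r, s, rfl, rfl, ha, hc, ha1, hd1⟩ := nf_unpack h
  have hc' : c = X ^ m * (C (1 / 2) * w * d + X * s) := by rw [hc, pow_succ]; ring
  have had : a - d = X ^ m * (C (1 / 2) * w * d + X * r) := by rw [ha, pow_succ]; ring
  refine ⟨⟨hE1, hE2, ha1, hd1, ?_, ⟨_, hc'⟩, ⟨_, had⟩⟩, ?_, ?_⟩
  · exact ⟨X * b, by simp only; rw [pow_succ]; ring⟩
  · simp only
    rw [hc', co_self]
    refine ⟨j, ?_⟩
    simp only [map_add, map_mul, constantCoeff_X, zero_mul, add_zero, constantCoeff_C, hj, hd1]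
    ring
  · simp only
    rw [had, co_self]
    refine ⟨j, ?_⟩
    simp only [map_add, map_mul, constantCoeff_X, zero_mul, add_zero, constantCoeff_C, hj, hd1]
    ring

/-- JETB -/
theorem case_A {F : Set (P × P)} (hF : Uni AP F) {m : ℕ} (hm : 1 ≤ m) {e1 e2 : P × P}
    (he : NB F m e1 e2) (y : ℚ) {f1 f2 : P × P} {w : P}
    (h : NF {z : P × P | (PowerSeries.X ^ m * (z.1 + PowerSeries.C y * z.2), z.2) ∈ F}
      (2 * m) (3 * m) f1 f2 w) :
    Half (PowerSeries.coeff m e1.2) ∧ PowerSeries.coeff m (e1.1 - e2.2) ∈ AQ := by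
  obtain ⟨a, c⟩ := e1
  obtain ⟨b, d⟩ := e2
  obtain ⟨hE1, hE2, ha1, hd1, ⟨b0, hb0⟩, ⟨c0, hc0⟩, ⟨t, ht⟩⟩ := he
  simp only at ha1 hd1 hb0 hc0 ht
  have hG1 := h.1
  have hG2 := h.2.1
  obtain ⟨j, hj⟩ := h.2.2.2.1
  obtain ⟨a', b', c', d', r, s, rfl, rfl, ha', hc', ha1', hd1'⟩ := nf_unpack h
  change (X ^ m * (a' + C y * c'), c') ∈ F at hG1
  change (X ^ m * (X ^ (3 * m) * b' + C y * d'), d') ∈ F at hG2
  have k1 := uni_dt hF hG1 hE1
  have k2 := uni_dt hF hG1 hE2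
  have k3 := uni_dt hF hG2 hE1
  have hcX : c' = X ^ (m + m) * (C (1 / 2) * w * d' + X ^ m * s) := by
    rw [hc', show 3 * m = m + m + m by ring, show 2 * m = m + m by ring, pow_add X (m + m) m]
    ring
  have haX : a' = d' + X ^ (m + m) * (C (1 / 2) * w * d' + X ^ m * r) := by
    rw [ha', show 3 * m = m + m + m by ring, show 2 * m = m + m by ring, pow_add X (m + m) m]
    ring
  have cc' : constantCoeff c' = 0 := by rw [hcX, cc_X_pow (by omega)]
  -- coefficient 2m of the first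
  have d1 : dt (X ^ m * (a' + C y * c'), c') (a, c) =
      X ^ (m + m) * ((a' + C y * c') * c0 - (C (1 / 2) * w * d' + X ^ m * s) * a) := by
    unfold dt; simp only
    have : X ^ m * (a' + C y * c') * c - c' * a = X ^ m * (a' + C y * c') * (X ^ m * c0) -
      (X ^ (m + m) * (C (1 / 2) * w * d' + X ^ m * s)) * a := by rw [← hcX, ← hc0]
    rw [this, pow_add]
    ring
  rw [d1] at k1
  have k1' := memAP.1 k1 (m + m)
  rw [co_self] at k1'
  have v1 : constantCoeff ((a' + C y * c') * c0 - (C (1 / 2) * w * d' + X ^ m * s) * a) =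
      constantCoeff c0 - 1 / 2 * (2 * j + 1 : ℚ) := by
    simp only [map_sub, map_mul, map_add, cc', ha1', hj, hd1', ha1, constantCoeff_C, map_pow,
      constantCoeff_X, zero_pow (show m ≠ 0 by omega)]
    ring
  rw [v1] at k1'
  obtain ⟨i1, hi1⟩ := memAQ.1 k1'
  refine ⟨⟨i1 + j, ?_⟩, ?_⟩
  · simp only
    rw [hc0, co_self]
    push_cast
    rw [hi1]; ring
  -- second
  have d2 : dt (X ^ m * (a' + C y * c'), c') (b, d) =
      X ^ m * (d' * d + X ^ (m + m) * ((C (1 / 2) * w * d' + X ^ m * r) * d +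
        C y * (C (1 / 2) * w * d' + X ^ m * s) * d - (C (1 / 2) * w * d' + X ^ m * s) * b0)) := by
    unfold dt; simp only
    rw [hb0]
    conv_lhs => rw [haX, hcX]
    ring
  have d3 : dt (X ^ m * (X ^ (3 * m) * b' + C y * d'), d') (a, c) =
      -(d' * a) + X ^ (m + m) * ((X ^ (3 * m) * b' + C y * d') * c0) := by
    unfold dt; simp only
    rw [hc0, pow_add]
    ring
  rw [d2] at k2
  rw [d3] at k3
  have k2' := memAP.1 k2 (m + m)
  rw [co_shift, co_add (by omega)] at k2'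
  have k3' := memAP.1 k3 m
  rw [co_add (by omega), map_neg] at k3'
  have k4 := AQ.neg_mem (AQ.add_mem k2' k3')
  have v4 : -(coeff m (d' * d) + -coeff m (d' * a)) = coeff m (a - d) := by
    have : coeff m (d' * a) - coeff m (d' * d) = coeff m (X ^ m * (d' * t)) := by
      rw [← map_sub]
      congr 1
      calc d' * a - d' * d = d' * (a - d) := by ring
        _ = _ := by rw [ht]; ring
    rw [ht, co_self]
    rw [co_self, RingHom.map_mul, hd1', one_mul] at this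
    rw [← this]; ring
  rw [v4] at k4
  exact k4

/-- JETB -/
theorem parity {F G : Set (P × P)} (hF : Uni AP F) (hG : Uni AP G) {m : ℕ} (hm : 1 ≤ m)
    {e1 e2 f1 f2 : P × P} (he : NB F m e1 e2) (hf : NB G m f1 f2) {ρ σ : ℚ}
    (hFG : ∀ z ∈ G, (-z.2 - PowerSeries.C ρ * PowerSeries.X ^ m * (z.1 + PowerSeries.C σ * z.2),
      PowerSeries.X ^ m * (z.1 + PowerSeries.C σ * z.2)) ∈ F)
    (h1 : Half (PowerSeries.coeff m e1.2)) (h2 : Half (PowerSeries.coeff m f1.2)) :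
    Half (PowerSeries.coeff m (e1.1 - e2.2) + PowerSeries.coeff m (f1.1 - f2.2)) := by
  obtain ⟨a, c⟩ := e1
  obtain ⟨b, d⟩ := e2
  obtain ⟨a', c'⟩ := f1
  obtain ⟨b', d'⟩ := f2
  obtain ⟨hE1, hE2, ha1, hd1, ⟨b0, hb0⟩, ⟨c0, hc0⟩, ⟨t, ht⟩⟩ := he
  obtain ⟨hF1, hF2, ha1', hd1', ⟨b0', hb0'⟩, ⟨c0', hc0'⟩, ⟨t', ht'⟩⟩ := hf
  simp only at ha1 hd1 hb0 hc0 ht ha1' hd1' hb0' hc0' ht' h1 h2 ⊢
  have Z1 := hFG _ hF1
  have Z2 := hFG _ hF2
  simp only at Z1 Z2
  have k1 := uni_dt hF Z1 hE2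
  have k2 := uni_dt hF Z2 hE1
  have k3 := uni_dt hF Z1 hE1
  have k4 := uni_dt hF Z2 hE2
  have cc : constantCoeff c = 0 := by rw [hc0, cc_X_pow hm]
  have cc' : constantCoeff c' = 0 := by rw [hc0', cc_X_pow hm]
  have cb' : constantCoeff b' = 0 := by rw [hb0', cc_X_pow hm]
  have x0 : (0 : ℚ) ^ m = 0 := zero_pow (by omega)
  have d1 : dt (-c' - C ρ * X ^ m * (a' + C σ * c'), X ^ m * (a' + C σ * c')) (b, d) =
      X ^ m * ((-c0' - C ρ * (a' + C σ * c')) * d - X ^ m * ((a' + C σ * c') * b0)) := by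
    unfold dt; simp only
    have : -c' * d = -(X ^ m * c0') * d := by rw [← hc0']
    rw [hb0]
    linear_combination this
  have d2 : dt (-d' - C ρ * X ^ m * (b' + C σ * d'), X ^ m * (b' + C σ * d')) (a, c) =
      X ^ m * ((-d' - C ρ * X ^ m * (b' + C σ * d')) * c0 - (b' + C σ * d') * a) := by
    unfold dt; simp only
    rw [hc0]
    ring
  have d3 : dt (-c' - C ρ * X ^ m * (a' + C σ * c'), X ^ m * (a' + C σ * c')) (a, c) =
      X ^ m * (X ^ m * ((-c0' - C ρ * (a' + C σ * c')) * c0 - C σ * c0' * a - (t' * d + d' * t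
        + X ^ m * (t * t'))) - d' * d) := by
    unfold dt; simp only
    have e1 : a = d + X ^ m * t := by rw [← ht]; ring
    have e2 : a' = d' + X ^ m * t' := by rw [← ht']; ring
    have e3 : a' * a = d' * d + X ^ m * (t' * d + d' * t + X ^ m * (t * t')) := by
      rw [e1, e2]; ring
    linear_combination (-(X ^ m * c0)) * hc0' - X ^ m * C σ * a * hc0' +
      (-c' - C ρ * X ^ m * (a' + C σ * c')) * hc0 - X ^ m * e3
  have d4 : dt (-d' - C ρ * X ^ m * (b' + C σ * d'), X ^ m * (b' + C σ * d')) (b, d) =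
      -(d' * d) + X ^ m * (-(C ρ * (b' + C σ * d')) * d - X ^ m * ((b' + C σ * d') * b0)) := by
    unfold dt; simp only
    rw [hb0]
    ring
  rw [d1] at k1
  rw [d2] at k2
  rw [d3] at k3
  rw [d4] at k4
  have q1 := memAP.1 k1 m
  have q2 := memAP.1 k2 m
  have q3 := memAP.1 k3 (m + m)
  have q4 := memAP.1 k4 m
  rw [co_self] at q1 q2
  rw [co_shift, map_sub, co_self] at q3
  rw [map_add, map_neg, co_self] at q4
  simp only [map_sub, map_mul, map_add, map_neg, map_pow, constantCoeff_X, constantCoeff_C, x0,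
    cc', cb', ha1, ha1', hd1, hd1', mul_zero, zero_mul, add_zero, mul_one, zero_add,
    sub_zero] at q1 q2 q3 q4
  rw [ht, ht', co_self, co_self]
  rw [hc0, co_self] at h1
  rw [hc0', co_self] at h2
  obtain ⟨p, hp⟩ := h1
  obtain ⟨q, hq⟩ := h2
  obtain ⟨i1, hi1⟩ := memAQ.1 q1
  obtain ⟨i2, hi2⟩ := memAQ.1 q2
  obtain ⟨i3, hi3⟩ := memAQ.1 q3
  obtain ⟨i4, hi4⟩ := memAQ.1 q4
  refine ⟨2 * p * q + p + q + 2 * i1 * p + i1 + 2 * i2 * q + i2 + i1 * i2 + i4 - i3, ?_⟩
  push_cast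
  have r1 : ρ = -constantCoeff c0' - i1 := by linarith
  have r2 : σ = -constantCoeff c0 - i2 := by linarith
  rw [hi3, hi4, r1, r2, hp, hq]
  ring

end Pool.Agent.GE2
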