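import Pool.Agent.GE2.Defs

/-!
# Lower bound for the level along a line (job GE2-LB)
-/

set_option autoImplicit false

namespace Pool.Agent.GE2

open LaurentPolynomial

namespace LBaux

theorem mem_AS {f : S} : f ∈ AS ↔ ∀ n, ∃ m : ℤ, f.coeff n = m := by
  constructor
  · rintro ⟨g, rfl⟩ n
    exact ⟨g.coeff n, by simp [iota]⟩
  · intro h
    choose m hm using h
    refine ⟨⟨Finsupp.onFinset f.coeff.support m ?_⟩, ?_⟩
    · intro n hn
      rw [Finsupp.mem_support_iff, hm n]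
      exact_mod_cast hn
    · ext n
      simp [iota, hm n]

theorem T_mem (i : ℤ) : (T i : S) ∈ AS := by
  rw [mem_AS]
  intro n
  rw [T_apply]
  split_ifs
  · exact ⟨1, by simp⟩
  · exact ⟨0, by simp⟩

theorem coeff_T_mul (i : ℤ) (f : S) (n : ℤ) : (T i * f).coeff n = f.coeff (n - i) := by
  have := AddMonoidAlgebra.coeff_single_mul_apply f (1 : ℚ) i n
  rw [one_mul] at this
  rw [show n - i = -i + n by ring]
  exact this

theorem coeff_C_mul (a : ℚ) (f : S) (n : ℤ) : (C a * f).coeff n = a * f.coeff n := by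
  have := AddMonoidAlgebra.coeff_single_mul_apply f a 0 n
  simpa using this

theorem T_mul_T (i : ℤ) : (T i * T (-i) : S) = 1 := by
  rw [← T_add, add_neg_cancel, T_zero]

theorem T_mul_T' (i : ℤ) : (T (-i) * T i : S) = 1 := by
  rw [← T_add, neg_add_cancel, T_zero]

theorem mem_Lat {b1 b2 z : S × S} : z ∈ Lat b1 b2 ↔
    z.1 * b1.1 + z.2 * b2.1 ∈ AS ∧ z.1 * b1.2 + z.2 * b2.2 ∈ AS := Iff.rfl

theorem mem_Pos {z : S × S} : z ∈ Pos ↔ ∀ n : ℤ, n < 0 → z.1.coeff n = 0 ∧ z.2.coeff n = 0 :=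
  Iff.rfl

theorem mem_Neg {z : S × S} : z ∈ Neg ↔ ∀ n : ℤ, 0 ≤ n → z.1.coeff n = 0 ∧ z.2.coeff n = 0 :=
  Iff.rfl

theorem Lat_T {b1 b2 z : S × S} (hz : z ∈ Lat b1 b2) (i : ℤ) :
    (T i * z.1, T i * z.2) ∈ Lat b1 b2 := by
  rw [mem_Lat] at hz ⊢
  constructor
  · have := AS.mul_mem (T_mem i) hz.1
    rwa [mul_add, ← mul_assoc, ← mul_assoc] at this
  · have := AS.mul_mem (T_mem i) hz.2
    rwa [mul_add, ← mul_assoc, ← mul_assoc] at this

/-- The lattice of a frame is unimodular. -/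
theorem Lat_uni {b1 b2 : S × S} (hB : IsFr b1 b2) : Uni AS (Lat b1 b2 : Set (S × S)) := by
  obtain ⟨k, hk⟩ := hB
  have hT := T_mul_T' k
  refine ⟨(T (-k) * b2.2, -(T (-k) * b1.2)), (-b2.1, b1.1), ?_, ?_⟩
  · unfold dt at hk ⊢
    simp only
    linear_combination T (-k) * hk + hT
  · ext z
    simp only [SetLike.mem_coe, mem_Lat, Set.mem_ofPred_eq]
    have e1 : dt z (T (-k) * b2.2, -(T (-k) * b1.2)) =
        -(T (-k) * (z.1 * b1.2 + z.2 * b2.2)) := by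
      unfold dt; simp only; ring
    have e2 : dt z (-b2.1, b1.1) = z.1 * b1.1 + z.2 * b2.1 := by
      unfold dt; simp only; ring
    rw [e1, e2]
    constructor
    · rintro ⟨h1, h2⟩
      exact ⟨AS.neg_mem (AS.mul_mem (T_mem _) h2), h1⟩
    · rintro ⟨h1, h2⟩
      refine ⟨h2, ?_⟩
      have h3 := AS.mul_mem (T_mem k) (AS.neg_mem h1)
      have h4 : T k * -(-(T (-k) * (z.1 * b1.2 + z.2 * b2.2))) =
          z.1 * b1.2 + z.2 * b2.2 := by
        linear_combination (z.1 * b1.2 + z.2 * b2.2) * T_mul_T k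
      rwa [h4] at h3

/-- Values `dt b1 r` on integral vectors. -/
noncomputable def J (b1 : S × S) : AddSubgroup S where
  carrier := {i | ∃ r : S × S, r.1 ∈ AS ∧ r.2 ∈ AS ∧ i = dt b1 r}
  add_mem' := by
    rintro _ _ ⟨r, h1, h2, rfl⟩ ⟨s, h3, h4, rfl⟩
    exact ⟨(r.1 + s.1, r.2 + s.2), AS.add_mem h1 h3, AS.add_mem h2 h4, by unfold dt; ring⟩
  zero_mem' := ⟨(0, 0), AS.zero_mem, AS.zero_mem, by unfold dt; ring⟩
  neg_mem' := by
    rintro _ ⟨r, h1, h2, rfl⟩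
    exact ⟨(-r.1, -r.2), AS.neg_mem h1, AS.neg_mem h2, by unfold dt; ring⟩

/-- no terms of negative degree -/
noncomputable def Ge : AddSubgroup S where
  carrier := {i | ∀ n : ℤ, n < 0 → i.coeff n = 0}
  add_mem' := by
    intro a b ha hb n hn
    simp [ha n hn, hb n hn]
  zero_mem' := by intro n _; simp
  neg_mem' := by
    intro a ha n hn
    simp [ha n hn]

/-- terms of negative degree only -/
noncomputable def Lt : AddSubgroup S where
  carrier := {i | ∀ n : ℤ, 0 ≤ n → i.coeff n = 0}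
  add_mem' := by
    intro a b ha hb n hn
    simp [ha n hn, hb n hn]
  zero_mem' := by intro n _; simp
  neg_mem' := by
    intro a ha n hn
    simp [ha n hn]

/-- the second coordinate -/
noncomputable def sec : S × S →+ S := AddMonoidHom.snd S S

theorem map_J {b1 b2 : S × S} (hB : IsFr b1 b2) : (Lat b1 b2).map sec = J b1 := by
  obtain ⟨k, hk⟩ := hB
  ext i
  constructor
  · rintro ⟨z, hz, rfl⟩
    have hz' := mem_Lat.1 hz
    refine ⟨(T (-k) * (z.1 * b1.1 + z.2 * b2.1), T (-k) * (z.1 * b1.2 + z.2 * b2.2)),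
      AS.mul_mem (T_mem _) hz'.1, AS.mul_mem (T_mem _) hz'.2, ?_⟩
    have hT := T_mul_T' k
    unfold dt at hk ⊢
    simp only [sec, AddMonoidHom.coe_snd]
    linear_combination -(T (-k) * z.2) * hk - z.2 * hT
  · rintro ⟨r, h1, h2, rfl⟩
    refine ⟨(dt r b2, dt b1 r), ?_, rfl⟩
    rw [SetLike.mem_coe, mem_Lat]
    have e1 : dt r b2 * b1.1 + dt b1 r * b2.1 = T k * r.1 := by
      rw [← hk]; unfold dt; ring
    have e2 : dt r b2 * b1.2 + dt b1 r * b2.2 = T k * r.2 := by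
      rw [← hk]; unfold dt; ring
    simp only
    rw [e1, e2]
    exact ⟨AS.mul_mem (T_mem _) h1, AS.mul_mem (T_mem _) h2⟩

/-- the split part of `J` -/
noncomputable def A (b1 : S × S) : AddSubgroup S := (J b1 ⊓ Ge) ⊔ (J b1 ⊓ Lt)

theorem sub_A {b1 b2 : S × S} (hB : IsFr b1 b2) :
    (Lat b1 b2 ⊓ Pos) ⊔ (Lat b1 b2 ⊓ Neg) ≤ (A b1).comap sec := by
  refine sup_le ?_ ?_
  · rintro z ⟨h1, h2⟩
    refine AddSubgroup.mem_sup_left ⟨?_, fun n hn => (h2 n hn).2⟩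
    rw [← map_J hB]
    exact ⟨z, h1, rfl⟩
  · rintro z ⟨h1, h2⟩
    refine AddSubgroup.mem_sup_right ⟨?_, fun n hn => (h2 n hn).2⟩
    rw [← map_J hB]
    exact ⟨z, h1, rfl⟩

theorem relIndex_J {b1 b2 : S × S} (hB : IsFr b1 b2) :
    ((A b1).comap sec).relIndex (Lat b1 b2) = (A b1).relIndex (J b1) := by
  rw [AddSubgroup.relIndex_comap, map_J hB]

/-- nonnegative part -/
noncomputable def pp (f : S) : S := ⟨f.coeff.filter (fun n => 0 ≤ n)⟩

/-- negative part -/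
noncomputable def np (f : S) : S := ⟨f.coeff.filter (fun n => ¬ 0 ≤ n)⟩

theorem coeff_pp (f : S) (n : ℤ) : (pp f).coeff n = if 0 ≤ n then f.coeff n else 0 :=
  Finsupp.filter_apply _ _ _

theorem coeff_np (f : S) (n : ℤ) : (np f).coeff n = if ¬ 0 ≤ n then f.coeff n else 0 :=
  Finsupp.filter_apply _ _ _

theorem pp_add_np (f : S) : pp f + np f = f := by
  ext n
  have : (pp f + np f).coeff n = (pp f).coeff n + (np f).coeff n := rfl
  rw [this, coeff_pp, coeff_np]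
  split_ifs <;> simp_all

/-- Elements `(e,0)` of the lattice split. -/
theorem ker_split {L : AddSubgroup (S × S)} {n : ℚ}
    (hn : ∀ f : S, (f, 0) ∈ L ↔ C n⁻¹ * f ∈ AS) {e : S} (he : (e, 0) ∈ L) :
    ((e, 0) : S × S) ∈ (L ⊓ Pos) ⊔ (L ⊓ Neg) := by
  have h1 := mem_AS.1 ((hn e).1 he)
  have hp : (pp e, (0 : S)) ∈ L ⊓ Pos := by
    refine ⟨(hn _).2 (mem_AS.2 fun m => ?_), fun m hm => ⟨?_, by simp⟩⟩
    · rw [coeff_C_mul, coeff_pp]
      split_ifs
      · rw [← coeff_C_mul]; exact h1 m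
      · exact ⟨0, by simp⟩
    · simp only [coeff_pp]
      rw [if_neg (by omega)]
  have hq : (np e, (0 : S)) ∈ L ⊓ Neg := by
    refine ⟨(hn _).2 (mem_AS.2 fun m => ?_), fun m hm => ⟨?_, by simp⟩⟩
    · rw [coeff_C_mul, coeff_np]
      split_ifs
      · exact ⟨0, by simp⟩
      · rw [← coeff_C_mul]; exact h1 m
    · simp only [coeff_np]
      rw [if_neg (by omega)]
  have : ((e, 0) : S × S) = (pp e, 0) + (np e, 0) := by
    rw [Prod.mk_add_mk, pp_add_np, add_zero]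
  rw [this]
  exact AddSubgroup.add_mem_sup hp hq

theorem coeff_toL_nat (p : Polynomial ℚ) (n : ℕ) :
    (Polynomial.toLaurent p : S).coeff (n : ℤ) = p.coeff n := by
  rw [coeff_toLaurent]
  exact Finsupp.mapDomain_apply Nat.cast_injective _ _

theorem coeff_toL_neg (p : Polynomial ℚ) {n : ℤ} (hn : n < 0) :
    (Polynomial.toLaurent p : S).coeff n = 0 := by
  rw [coeff_toLaurent]
  apply Finsupp.mapDomain_of_notMem_range
  rintro ⟨m, hm⟩
  have : (m : ℤ) = n := hm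
  omega

theorem exists_poly {f : S} (h : ∀ n : ℤ, n < 0 → f.coeff n = 0) :
    ∃ p : Polynomial ℚ, (Polynomial.toLaurent p : S) = f := by
  refine ⟨trunc f, ?_⟩
  ext n
  rcases lt_or_ge n 0 with hn | hn
  · rw [coeff_toL_neg _ hn, h n hn]
  · lift n to ℕ using hn
    rw [coeff_toL_nat]
    rfl

/-- Membership in `M0`. -/
theorem mem_M0 {L : Set (S × S)} {z : S × S} (hz : z ∈ L)
    (hp : ∀ n : ℤ, n < 0 → z.1.coeff n = 0 ∧ z.2.coeff n = 0) :
    (z.1.coeff 0, z.2.coeff 0) ∈ M0 L := by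
  obtain ⟨p, hp1⟩ := exists_poly fun n hn => (hp n hn).1
  obtain ⟨q, hq1⟩ := exists_poly fun n hn => (hp n hn).2
  refine ⟨(p, q), ?_, ?_⟩
  · change ((Polynomial.toLaurent p : S), (Polynomial.toLaurent q : S)) ∈ L
    rw [hp1, hq1]
    exact hz
  · simp only
    rw [← coeff_toL_nat, ← coeff_toL_nat, hp1, hq1]
    rfl

/-- Pole removal at zero. -/
theorem pole0 {b1 b2 : S × S}
    (h0 : ∀ q : ℚ, ((q, 0) : ℚ × ℚ) ∈ M0 (Lat b1 b2 : Set (S × S)) →
      ((q, 0) : ℚ × ℚ) ∈ Mc (Lat b1 b2 : Set (S × S))) (j : ℕ) :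
    ∀ z ∈ Lat b1 b2, (∀ n : ℤ, n < 0 → z.2.coeff n = 0) →
      (∀ n : ℤ, n < -j → z.1.coeff n = 0) → ∃ c : S, (c, 0) ∈ Lat b1 b2 ∧ z - (c, 0) ∈ Pos := by
  induction j with
  | zero =>
    intro z hz h2 h1
    refine ⟨0, (Lat b1 b2).zero_mem, fun n hn => ?_⟩
    simp only [Prod.mk_zero_zero, sub_zero]
    exact ⟨h1 n (by simpa using hn), h2 n hn⟩
  | succ j ih =>
    intro z hz h2 h1
    have h3 : (z.1.coeff (-(j + 1 : ℤ)), (0 : ℚ)) ∈ M0 (Lat b1 b2 : Set (S × S)) := by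
      have := mem_M0 (L := (Lat b1 b2 : Set (S × S))) (Lat_T hz (j + 1)) (fun n hn => by
        simp only [coeff_T_mul]
        exact ⟨h1 _ (by push_cast; omega), h2 _ (by omega)⟩)
      simp only [coeff_T_mul, zero_sub] at this
      rwa [h2 _ (by omega)] at this
    have h4 : ((C (z.1.coeff (-(j + 1 : ℤ))) : S), (0 : S)) ∈ Lat b1 b2 := by
      have := h0 _ h3
      simpa [Mc] using this
    have h5 : ((T (-(j + 1 : ℤ)) * C (z.1.coeff (-(j + 1 : ℤ))) : S), (0 : S)) ∈ Lat b1 b2 := by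
      simpa using Lat_T h4 (-(j + 1 : ℤ))
    obtain ⟨c, hc1, hc2⟩ := ih (z - (T (-(j + 1 : ℤ)) * C (z.1.coeff (-(j + 1 : ℤ))), 0))
      ((Lat b1 b2).sub_mem hz h5) (fun n hn => by simpa using h2 n hn) (fun n hn => by
        have e : (z - (T (-(j + 1 : ℤ)) * C (z.1.coeff (-(j + 1 : ℤ))), 0)).1.coeff n =
          z.1.coeff n - (T (-(j + 1 : ℤ)) * C (z.1.coeff (-(j + 1 : ℤ))) : S).coeff n := rfl
        rw [e, coeff_T_mul, C_apply]
        rcases eq_or_ne n (-(j + 1 : ℤ)) with h | h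
        · rw [if_pos (by omega), h]; ring
        · rw [if_neg (by omega), h1 n (by push_cast; omega)]; ring)
    refine ⟨T (-(j + 1 : ℤ)) * C (z.1.coeff (-(j + 1 : ℤ))) + c, ?_, ?_⟩
    · have := (Lat b1 b2).add_mem h5 hc1
      simpa using this
    · have e : z - (T (-(j + 1 : ℤ)) * C (z.1.coeff (-(j + 1 : ℤ))) + c, (0 : S)) =
          z - (T (-(j + 1 : ℤ)) * C (z.1.coeff (-(j + 1 : ℤ))), 0) - (c, 0) := by
        ext1
        · simp only [Prod.fst_sub]; ring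
        · simp only [Prod.snd_sub]; ring
      rw [e]
      exact hc2

/-- Pole removal at infinity. -/
theorem polei {b1 b2 : S × S}
    (hi : ∀ q : ℚ, ((q, 0) : ℚ × ℚ) ∈ Mi (Lat b1 b2 : Set (S × S)) →
      ((q, 0) : ℚ × ℚ) ∈ Mc (Lat b1 b2 : Set (S × S))) (j : ℕ) :
    ∀ z ∈ Lat b1 b2, (∀ n : ℤ, 0 ≤ n → z.2.coeff n = 0) →
      (∀ n : ℤ, j ≤ n → z.1.coeff n = 0) → ∃ c : S, (c, 0) ∈ Lat b1 b2 ∧ z - (c, 0) ∈ Neg := by
  induction j with
  | zero =>
    intro z hz h2 h1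
    refine ⟨0, (Lat b1 b2).zero_mem, fun n hn => ?_⟩
    simp only [Prod.mk_zero_zero, sub_zero]
    exact ⟨h1 n (by simpa using hn), h2 n hn⟩
  | succ j ih =>
    intro z hz h2 h1
    have h3 : (z.1.coeff (j : ℤ), (0 : ℚ)) ∈ Mi (Lat b1 b2 : Set (S × S)) := by
      have h4 : (invert (T (-j : ℤ) * z.1), invert (T (-j : ℤ) * z.2)) ∈
          mir (Lat b1 b2 : Set (S × S)) := by
        change (invert (invert (T (-j : ℤ) * z.1)), invert (invert (T (-j : ℤ) * z.2))) ∈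
          (Lat b1 b2 : Set (S × S))
        rw [involutive_invert, involutive_invert]
        exact Lat_T hz (-j)
      have := mem_M0 h4 (fun n hn => by
        simp only [invert_apply, coeff_T_mul]
        exact ⟨h1 _ (by push_cast; omega), h2 _ (by omega)⟩)
      simp only [invert_apply, coeff_T_mul, neg_zero, zero_sub, neg_neg] at this
      rwa [h2 _ (by omega)] at this
    have h4 : ((C (z.1.coeff (j : ℤ)) : S), (0 : S)) ∈ Lat b1 b2 := by
      have := hi _ h3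
      simpa [Mc] using this
    have h5 : ((T (j : ℤ) * C (z.1.coeff (j : ℤ)) : S), (0 : S)) ∈ Lat b1 b2 := by
      simpa using Lat_T h4 (j : ℤ)
    obtain ⟨c, hc1, hc2⟩ := ih (z - (T (j : ℤ) * C (z.1.coeff (j : ℤ)), 0))
      ((Lat b1 b2).sub_mem hz h5) (fun n hn => by simpa using h2 n hn) (fun n hn => by
        have e : (z - (T (j : ℤ) * C (z.1.coeff (j : ℤ)), 0)).1.coeff n =
          z.1.coeff n - (T (j : ℤ) * C (z.1.coeff (j : ℤ)) : S).coeff n := rfl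
        rw [e, coeff_T_mul, C_apply]
        rcases eq_or_ne n (j : ℤ) with h | h
        · rw [if_pos (by omega), h]; ring
        · rw [if_neg (by omega), h1 n (by push_cast; omega)]; ring)
    refine ⟨T (j : ℤ) * C (z.1.coeff (j : ℤ)) + c, ?_, ?_⟩
    · have := (Lat b1 b2).add_mem h5 hc1
      simpa using this
    · have e : z - (T (j : ℤ) * C (z.1.coeff (j : ℤ)) + c, (0 : S)) =
          z - (T (j : ℤ) * C (z.1.coeff (j : ℤ)), 0) - (c, 0) := by
        ext1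
        · simp only [Prod.fst_sub]; ring
        · simp only [Prod.snd_sub]; ring
      rw [e]
      exact hc2

theorem bound_neg (f : S) : ∃ j : ℕ, ∀ n : ℤ, n < -j → f.coeff n = 0 := by
  obtain ⟨m, hm⟩ := f.coeff.support.bddBelow
  refine ⟨m.natAbs, fun n hn => ?_⟩
  by_contra hcon
  have := hm (Finset.mem_coe.2 (Finsupp.mem_support_iff.2 hcon))
  omega

theorem bound_pos (f : S) : ∃ j : ℕ, ∀ n : ℤ, j ≤ n → f.coeff n = 0 := by
  obtain ⟨m, hm⟩ := f.coeff.support.bddAbove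
  refine ⟨m.natAbs + 1, fun n hn => ?_⟩
  by_contra hcon
  have := hm (Finset.mem_coe.2 (Finsupp.mem_support_iff.2 hcon))
  omega

end LBaux

open LBaux

theorem lev_le (hG : ∀ L : Set (S × S), Uni AS L → ∃ n : ℚ, 0 < n ∧ ∀ f : S, (f, 0) ∈ L ↔ C n⁻¹ * f ∈ AS)
    {b1 b2 c2 : S × S} (hB : IsFr b1 b2) (hC : IsFr b1 c2) (hl : lev b1 c2 ≠ 0)
    (h0 : ∀ q : ℚ, ((q, 0) : ℚ × ℚ) ∈ M0 (Lat b1 b2 : Set (S × S)) →
      ((q, 0) : ℚ × ℚ) ∈ Mc (Lat b1 b2 : Set (S × S)))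
    (hi : ∀ q : ℚ, ((q, 0) : ℚ × ℚ) ∈ Mi (Lat b1 b2 : Set (S × S)) →
      ((q, 0) : ℚ × ℚ) ∈ Mc (Lat b1 b2 : Set (S × S))) :
    lev b1 b2 ≤ lev b1 c2 := by
  unfold lev at hl ⊢
  have h1 : (A b1).relIndex (J b1) ≤
      ((Lat b1 c2 ⊓ Pos) ⊔ (Lat b1 c2 ⊓ Neg)).relIndex (Lat b1 c2) := by
    rw [← relIndex_J hC]
    exact AddSubgroup.relIndex_le_of_le_left (sub_A hC) hl
  have h2 : (A b1).relIndex (J b1) ≠ 0 := by
    rw [← relIndex_J hC]
    exact fun h => hl (AddSubgroup.relIndex_eq_zero_of_le_left (sub_A hC) h)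
  refine le_trans ?_ h1
  have h3 : ((A b1).comap sec ⊓ Lat b1 b2).relIndex (Lat b1 b2) = (A b1).relIndex (J b1) := by
    rw [AddSubgroup.inf_relIndex_right, relIndex_J hB]
  rw [← h3]
  refine AddSubgroup.relIndex_le_of_le_left ?_ (by rw [h3]; exact h2)
  obtain ⟨n, -, hn⟩ := hG _ (Lat_uni hB)
  rintro z ⟨hz1, hz2⟩
  obtain ⟨i1, ⟨hi1J, hi1⟩, i2, ⟨hi2J, hi2⟩, hsum⟩ := AddSubgroup.mem_sup.1 hz1
  rw [SetLike.mem_coe, ← map_J hB] at hi1J hi2J
  obtain ⟨z', hz'L, hz'2⟩ := hi1J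
  obtain ⟨w', hw'L, hw'2⟩ := hi2J
  obtain ⟨j, hj⟩ := bound_neg z'.1
  obtain ⟨j', hj'⟩ := bound_pos w'.1
  have hz'2' : z'.2 = i1 := hz'2
  have hw'2' : w'.2 = i2 := hw'2
  obtain ⟨c, hcL, hc⟩ := pole0 h0 j z' hz'L (by rw [hz'2']; exact hi1) hj
  obtain ⟨d, hdL, hd⟩ := polei hi j' w' hw'L (by rw [hw'2']; exact hi2) hj'
  have hp : z' - (c, 0) ∈ Lat b1 b2 ⊓ Pos := ⟨(Lat b1 b2).sub_mem hz'L hcL, hc⟩
  have hq : w' - (d, 0) ∈ Lat b1 b2 ⊓ Neg := ⟨(Lat b1 b2).sub_mem hw'L hdL, hd⟩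
  have hr : z - (z' - (c, 0)) - (w' - (d, 0)) ∈ (Lat b1 b2 ⊓ Pos) ⊔ (Lat b1 b2 ⊓ Neg) := by
    have e : z - (z' - (c, 0)) - (w' - (d, 0)) =
        ((z - (z' - (c, 0)) - (w' - (d, 0))).1, (0 : S)) := by
      ext1
      · rfl
      · have : z.2 = i1 + i2 := hsum.symm
        simp only [Prod.snd_sub, this, hz'2', hw'2']
        ring
    rw [e]
    apply ker_split hn
    rw [← e]
    exact (Lat b1 b2).sub_mem ((Lat b1 b2).sub_mem hz2 hp.1) hq.1
  have e : z = (z - (z' - (c, 0)) - (w' - (d, 0))) + ((z' - (c, 0)) + (w' - (d, 0))) := by ring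
  rw [e]
  exact AddSubgroup.add_mem _ hr (AddSubgroup.add_mem_sup hp hq)

end Pool.Agent.GE2
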