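import Pool.Agent.GE2.Defs
import Pool.Agent.GE2.Idx
set_option autoImplicit false
namespace Pool.Agent.GE2.LevAux
open LaurentPolynomial

lemma coeff_T_mul (i : ℤ) (p : S) (n : ℤ) : ((T i : S) * p).coeff n = p.coeff (n - i) := by
  unfold T
  rw [AddMonoidAlgebra.coeff_single_mul_apply, one_mul, neg_add_eq_sub]

lemma coeff_C_mul (a : ℚ) (p : S) (n : ℤ) : ((C a : S) * p).coeff n = a * p.coeff n := by
  rw [← single_eq_C, AddMonoidAlgebra.coeff_single_mul_apply, neg_zero, zero_add]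

lemma mem_AS (p : S) : p ∈ AS ↔ ∀ n, p.coeff n ∈ AQ := by
  constructor
  · rintro ⟨q, rfl⟩ n
    exact ⟨q.coeff n, by rw [iota, AddMonoidAlgebra.coeff_mapRingHom]⟩
  · intro h
    choose g hg using h
    refine ⟨AddMonoidAlgebra.ofCoeff (Finsupp.onFinset p.coeff.support g ?_), ?_⟩
    · intro n hn
      rw [Finsupp.mem_support_iff]
      intro h0
      have := hg n
      rw [h0] at this
      apply hn
      simpa using this
    · apply LaurentPolynomial.ext
      intro n
      rw [iota, AddMonoidAlgebra.coeff_mapRingHom]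
      exact hg n

/-- terms of nonnegative degree -/
noncomputable def pp (p : S) : S := AddMonoidAlgebra.ofCoeff (p.coeff.filter (fun n => 0 ≤ n))

/-- terms of negative degree -/
noncomputable def pn (p : S) : S := AddMonoidAlgebra.ofCoeff (p.coeff.filter (fun n => n < 0))

lemma coeff_pp (p : S) (n : ℤ) : (pp p).coeff n = if 0 ≤ n then p.coeff n else 0 := by
  rw [pp, AddMonoidAlgebra.coeff_ofCoeff, Finsupp.filter_apply]

lemma coeff_pn (p : S) (n : ℤ) : (pn p).coeff n = if n < 0 then p.coeff n else 0 := by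
  rw [pn, AddMonoidAlgebra.coeff_ofCoeff, Finsupp.filter_apply]

lemma pp_add_pn (p : S) : pp p + pn p = p := by
  apply LaurentPolynomial.ext
  intro n
  rw [AddMonoidAlgebra.coeff_add, Finsupp.add_apply, coeff_pp, coeff_pn]
  rcases lt_or_ge n 0 with h | h
  · rw [if_neg (not_le.mpr h), if_pos h, zero_add]
  · rw [if_pos h, if_neg (not_lt.mpr h), add_zero]

lemma pp_mem {p : S} (h : p ∈ AS) : pp p ∈ AS := by
  rw [mem_AS] at h ⊢
  intro n
  rw [coeff_pp]
  split_ifs
  · exact h n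
  · exact AQ.zero_mem

lemma pn_mem {p : S} (h : p ∈ AS) : pn p ∈ AS := by
  rw [mem_AS] at h ⊢
  intro n
  rw [coeff_pn]
  split_ifs
  · exact h n
  · exact AQ.zero_mem

lemma T_mem (i : ℤ) : (T i : S) ∈ AS := by
  rw [mem_AS]
  intro n
  rw [T_apply]
  split_ifs
  · exact AQ.one_mem
  · exact AQ.zero_mem

lemma T_mul_mem_iff (i : ℤ) (p : S) : (T i : S) * p ∈ AS ↔ p ∈ AS := by
  constructor
  · intro h
    have := AS.mul_mem (T_mem (-i)) h
    rwa [← mul_assoc, ← T_add, neg_add_cancel, T_zero, one_mul] at this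
  · intro h
    exact AS.mul_mem (T_mem i) h

lemma invert_mem_iff (p : S) : invert p ∈ AS ↔ p ∈ AS := by
  rw [mem_AS, mem_AS]
  constructor
  · intro h n
    have := h (-n)
    rwa [invert_apply, neg_neg] at this
  · intro h n
    rw [invert_apply]
    exact h (-n)

lemma mem_Lat (b1 b2 z : S × S) :
    z ∈ Lat b1 b2 ↔ z.1 * b1.1 + z.2 * b2.1 ∈ AS ∧ z.1 * b1.2 + z.2 * b2.2 ∈ AS := Iff.rfl

lemma mem_Pos (z : S × S) : z ∈ Pos ↔ ∀ n : ℤ, n < 0 → z.1.coeff n = 0 ∧ z.2.coeff n = 0 := Iff.rfl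

lemma mem_Neg (z : S × S) : z ∈ Neg ↔ ∀ n : ℤ, 0 ≤ n → z.1.coeff n = 0 ∧ z.2.coeff n = 0 := Iff.rfl

/-- transport of the index -/
lemma relIndex_transport {G : Type*} [AddCommGroup G] (φ : G ≃+ G) (L L' A A' B B' : AddSubgroup G)
    (hL : ∀ z, φ z ∈ L ↔ z ∈ L') (hA : ∀ z, φ z ∈ A ↔ z ∈ A') (hB : ∀ z, φ z ∈ B ↔ z ∈ B') :
    ((L' ⊓ A') ⊔ (L' ⊓ B')).relIndex L' = ((L ⊓ A) ⊔ (L ⊓ B)).relIndex L := by
  have key : ∀ (X X' : AddSubgroup G), (∀ z, φ z ∈ X ↔ z ∈ X') → X'.map (φ : G →+ G) = X := by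
    intro X X' h
    ext z
    rw [AddSubgroup.mem_map]
    constructor
    · rintro ⟨y, hy, rfl⟩
      exact (h y).mpr hy
    · intro hz
      refine ⟨φ.symm z, ?_, by simp⟩
      rw [← h]
      simpa using hz
  have hinj : Function.Injective (φ : G →+ G) := φ.injective
  rw [← AddSubgroup.relIndex_map_map_of_injective _ _ hinj, AddSubgroup.map_sup,
    AddSubgroup.map_inf _ _ _ hinj, AddSubgroup.map_inf _ _ _ hinj, key L L' hL, key A A' hA,
    key B B' hB]


/-- the additive automorphism given by a matrix of rational constants -/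
noncomputable def sl2Equiv (a b c d : ℚ) (h : a * d - b * c = 1) : (S × S) ≃+ (S × S) where
  toFun z := ((C a : S) * z.1 + (C b : S) * z.2, (C c : S) * z.1 + (C d : S) * z.2)
  invFun z := ((C d : S) * z.1 - (C b : S) * z.2, (C a : S) * z.2 - (C c : S) * z.1)
  left_inv z := by
    have h' : (C a : S) * C d - C b * C c = 1 := by rw [← map_mul, ← map_mul, ← map_sub, h, map_one]
    ext1
    · calc (C d : S) * (C a * z.1 + C b * z.2) - C b * (C c * z.1 + C d * z.2)
          = (C a * C d - C b * C c) * z.1 := by ring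
        _ = z.1 := by rw [h', one_mul]
    · calc (C a : S) * (C c * z.1 + C d * z.2) - C c * (C a * z.1 + C b * z.2)
          = (C a * C d - C b * C c) * z.2 := by ring
        _ = z.2 := by rw [h', one_mul]
  right_inv z := by
    have h' : (C a : S) * C d - C b * C c = 1 := by rw [← map_mul, ← map_mul, ← map_sub, h, map_one]
    ext1
    · calc (C a : S) * (C d * z.1 - C b * z.2) + C b * (C a * z.2 - C c * z.1)
          = (C a * C d - C b * C c) * z.1 := by ring
        _ = z.1 := by rw [h', one_mul]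
    · calc (C c : S) * (C d * z.1 - C b * z.2) + C d * (C a * z.2 - C c * z.1)
          = (C a * C d - C b * C c) * z.2 := by ring
        _ = z.2 := by rw [h', one_mul]
  map_add' z w := by
    ext1
    · simp only [Prod.fst_add, Prod.snd_add]; ring
    · simp only [Prod.fst_add, Prod.snd_add]; ring

lemma sl2_pres (Q : ℤ → Prop) (a b c d : ℚ) (h : a * d - b * c = 1) (z : S × S) :
    (∀ n : ℤ, Q n → (sl2Equiv a b c d h z).1.coeff n = 0 ∧ (sl2Equiv a b c d h z).2.coeff n = 0) ↔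
      (∀ n : ℤ, Q n → z.1.coeff n = 0 ∧ z.2.coeff n = 0) := by
  have e1 : ∀ n, (sl2Equiv a b c d h z).1.coeff n = a * z.1.coeff n + b * z.2.coeff n := by
    intro n
    change ((C a : S) * z.1 + (C b : S) * z.2).coeff n = _
    rw [AddMonoidAlgebra.coeff_add, Finsupp.add_apply, coeff_C_mul, coeff_C_mul]
  have e2 : ∀ n, (sl2Equiv a b c d h z).2.coeff n = c * z.1.coeff n + d * z.2.coeff n := by
    intro n
    change ((C c : S) * z.1 + (C d : S) * z.2).coeff n = _
    rw [AddMonoidAlgebra.coeff_add, Finsupp.add_apply, coeff_C_mul, coeff_C_mul]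
  constructor
  · intro H n hn
    obtain ⟨h1, h2⟩ := H n hn
    rw [e1] at h1
    rw [e2] at h2
    constructor
    · linear_combination d * h1 - b * h2 - z.1.coeff n * h
    · linear_combination a * h2 - c * h1 - z.2.coeff n * h
  · intro H n hn
    obtain ⟨h1, h2⟩ := H n hn
    rw [e1, e2, h1, h2]
    simp

/-- multiplication by a power of the variable -/
noncomputable def TEquiv (i : ℤ) : S ≃+ S where
  toFun z := (T i : S) * z
  invFun z := (T (-i) : S) * z
  left_inv z := by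
    change (T (-i) : S) * ((T i : S) * z) = z
    rw [← mul_assoc, ← T_add, neg_add_cancel, T_zero, one_mul]
  right_inv z := by
    change (T i : S) * ((T (-i) : S) * z) = z
    rw [← mul_assoc, ← T_add, add_neg_cancel, T_zero, one_mul]
  map_add' z w := mul_add _ _ _

/-- the substitution of the inverse variable followed by multiplication by `T (-1)` -/
noncomputable def mirEquiv : (S × S) ≃+ (S × S) :=
  AddEquiv.prodCongr
    (((invert (R := ℚ)) : S ≃ₐ[ℚ] S).toRingEquiv.toAddEquiv.trans (TEquiv (-1)))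
    (((invert (R := ℚ)) : S ≃ₐ[ℚ] S).toRingEquiv.toAddEquiv.trans (TEquiv (-1)))

lemma mirEquiv_apply (z : S × S) :
    mirEquiv z = ((T (-1) : S) * invert z.1, (T (-1) : S) * invert z.2) := rfl

/-- `(f, g) ↦ (f, T g)` -/
noncomputable def rightEquiv : (S × S) ≃+ (S × S) :=
  AddEquiv.prodCongr (AddEquiv.refl S) (TEquiv 1)

lemma rightEquiv_apply (z : S × S) : rightEquiv z = (z.1, (T 1 : S) * z.2) := rfl

lemma smul_mem_Lat {b1 b2 z : S × S} {p : S} (hp : p ∈ AS) (hz : z ∈ Lat b1 b2) :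
    (p * z.1, p * z.2) ∈ Lat b1 b2 := by
  rw [mem_Lat] at hz ⊢
  have e1 : p * z.1 * b1.1 + p * z.2 * b2.1 = p * (z.1 * b1.1 + z.2 * b2.1) := by ring
  have e2 : p * z.1 * b1.2 + p * z.2 * b2.2 = p * (z.1 * b1.2 + z.2 * b2.2) := by ring
  refine ⟨?_, ?_⟩
  · change p * z.1 * b1.1 + p * z.2 * b2.1 ∈ AS
    rw [e1]; exact AS.mul_mem hp hz.1
  · change p * z.1 * b1.2 + p * z.2 * b2.2 ∈ AS
    rw [e2]; exact AS.mul_mem hp hz.2

lemma dt_mem_AS {b1 b2 z y : S × S} (hB : IsFr b1 b2) (hz : z ∈ Lat b1 b2) (hy : y ∈ Lat b1 b2) :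
    dt z y ∈ AS := by
  obtain ⟨k, hk⟩ := hB
  rw [mem_Lat] at hz hy
  have h1 : (z.1 * b1.1 + z.2 * b2.1) * (y.1 * b1.2 + y.2 * b2.2) -
      (z.1 * b1.2 + z.2 * b2.2) * (y.1 * b1.1 + y.2 * b2.1) = T k * dt z y := by
    rw [← hk]; unfold dt; ring
  rw [← T_mul_mem_iff k, ← h1]
  exact AS.sub_mem (AS.mul_mem hz.1 hy.2) (AS.mul_mem hz.2 hy.1)

lemma intCast_mem_AQ (m : ℤ) : (m : ℚ) ∈ AQ := ⟨m, rfl⟩

lemma mem_AQ {q : ℚ} : q ∈ AQ ↔ ∃ m : ℤ, (m : ℚ) = q := Iff.rfl

lemma coeff_toLaurent_of_neg (w : Polynomial ℚ) {n : ℤ} (hn : n < 0) :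
    (Polynomial.toLaurent w : S).coeff n = 0 := by
  rw [Polynomial.toLaurent_apply]
  change (Finsupp.mapDomain (fun m : ℕ => (m : ℤ)) w.toFinsupp.coeff) n = 0
  apply Finsupp.mapDomain_of_notMem_range
  rintro ⟨m, hm⟩
  change (m : ℤ) = n at hm
  omega

lemma coeff_toLaurent_nat (w : Polynomial ℚ) (m : ℕ) :
    (Polynomial.toLaurent w : S).coeff (m : ℤ) = w.coeff m := by
  rw [Polynomial.toLaurent_apply]
  change (Finsupp.mapDomain (fun m : ℕ => (m : ℤ)) w.toFinsupp.coeff) (m : ℤ) = _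
  have := Finsupp.mapDomain_apply (f := fun m : ℕ => (m : ℤ)) Nat.cast_injective
    w.toFinsupp.coeff m
  exact this

/-- a Laurent polynomial without negative terms is a polynomial -/
lemma exists_toLaurent {p : S} (h : ∀ n : ℤ, n < 0 → p.coeff n = 0) :
    ∃ w : Polynomial ℚ, Polynomial.toLaurent w = p := by
  refine ⟨trunc p, ?_⟩
  apply LaurentPolynomial.ext
  intro n
  rcases lt_or_ge n 0 with hn | hn
  · rw [coeff_toLaurent_of_neg _ hn, h n hn]
  · obtain ⟨m, rfl⟩ := Int.eq_ofNat_of_zero_le hn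
    rw [coeff_toLaurent_nat]
    rfl

end Pool.Agent.GE2.LevAux

namespace Pool.Agent.GE2

open LaurentPolynomial LevAux

theorem lev_sl2 (b1 b2 : S × S) (a b c d : ℚ) (h : a * d - b * c = 1) :
    lev ((C a : S) • b1 + (C c : S) • b2) ((C b : S) • b1 + (C d : S) • b2) = lev b1 b2 := by
  unfold lev
  refine relIndex_transport (sl2Equiv a b c d h) _ _ _ _ _ _ ?_ ?_ ?_
  · intro z
    rw [mem_Lat, mem_Lat]
    simp only [Prod.fst_add, Prod.snd_add, Prod.smul_fst, Prod.smul_snd, smul_eq_mul]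
    change (((C a : S) * z.1 + (C b : S) * z.2) * b1.1 + ((C c : S) * z.1 + (C d : S) * z.2) * b2.1 ∈ AS ∧
      ((C a : S) * z.1 + (C b : S) * z.2) * b1.2 + ((C c : S) * z.1 + (C d : S) * z.2) * b2.2 ∈ AS) ↔ _
    have e1 : ((C a : S) * z.1 + (C b : S) * z.2) * b1.1 + ((C c : S) * z.1 + (C d : S) * z.2) * b2.1
        = z.1 * (C a * b1.1 + C c * b2.1) + z.2 * (C b * b1.1 + C d * b2.1) := by ring
    have e2 : ((C a : S) * z.1 + (C b : S) * z.2) * b1.2 + ((C c : S) * z.1 + (C d : S) * z.2) * b2.2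
        = z.1 * (C a * b1.2 + C c * b2.2) + z.2 * (C b * b1.2 + C d * b2.2) := by ring
    rw [e1, e2]
  · intro z
    rw [mem_Pos, mem_Pos]
    exact sl2_pres _ a b c d h z
  · intro z
    rw [mem_Neg, mem_Neg]
    exact sl2_pres _ a b c d h z

theorem lev_shift (b1 b2 : S × S) (i : ℤ) : lev ((T i : S) • b1) ((T i : S) • b2) = lev b1 b2 := by
  have h : Lat ((T i : S) • b1) ((T i : S) • b2) = Lat b1 b2 := by
    ext z
    rw [mem_Lat, mem_Lat]
    simp only [Prod.smul_fst, Prod.smul_snd, smul_eq_mul]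
    have e1 : z.1 * ((T i : S) * b1.1) + z.2 * ((T i : S) * b2.1)
        = (T i : S) * (z.1 * b1.1 + z.2 * b2.1) := by ring
    have e2 : z.1 * ((T i : S) * b1.2) + z.2 * ((T i : S) * b2.2)
        = (T i : S) * (z.1 * b1.2 + z.2 * b2.2) := by ring
    rw [e1, e2, T_mul_mem_iff, T_mul_mem_iff]
  unfold lev
  rw [h]

theorem lev_mir (b1 b2 : S × S) :
    lev (invert b1.1, invert b1.2) (invert b2.1, invert b2.2) = lev b1 b2 := by
  unfold lev
  rw [relIndex_transport mirEquiv (Lat b1 b2) (Lat (invert b1.1, invert b1.2) (invert b2.1, invert b2.2))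
    Neg Pos Pos Neg, sup_comm]
  · intro z
    rw [mirEquiv_apply, mem_Lat, mem_Lat]
    change ((T (-1) : S) * invert z.1 * b1.1 + (T (-1) : S) * invert z.2 * b2.1 ∈ AS ∧
      (T (-1) : S) * invert z.1 * b1.2 + (T (-1) : S) * invert z.2 * b2.2 ∈ AS) ↔
      (z.1 * invert b1.1 + z.2 * invert b2.1 ∈ AS ∧ z.1 * invert b1.2 + z.2 * invert b2.2 ∈ AS)
    have inv2 : ∀ p : S, invert (invert p) = p := fun p => involutive_invert p
    have e : ∀ x y : S, (T (-1) : S) * invert z.1 * x + (T (-1) : S) * invert z.2 * y ∈ AS ↔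
        z.1 * invert x + z.2 * invert y ∈ AS := by
      intro x y
      have e1 : (T (-1) : S) * invert z.1 * x + (T (-1) : S) * invert z.2 * y
          = (T (-1) : S) * (invert z.1 * x + invert z.2 * y) := by ring
      rw [e1, T_mul_mem_iff, ← invert_mem_iff]
      rw [map_add, map_mul, map_mul, inv2, inv2]
    rw [e, e]
  · intro z
    rw [mirEquiv_apply, mem_Neg, mem_Pos]
    simp only [coeff_T_mul, invert_apply]
    constructor
    · intro h n hn
      have := h (-n - 1) (by omega)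
      have e : -(-n - 1 - -1) = n := by ring
      rw [e] at this
      exact this
    · intro h n hn
      exact h _ (by omega)
  · intro z
    rw [mirEquiv_apply, mem_Neg, mem_Pos]
    simp only [coeff_T_mul, invert_apply]
    constructor
    · intro h n hn
      have := h (-n - 1) (by omega)
      have e : -(-n - 1 - -1) = n := by ring
      rw [e] at this
      exact this
    · intro h n hn
      exact h _ (by omega)

theorem lev_eq_one_of {b1 b2 : S × S} (hB : IsFr b1 b2)
    (hM0 : Uni AQ (M0 (Lat b1 b2 : Set (S × S))))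
    (h : ∀ m ∈ M0 (Lat b1 b2 : Set (S × S)), m ∈ Mc (Lat b1 b2 : Set (S × S))) :
    lev b1 b2 = 1 := by
  obtain ⟨x, y, hxy, hM⟩ := hM0
  have hx : ((C x.1 : S), (C x.2 : S)) ∈ Lat b1 b2 := by
    apply h x
    rw [hM]
    refine ⟨?_, ?_⟩
    · have e : dt x x = 0 := by unfold dt; ring
      rw [e]; exact AQ.zero_mem
    · rw [hxy]; exact AQ.one_mem
  have hy : ((C y.1 : S), (C y.2 : S)) ∈ Lat b1 b2 := by
    apply h y
    rw [hM]
    refine ⟨?_, ?_⟩
    · have e : dt y x = -1 := by rw [← hxy]; unfold dt; ring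
      rw [e]; exact AQ.neg_mem AQ.one_mem
    · have e : dt y y = 0 := by unfold dt; ring
      rw [e]; exact AQ.zero_mem
  set X : S × S := ((C x.1 : S), (C x.2 : S)) with hX
  set Y : S × S := ((C y.1 : S), (C y.2 : S)) with hY
  have hXY : dt X Y = 1 := by
    rw [hX, hY]
    unfold dt at hxy ⊢
    change (C x.1 : S) * C y.2 - C x.2 * C y.1 = 1
    rw [← map_mul, ← map_mul, ← map_sub, hxy, map_one]
  unfold lev
  rw [AddSubgroup.relIndex_eq_one]
  intro z hz
  set p : S := dt z Y with hp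
  set r : S := dt X z with hr
  have hpA : p ∈ AS := dt_mem_AS hB hz hy
  have hrA : r ∈ AS := dt_mem_AS hB hx hz
  have hz1 : z.1 = p * C x.1 + r * C y.1 := by
    have e : p * C x.1 + r * C y.1 = z.1 * dt X Y := by
      rw [hp, hr, hX, hY]; unfold dt; ring
    rw [e, hXY, mul_one]
  have hz2 : z.2 = p * C x.2 + r * C y.2 := by
    have e : p * C x.2 + r * C y.2 = z.2 * dt X Y := by
      rw [hp, hr, hX, hY]; unfold dt; ring
    rw [e, hXY, mul_one]
  have hcoef : ∀ (s : S) (a : ℚ) (n : ℤ), (s * C a).coeff n = s.coeff n * a := by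
    intro s a n
    rw [mul_comm, coeff_C_mul, mul_comm]
  have hmem : ∀ s u : S, s ∈ AS → u ∈ AS →
      (s * C x.1 + u * C y.1, s * C x.2 + u * C y.2) ∈ Lat b1 b2 := by
    intro s u hs hu
    have := (Lat b1 b2).add_mem (smul_mem_Lat hs hx) (smul_mem_Lat hu hy)
    rw [Prod.mk_add_mk] at this
    exact this
  have hsplit : z = (pp p * C x.1 + pp r * C y.1, pp p * C x.2 + pp r * C y.2) +
      (pn p * C x.1 + pn r * C y.1, pn p * C x.2 + pn r * C y.2) := by
    ext1
    · change z.1 = pp p * C x.1 + pp r * C y.1 + (pn p * C x.1 + pn r * C y.1)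
      calc z.1 = (pp p + pn p) * C x.1 + (pp r + pn r) * C y.1 := by
            rw [pp_add_pn, pp_add_pn]; exact hz1
        _ = _ := by ring
    · change z.2 = pp p * C x.2 + pp r * C y.2 + (pn p * C x.2 + pn r * C y.2)
      calc z.2 = (pp p + pn p) * C x.2 + (pp r + pn r) * C y.2 := by
            rw [pp_add_pn, pp_add_pn]; exact hz2
        _ = _ := by ring
  rw [hsplit]
  apply AddSubgroup.add_mem_sup
  · refine ⟨hmem _ _ (pp_mem hpA) (pp_mem hrA), ?_⟩
    intro n hn
    constructor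
    · change (pp p * C x.1 + pp r * C y.1).coeff n = 0
      rw [AddMonoidAlgebra.coeff_add, Finsupp.add_apply, hcoef, hcoef, coeff_pp, coeff_pp,
        if_neg (not_le.mpr hn), if_neg (not_le.mpr hn)]
      simp
    · change (pp p * C x.2 + pp r * C y.2).coeff n = 0
      rw [AddMonoidAlgebra.coeff_add, Finsupp.add_apply, hcoef, hcoef, coeff_pp, coeff_pp,
        if_neg (not_le.mpr hn), if_neg (not_le.mpr hn)]
      simp
  · refine ⟨hmem _ _ (pn_mem hpA) (pn_mem hrA), ?_⟩
    intro n hn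
    constructor
    · change (pn p * C x.1 + pn r * C y.1).coeff n = 0
      rw [AddMonoidAlgebra.coeff_add, Finsupp.add_apply, hcoef, hcoef, coeff_pn, coeff_pn,
        if_neg (not_lt.mpr hn), if_neg (not_lt.mpr hn)]
      simp
    · change (pn p * C x.2 + pn r * C y.2).coeff n = 0
      rw [AddMonoidAlgebra.coeff_add, Finsupp.add_apply, hcoef, hcoef, coeff_pn, coeff_pn,
        if_neg (not_lt.mpr hn), if_neg (not_lt.mpr hn)]
      simp

theorem Mc_of_lev_eq_one {b1 b2 : S × S} (hB : IsFr b1 b2) (h : lev b1 b2 = 1) :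
    ∀ m ∈ M0 (Lat b1 b2 : Set (S × S)), m ∈ Mc (Lat b1 b2 : Set (S × S)) := by
  rintro m ⟨w, hw, rfl⟩
  unfold lev at h
  rw [AddSubgroup.relIndex_eq_one] at h
  have hw' : ((Polynomial.toLaurent w.1 : S), (Polynomial.toLaurent w.2 : S)) ∈ Lat b1 b2 := hw
  have hu := smul_mem_Lat (T_mem (-1)) hw'
  obtain ⟨p, hp, n, hn, hpn⟩ := AddSubgroup.mem_sup.mp (h hu)
  have hn2 := smul_mem_Lat (T_mem 1) hn.1
  have key : ∀ (v P N : S), P + N = (T (-1) : S) * v → (∀ n : ℤ, n < 0 → v.coeff n = 0) →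
      (∀ n : ℤ, n < 0 → P.coeff n = 0) → (∀ n : ℤ, 0 ≤ n → N.coeff n = 0) →
      (T 1 : S) * N = C (v.coeff 0) := by
    intro v P N e hv hP hN
    apply LaurentPolynomial.ext
    intro k
    rw [coeff_T_mul, C_apply]
    have e2 : ∀ j, P.coeff j + N.coeff j = v.coeff (j + 1) := by
      intro j
      have := congrArg (fun q : S => q.coeff j) e
      simp only [AddMonoidAlgebra.coeff_add, Finsupp.add_apply, coeff_T_mul] at this
      rw [this, sub_neg_eq_add]
    rcases lt_trichotomy k 0 with hk | hk | hk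
    · rw [if_neg hk.ne]
      have := e2 (k - 1)
      rw [hP _ (by omega), zero_add, sub_add_cancel, hv k hk] at this
      exact this
    · rw [if_pos hk]
      have := e2 (k - 1)
      rw [hP _ (by omega), zero_add, sub_add_cancel, hk] at this
      rw [hk]
      exact this
    · rw [if_neg hk.ne']
      exact hN _ (by omega)
  have e1 := key _ p.1 n.1 (congrArg Prod.fst hpn) (fun k hk => coeff_toLaurent_of_neg w.1 hk)
    (fun k hk => (hp.2 k hk).1) (fun k hk => (hn.2 k hk).1)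
  have e2 := key _ p.2 n.2 (congrArg Prod.snd hpn) (fun k hk => coeff_toLaurent_of_neg w.2 hk)
    (fun k hk => (hp.2 k hk).2) (fun k hk => (hn.2 k hk).2)
  change ((C (w.1.coeff 0) : S), (C (w.2.coeff 0) : S)) ∈ Lat b1 b2
  rw [e1, e2] at hn2
  have c1 := coeff_toLaurent_nat w.1 0
  have c2 := coeff_toLaurent_nat w.2 0
  rw [Nat.cast_zero] at c1 c2
  rw [c1, c2] at hn2
  exact hn2

/-- relative form of `index_lemma` -/
theorem LevAux.index_rel {G : Type*} [AddCommGroup G] (L H : AddSubgroup G) (hHL : H ≤ L)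
    (φ : G →+ ℚ) (e e' : G) (heL : e ∈ L) (heL' : e' ∈ L)
    (hH : ∀ h ∈ H, φ h = 0) (he : φ e ≠ 0) (he' : φ e' ≠ 0)
    (hfin : (H ⊔ AddSubgroup.zmultiples e).relIndex L ≠ 0) :
    ((H ⊔ AddSubgroup.zmultiples e').relIndex L : ℚ) * |φ e|
      = ((H ⊔ AddSubgroup.zmultiples e).relIndex L : ℚ) * |φ e'| := by
  have key : ∀ (x : G) (hx : x ∈ L), (H ⊔ AddSubgroup.zmultiples x).relIndex L =
      (H.addSubgroupOf L ⊔ AddSubgroup.zmultiples (⟨x, hx⟩ : L)).index := by
    intro x hx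
    unfold AddSubgroup.relIndex
    have hz : AddSubgroup.zmultiples x ≤ L := by
      rw [AddSubgroup.zmultiples_le]; exact hx
    rw [AddSubgroup.addSubgroupOf_sup hHL hz]
    have e1 : (AddSubgroup.zmultiples x).addSubgroupOf L = AddSubgroup.zmultiples (⟨x, hx⟩ : L) := by
      ext y
      rw [AddSubgroup.mem_addSubgroupOf, AddSubgroup.mem_zmultiples_iff, AddSubgroup.mem_zmultiples_iff]
      constructor
      · rintro ⟨k, hk⟩
        exact ⟨k, Subtype.ext (by simpa using hk)⟩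
      · rintro ⟨k, hk⟩
        exact ⟨k, by rw [← hk]; simp⟩
    rw [e1]
  rw [key e heL, key e' heL']
  rw [key e heL] at hfin
  exact index_lemma (H.addSubgroupOf L) (φ.comp L.subtype) ⟨e, heL⟩ ⟨e', heL'⟩
    (fun h hh => hH _ hh) he he' hfin

/-- the coefficient of degree zero of the second coordinate -/
noncomputable def LevAux.phi : (S × S) →+ ℚ where
  toFun z := z.2.coeff 0
  map_zero' := rfl
  map_add' z w := rfl

/-- vectors with terms of degree at least zero, at least one -/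
noncomputable def LevAux.P1 : AddSubgroup (S × S) where
  carrier := {z | (∀ n : ℤ, n < 0 → z.1.coeff n = 0) ∧ ∀ n : ℤ, n < 1 → z.2.coeff n = 0}
  add_mem' := by
    rintro a b ⟨h1, h2⟩ ⟨h3, h4⟩
    refine ⟨fun n hn => ?_, fun n hn => ?_⟩
    · simp [h1 n hn, h3 n hn]
    · simp [h2 n hn, h4 n hn]
  zero_mem' := ⟨fun n _ => by simp, fun n _ => by simp⟩
  neg_mem' := by
    rintro a ⟨h1, h2⟩
    refine ⟨fun n hn => ?_, fun n hn => ?_⟩
    · simp [h1 n hn]
    · simp [h2 n hn]

/-- vectors with terms of degree at most `-1`, at most `0` -/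
noncomputable def LevAux.N1 : AddSubgroup (S × S) where
  carrier := {z | (∀ n : ℤ, 0 ≤ n → z.1.coeff n = 0) ∧ ∀ n : ℤ, 1 ≤ n → z.2.coeff n = 0}
  add_mem' := by
    rintro a b ⟨h1, h2⟩ ⟨h3, h4⟩
    refine ⟨fun n hn => ?_, fun n hn => ?_⟩
    · simp [h1 n hn, h3 n hn]
    · simp [h2 n hn, h4 n hn]
  zero_mem' := ⟨fun n _ => by simp, fun n _ => by simp⟩
  neg_mem' := by
    rintro a ⟨h1, h2⟩
    refine ⟨fun n hn => ?_, fun n hn => ?_⟩
    · simp [h1 n hn]
    · simp [h2 n hn]

/-- arithmetic of a lattice with primitive vector `(r, 0)` -/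
theorem LevAux.second_coord {M : Set (ℚ × ℚ)} (hM : Uni AQ M) {r : ℚ} (hr : 0 < r)
    (h0 : Prm M (r, 0)) :
    (∃ m ∈ M, m.2 = 1 / r) ∧ ∀ m ∈ M, ∃ k : ℤ, m.2 = k * (1 / r) := by
  obtain ⟨x, y, hxy, hM⟩ := hM
  obtain ⟨h1, h2⟩ := h0
  have h1' := h1
  rw [hM] at h1'
  obtain ⟨⟨p, hp⟩, ⟨q, hq⟩⟩ := h1'
  have hp' : (p : ℚ) = r * x.2 := by
    have : dt ((r, 0) : ℚ × ℚ) x = r * x.2 := by unfold dt; simp
    rw [← this]; exact hp
  have hq' : (q : ℚ) = r * y.2 := by
    have : dt ((r, 0) : ℚ × ℚ) y = r * y.2 := by unfold dt; simp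
    rw [← this]; exact hq
  -- general element
  have hgen : ∀ m : ℚ × ℚ, m.2 = dt m y * x.2 + dt x m * y.2 := by
    intro m
    have : dt m y * x.2 + dt x m * y.2 = m.2 * dt x y := by unfold dt; ring
    rw [this, hxy, mul_one]
  have hxM : ∀ a b : ℤ, ((a : ℚ) • x + (b : ℚ) • y) ∈ M := by
    intro a b
    rw [hM]
    refine ⟨?_, ?_⟩
    · have e : dt ((a : ℚ) • x + (b : ℚ) • y) x = ((-b : ℤ) : ℚ) := by
        have : dt ((a : ℚ) • x + (b : ℚ) • y) x = -b * dt x y := by
          unfold dt; simp only [Prod.fst_add, Prod.snd_add, Prod.smul_fst, Prod.smul_snd, smul_eq_mul]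
          ring
        rw [this, hxy]; push_cast; ring
      rw [e]; exact intCast_mem_AQ _
    · have e : dt ((a : ℚ) • x + (b : ℚ) • y) y = ((a : ℤ) : ℚ) := by
        have : dt ((a : ℚ) • x + (b : ℚ) • y) y = a * dt x y := by
          unfold dt; simp only [Prod.fst_add, Prod.snd_add, Prod.smul_fst, Prod.smul_snd, smul_eq_mul]
          ring
        rw [this, hxy, mul_one]
      rw [e]; exact intCast_mem_AQ _
  -- coprimality
  have hg0 : p.gcd q ≠ 0 := by
    intro hg
    rw [Int.gcd_eq_zero_iff] at hg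
    have e1 : x.2 = 0 := by
      have : r * x.2 = 0 := by rw [← hp', hg.1]; simp
      exact (mul_eq_zero.mp this).resolve_left hr.ne'
    have e2 : y.2 = 0 := by
      have : r * y.2 = 0 := by rw [← hq', hg.2]; simp
      exact (mul_eq_zero.mp this).resolve_left hr.ne'
    have := hxy
    unfold dt at this
    rw [e1, e2] at this
    simp at this
  have hg1 : p.gcd q = 1 := by
    set g : ℕ := p.gcd q with hg
    obtain ⟨p', hp1⟩ := Int.gcd_dvd_left p q
    obtain ⟨q', hq1⟩ := Int.gcd_dvd_right p q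
    rw [← hg] at hp1 hq1
    have hgq : (g : ℚ) ≠ 0 := by exact_mod_cast hg0
    have hmem : ((1 / g : ℚ) • ((r, 0) : ℚ × ℚ)) ∈ M := by
      rw [hM]
      refine ⟨⟨p', ?_⟩, ⟨q', ?_⟩⟩
      · change (p' : ℚ) = dt ((1 / g : ℚ) • ((r, 0) : ℚ × ℚ)) x
        have : dt ((1 / g : ℚ) • ((r, 0) : ℚ × ℚ)) x = (1 / g) * (r * x.2) := by
          unfold dt; simp; ring
        rw [this, ← hp', hp1]; push_cast; field_simp
      · change (q' : ℚ) = dt ((1 / g : ℚ) • ((r, 0) : ℚ × ℚ)) y
        have : dt ((1 / g : ℚ) • ((r, 0) : ℚ × ℚ)) y = (1 / g) * (r * y.2) := by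
          unfold dt; simp; ring
        rw [this, ← hq', hq1]; push_cast; field_simp
    obtain ⟨k, hk⟩ := h2 _ hmem
    have hk' : (k : ℚ) = 1 / g := hk
    have h3 : (k : ℚ) * g = 1 := by rw [hk']; field_simp
    have h4 : k * (g : ℤ) = 1 := by exact_mod_cast h3
    have h5 : (g : ℤ) ∣ 1 := ⟨k, by rw [mul_comm]; exact h4.symm⟩
    have h6 := Int.eq_one_of_dvd_one (by positivity) h5
    exact_mod_cast h6
  constructor
  · refine ⟨((Int.gcdA p q : ℤ) : ℚ) • x + ((Int.gcdB p q : ℤ) : ℚ) • y, hxM _ _, ?_⟩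
    have hb := Int.gcd_eq_gcd_ab p q
    rw [hg1] at hb
    have hb' : (1 : ℚ) = p * (Int.gcdA p q : ℤ) + q * (Int.gcdB p q : ℤ) := by exact_mod_cast hb
    simp only [Prod.snd_add, Prod.smul_snd, smul_eq_mul]
    rw [eq_div_iff hr.ne']
    calc ((Int.gcdA p q : ℤ) * x.2 + (Int.gcdB p q : ℤ) * y.2) * r
        = (r * x.2) * (Int.gcdA p q : ℤ) + (r * y.2) * (Int.gcdB p q : ℤ) := by ring
      _ = 1 := by rw [← hp', ← hq', ← hb']
  · intro m hm
    rw [hM] at hm
    obtain ⟨⟨a, ha⟩, ⟨b, hb⟩⟩ := hm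
    have ha' : (a : ℚ) = dt m x := ha
    have hb' : (b : ℚ) = dt m y := hb
    refine ⟨b * p - a * q, ?_⟩
    rw [hgen m]
    have e : dt x m = - dt m x := by unfold dt; ring
    rw [e, ← ha', ← hb']
    push_cast
    rw [hp', hq']
    field_simp
    ring

theorem lev_right {b1 b2 : S × S} (hB : IsFr b1 b2)
    (hM0 : Uni AQ (M0 (Lat b1 b2 : Set (S × S)))) (hMi : Uni AQ (Mi (Lat b1 b2 : Set (S × S))))
    {r s : ℚ} (hr : 0 < r) (hs : 0 < s)
    (h0 : Prm (M0 (Lat b1 b2 : Set (S × S))) (r, 0))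
    (hi : Prm (Mi (Lat b1 b2 : Set (S × S))) (0, s)) (hl : lev b1 b2 ≠ 0) :
    (lev b1 ((T 1 : S) • b2) : ℚ) = (lev b1 b2 : ℚ) * (r * s) := by
  have _ := hB
  have _ := hMi
  set L : AddSubgroup (S × S) := Lat b1 b2 with hL
  -- transport
  have hA : lev b1 ((T 1 : S) • b2) = ((L ⊓ P1) ⊔ (L ⊓ N1)).relIndex L := by
    unfold lev
    refine relIndex_transport rightEquiv _ _ _ _ _ _ ?_ ?_ ?_
    · intro z
      rw [rightEquiv_apply, hL, mem_Lat, mem_Lat]
      change (z.1 * b1.1 + (T 1 : S) * z.2 * b2.1 ∈ AS ∧ z.1 * b1.2 + (T 1 : S) * z.2 * b2.2 ∈ AS) ↔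
        (z.1 * b1.1 + z.2 * ((T 1 : S) * b2.1) ∈ AS ∧ z.1 * b1.2 + z.2 * ((T 1 : S) * b2.2) ∈ AS)
      have e1 : z.1 * b1.1 + (T 1 : S) * z.2 * b2.1 = z.1 * b1.1 + z.2 * ((T 1 : S) * b2.1) := by ring
      have e2 : z.1 * b1.2 + (T 1 : S) * z.2 * b2.2 = z.1 * b1.2 + z.2 * ((T 1 : S) * b2.2) := by ring
      rw [e1, e2]
    · intro z
      rw [rightEquiv_apply, mem_Pos]
      change ((∀ n : ℤ, n < 0 → z.1.coeff n = 0) ∧
        ∀ n : ℤ, n < 1 → ((T 1 : S) * z.2).coeff n = 0) ↔ _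
      simp only [coeff_T_mul]
      constructor
      · rintro ⟨h1, h2⟩ n hn
        refine ⟨h1 n hn, ?_⟩
        have := h2 (n + 1) (by omega)
        rwa [add_sub_cancel_right] at this
      · intro h
        exact ⟨fun n hn => (h n hn).1, fun n hn => (h (n - 1) (by omega)).2⟩
    · intro z
      rw [rightEquiv_apply, mem_Neg]
      change ((∀ n : ℤ, 0 ≤ n → z.1.coeff n = 0) ∧
        ∀ n : ℤ, 1 ≤ n → ((T 1 : S) * z.2).coeff n = 0) ↔ _
      simp only [coeff_T_mul]
      constructor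
      · rintro ⟨h1, h2⟩ n hn
        refine ⟨h1 n hn, ?_⟩
        have := h2 (n + 1) (by omega)
        rwa [add_sub_cancel_right] at this
      · intro h
        exact ⟨fun n hn => (h n hn).1, fun n hn => (h (n - 1) (by omega)).2⟩
  -- the element `e`
  obtain ⟨⟨m, hm, hm2⟩, hgen⟩ := second_coord hM0 hr h0
  obtain ⟨w, hw, rfl⟩ := hm
  set e : S × S := ((Polynomial.toLaurent w.1 : S), (Polynomial.toLaurent w.2 : S)) with he
  have heL : e ∈ L := hw
  have hePos : e ∈ Pos := fun n hn => ⟨coeff_toLaurent_of_neg _ hn, coeff_toLaurent_of_neg _ hn⟩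
  have c0 : ∀ v : Polynomial ℚ, (Polynomial.toLaurent v : S).coeff 0 = v.coeff 0 := by
    intro v
    have := coeff_toLaurent_nat v 0
    rwa [Nat.cast_zero] at this
  have hphie : phi e = 1 / r := by
    change (Polynomial.toLaurent w.2 : S).coeff 0 = _
    rw [c0]; exact hm2
  have hP : L ⊓ Pos = (L ⊓ P1) ⊔ AddSubgroup.zmultiples e := by
    apply le_antisymm
    · intro z hz
      obtain ⟨u1, hu1⟩ := exists_toLaurent (fun n hn => (hz.2 n hn).1)
      obtain ⟨u2, hu2⟩ := exists_toLaurent (fun n hn => (hz.2 n hn).2)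
      have hzM : (z.1.coeff 0, z.2.coeff 0) ∈ M0 (L : Set (S × S)) := by
        refine ⟨(u1, u2), ?_, ?_⟩
        · change ((Polynomial.toLaurent u1 : S), (Polynomial.toLaurent u2 : S)) ∈ L
          rw [hu1, hu2]; exact hz.1
        · change _ = (u1.coeff 0, u2.coeff 0)
          rw [← c0, ← c0, hu1, hu2]
      obtain ⟨k, hk⟩ := hgen _ hzM
      have hk : z.2.coeff 0 = k * (1 / r) := hk
      have hdec : z = (z - k • e) + k • e := by abel
      rw [hdec]
      apply AddSubgroup.add_mem_sup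
      · refine ⟨L.sub_mem hz.1 (L.zsmul_mem heL k), ?_⟩
        have hzp : z - k • e ∈ Pos := Pos.sub_mem hz.2 (Pos.zsmul_mem hePos k)
        refine ⟨fun n hn => (hzp n hn).1, fun n hn => ?_⟩
        rcases lt_or_ge n 0 with h | h
        · exact (hzp n h).2
        · have hn0 : n = 0 := by omega
          subst hn0
          have h1 : phi (z - k • e) = 0 := by
            rw [map_sub, map_zsmul, hphie]
            change z.2.coeff 0 - k • (1 / r) = 0
            rw [hk, zsmul_eq_mul, sub_self]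
          exact h1
      · exact AddSubgroup.mem_zmultiples_iff.mpr ⟨k, rfl⟩
    · apply sup_le
      · intro z hz
        refine ⟨hz.1, fun n hn => ⟨hz.2.1 n hn, hz.2.2 n (by omega)⟩⟩
      · rw [AddSubgroup.zmultiples_le]
        exact ⟨heL, hePos⟩
  -- the element `e'`
  obtain ⟨hi1, hi2⟩ := hi
  obtain ⟨v, hv, hv2⟩ := hi1
  have hv1' : v.1.coeff 0 = 0 := by
    have := congrArg Prod.fst hv2
    exact this.symm
  have hv2' : v.2.coeff 0 = s := by
    have := congrArg Prod.snd hv2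
    exact this.symm
  set e' : S × S := (invert (Polynomial.toLaurent v.1 : S), invert (Polynomial.toLaurent v.2 : S))
    with he'
  have heL' : e' ∈ L := hv
  have heN' : e' ∈ N1 := by
    refine ⟨fun n hn => ?_, fun n hn => ?_⟩
    · change (invert (Polynomial.toLaurent v.1 : S)).coeff n = 0
      rw [invert_apply]
      rcases hn.eq_or_lt with h | h
      · rw [← h, neg_zero, c0, hv1']
      · exact coeff_toLaurent_of_neg _ (by omega)
    · change (invert (Polynomial.toLaurent v.2 : S)).coeff n = 0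
      rw [invert_apply]
      exact coeff_toLaurent_of_neg _ (by omega)
  have hphie' : phi e' = s := by
    change (invert (Polynomial.toLaurent v.2 : S)).coeff 0 = _
    rw [invert_apply, neg_zero, c0, hv2']
  have inv2 : ∀ p : S, invert (invert p) = p := fun p => involutive_invert p
  have hN : L ⊓ N1 = (L ⊓ Neg) ⊔ AddSubgroup.zmultiples e' := by
    apply le_antisymm
    · intro z hz
      obtain ⟨u1, hu1⟩ := exists_toLaurent (p := invert z.1) (fun n hn => by
        rw [invert_apply]; exact hz.2.1 _ (by omega))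
      obtain ⟨u2, hu2⟩ := exists_toLaurent (p := invert z.2) (fun n hn => by
        rw [invert_apply]; exact hz.2.2 _ (by omega))
      have hzM : (z.2.coeff 0 / s) • ((0, s) : ℚ × ℚ) ∈ Mi (L : Set (S × S)) := by
        refine ⟨(u1, u2), ?_, ?_⟩
        · change (invert (Polynomial.toLaurent u1 : S), invert (Polynomial.toLaurent u2 : S)) ∈ L
          rw [hu1, hu2, inv2, inv2]; exact hz.1
        · change _ = (u1.coeff 0, u2.coeff 0)
          rw [← c0, ← c0, hu1, hu2, invert_apply, invert_apply, neg_zero, hz.2.1 0 le_rfl]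
          ext1
          · simp
          · simp only [Prod.smul_snd, smul_eq_mul]
            field_simp
      obtain ⟨k, hk⟩ := hi2 _ hzM
      have hk' : (k : ℚ) = z.2.coeff 0 / s := hk
      have hdec : z = (z - k • e') + k • e' := by abel
      rw [hdec]
      apply AddSubgroup.add_mem_sup
      · refine ⟨L.sub_mem hz.1 (L.zsmul_mem heL' k), ?_⟩
        have hzp : z - k • e' ∈ N1 := N1.sub_mem hz.2 (N1.zsmul_mem heN' k)
        refine fun n hn => ⟨hzp.1 n hn, ?_⟩
        rcases hn.eq_or_lt with h | h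
        · rw [← h]
          have h1 : phi (z - k • e') = 0 := by
            rw [map_sub, map_zsmul, hphie']
            change z.2.coeff 0 - k • s = 0
            rw [zsmul_eq_mul, hk']
            field_simp
            ring
          exact h1
        · exact hzp.2 n (by omega)
      · exact AddSubgroup.mem_zmultiples_iff.mpr ⟨k, rfl⟩
    · apply sup_le
      · intro z hz
        refine ⟨hz.1, ⟨fun n hn => (hz.2 n hn).1, fun n hn => (hz.2 n (by omega)).2⟩⟩
      · rw [AddSubgroup.zmultiples_le]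
        exact ⟨heL', heN'⟩
  -- the common subgroup
  set H : AddSubgroup (S × S) := (L ⊓ P1) ⊔ (L ⊓ Neg) with hH
  have hHe : (L ⊓ Pos) ⊔ (L ⊓ Neg) = H ⊔ AddSubgroup.zmultiples e := by
    rw [hP, hH, sup_right_comm]
  have hHe' : (L ⊓ P1) ⊔ (L ⊓ N1) = H ⊔ AddSubgroup.zmultiples e' := by
    rw [hN, hH, sup_assoc]
  have hl1 : lev b1 b2 = (H ⊔ AddSubgroup.zmultiples e).relIndex L := by
    unfold lev
    rw [← hHe]
  rw [hHe'] at hA
  rw [hl1] at hl
  have hphiH : ∀ h ∈ H, phi h = 0 := by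
    intro h hh
    have : H ≤ phi.ker := by
      apply sup_le
      · intro z hz
        exact hz.2.2 0 (by norm_num)
      · intro z hz
        exact (hz.2 0 le_rfl).2
    exact this hh
  have hr' : (1 : ℚ) / r ≠ 0 := by positivity
  have := index_rel L H (sup_le inf_le_left inf_le_left) phi e e' heL heL' hphiH
    (by rw [hphie]; exact hr') (by rw [hphie']; exact hs.ne') hl
  rw [hphie, hphie', abs_of_pos (by positivity : (0 : ℚ) < 1 / r), abs_of_pos hs] at this
  rw [hA, hl1]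
  field_simp at this
  rw [this]
  ring

end Pool.Agent.GE2
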