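import Pool.Agent.GE2.Defs

/-!
Local structure at `0` of a unimodular lattice over the Laurent polynomials.
-/

set_option autoImplicit false

namespace Pool.Agent.GE2

open LaurentPolynomial

namespace Loc

/-! ### Integral elements -/

theorem mem_AQ {q : ℚ} : q ∈ AQ ↔ ∃ j : ℤ, q = j := by
  constructor
  · rintro ⟨j, hj⟩
    exact ⟨j, by rw [← hj]; simp⟩
  · rintro ⟨j, rfl⟩
    exact ⟨j, by simp⟩

theorem intCast_mem_AQ (j : ℤ) : (j : ℚ) ∈ AQ := mem_AQ.mpr ⟨j, rfl⟩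

theorem num_of_mem_AQ {q : ℚ} (h : q ∈ AQ) : ((q.num : ℤ) : ℚ) = q := by
  obtain ⟨j, rfl⟩ := mem_AQ.mp h
  simp

theorem mem_AS {f : S} : f ∈ AS ↔ ∀ n : ℤ, f.coeff n ∈ AQ := by
  constructor
  · rintro ⟨g, rfl⟩ n
    unfold iota
    rw [AddMonoidAlgebra.coeff_mapRingHom]
    exact ⟨_, rfl⟩
  · intro h
    refine ⟨AddMonoidAlgebra.ofCoeff (f.coeff.mapRange (fun q : ℚ => q.num) Rat.num_zero), ?_⟩
    refine LaurentPolynomial.ext fun n => ?_
    unfold iota
    rw [AddMonoidAlgebra.coeff_mapRingHom, AddMonoidAlgebra.coeff_ofCoeff, Finsupp.mapRange_apply]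
    exact num_of_mem_AQ (h n)

theorem mem_AP {f : P} : f ∈ AP ↔ ∀ n : ℕ, PowerSeries.coeff n f ∈ AQ := by
  constructor
  · rintro ⟨g, rfl⟩ n
    rw [PowerSeries.coeff_map]
    exact ⟨_, rfl⟩
  · intro h
    refine ⟨PowerSeries.mk fun n => (PowerSeries.coeff n f).num, ?_⟩
    ext n
    rw [PowerSeries.coeff_map, PowerSeries.coeff_mk]
    exact num_of_mem_AQ (h n)

/-- integral polynomials -/
noncomputable def AZ : Subring (Polynomial ℚ) := (Polynomial.mapRingHom (Int.castRingHom ℚ)).range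

theorem mem_AZ {f : Polynomial ℚ} : f ∈ AZ ↔ ∀ n : ℕ, f.coeff n ∈ AQ := by
  constructor
  · rintro ⟨g, rfl⟩ n
    rw [Polynomial.coe_mapRingHom, Polynomial.coeff_map]
    exact ⟨_, rfl⟩
  · intro h
    have h2 : f ∈ Polynomial.lifts (Int.castRingHom ℚ) := by
      rw [Polynomial.lifts_iff_coeff_lifts]
      intro n
      obtain ⟨j, hj⟩ := h n
      exact ⟨j, hj⟩
    obtain ⟨g, hg⟩ := (Polynomial.mem_lifts f).mp h2
    exact ⟨g, hg⟩

theorem coeff_toLaurent_nat (f : Polynomial ℚ) (n : ℕ) :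
    (Polynomial.toLaurent f : S).coeff (n : ℤ) = f.coeff n := by
  rw [coeff_toLaurent]
  exact Finsupp.mapDomain_apply Nat.castEmbedding.injective _ n

theorem coeff_toLaurent_neg (f : Polynomial ℚ) {n : ℤ} (hn : n < 0) :
    (Polynomial.toLaurent f : S).coeff n = 0 := by
  rw [coeff_toLaurent]
  refine Finsupp.mapDomain_of_notMem_range _ _ ?_
  rintro ⟨m, hm⟩
  have : (m : ℤ) = n := hm
  omega

theorem toLaurent_mem_AS {f : Polynomial ℚ} : (Polynomial.toLaurent f : S) ∈ AS ↔ f ∈ AZ := by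
  rw [mem_AS, mem_AZ]
  constructor
  · intro h n
    have := h n
    rwa [coeff_toLaurent_nat] at this
  · intro h n
    rcases lt_or_ge n 0 with hn | hn
    · rw [coeff_toLaurent_neg f hn]; exact AQ.zero_mem
    · obtain ⟨m, rfl⟩ := Int.eq_ofNat_of_zero_le hn
      rw [coeff_toLaurent_nat]; exact h m

theorem C_mem_AS (j : ℤ) : (C (j : ℚ) : S) ∈ AS := by
  rw [mem_AS]
  intro n
  rw [C_apply]
  split_ifs
  · exact intCast_mem_AQ j
  · exact AQ.zero_mem

theorem T_mem_AS (i : ℤ) : (T i : S) ∈ AS := by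
  rw [mem_AS]
  intro n
  rw [T_apply]
  split_ifs
  · exact AQ.one_mem
  · exact AQ.zero_mem

theorem C_mem_AZ (j : ℤ) : (Polynomial.C (j : ℚ)) ∈ AZ := by
  rw [mem_AZ]
  intro n
  rw [Polynomial.coeff_C]
  split_ifs
  · exact intCast_mem_AQ j
  · exact AQ.zero_mem

theorem X_mem_AZ : (Polynomial.X : Polynomial ℚ) ∈ AZ := by
  rw [mem_AZ]
  intro n
  rw [Polynomial.coeff_X]
  split_ifs
  · exact AQ.one_mem
  · exact AQ.zero_mem

theorem coe_mem_AP {f : Polynomial ℚ} (h : f ∈ AZ) : (f : P) ∈ AP := by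
  rw [mem_AP]
  intro n
  rw [Polynomial.coeff_coe]
  exact mem_AZ.mp h n

theorem invert_mem_AS {f : S} : invert f ∈ AS ↔ f ∈ AS := by
  rw [mem_AS, mem_AS]
  constructor
  · intro h n
    have := h (-n)
    rwa [invert_apply, neg_neg] at this
  · intro h n
    rw [invert_apply]; exact h _

theorem exists_den (f : S) : ∃ D : ℕ, 0 < D ∧ C (D : ℚ) * f ∈ AS := by
  refine LaurentPolynomial.induction_on' f ?_ ?_
  · rintro p q ⟨D, hD, hp⟩ ⟨E, hE, hq⟩
    refine ⟨D * E, Nat.mul_pos hD hE, ?_⟩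
    have e : (C ((D * E : ℕ) : ℚ) : S) * (p + q)
        = C ((E : ℤ) : ℚ) * (C (D : ℚ) * p) + C ((D : ℤ) : ℚ) * (C (E : ℚ) * q) := by
      push_cast
      rw [map_mul]
      ring
    rw [e]
    exact AS.add_mem (AS.mul_mem (C_mem_AS _) hp) (AS.mul_mem (C_mem_AS _) hq)
  · intro n a
    refine ⟨a.den, a.den_pos, ?_⟩
    rw [← mul_assoc, ← map_mul]
    have : (a.den : ℚ) * a = ((a.num : ℤ) : ℚ) := by
      rw [mul_comm]; exact Rat.mul_den_eq_num a
    rw [this]
    exact AS.mul_mem (C_mem_AS _) (T_mem_AS _)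

/-! ### Unimodular lattices -/

section Uni

variable {K : Type*} [CommRing K] {A : Subring K} {E : Set (K × K)}

theorem Uni.dt_mem (h : Uni A E) {z w : K × K} (hz : z ∈ E) (hw : w ∈ E) : dt z w ∈ A := by
  obtain ⟨x, y, hxy, rfl⟩ := h
  have e : dt z w = dt z x * dt w y - dt z y * dt w x := by
    have e2 : dt z w * dt x y = dt z x * dt w y - dt z y * dt w x := by
      unfold dt; ring
    rw [hxy, mul_one] at e2
    exact e2
  rw [e]
  exact A.sub_mem (A.mul_mem hz.1 hw.2) (A.mul_mem hz.2 hw.1)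

theorem Uni.add_mem (h : Uni A E) {z w : K × K} (hz : z ∈ E) (hw : w ∈ E) :
    (z.1 + w.1, z.2 + w.2) ∈ E := by
  obtain ⟨x, y, hxy, rfl⟩ := h
  constructor
  · have e : dt (z.1 + w.1, z.2 + w.2) x = dt z x + dt w x := by unfold dt; ring
    rw [e]; exact A.add_mem hz.1 hw.1
  · have e : dt (z.1 + w.1, z.2 + w.2) y = dt z y + dt w y := by unfold dt; ring
    rw [e]; exact A.add_mem hz.2 hw.2

theorem Uni.mul_mem (h : Uni A E) {z : K × K} (hz : z ∈ E) {a : K} (ha : a ∈ A) :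
    (a * z.1, a * z.2) ∈ E := by
  obtain ⟨x, y, hxy, rfl⟩ := h
  constructor
  · have e : dt (a * z.1, a * z.2) x = a * dt z x := by unfold dt; ring
    rw [e]; exact A.mul_mem ha hz.1
  · have e : dt (a * z.1, a * z.2) y = a * dt z y := by unfold dt; ring
    rw [e]; exact A.mul_mem ha hz.2

end Uni

end Loc

open Loc

theorem mir_uni {L : Set (S × S)} (hL : Uni AS L) : Uni AS (mir L) := by
  obtain ⟨x, y, hxy, rfl⟩ := hL
  have key : ∀ z w : S × S, dt (invert z.1, invert z.2) w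
      = invert (dt z (invert w.1, invert w.2)) := by
    intro z w
    have h1 : invert (invert w.1) = w.1 := involutive_invert w.1
    have h2 : invert (invert w.2) = w.2 := involutive_invert w.2
    unfold dt
    rw [map_sub, map_mul, map_mul, h1, h2]
  refine ⟨(invert x.1, invert x.2), (invert y.1, invert y.2), ?_, ?_⟩
  · have := key x (invert y.1, invert y.2)
    have h1 : invert (invert y.1) = y.1 := involutive_invert y.1
    have h2 : invert (invert y.2) = y.2 := involutive_invert y.2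
    rw [this]
    simp only [h1, h2, Prod.mk.eta, hxy, map_one]
  · ext z
    simp only [mir, Set.mem_ofPred_eq, key, invert_mem_AS]

namespace Loc

variable {L : Set (S × S)}

theorem mem_E0 {w : Polynomial ℚ × Polynomial ℚ} :
    w ∈ E0 L ↔ ((Polynomial.toLaurent w.1 : S), (Polynomial.toLaurent w.2 : S)) ∈ L := Iff.rfl

theorem E0_add (hL : Uni AS L) {z w : Polynomial ℚ × Polynomial ℚ} (hz : z ∈ E0 L)
    (hw : w ∈ E0 L) : (z.1 + w.1, z.2 + w.2) ∈ E0 L := by
  have := Uni.add_mem hL hz hw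
  rw [mem_E0]
  simpa only [map_add] using this

theorem E0_mul (hL : Uni AS L) {z : Polynomial ℚ × Polynomial ℚ} (hz : z ∈ E0 L)
    {p : Polynomial ℚ} (hp : p ∈ AZ) : (p * z.1, p * z.2) ∈ E0 L := by
  have := Uni.mul_mem hL hz (toLaurent_mem_AS.mpr hp)
  rw [mem_E0]
  simpa only [map_mul] using this

theorem E0_dt (hL : Uni AS L) {z w : Polynomial ℚ × Polynomial ℚ} (hz : z ∈ E0 L)
    (hw : w ∈ E0 L) : dt z w ∈ AZ := by
  have h := Uni.dt_mem hL hz hw
  rw [← toLaurent_mem_AS]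
  have e : (Polynomial.toLaurent (dt z w) : S)
      = dt (Polynomial.toLaurent z.1, Polynomial.toLaurent z.2)
        (Polynomial.toLaurent w.1, Polynomial.toLaurent w.2) := by
    unfold dt
    rw [map_sub, map_mul, map_mul]
  rw [e]; exact h

theorem E0_comb (hL : Uni AS L) {z w : Polynomial ℚ × Polynomial ℚ} (hz : z ∈ E0 L)
    (hw : w ∈ E0 L) {p q : Polynomial ℚ} (hp : p ∈ AZ) (hq : q ∈ AZ) :
    (p * z.1 + q * w.1, p * z.2 + q * w.2) ∈ E0 L := by
  have h1 := E0_mul hL hz hp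
  have h2 := E0_mul hL hw hq
  have h3 := E0_add hL h1 h2
  dsimp only at h3
  exact h3

theorem E0_divX (hL : Uni AS L) {u : Polynomial ℚ × Polynomial ℚ}
    (h : (Polynomial.X * u.1, Polynomial.X * u.2) ∈ E0 L) : u ∈ E0 L := by
  have h1 := Uni.mul_mem hL (mem_E0.mp h) (T_mem_AS (-1))
  have e : ∀ f : Polynomial ℚ, (T (-1) : S) * Polynomial.toLaurent (Polynomial.X * f)
      = Polynomial.toLaurent f := by
    intro f
    rw [map_mul, Polynomial.toLaurent_X, ← mul_assoc, ← T_add, neg_add_cancel, T_zero, one_mul]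
  rw [mem_E0, ← e u.1, ← e u.2]
  exact h1

/-- The value at zero of the determinant. -/
theorem dt_coeff_zero (z w : Polynomial ℚ × Polynomial ℚ) :
    (dt z w).coeff 0 = dt (z.1.coeff 0, z.2.coeff 0) (w.1.coeff 0, w.2.coeff 0) := by
  unfold dt
  simp [Polynomial.coeff_sub, Polynomial.mul_coeff_zero]

theorem exists_nonzero (hL : Uni AS L) : ∃ e1 ∈ E0 L, ∃ e2 ∈ E0 L, (dt e1 e2).coeff 0 ≠ 0 := by
  obtain ⟨x, y, hxy, rfl⟩ := hL
  obtain ⟨D1, hD1, h1⟩ := exists_den x.1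
  obtain ⟨D2, hD2, h2⟩ := exists_den x.2
  obtain ⟨D3, hD3, h3⟩ := exists_den y.1
  obtain ⟨D4, hD4, h4⟩ := exists_den y.2
  set D : ℕ := D1 * D2 * D3 * D4 with hD
  have hDpos : 0 < D := by positivity
  have k1 : (C (D : ℚ) : S) * x.1 ∈ AS := by
    have e : (C (D : ℚ) : S) * x.1 = C (((D2 * D3 * D4 : ℕ) : ℤ) : ℚ) * (C (D1 : ℚ) * x.1) := by
      rw [hD]; push_cast; simp only [map_mul]; ring
    rw [e]; exact AS.mul_mem (C_mem_AS _) h1
  have k2 : (C (D : ℚ) : S) * x.2 ∈ AS := by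
    have e : (C (D : ℚ) : S) * x.2 = C (((D1 * D3 * D4 : ℕ) : ℤ) : ℚ) * (C (D2 : ℚ) * x.2) := by
      rw [hD]; push_cast; simp only [map_mul]; ring
    rw [e]; exact AS.mul_mem (C_mem_AS _) h2
  have k3 : (C (D : ℚ) : S) * y.1 ∈ AS := by
    have e : (C (D : ℚ) : S) * y.1 = C (((D1 * D2 * D4 : ℕ) : ℤ) : ℚ) * (C (D3 : ℚ) * y.1) := by
      rw [hD]; push_cast; simp only [map_mul]; ring
    rw [e]; exact AS.mul_mem (C_mem_AS _) h3
  have k4 : (C (D : ℚ) : S) * y.2 ∈ AS := by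
    have e : (C (D : ℚ) : S) * y.2 = C (((D1 * D2 * D3 : ℕ) : ℤ) : ℚ) * (C (D4 : ℚ) * y.2) := by
      rw [hD]; push_cast; simp only [map_mul]; ring
    rw [e]; exact AS.mul_mem (C_mem_AS _) h4
  refine ⟨(Polynomial.C (D : ℚ), 0), ?_, (0, Polynomial.C (D : ℚ)), ?_, ?_⟩
  · rw [mem_E0]
    simp only [Polynomial.toLaurent_C, map_zero]
    constructor
    · have e : dt ((C (D : ℚ) : S), 0) x = C (D : ℚ) * x.2 := by unfold dt; ring
      rw [e]; exact k2
    · have e : dt ((C (D : ℚ) : S), 0) y = C (D : ℚ) * y.2 := by unfold dt; ring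
      rw [e]; exact k4
  · rw [mem_E0]
    simp only [Polynomial.toLaurent_C, map_zero]
    constructor
    · have e : dt (0, (C (D : ℚ) : S)) x = - (C (D : ℚ) * x.1) := by unfold dt; ring
      rw [e]; exact AS.neg_mem k1
    · have e : dt (0, (C (D : ℚ) : S)) y = - (C (D : ℚ) * y.1) := by unfold dt; ring
      rw [e]; exact AS.neg_mem k3
  · rw [dt_coeff_zero]
    unfold dt
    simp
    omega

/-- Two elements of `E0 L` whose determinant is a power of the variable. -/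
theorem exists_pow (hL : Uni AS L) : ∃ z ∈ E0 L, ∃ w ∈ E0 L, ∃ m : ℕ,
    dt z w = Polynomial.X ^ m := by
  obtain ⟨x, y, hxy, hE⟩ := hL
  have hx : x ∈ L := by
    rw [hE]
    refine ⟨?_, ?_⟩
    · have : dt x x = 0 := by unfold dt; ring
      rw [this]; exact AS.zero_mem
    · rw [hxy]; exact AS.one_mem
  have hy : y ∈ L := by
    rw [hE]
    refine ⟨?_, ?_⟩
    · have : dt y x = - dt x y := by unfold dt; ring
      rw [this, hxy]; exact AS.neg_mem AS.one_mem
    · have : dt y y = 0 := by unfold dt; ring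
      rw [this]; exact AS.zero_mem
  have hL : Uni AS L := ⟨x, y, hxy, hE⟩
  obtain ⟨n1, f1, h1⟩ := exists_T_pow x.1
  obtain ⟨n2, f2, h2⟩ := exists_T_pow x.2
  obtain ⟨n3, f3, h3⟩ := exists_T_pow y.1
  obtain ⟨n4, f4, h4⟩ := exists_T_pow y.2
  set N : ℕ := n1 + n2 + n3 + n4 with hN
  have up : ∀ (g : S) (n : ℕ) (f : Polynomial ℚ), Polynomial.toLaurent f = g * T n → n ≤ N →
      Polynomial.toLaurent (f * Polynomial.X ^ (N - n)) = T (N : ℤ) * g := by
    intro g n f h hn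
    rw [map_mul, h, Polynomial.toLaurent_X_pow, mul_assoc, ← T_add]
    have : (n : ℤ) + ((N - n : ℕ) : ℤ) = N := by omega
    rw [this, mul_comm]
  refine ⟨(f1 * Polynomial.X ^ (N - n1), f2 * Polynomial.X ^ (N - n2)), ?_,
    (f3 * Polynomial.X ^ (N - n3), f4 * Polynomial.X ^ (N - n4)), ?_, 2 * N, ?_⟩
  · rw [mem_E0]
    show ((Polynomial.toLaurent (_ * _) : S), (Polynomial.toLaurent (_ * _) : S)) ∈ L
    rw [up x.1 n1 f1 h1 (by omega), up x.2 n2 f2 h2 (by omega)]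
    exact Uni.mul_mem hL hx (T_mem_AS _)
  · rw [mem_E0]
    show ((Polynomial.toLaurent (_ * _) : S), (Polynomial.toLaurent (_ * _) : S)) ∈ L
    rw [up y.1 n3 f3 h3 (by omega), up y.2 n4 f4 h4 (by omega)]
    exact Uni.mul_mem hL hy (T_mem_AS _)
  · refine Polynomial.toLaurent_injective ?_
    have e0 : (Polynomial.toLaurent (dt (f1 * Polynomial.X ^ (N - n1), f2 * Polynomial.X ^ (N - n2))
        (f3 * Polynomial.X ^ (N - n3), f4 * Polynomial.X ^ (N - n4))) : S)
        = Polynomial.toLaurent (f1 * Polynomial.X ^ (N - n1))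
          * Polynomial.toLaurent (f4 * Polynomial.X ^ (N - n4))
          - Polynomial.toLaurent (f2 * Polynomial.X ^ (N - n2))
          * Polynomial.toLaurent (f3 * Polynomial.X ^ (N - n3)) := by
      rw [← map_mul, ← map_mul, ← map_sub]
      rfl
    rw [e0, up x.1 n1 f1 h1 (by omega), up x.2 n2 f2 h2 (by omega),
      up y.1 n3 f3 h3 (by omega), up y.2 n4 f4 h4 (by omega), Polynomial.toLaurent_X_pow]
    have e : T (N : ℤ) * x.1 * (T (N : ℤ) * y.2) - T (N : ℤ) * x.2 * (T (N : ℤ) * y.1)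
        = (T (N : ℤ) * T (N : ℤ) : S) * dt x y := by
      unfold dt; ring
    rw [e, hxy, mul_one, ← T_add]
    congr 1
    push_cast
    ring

/-- The basis of the local lattice at `0`. -/
theorem exists_basis (hL : Uni AS L) : ∃ e1 ∈ E0 L, ∃ e2 ∈ E0 L, (dt e1 e2).coeff 0 = 1 := by
  classical
  -- integrality of the value at zero
  have hint : ∀ z ∈ E0 L, ∀ w ∈ E0 L, ∃ j : ℤ, (dt z w).coeff 0 = j := fun z hz w hw =>
    mem_AQ.mp (mem_AZ.mp (E0_dt hL hz hw) 0)
  have hex : ∃ d : ℕ, 0 < d ∧ ∃ e1 ∈ E0 L, ∃ e2 ∈ E0 L, |(dt e1 e2).coeff 0| = d := by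
    obtain ⟨e1, h1, e2, h2, h⟩ := exists_nonzero hL
    obtain ⟨j, hj⟩ := hint e1 h1 e2 h2
    refine ⟨j.natAbs, ?_, e1, h1, e2, h2, ?_⟩
    · rw [hj] at h
      exact Int.natAbs_pos.mpr (by exact_mod_cast h)
    · rw [hj, Nat.cast_natAbs, Int.cast_abs]
  obtain ⟨hdpos, e1, h1, e2, h2, hd⟩ := Nat.find_spec hex
  set d := Nat.find hex with hd'
  have hmin : ∀ z ∈ E0 L, ∀ w ∈ E0 L, |(dt z w).coeff 0| < d → (dt z w).coeff 0 = 0 := by
    intro z hz w hw hlt
    obtain ⟨j, hj⟩ := hint z hz w hw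
    by_contra hne
    rw [hj] at hlt hne
    have hlt2 : j.natAbs < d := by
      have : ((j.natAbs : ℕ) : ℚ) < d := by
        rw [Nat.cast_natAbs, Int.cast_abs]; exact hlt
      exact_mod_cast this
    refine Nat.find_min hex hlt2 ⟨?_, z, hz, w, hw, ?_⟩
    · exact Int.natAbs_pos.mpr (by exact_mod_cast hne)
    · rw [hj, Nat.cast_natAbs, Int.cast_abs]
  set δ : ℚ := (dt e1 e2).coeff 0 with hδ
  have hδ0 : δ ≠ 0 := by
    intro h0
    rw [h0, abs_zero] at hd
    have : d = 0 := by exact_mod_cast hd.symm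
    omega
  have hfl : ∀ A : ℚ, |(A - ⌊A⌋) * δ| < d := by
    intro A
    rw [abs_mul, hd]
    have h3 : |A - ⌊A⌋| < 1 := by
      rw [abs_lt]
      constructor
      · linarith [Int.floor_le A]
      · linarith [Int.lt_floor_add_one A]
    have h4 : (0 : ℚ) < d := by exact_mod_cast hdpos
    nlinarith
  -- step (1)
  have step1 : ∀ w ∈ E0 L, ∃ a b : ℤ, w.1.coeff 0 = a * e1.1.coeff 0 + b * e2.1.coeff 0 ∧
      w.2.coeff 0 = a * e1.2.coeff 0 + b * e2.2.coeff 0 := by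
    intro w hw
    have hA : ∃ a : ℤ, (dt w e2).coeff 0 = a * δ := by
      refine ⟨⌊(dt w e2).coeff 0 / δ⌋, ?_⟩
      set a := ⌊(dt w e2).coeff 0 / δ⌋ with ha
      have hm : (w.1 + Polynomial.C ((-a : ℤ) : ℚ) * e1.1, w.2 + Polynomial.C ((-a : ℤ) : ℚ) * e1.2)
          ∈ E0 L := by
        have := E0_add hL hw (E0_mul hL h1 (C_mem_AZ (-a)))
        dsimp only at this
        exact this
      have hc : (dt (w.1 + Polynomial.C ((-a : ℤ) : ℚ) * e1.1,
          w.2 + Polynomial.C ((-a : ℤ) : ℚ) * e1.2) e2).coeff 0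
          = ((dt w e2).coeff 0 / δ - a) * δ := by
        have e3 : ((dt w e2).coeff 0 / δ - a) * δ = (dt w e2).coeff 0 - a * δ := by
          field_simp
        rw [e3, hδ, dt_coeff_zero, dt_coeff_zero, dt_coeff_zero]
        unfold dt
        simp only [Polynomial.coeff_add, Polynomial.coeff_C_mul]
        push_cast
        ring
      have h5 := hmin _ hm e2 h2 (by rw [hc]; exact hfl _)
      rw [hc] at h5
      have h6 := (mul_eq_zero.mp h5).resolve_right hδ0
      have h7 : (dt w e2).coeff 0 / δ = a := by linarith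
      rw [div_eq_iff hδ0] at h7
      exact h7
    have hB : ∃ b : ℤ, (dt e1 w).coeff 0 = b * δ := by
      refine ⟨⌊(dt e1 w).coeff 0 / δ⌋, ?_⟩
      set b := ⌊(dt e1 w).coeff 0 / δ⌋ with hb
      have hm : (w.1 + Polynomial.C ((-b : ℤ) : ℚ) * e2.1, w.2 + Polynomial.C ((-b : ℤ) : ℚ) * e2.2)
          ∈ E0 L := by
        have := E0_add hL hw (E0_mul hL h2 (C_mem_AZ (-b)))
        dsimp only at this
        exact this
      have hc : (dt e1 (w.1 + Polynomial.C ((-b : ℤ) : ℚ) * e2.1,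
          w.2 + Polynomial.C ((-b : ℤ) : ℚ) * e2.2)).coeff 0
          = ((dt e1 w).coeff 0 / δ - b) * δ := by
        have e3 : ((dt e1 w).coeff 0 / δ - b) * δ = (dt e1 w).coeff 0 - b * δ := by
          field_simp
        rw [e3, hδ, dt_coeff_zero, dt_coeff_zero, dt_coeff_zero]
        unfold dt
        simp only [Polynomial.coeff_add, Polynomial.coeff_C_mul]
        push_cast
        ring
      have h5 := hmin e1 h1 _ hm (by rw [hc]; exact hfl _)
      rw [hc] at h5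
      have h6 := (mul_eq_zero.mp h5).resolve_right hδ0
      have h7 : (dt e1 w).coeff 0 / δ = b := by linarith
      rw [div_eq_iff hδ0] at h7
      exact h7
    obtain ⟨a, ha⟩ := hA
    obtain ⟨b, hb⟩ := hB
    have hδ' : δ = e1.1.coeff 0 * e2.2.coeff 0 - e1.2.coeff 0 * e2.1.coeff 0 := by
      rw [hδ, dt_coeff_zero]; rfl
    rw [dt_coeff_zero] at ha hb
    simp only [dt] at ha hb
    refine ⟨a, b, ?_, ?_⟩
    · refine mul_left_cancel₀ hδ0 ?_
      rw [hδ'] at ha hb ⊢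
      linear_combination (e1.1.coeff 0) * ha + (e2.1.coeff 0) * hb
    · refine mul_left_cancel₀ hδ0 ?_
      rw [hδ'] at ha hb ⊢
      linear_combination (e1.2.coeff 0) * ha + (e2.2.coeff 0) * hb
  -- step (2)
  have step2 : ∀ (K : ℕ) (w : Polynomial ℚ × Polynomial ℚ), w ∈ E0 L → ∃ p ∈ AZ, ∃ q ∈ AZ,
      ∃ w' ∈ E0 L, w.1 = p * e1.1 + q * e2.1 + Polynomial.X ^ K * w'.1 ∧
        w.2 = p * e1.2 + q * e2.2 + Polynomial.X ^ K * w'.2 := by
    intro K
    induction K with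
    | zero =>
      intro w hw
      exact ⟨0, AZ.zero_mem, 0, AZ.zero_mem, w, hw, by ring, by ring⟩
    | succ K ih =>
      intro w hw
      obtain ⟨p, hp, q, hq, w', hw', hw1, hw2⟩ := ih w hw
      obtain ⟨a, b, hab1, hab2⟩ := step1 w' hw'
      have hm : (w'.1 + (Polynomial.C ((-a : ℤ) : ℚ) * e1.1 + Polynomial.C ((-b : ℤ) : ℚ) * e2.1),
          w'.2 + (Polynomial.C ((-a : ℤ) : ℚ) * e1.2 + Polynomial.C ((-b : ℤ) : ℚ) * e2.2))
          ∈ E0 L := by
        have := E0_add hL hw' (E0_comb hL h1 h2 (C_mem_AZ (-a)) (C_mem_AZ (-b)))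
        dsimp only at this
        exact this
      obtain ⟨u1, hu1⟩ : Polynomial.X ∣
          (w'.1 + (Polynomial.C ((-a : ℤ) : ℚ) * e1.1 + Polynomial.C ((-b : ℤ) : ℚ) * e2.1)) := by
        rw [Polynomial.X_dvd_iff]
        simp only [Polynomial.coeff_add, Polynomial.coeff_C_mul]
        rw [hab1]; push_cast; ring
      obtain ⟨u2, hu2⟩ : Polynomial.X ∣
          (w'.2 + (Polynomial.C ((-a : ℤ) : ℚ) * e1.2 + Polynomial.C ((-b : ℤ) : ℚ) * e2.2)) := by
        rw [Polynomial.X_dvd_iff]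
        simp only [Polynomial.coeff_add, Polynomial.coeff_C_mul]
        rw [hab2]; push_cast; ring
      rw [hu1, hu2] at hm
      have hu := E0_divX hL (u := (u1, u2)) hm
      have hXK : (Polynomial.X : Polynomial ℚ) ^ K ∈ AZ := AZ.pow_mem X_mem_AZ K
      refine ⟨p + Polynomial.X ^ K * Polynomial.C ((a : ℤ) : ℚ),
        AZ.add_mem hp (AZ.mul_mem hXK (C_mem_AZ a)),
        q + Polynomial.X ^ K * Polynomial.C ((b : ℤ) : ℚ),
        AZ.add_mem hq (AZ.mul_mem hXK (C_mem_AZ b)), (u1, u2), hu, ?_, ?_⟩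
      · rw [hw1]
        have hC : (Polynomial.C ((-a : ℤ) : ℚ) : Polynomial ℚ) = - Polynomial.C ((a : ℤ) : ℚ) := by
          push_cast; rw [map_neg]
        have hC' : (Polynomial.C ((-b : ℤ) : ℚ) : Polynomial ℚ) = - Polynomial.C ((b : ℤ) : ℚ) := by
          push_cast; rw [map_neg]
        rw [hC, hC'] at hu1
        linear_combination (Polynomial.X ^ K : Polynomial ℚ) * hu1
      · rw [hw2]
        have hC : (Polynomial.C ((-a : ℤ) : ℚ) : Polynomial ℚ) = - Polynomial.C ((a : ℤ) : ℚ) := by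
          push_cast; rw [map_neg]
        have hC' : (Polynomial.C ((-b : ℤ) : ℚ) : Polynomial ℚ) = - Polynomial.C ((b : ℤ) : ℚ) := by
          push_cast; rw [map_neg]
        rw [hC, hC'] at hu2
        linear_combination (Polynomial.X ^ K : Polynomial ℚ) * hu2
  -- step (3)
  obtain ⟨z, hz, w, hw, m, hzw⟩ := exists_pow hL
  obtain ⟨p1, hp1, q1, hq1, z', hz', hz1, hz2⟩ := step2 (m + 1) z hz
  obtain ⟨p2, hp2, q2, hq2, w', hw', hw1, hw2⟩ := step2 (m + 1) w hw
  set Δ : Polynomial ℚ := p1 * q2 - q1 * p2 with hΔ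
  set G : Polynomial ℚ := p1 * dt e1 w' + q1 * dt e2 w' + p2 * dt z' e1 + q2 * dt z' e2
    + Polynomial.X ^ (m + 1) * dt z' w' with hG
  have hΔm : Δ ∈ AZ := AZ.sub_mem (AZ.mul_mem hp1 hq2) (AZ.mul_mem hq1 hp2)
  have hmain : (Polynomial.X : Polynomial ℚ) ^ m = Δ * dt e1 e2 + Polynomial.X ^ (m + 1) * G := by
    rw [← hzw, hΔ, hG]
    unfold dt
    rw [hz1, hz2, hw1, hw2]
    ring
  have hdvd : (Polynomial.X : Polynomial ℚ) ^ m ∣ Δ := by
    have hX : ¬ (Polynomial.X : Polynomial ℚ) ∣ dt e1 e2 := by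
      rw [Polynomial.X_dvd_iff]; exact hδ0
    refine Polynomial.prime_X.pow_dvd_of_dvd_mul_right m hX ?_
    have : Δ * dt e1 e2 = Polynomial.X ^ m * (1 - Polynomial.X * G) := by
      linear_combination -hmain
    rw [this]
    exact dvd_mul_right _ _
  obtain ⟨Δ', hΔ'⟩ := hdvd
  have hΔ'm : Δ'.coeff 0 ∈ AQ := by
    have := mem_AZ.mp hΔm m
    rw [hΔ', Polynomial.coeff_X_pow_mul'] at this
    simpa using this
  have hone : (1 : Polynomial ℚ) = Δ' * dt e1 e2 + Polynomial.X * G := by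
    refine mul_left_cancel₀ (pow_ne_zero m (Polynomial.X_ne_zero (R := ℚ))) ?_
    rw [mul_one]
    nth_rewrite 1 [hmain]
    rw [hΔ']
    ring
  have hc0 : (1 : ℚ) = Δ'.coeff 0 * δ := by
    have := congrArg (fun f : Polynomial ℚ => f.coeff 0) hone
    simp only [Polynomial.coeff_add, Polynomial.mul_coeff_zero, Polynomial.coeff_X_zero, zero_mul,
      add_zero, Polynomial.coeff_one_zero] at this
    exact this
  obtain ⟨i, hi⟩ := mem_AQ.mp hΔ'm
  obtain ⟨j, hj⟩ := hint e1 h1 e2 h2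
  have hij : i * j = 1 := by
    rw [hi] at hc0
    have hδj : δ = j := hj
    rw [hδj] at hc0
    exact_mod_cast hc0.symm
  rcases Int.eq_one_or_neg_one_of_mul_eq_one' hij with ⟨_, hj1⟩ | ⟨_, hj1⟩
  · refine ⟨e1, h1, e2, h2, ?_⟩
    rw [hj, hj1]; simp
  · have hm := E0_mul hL h2 (C_mem_AZ (-1))
    refine ⟨e1, h1, _, hm, ?_⟩
    have h8 := hj
    rw [hj1, dt_coeff_zero] at h8
    rw [dt_coeff_zero]
    simp only [dt] at h8 ⊢
    simp only [Polynomial.coeff_C_mul]
    push_cast at h8 ⊢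
    linarith

end Loc

open Loc

theorem M0_uni {L : Set (S × S)} (hL : Uni AS L) : Uni AQ (M0 L) := by
  obtain ⟨e1, h1, e2, h2, h⟩ := exists_basis hL
  rw [dt_coeff_zero] at h
  refine ⟨(e1.1.coeff 0, e1.2.coeff 0), (e2.1.coeff 0, e2.2.coeff 0), h, ?_⟩
  ext z
  constructor
  · rintro ⟨w, hw, rfl⟩
    constructor
    · rw [← dt_coeff_zero]
      exact mem_AZ.mp (E0_dt hL hw h1) 0
    · rw [← dt_coeff_zero]
      exact mem_AZ.mp (E0_dt hL hw h2) 0
  · rintro ⟨hz1, hz2⟩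
    obtain ⟨a, ha⟩ := mem_AQ.mp hz2
    obtain ⟨b, hb⟩ := mem_AQ.mp hz1
    refine ⟨_, E0_comb hL h1 h2 (C_mem_AZ a) (C_mem_AZ (-b)), ?_⟩
    simp only [dt] at h ha hb
    refine Prod.ext ?_ ?_
    · simp only [Polynomial.coeff_add, Polynomial.coeff_C_mul]
      rw [← ha]; push_cast; rw [← hb]
      linear_combination (-z.1) * h
    · simp only [Polynomial.coeff_add, Polynomial.coeff_C_mul]
      rw [← ha]; push_cast; rw [← hb]
      linear_combination (-z.2) * h

theorem E0_sub_F0 {L : Set (S × S)} (hL : Uni AS L) {w : Polynomial ℚ × Polynomial ℚ}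
    (hw : w ∈ E0 L) : ((w.1 : P), (w.2 : P)) ∈ F0 L := by
  intro w' hw'
  have h := coe_mem_AP (E0_dt hL hw hw')
  have e : ((dt w w' : Polynomial ℚ) : P) = dt ((w.1 : P), (w.2 : P)) ((w'.1 : P), (w'.2 : P)) := by
    unfold dt
    push_cast
    rfl
  rw [← e]; exact h

namespace Loc

/-- The inverse of the determinant of the local basis. -/
theorem exists_inv {F : Polynomial ℚ} (hF : F ∈ AZ) (h1 : F.coeff 0 = 1) :
    ∃ G ∈ AP, (F : P) * G = 1 := by
  obtain ⟨f, hf⟩ := coe_mem_AP hF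
  have hc : PowerSeries.constantCoeff f = 1 := by
    have h2 : PowerSeries.coeff 0 (PowerSeries.map (Int.castRingHom ℚ) f) = (F : P).coeff 0 := by
      rw [hf]
    rw [PowerSeries.coeff_map, Polynomial.coeff_coe, h1] at h2
    rw [← PowerSeries.coeff_zero_eq_constantCoeff_apply]
    have : ((PowerSeries.coeff 0 f : ℤ) : ℚ) = 1 := h2
    exact_mod_cast this
  have hu : IsUnit f := by
    rw [PowerSeries.isUnit_iff_constantCoeff, hc]
    exact isUnit_one
  obtain ⟨g, hg⟩ := hu.exists_right_inv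
  refine ⟨PowerSeries.map (Int.castRingHom ℚ) g, ⟨g, rfl⟩, ?_⟩
  rw [← hf, ← map_mul, hg, map_one]

/-- Description of the local lattice by the local basis. -/
theorem F0_iff {L : Set (S × S)} (hL : Uni AS L) {e1 e2 : Polynomial ℚ × Polynomial ℚ}
    (h1 : e1 ∈ E0 L) (h2 : e2 ∈ E0 L) (h : (dt e1 e2).coeff 0 = 1) (z : P × P) :
    z ∈ F0 L ↔ dt z ((e1.1 : P), (e1.2 : P)) ∈ AP ∧ dt z ((e2.1 : P), (e2.2 : P)) ∈ AP := by
  constructor
  · intro hz
    exact ⟨hz e1 h1, hz e2 h2⟩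
  · rintro ⟨hz1, hz2⟩ w hw
    obtain ⟨G, hG, hFG⟩ := exists_inv (E0_dt hL h1 h2) h
    have k1 := coe_mem_AP (E0_dt hL hw h2)
    have k2 := coe_mem_AP (E0_dt hL h1 hw)
    have e : dt z ((w.1 : P), (w.2 : P)) = G * (((dt w e2 : Polynomial ℚ) : P)
        * dt z ((e1.1 : P), (e1.2 : P)) + ((dt e1 w : Polynomial ℚ) : P)
        * dt z ((e2.1 : P), (e2.2 : P))) := by
      have e2' : ((dt e1 e2 : Polynomial ℚ) : P) * dt z ((w.1 : P), (w.2 : P))
          = ((dt w e2 : Polynomial ℚ) : P) * dt z ((e1.1 : P), (e1.2 : P))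
            + ((dt e1 w : Polynomial ℚ) : P) * dt z ((e2.1 : P), (e2.2 : P)) := by
        simp only [dt]
        push_cast
        ring
      rw [← e2', ← mul_assoc, mul_comm G, hFG, one_mul]
    rw [e]
    exact AP.mul_mem hG (AP.add_mem (AP.mul_mem k1 hz1) (AP.mul_mem k2 hz2))

end Loc

theorem F0_uni {L : Set (S × S)} (hL : Uni AS L) : Uni AP (F0 L) := by
  obtain ⟨e1, h1, e2, h2, h⟩ := exists_basis hL
  obtain ⟨G, hG, hFG⟩ := exists_inv (E0_dt hL h1 h2) h
  refine ⟨((e1.1 : P), (e1.2 : P)), (G * (e2.1 : P), G * (e2.2 : P)), ?_, ?_⟩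
  · rw [← hFG]
    simp only [dt]
    push_cast
    ring
  · ext z
    rw [F0_iff hL h1 h2 h z]
    have e : dt z (G * (e2.1 : P), G * (e2.2 : P)) = G * dt z ((e2.1 : P), (e2.2 : P)) := by
      simp only [dt]; ring
    have e' : dt z ((e2.1 : P), (e2.2 : P)) = ((dt e1 e2 : Polynomial ℚ) : P)
        * dt z (G * (e2.1 : P), G * (e2.2 : P)) := by
      rw [e, ← mul_assoc, hFG, one_mul]
    constructor
    · rintro ⟨k1, k2⟩
      exact ⟨k1, by rw [e]; exact AP.mul_mem hG k2⟩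
    · rintro ⟨k1, k2⟩
      exact ⟨k1, by rw [e']; exact AP.mul_mem (coe_mem_AP (E0_dt hL h1 h2)) k2⟩

theorem F0_approx {L : Set (S × S)} (hL : Uni AS L) {z : P × P} (hz : z ∈ F0 L) (k : ℕ) :
    ∃ w ∈ E0 L, (PowerSeries.X : P) ^ k ∣ z.1 - (w.1 : P) ∧
      (PowerSeries.X : P) ^ k ∣ z.2 - (w.2 : P) := by
  obtain ⟨e1, h1, e2, h2, h⟩ := exists_basis hL
  obtain ⟨G, hG, hFG⟩ := exists_inv (E0_dt hL h1 h2) h
  obtain ⟨hz1, hz2⟩ := (F0_iff hL h1 h2 h z).mp hz
  set p : P := G * dt z ((e2.1 : P), (e2.2 : P)) with hp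
  set q : P := G * (- dt z ((e1.1 : P), (e1.2 : P))) with hq
  have hpm : p ∈ AP := AP.mul_mem hG hz2
  have hqm : q ∈ AP := AP.mul_mem hG (AP.neg_mem hz1)
  have htr : ∀ f : P, f ∈ AP → PowerSeries.trunc k f ∈ AZ := by
    intro f hf
    rw [mem_AZ]
    intro n
    rw [PowerSeries.coeff_trunc]
    split_ifs
    · exact mem_AP.mp hf n
    · exact AQ.zero_mem
  have hdv : ∀ f : P, (PowerSeries.X : P) ^ k ∣ f - (PowerSeries.trunc k f : Polynomial ℚ) := by
    intro f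
    rw [PowerSeries.X_pow_dvd_iff]
    intro m hm
    rw [map_sub, Polynomial.coeff_coe, PowerSeries.coeff_trunc, if_pos hm, sub_self]
  refine ⟨_, E0_comb hL h1 h2 (htr p hpm) (htr q hqm), ?_, ?_⟩
  · have e : z.1 - ((PowerSeries.trunc k p * e1.1 + PowerSeries.trunc k q * e2.1 : Polynomial ℚ) : P)
        = (p - (PowerSeries.trunc k p : Polynomial ℚ)) * (e1.1 : P)
          + (q - (PowerSeries.trunc k q : Polynomial ℚ)) * (e2.1 : P) := by
      have e3 : z.1 = p * (e1.1 : P) + q * (e2.1 : P) := by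
        have e4 : z.1 = (((dt e1 e2 : Polynomial ℚ) : P) * G) * z.1 := by rw [hFG, one_mul]
        rw [e4, hp, hq]
        simp only [dt]
        push_cast
        ring
      push_cast
      nth_rewrite 1 [e3]
      ring
    rw [e]
    exact dvd_add (Dvd.dvd.mul_right (hdv p) _) (Dvd.dvd.mul_right (hdv q) _)
  · have e : z.2 - ((PowerSeries.trunc k p * e1.2 + PowerSeries.trunc k q * e2.2 : Polynomial ℚ) : P)
        = (p - (PowerSeries.trunc k p : Polynomial ℚ)) * (e1.2 : P)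
          + (q - (PowerSeries.trunc k q : Polynomial ℚ)) * (e2.2 : P) := by
      have e3 : z.2 = p * (e1.2 : P) + q * (e2.2 : P) := by
        have e4 : z.2 = (((dt e1 e2 : Polynomial ℚ) : P) * G) * z.2 := by rw [hFG, one_mul]
        rw [e4, hp, hq]
        simp only [dt]
        push_cast
        ring
      push_cast
      nth_rewrite 1 [e3]
      ring
    rw [e]
    exact dvd_add (Dvd.dvd.mul_right (hdv p) _) (Dvd.dvd.mul_right (hdv q) _)

end Pool.Agent.GE2
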