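import Pool.Agent.GE2.Defs

/-!
Job PLAT: the Gauss lemma for the intersection of a unimodular lattice with a coordinate line, elements
with constant term one, and the plateau bound.
-/

set_option autoImplicit false

namespace Pool.Agent.GE2

open LaurentPolynomial

theorem pl_coeff_iota (r : R) (n : ℤ) : (iota r).coeff n = ((r.coeff n : ℤ) : ℚ) := by
  simp [iota]

theorem pl_iota_inj : Function.Injective iota := by
  intro a b h
  ext n
  have := congrArg (fun z : S => z.coeff n) h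
  simp only [pl_coeff_iota] at this
  exact_mod_cast this

theorem pl_iota_C (k : ℤ) : iota (C k) = C (k : ℚ) := by
  ext n
  rw [pl_coeff_iota]
  simp only [C_apply]
  split_ifs <;> simp

theorem pl_iota_T (k : ℤ) : iota (T k) = T k := by
  ext n
  rw [pl_coeff_iota]
  simp only [T_apply]
  split_ifs <;> simp

theorem pl_iota_toLaurent (p : Polynomial ℤ) :
    iota (Polynomial.toLaurent p) = Polynomial.toLaurent (p.map (Int.castRingHom ℚ)) := by
  have : (iota.comp (Polynomial.toLaurent (R := ℤ))) =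
      (Polynomial.toLaurent (R := ℚ)).comp (Polynomial.mapRingHom (Int.castRingHom ℚ)) := by
    apply Polynomial.ringHom_ext
    · intro a
      simp
    · simp [pl_iota_T]
  exact congrArg (fun f : Polynomial ℤ →+* S => f p) this

theorem pl_coeff_mul_T {A : Type*} [CommRing A] (f : LaurentPolynomial A) (n m : ℤ) :
    (f * T n).coeff m = f.coeff (m - n) := by
  have := AddMonoidAlgebra.coeff_mul_single_apply f (1 : A) n m
  rw [mul_one, ← sub_eq_add_neg] at this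
  exact this

theorem pl_coeff_toLaurent {A : Type*} [CommRing A] (f : Polynomial A) (n : ℕ) :
    (Polynomial.toLaurent f : LaurentPolynomial A).coeff n = f.coeff n := by
  rw [coeff_toLaurent]
  exact Finsupp.mapDomain_apply Nat.castEmbedding.injective _ n

theorem pl_coeff_toLaurent_neg {A : Type*} [CommRing A] (f : Polynomial A) (n : ℤ) (hn : n < 0) :
    (Polynomial.toLaurent f : LaurentPolynomial A).coeff n = 0 := by
  rw [coeff_toLaurent]
  apply Finsupp.mapDomain_of_notMem_range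
  rintro ⟨k, rfl⟩
  have : (0 : ℤ) ≤ (Nat.castEmbedding k : ℤ) := Int.natCast_nonneg k
  omega

/-! reduction modulo a prime -/

/-- reduction modulo `p` -/
noncomputable def plRed (p : ℕ) : R →+* LaurentPolynomial (ZMod p) :=
  AddMonoidAlgebra.mapRingHom ℤ (Int.castRingHom (ZMod p))

theorem pl_coeff_red (p : ℕ) (r : R) (n : ℤ) : (plRed p r).coeff n = ((r.coeff n : ℤ) : ZMod p) := by
  simp [plRed]

theorem pl_red_eq_zero_iff (p : ℕ) (r : R) : plRed p r = 0 ↔ (C (p : ℤ) : R) ∣ r := by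
  constructor
  · intro h
    obtain ⟨N, f, hf⟩ := exists_T_pow r
    have hd : (Polynomial.C (p : ℤ)) ∣ f := by
      rw [Polynomial.C_dvd_iff_dvd_coeff]
      intro i
      rw [← pl_coeff_toLaurent, hf, pl_coeff_mul_T]
      have := congrArg (fun z : LaurentPolynomial (ZMod p) => z.coeff ((i : ℤ) - N)) h
      simp only [pl_coeff_red] at this
      exact (ZMod.intCast_zmod_eq_zero_iff_dvd _ p).1 (by simpa using this)
    obtain ⟨g, hg⟩ := hd
    refine ⟨Polynomial.toLaurent g * T (-N), ?_⟩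
    have h1 : r = r * T N * T (-N) := by
      rw [mul_T_assoc, add_neg_cancel, T_zero, mul_one]
    rw [h1, ← hf, hg, map_mul, Polynomial.toLaurent_C, mul_assoc]
  · rintro ⟨g, rfl⟩
    rw [map_mul]
    have : plRed p (C (p : ℤ)) = 0 := by
      ext n
      rw [pl_coeff_red, C_apply]
      split_ifs <;> simp
    rw [this, zero_mul]

theorem pl_prime (p : ℕ) (hp : p.Prime) (a b : R) (h : (C (p : ℤ) : R) ∣ a * b) :
    (C (p : ℤ) : R) ∣ a ∨ (C (p : ℤ) : R) ∣ b := by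
  have := Fact.mk hp
  rw [← pl_red_eq_zero_iff, map_mul] at h
  rw [← pl_red_eq_zero_iff, ← pl_red_eq_zero_iff]
  exact mul_eq_zero.1 h


theorem pl_coeff_C_mul {A : Type*} [CommRing A] (r : A) (f : LaurentPolynomial A) (n : ℤ) :
    (C r * f).coeff n = r * f.coeff n := by
  rw [← smul_eq_C_mul]
  simp

theorem pl_C_ne_zero {A : Type*} [CommRing A] {r : A} (hr : r ≠ 0) :
    (C r : LaurentPolynomial A) ≠ 0 := by
  intro h
  have := congrArg (fun z : LaurentPolynomial A => z.coeff 0) h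
  simp at this
  exact hr this

/-- two integral Laurent polynomials have a greatest common content -/
theorem pl_content (a b : R) (h : ¬ (a = 0 ∧ b = 0)) :
    ∃ g : ℕ, 0 < g ∧ ∃ a' b' : R, a = C (g : ℤ) * a' ∧ b = C (g : ℤ) * b' ∧
      ∀ p : ℕ, p.Prime → ¬ ((C (p : ℤ) : R) ∣ a' ∧ (C (p : ℤ) : R) ∣ b') := by
  classical
  have hb : ∃ c : ℕ, 0 < c ∧ ∀ g : ℕ, ((C (g : ℤ) : R) ∣ a ∧ (C (g : ℤ) : R) ∣ b) → g ∣ c := by
    have hc : ∃ n : ℤ, a.coeff n ≠ 0 ∨ b.coeff n ≠ 0 := by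
      by_contra hcon
      push Not at hcon
      apply h
      constructor
      · ext n; simpa using (hcon n).1
      · ext n; simpa using (hcon n).2
    obtain ⟨n, hn | hn⟩ := hc
    · refine ⟨(a.coeff n).natAbs, Int.natAbs_pos.2 hn, ?_⟩
      rintro g ⟨⟨u, rfl⟩, -⟩
      rw [pl_coeff_C_mul, Int.natAbs_mul, Int.natAbs_natCast]
      exact dvd_mul_right _ _
    · refine ⟨(b.coeff n).natAbs, Int.natAbs_pos.2 hn, ?_⟩
      rintro g ⟨-, ⟨u, rfl⟩⟩
      rw [pl_coeff_C_mul, Int.natAbs_mul, Int.natAbs_natCast]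
      exact dvd_mul_right _ _
  obtain ⟨c, hc0, hc⟩ := hb
  let P : ℕ → Prop := fun g => (C (g : ℤ) : R) ∣ a ∧ (C (g : ℤ) : R) ∣ b
  have hP1 : P 1 := by simp [P]
  have hspec : P (Nat.findGreatest P c) := Nat.findGreatest_spec (m := 1) hc0 hP1
  have hle : 1 ≤ Nat.findGreatest P c := Nat.le_findGreatest hc0 hP1
  obtain ⟨⟨a', ha'⟩, ⟨b', hb'⟩⟩ := hspec
  refine ⟨Nat.findGreatest P c, hle, a', b', ha', hb', ?_⟩
  rintro p hp ⟨⟨u, hu⟩, ⟨v, hv⟩⟩
  have hPp : P (Nat.findGreatest P c * p) := by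
    constructor
    · refine ⟨u, ?_⟩
      conv_lhs => rw [ha', hu]
      push_cast
      rw [map_mul, mul_assoc]
    · refine ⟨v, ?_⟩
      conv_lhs => rw [hb', hv]
      push_cast
      rw [map_mul, mul_assoc]
  have h1 : Nat.findGreatest P c * p ≤ c := Nat.le_of_dvd hc0 (hc _ hPp)
  have h2 := Nat.le_findGreatest h1 hPp
  have h3 : 2 ≤ p := hp.two_le
  nlinarith

/-- clear denominators -/
theorem pl_denom (f : S) : ∃ m : ℕ, 0 < m ∧ ∃ r : R, C (m : ℚ) * f = iota r := by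
  induction f using LaurentPolynomial.induction_on' with
  | add f g hf hg =>
    obtain ⟨m, hm, r, hr⟩ := hf
    obtain ⟨m', hm', r', hr'⟩ := hg
    refine ⟨m * m', Nat.mul_pos hm hm', C (m' : ℤ) * r + C (m : ℤ) * r', ?_⟩
    rw [map_add, map_mul, map_mul, ← hr, ← hr', pl_iota_C, pl_iota_C]
    push_cast
    rw [map_mul]
    ring
  | C_mul_T n a =>
    refine ⟨a.den, a.den_pos, C a.num * T n, ?_⟩
    rw [map_mul, pl_iota_C, pl_iota_T, ← mul_assoc, ← map_mul]
    congr 2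
    rw [mul_comm]
    exact Rat.mul_den_eq_num a

/-- Gauss lemma -/
theorem pl_gauss_aux (a b : R) (hab : ∀ p : ℕ, p.Prime → ¬ ((C (p : ℤ) : R) ∣ a ∧ (C (p : ℤ) : R) ∣ b))
    (h : S) (ha : h * iota a ∈ AS) (hb : h * iota b ∈ AS) : h ∈ AS := by
  classical
  have hex : ∃ m : ℕ, 0 < m ∧ ∃ r : R, C (m : ℚ) * h = iota r := pl_denom h
  obtain ⟨hm, r, hr⟩ := Nat.find_spec hex
  set m := Nat.find hex with hmdef
  rcases Nat.lt_or_ge 1 m with h1 | h1
  · exfalso
    obtain ⟨p, hp, k, hk⟩ := Nat.exists_prime_and_dvd (n := m) (by omega)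
    have hk0 : 0 < k := by
      rcases Nat.eq_zero_or_pos k with h | h
      · subst h; omega
      · exact h
    have hp0 : (p : ℚ) ≠ 0 := by exact_mod_cast hp.ne_zero
    have hnd : ¬ (C (p : ℤ) : R) ∣ r := by
      rintro ⟨u, hu⟩
      have hlt : k < m := by
        rw [hk]
        have := hp.two_le
        nlinarith
      apply Nat.find_min hex hlt
      refine ⟨hk0, u, ?_⟩
      rw [hu, map_mul, pl_iota_C, hk] at hr
      push_cast at hr
      rw [map_mul, mul_assoc] at hr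
      exact mul_left_cancel₀ (pl_C_ne_zero hp0) hr
    have key : ∀ x : R, h * iota x ∈ AS → (C (p : ℤ) : R) ∣ x := by
      rintro x ⟨y, hy⟩
      have hprod : r * x = C (p : ℤ) * (C (k : ℤ) * y) := by
        apply pl_iota_inj
        rw [map_mul, ← hr, mul_assoc, ← hy, map_mul, map_mul, pl_iota_C, pl_iota_C, hk]
        push_cast
        rw [map_mul, mul_assoc]
      rcases pl_prime p hp r x ⟨_, hprod⟩ with h2 | h2
      · exact absurd h2 hnd
      · exact h2
    exact hab p hp ⟨key a ha, key b hb⟩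
  · have hm1 : m = 1 := by omega
    rw [hm1] at hr
    refine ⟨r, ?_⟩
    rw [← hr]
    simp

theorem pl_C_mul_C {A : Type*} [CommRing A] (a b : A) (f : LaurentPolynomial A) :
    C a * (C b * f) = C (a * b) * f := by
  rw [map_mul, mul_assoc]

theorem gauss {L : Set (S × S)} (hL : Uni AS L) :
    ∃ n : ℚ, 0 < n ∧ ∀ f : S, (f, 0) ∈ L ↔ C n⁻¹ * f ∈ AS := by
  obtain ⟨x, y, hxy, rfl⟩ := hL
  obtain ⟨m1, hm1, r1, hr1⟩ := pl_denom x.2
  obtain ⟨m2, hm2, r2, hr2⟩ := pl_denom y.2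
  have hm1q : (m1 : ℚ) ≠ 0 := by exact_mod_cast hm1.ne'
  have hm2q : (m2 : ℚ) ≠ 0 := by exact_mod_cast hm2.ne'
  have hm1p : (0 : ℚ) < m1 := by exact_mod_cast hm1
  have hm2p : (0 : ℚ) < m2 := by exact_mod_cast hm2
  have hm1z : (m1 : ℤ) ≠ 0 := by exact_mod_cast hm1.ne'
  have hm2z : (m2 : ℤ) ≠ 0 := by exact_mod_cast hm2.ne'
  have hne : ¬ (C (m2 : ℤ) * r1 = 0 ∧ C (m1 : ℤ) * r2 = 0) := by
    rintro ⟨h1, h2⟩
    have h1' : r1 = 0 := (mul_eq_zero.1 h1).resolve_left (pl_C_ne_zero hm2z)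
    have h2' : r2 = 0 := (mul_eq_zero.1 h2).resolve_left (pl_C_ne_zero hm1z)
    rw [h1', map_zero] at hr1
    rw [h2', map_zero] at hr2
    have e1 : x.2 = 0 := (mul_eq_zero.1 hr1).resolve_left (pl_C_ne_zero hm1q)
    have e2 : y.2 = 0 := (mul_eq_zero.1 hr2).resolve_left (pl_C_ne_zero hm2q)
    simp [dt, e1, e2] at hxy
  obtain ⟨g, hg, a', b', ha, hb, hpr⟩ := pl_content _ _ hne
  have hgp : (0 : ℚ) < g := by exact_mod_cast hg
  have hx : x.2 = C ((g : ℚ) / (m1 * m2)) * iota a' := by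
    have h1 := congrArg iota ha
    rw [map_mul, map_mul, pl_iota_C, pl_iota_C, ← hr1] at h1
    push_cast at h1
    have h2 : C ((m1 * m2 : ℚ)⁻¹) * (C (m2 : ℚ) * (C (m1 : ℚ) * x.2))
        = C ((m1 * m2 : ℚ)⁻¹) * (C (g : ℚ) * iota a') := by rw [h1]
    rw [pl_C_mul_C, pl_C_mul_C, pl_C_mul_C] at h2
    have e1 : (m1 * m2 : ℚ)⁻¹ * m2 * m1 = 1 := by field_simp
    have e2 : (m1 * m2 : ℚ)⁻¹ * g = g / (m1 * m2) := by field_simp
    rw [e1, e2, map_one, one_mul] at h2
    exact h2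
  have hy : y.2 = C ((g : ℚ) / (m1 * m2)) * iota b' := by
    have h1 := congrArg iota hb
    rw [map_mul, map_mul, pl_iota_C, pl_iota_C, ← hr2] at h1
    push_cast at h1
    have h2 : C ((m1 * m2 : ℚ)⁻¹) * (C (m1 : ℚ) * (C (m2 : ℚ) * y.2))
        = C ((m1 * m2 : ℚ)⁻¹) * (C (g : ℚ) * iota b') := by rw [h1]
    rw [pl_C_mul_C, pl_C_mul_C, pl_C_mul_C] at h2
    have e1 : (m1 * m2 : ℚ)⁻¹ * m1 * m2 = 1 := by field_simp
    have e2 : (m1 * m2 : ℚ)⁻¹ * g = g / (m1 * m2) := by field_simp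
    rw [e1, e2, map_one, one_mul] at h2
    exact h2
  refine ⟨(m1 * m2 : ℚ) / g, by positivity, fun f => ?_⟩
  rw [inv_div]
  constructor
  · rintro ⟨h1, h2⟩
    simp only [dt, zero_mul, sub_zero] at h1 h2
    apply pl_gauss_aux a' b' hpr
    · rw [hx] at h1
      have e : C ((g : ℚ) / (m1 * m2)) * f * iota a' = f * (C ((g : ℚ) / (m1 * m2)) * iota a') := by
        ring
      rw [e]; exact h1
    · rw [hy] at h2
      have e : C ((g : ℚ) / (m1 * m2)) * f * iota b' = f * (C ((g : ℚ) / (m1 * m2)) * iota b') := by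
        ring
      rw [e]; exact h2
  · intro h
    constructor
    · simp only [dt, zero_mul, sub_zero]
      rw [hx]
      have e : f * (C ((g : ℚ) / (m1 * m2)) * iota a') = C ((g : ℚ) / (m1 * m2)) * f * iota a' := by
        ring
      rw [e]
      exact AS.mul_mem h ⟨a', rfl⟩
    · simp only [dt, zero_mul, sub_zero]
      rw [hy]
      have e : f * (C ((g : ℚ) / (m1 * m2)) * iota b') = C ((g : ℚ) / (m1 * m2)) * f * iota b' := by
        ring
      rw [e]
      exact AS.mul_mem h ⟨b', rfl⟩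

/-- split off the part divisible by `p` of a polynomial -/
theorem pl_decomp_poly (p : ℕ) (N : ℕ) : ∀ q : Polynomial ℤ, q.natDegree ≤ N →
    ¬ (Polynomial.C (p : ℤ) ∣ q) → ∃ (k : ℕ) (q1 q2 : Polynomial ℤ),
      q = Polynomial.C (p : ℤ) * q1 + Polynomial.X ^ k * q2 ∧ ¬ (p : ℤ) ∣ q2.coeff 0 := by
  induction N with
  | zero =>
    intro q hq hnd
    by_cases h : (p : ℤ) ∣ q.coeff 0
    · exfalso
      apply hnd
      rw [Polynomial.eq_C_of_natDegree_le_zero hq]
      exact map_dvd Polynomial.C h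
    · exact ⟨0, 0, q, by simp, h⟩
  | succ N ih =>
    intro q hq hnd
    by_cases h : (p : ℤ) ∣ q.coeff 0
    · obtain ⟨c, hc⟩ := h
      have hdiv : q = Polynomial.divX q * Polynomial.X + Polynomial.C (q.coeff 0) :=
        (Polynomial.divX_mul_X_add q).symm
      have hd : ¬ (Polynomial.C (p : ℤ) ∣ Polynomial.divX q) := by
        rintro ⟨u, hu⟩
        apply hnd
        refine ⟨u * Polynomial.X + Polynomial.C c, ?_⟩
        conv_lhs => rw [hdiv, hu, hc]
        rw [map_mul]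
        ring
      have hdeg : (Polynomial.divX q).natDegree ≤ N := by
        rw [Polynomial.natDegree_divX_eq_natDegree_tsub_one]
        omega
      obtain ⟨k, q1, q2, h1, h2⟩ := ih _ hdeg hd
      refine ⟨k + 1, q1 * Polynomial.X + Polynomial.C c, q2, ?_, h2⟩
      conv_lhs => rw [hdiv, h1, hc]
      rw [map_mul]
      ring
    · exact ⟨0, 0, q, by simp, h⟩

theorem pl_decomp (p : ℕ) (f : R) (hf : ¬ (C (p : ℤ) : R) ∣ f) :
    ∃ (k : ℤ) (a1 : R) (a2 : Polynomial ℤ),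
      f = C (p : ℤ) * a1 + T k * Polynomial.toLaurent a2 ∧ ¬ (p : ℤ) ∣ a2.coeff 0 := by
  obtain ⟨N, q, hq⟩ := exists_T_pow f
  have hf' : f = Polynomial.toLaurent q * T (-N) := by
    rw [hq, mul_T_assoc, add_neg_cancel, T_zero, mul_one]
  have hnd : ¬ (Polynomial.C (p : ℤ) ∣ q) := by
    rintro ⟨u, hu⟩
    apply hf
    refine ⟨Polynomial.toLaurent u * T (-N), ?_⟩
    rw [hf', hu, map_mul, Polynomial.toLaurent_C, mul_assoc]
  obtain ⟨k, q1, q2, h1, h2⟩ := pl_decomp_poly p q.natDegree q le_rfl hnd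
  refine ⟨k - N, Polynomial.toLaurent q1 * T (-N), q2, ?_, h2⟩
  rw [hf', h1, map_add, map_mul, map_mul, Polynomial.toLaurent_C, Polynomial.toLaurent_X_pow,
    sub_eq_add_neg, T_add]
  ring

/-- an ideal of `R` with trivial content which contains a positive integer contains a polynomial with
constant term one -/
theorem pl_ideal (I : Ideal R) (m : ℕ) (hm : 0 < m) (hmI : (C (m : ℤ) : R) ∈ I)
    (hI : ∀ p : ℕ, p.Prime → ∃ f ∈ I, ¬ (C (p : ℤ) : R) ∣ f) :
    ∃ q : Polynomial ℤ, Polynomial.toLaurent q ∈ I ∧ q.coeff 0 = 1 := by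
  classical
  set I0 : Ideal (Polynomial ℤ) := I.comap (Polynomial.toLaurent (R := ℤ)) with hI0
  set J : Ideal ℤ := I0.map (Polynomial.constantCoeff (R := ℤ)) with hJ
  have hsurj : Function.Surjective (Polynomial.constantCoeff (R := ℤ)) := by
    intro a
    exact ⟨Polynomial.C a, by simp⟩
  have hmem : ∀ j : ℤ, j ∈ J ↔ ∃ q : Polynomial ℤ, Polynomial.toLaurent q ∈ I ∧ q.coeff 0 = j := by
    intro j
    rw [hJ, Ideal.mem_map_iff_of_surjective _ hsurj]
    rfl
  suffices h1 : (1 : ℤ) ∈ J from (hmem 1).1 h1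
  by_contra hcon
  set d := Submodule.IsPrincipal.generator J with hd
  have hgen : ∀ j : ℤ, j ∈ J ↔ d ∣ j := fun j => Submodule.IsPrincipal.mem_iff_generator_dvd J
  have hd1 : d.natAbs ≠ 1 := by
    intro h
    apply hcon
    rw [hgen]
    exact Int.isUnit_iff_natAbs_eq.2 h |>.dvd
  obtain ⟨p, hp, hpd⟩ := Nat.exists_prime_and_dvd hd1
  have hpJ : ∀ j ∈ J, (p : ℤ) ∣ j := fun j hj =>
    (Int.natCast_dvd.2 hpd).trans ((hgen j).1 hj)
  obtain ⟨f, hfI, hfp⟩ := hI p hp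
  obtain ⟨k, a1, a2, hf, ha2⟩ := pl_decomp p f hfp
  obtain ⟨e, m', hm', hmm⟩ := Nat.exists_eq_pow_mul_and_not_dvd hm.ne' p hp.ne_one
  have hx : (C (m' : ℤ) : R) * (T k * Polynomial.toLaurent a2) ^ e ∈ I := by
    set x : R := T k * Polynomial.toLaurent a2 with hxdef
    have hxf : x - (-(C (p : ℤ) * a1)) = f := by rw [hf]; ring
    obtain ⟨w, hw⟩ := sub_dvd_pow_sub_pow x (-(C (p : ℤ) * a1)) e
    rw [hxf] at hw
    have h2 : (C (m' : ℤ) : R) * x ^ e = (-a1) ^ e * C (m : ℤ) + (C (m' : ℤ) * w) * f := by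
      have h3 : x ^ e = (-(C (p : ℤ) * a1)) ^ e + f * w := by rw [← hw]; ring
      rw [h3, hmm]
      push_cast
      rw [map_mul, map_pow]
      have h4 : (-(C (p : ℤ) * a1)) ^ e = (C (p : ℤ) : R) ^ e * (-a1) ^ e := by
        rw [← mul_pow]; ring
      rw [h4]
      ring
    rw [h2]
    exact I.add_mem (I.mul_mem_left _ hmI) (I.mul_mem_left _ hfI)
  have hq : Polynomial.toLaurent (Polynomial.C (m' : ℤ) * a2 ^ e) ∈ I := by
    have h5 : (Polynomial.toLaurent (Polynomial.C (m' : ℤ) * a2 ^ e) : R)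
        = T (-(e * k)) * ((C (m' : ℤ) : R) * (T k * Polynomial.toLaurent a2) ^ e) := by
      rw [map_mul, map_pow, Polynomial.toLaurent_C, mul_pow, T_pow]
      have : (T (-(e * k)) : R) * T (e * k) = 1 := by
        rw [← T_add, neg_add_cancel, T_zero]
      calc (C (m' : ℤ) : R) * Polynomial.toLaurent a2 ^ e
          = (T (-(e * k)) * T (e * k)) * (C (m' : ℤ) * Polynomial.toLaurent a2 ^ e) := by
            rw [this, one_mul]
        _ = _ := by ring
    rw [h5]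
    exact I.mul_mem_left _ hx
  have hj : (m' : ℤ) * a2.coeff 0 ^ e ∈ J := by
    rw [hmem]
    refine ⟨_, hq, ?_⟩
    rw [Polynomial.coeff_C_mul, Polynomial.coeff_zero_eq_eval_zero, Polynomial.eval_pow,
      ← Polynomial.coeff_zero_eq_eval_zero]
  have h6 := hpJ _ hj
  have hpp : Prime (p : ℤ) := Nat.prime_iff_prime_int.1 hp
  rcases hpp.dvd_or_dvd h6 with h7 | h7
  · exact hm' (Int.natCast_dvd_natCast.1 h7)
  · exact ha2 (hpp.dvd_of_dvd_pow h7)

theorem unit_at_zero {L : Set (S × S)} (hL : Uni AS L) {n : ℚ} (hn : 0 < n)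
    (h : ∀ f : S, (f, 0) ∈ L ↔ C n⁻¹ * f ∈ AS) :
    ∃ s ∈ L, ∃ p : Polynomial ℤ, p.coeff 0 = 1 ∧
      C n * s.2 = Polynomial.toLaurent (p.map (Int.castRingHom ℚ)) := by
  obtain ⟨x, y, hxy, rfl⟩ := hL
  have hn0 : n ≠ 0 := hn.ne'
  have hv : ((C n : S), (0 : S)) ∈ {z : S × S | dt z x ∈ AS ∧ dt z y ∈ AS} := by
    rw [h, ← map_mul, inv_mul_cancel₀ hn0, map_one]
    exact AS.one_mem
  obtain ⟨⟨α, hα⟩, ⟨β, hβ⟩⟩ := hv
  simp only [dt, zero_mul, sub_zero] at hα hβ
  -- the vectors of `L`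
  have hz : ∀ u v : R, ∃ s ∈ {z : S × S | dt z x ∈ AS ∧ dt z y ∈ AS},
      C n * s.2 = iota (u * α + v * β) := by
    intro u v
    refine ⟨iota u • x + iota v • y, ⟨⟨-v, ?_⟩, ⟨u, ?_⟩⟩, ?_⟩
    · simp only [dt] at hxy ⊢
      simp only [Prod.fst_add, Prod.snd_add, Prod.smul_fst, Prod.smul_snd, smul_eq_mul, map_neg]
      linear_combination (iota v) * hxy
    · simp only [dt] at hxy ⊢
      simp only [Prod.fst_add, Prod.snd_add, Prod.smul_fst, Prod.smul_snd, smul_eq_mul]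
      linear_combination (-iota u) * hxy
    · simp only [Prod.snd_add, Prod.smul_snd, smul_eq_mul]
      rw [map_add, map_mul, map_mul, hα, hβ]
      ring
  set I : Ideal R := Ideal.span {α, β} with hI
  have hαI : α ∈ I := Ideal.subset_span (by simp)
  have hβI : β ∈ I := Ideal.subset_span (by simp)
  -- a positive integer in `I`
  obtain ⟨m1, hm1, r1, hr1⟩ := pl_denom x.1
  obtain ⟨m2, hm2, r2, hr2⟩ := pl_denom y.1
  have hm1p : (0 : ℚ) < m1 := by exact_mod_cast hm1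
  have hm2p : (0 : ℚ) < m2 := by exact_mod_cast hm2
  have hint : C ((m1 : ℚ) * m2 * n) = iota (C (m2 : ℤ) * r1 * β - C (m1 : ℤ) * r2 * α) := by
    simp only [map_sub, map_mul, pl_iota_C, hα, hβ, Int.cast_natCast]
    rw [← hr1, ← hr2]
    simp only [dt] at hxy
    linear_combination (-(C (m1 : ℚ) * C (m2 : ℚ) * C n)) * hxy
  set w : R := C (m2 : ℤ) * r1 * β - C (m1 : ℤ) * r2 * α with hw
  have hwI : w ∈ I := I.sub_mem (I.mul_mem_left _ hβI) (I.mul_mem_left _ hαI)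
  have hw0 : (m1 : ℚ) * m2 * n = ((w.coeff 0 : ℤ) : ℚ) := by
    have := congrArg (fun z : S => z.coeff 0) hint
    simp only [pl_coeff_iota, C_apply, if_true] at this
    exact this
  have hwC : w = C (w.coeff 0) := by
    apply pl_iota_inj
    rw [pl_iota_C, ← hw0, hint]
  have hwpos : 0 < w.coeff 0 := by
    have : (0 : ℚ) < (m1 : ℚ) * m2 * n := by positivity
    rw [hw0] at this
    exact_mod_cast this
  have hmI : (C ((w.coeff 0).toNat : ℤ) : R) ∈ I := by
    rw [Int.toNat_of_nonneg hwpos.le, ← hwC]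
    exact hwI
  have hcont : ∀ p : ℕ, p.Prime → ∃ f ∈ I, ¬ (C (p : ℤ) : R) ∣ f := by
    intro p hp
    by_contra hcon
    push Not at hcon
    have hp0 : (p : ℚ) ≠ 0 := by exact_mod_cast hp.ne_zero
    obtain ⟨a, ha⟩ := hcon α hαI
    obtain ⟨b, hb⟩ := hcon β hβI
    have hmem : ((C (n / p) : S), (0 : S)) ∈ {z : S × S | dt z x ∈ AS ∧ dt z y ∈ AS} := by
      refine ⟨⟨a, ?_⟩, ⟨b, ?_⟩⟩
      · simp only [dt, zero_mul, sub_zero]
        rw [ha, map_mul, pl_iota_C] at hα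
        have h2 : C ((p : ℚ)⁻¹) * (C (p : ℚ) * iota a) = C ((p : ℚ)⁻¹) * (C n * x.2) := by
          push_cast at hα
          rw [hα]
        rw [pl_C_mul_C, pl_C_mul_C, inv_mul_cancel₀ hp0, map_one, one_mul] at h2
        rw [h2]
        congr 2
        field_simp
      · simp only [dt, zero_mul, sub_zero]
        rw [hb, map_mul, pl_iota_C] at hβ
        have h2 : C ((p : ℚ)⁻¹) * (C (p : ℚ) * iota b) = C ((p : ℚ)⁻¹) * (C n * y.2) := by
          push_cast at hβ
          rw [hβ]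
        rw [pl_C_mul_C, pl_C_mul_C, inv_mul_cancel₀ hp0, map_one, one_mul] at h2
        rw [h2]
        congr 2
        field_simp
    rw [h, ← map_mul] at hmem
    obtain ⟨c, hc⟩ := hmem
    have h3 := congrArg (fun z : S => z.coeff 0) hc
    simp only [pl_coeff_iota, C_apply, if_true] at h3
    have h4 : (p : ℚ) * ((c.coeff 0 : ℤ) : ℚ) = 1 := by
      rw [h3]
      field_simp
    have h5 : (p : ℤ) * c.coeff 0 = 1 := by exact_mod_cast h4
    have h6 : (p : ℤ) ∣ 1 := ⟨_, h5.symm⟩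
    have h7 : p ∣ 1 := by exact_mod_cast h6
    exact hp.one_lt.ne' (Nat.dvd_one.1 h7)
  obtain ⟨q, hqI, hq0⟩ := pl_ideal I _ (by omega) hmI hcont
  obtain ⟨u, v, huv⟩ := Ideal.mem_span_pair.1 hqI
  obtain ⟨s, hs, hs2⟩ := hz u v
  refine ⟨s, hs, q, hq0, ?_⟩
  rw [hs2, huv, pl_iota_toLaurent]

theorem plateau {L : Set (S × S)} (hL : Uni AS L) (h : ((1, 0) : ℚ × ℚ) ∉ Mc L) :
    ∃ k : ℕ, ∀ w ∈ E0 L, w.1.coeff 0 = 1 → ¬ ((Polynomial.X : Polynomial ℚ) ^ k ∣ w.2) := by
  obtain ⟨n, hn, hg⟩ := gauss hL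
  obtain ⟨s, hs, p, hp0, hp⟩ := unit_at_zero hL hn hg
  obtain ⟨e, f, hf⟩ := exists_T_pow s.1
  have hn0 : n ≠ 0 := hn.ne'
  obtain ⟨x, y, hxy, rfl⟩ := hL
  refine ⟨e + 1, ?_⟩
  rintro w hw hw0 ⟨g, hgw⟩
  apply h
  have hwm : (((Polynomial.toLaurent w.1 : S), (Polynomial.toLaurent w.2 : S)) : S × S) ∈
    {z : S × S | dt z x ∈ AS ∧ dt z y ∈ AS} := hw
  set r : S × S := ((Polynomial.toLaurent w.1 : S), (Polynomial.toLaurent w.2 : S)) with hr
  -- the determinant of `r` and `s` is integral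
  have hG : dt r s ∈ AS := by
    obtain ⟨h1, h2⟩ := hwm
    obtain ⟨h3, h4⟩ := hs
    have e1 : dt r s = dt r x * dt s y + dt r y * (-(dt s x)) := by
      simp only [dt] at hxy ⊢
      linear_combination (-(r.1 * s.2 - r.2 * s.1)) * hxy
    rw [e1]
    exact AS.add_mem (AS.mul_mem h1 h4) (AS.mul_mem h2 (AS.neg_mem h3))
  obtain ⟨G, hG⟩ := hG
  have key : (C n : S) * iota G = Polynomial.toLaurent (p.map (Int.castRingHom ℚ) * w.1)
      - C n * (Polynomial.toLaurent (Polynomial.X * g * f)) := by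
    rw [hG, map_mul, map_mul, map_mul, ← hp, hf, Polynomial.toLaurent_X]
    simp only [dt, hr]
    rw [hgw, map_mul, Polynomial.toLaurent_X_pow]
    have e2 : (T ((e + 1 : ℕ) : ℤ) : S) = T (e : ℤ) * T 1 := by
      rw [← T_add]; push_cast; rfl
    rw [e2]
    ring
  have h0 := congrArg (fun z : S => z.coeff ((0 : ℕ) : ℤ)) key
  simp only [AddMonoidAlgebra.coeff_sub, Finsupp.sub_apply, pl_coeff_C_mul, pl_coeff_iota,
    pl_coeff_toLaurent] at h0
  rw [Polynomial.mul_coeff_zero, Polynomial.coeff_map, hp0, hw0, mul_assoc,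
    Polynomial.mul_coeff_zero, Polynomial.coeff_X_zero] at h0
  simp only [zero_mul, mul_zero, sub_zero, mul_one, map_one] at h0
  have h1 : ((C 1 : S), (C 0 : S)) ∈ {z : S × S | dt z x ∈ AS ∧ dt z y ∈ AS} := by
    rw [map_zero, map_one]
    rw [hg, mul_one]
    refine ⟨C (G.coeff ((0 : ℕ) : ℤ)), ?_⟩
    rw [pl_iota_C]
    congr 1
    field_simp
    linarith
  exact h1

end Pool.Agent.GE2
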