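import Pool.Agent.GE2.Trans
import Pool.Agent.GE2.Idx
import Pool.Agent.GE2.Farey
import Pool.Agent.GE2.Loc
import Pool.Agent.GE2.Lev
import Pool.Agent.GE2.Plat
import Pool.Agent.GE2.LB
import Pool.Agent.GE2.Euc
import Pool.Agent.GE2.Fin
import Pool.Agent.GE2.JetA
import Pool.Agent.GE2.JetB
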