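import Pool.Agent.GE2.Defs

/-!
Generic facts on unimodular lattices.
-/

set_option autoImplicit false

namespace Pool.Agent.GE2

section generic

variable {K : Type*} [CommRing K] {A : Subring K} {E : Set (K × K)}

theorem dt_plucker (x y z w : K × K) :
    dt x y * dt z w = dt z x * dt w y - dt z y * dt w x := by
  simp only [dt]; ring

theorem dt_expand1 (x y z : K × K) : dt x y * z.1 = dt z y * x.1 - dt z x * y.1 := by
  simp only [dt]; ring

theorem dt_expand2 (x y z : K × K) : dt x y * z.2 = dt z y * x.2 - dt z x * y.2 := by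
  simp only [dt]; ring

theorem dt_swap (x y : K × K) : dt y x = - dt x y := by simp only [dt]; ring

theorem dt_self (x : K × K) : dt x x = 0 := by simp only [dt]; ring

theorem dt_comb_left (a b : K) (x y z : K × K) :
    dt (a * x.1 + b * y.1, a * x.2 + b * y.2) z = a * dt x z + b * dt y z := by
  simp only [dt]; ring

theorem dt_comb_right (a b : K) (x y z : K × K) :
    dt z (a * x.1 + b * y.1, a * x.2 + b * y.2) = a * dt z x + b * dt z y := by
  simp only [dt]; ring

theorem Uni.dt_mem (h : Uni A E) {z w : K × K} (hz : z ∈ E) (hw : w ∈ E) : dt z w ∈ A := by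
  obtain ⟨x, y, hxy, rfl⟩ := h
  have e := dt_plucker x y z w
  rw [hxy, one_mul] at e
  rw [e]
  exact A.sub_mem (A.mul_mem hz.1 hw.2) (A.mul_mem hz.2 hw.1)

theorem Uni.comb_mem (h : Uni A E) {z w : K × K} (hz : z ∈ E) (hw : w ∈ E) {a b : K}
    (ha : a ∈ A) (hb : b ∈ A) : (a * z.1 + b * w.1, a * z.2 + b * w.2) ∈ E := by
  obtain ⟨x, y, hxy, rfl⟩ := h
  refine ⟨?_, ?_⟩ <;> rw [dt_comb_left]
  · exact A.add_mem (A.mul_mem ha hz.1) (A.mul_mem hb hw.1)
  · exact A.add_mem (A.mul_mem ha hz.2) (A.mul_mem hb hw.2)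

theorem Uni.smul_mem (h : Uni A E) {z : K × K} (hz : z ∈ E) {a : K} (ha : a ∈ A) :
    (a * z.1, a * z.2) ∈ E := by
  have := h.comb_mem hz hz ha A.zero_mem
  simpa using this

theorem Uni.add_mem (h : Uni A E) {z w : K × K} (hz : z ∈ E) (hw : w ∈ E) : z + w ∈ E := by
  have := h.comb_mem hz hw A.one_mem A.one_mem
  have e : (1 * z.1 + 1 * w.1, 1 * z.2 + 1 * w.2) = z + w := by ext <;> simp
  rwa [e] at this

theorem Uni.neg_mem (h : Uni A E) {z : K × K} (hz : z ∈ E) : -z ∈ E := by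
  have := h.smul_mem hz (A.neg_mem A.one_mem)
  have e : (-1 * z.1, -1 * z.2) = -z := by ext <;> simp
  rwa [e] at this

theorem Uni.sub_mem (h : Uni A E) {z w : K × K} (hz : z ∈ E) (hw : w ∈ E) : z - w ∈ E := by
  rw [sub_eq_add_neg]; exact h.add_mem hz (h.neg_mem hw)

theorem Uni.zero_mem (h : Uni A E) : (0 : K × K) ∈ E := by
  obtain ⟨x, y, hxy, rfl⟩ := h
  constructor <;> simp [dt, A.zero_mem]

theorem Uni.exists_basis (h : Uni A E) : ∃ x ∈ E, ∃ y ∈ E, dt x y = 1 := by
  obtain ⟨x, y, hxy, rfl⟩ := h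
  refine ⟨x, ?_, y, ?_, hxy⟩
  · constructor
    · rw [dt_self]; exact A.zero_mem
    · rw [hxy]; exact A.one_mem
  · constructor
    · rw [dt_swap, hxy]; exact A.neg_mem A.one_mem
    · rw [dt_self]; exact A.zero_mem

/-- a unimodular lattice is described by any pair of elements whose determinant is a unit -/
theorem Uni.mem_iff (h : Uni A E) {x y : K × K} (hx : x ∈ E) (hy : y ∈ E) {u : K}
    (hu : u ∈ A) (hxy : dt x y * u = 1) (z : K × K) : z ∈ E ↔ dt z x ∈ A ∧ dt z y ∈ A := by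
  constructor
  · intro hz
    exact ⟨h.dt_mem hz hx, h.dt_mem hz hy⟩
  · rintro ⟨h1, h2⟩
    have := h.comb_mem hx hy (A.mul_mem hu h2) (A.neg_mem (A.mul_mem hu h1))
    have e1 := dt_expand1 x y z
    have e2 := dt_expand2 x y z
    have f1 : u * dt z y * x.1 + -(u * dt z x) * y.1 = z.1 := by
      have : u * (dt x y * z.1) = z.1 := by rw [← mul_assoc, mul_comm u, hxy, one_mul]
      rw [e1] at this
      rw [← this]; ring
    have f2 : u * dt z y * x.2 + -(u * dt z x) * y.2 = z.2 := by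
      have : u * (dt x y * z.2) = z.2 := by rw [← mul_assoc, mul_comm u, hxy, one_mul]
      rw [e2] at this
      rw [← this]; ring
    rw [f1, f2] at this
    exact this

theorem Uni.exists_comb (h : Uni A E) {x y : K × K} (hx : x ∈ E) (hy : y ∈ E) {u : K}
    (hu : u ∈ A) (hxy : dt x y * u = 1) {z : K × K} (hz : z ∈ E) :
    ∃ p ∈ A, ∃ q ∈ A, z = (p * x.1 + q * y.1, p * x.2 + q * y.2) := by
  refine ⟨u * dt z y, A.mul_mem hu (h.dt_mem hz hy), -(u * dt z x),
    A.neg_mem (A.mul_mem hu (h.dt_mem hz hx)), ?_⟩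
  have e1 := dt_expand1 x y z
  have e2 := dt_expand2 x y z
  ext
  · have : u * (dt x y * z.1) = z.1 := by rw [← mul_assoc, mul_comm u, hxy, one_mul]
    rw [e1] at this
    rw [← this]; ring
  · have : u * (dt x y * z.2) = z.2 := by rw [← mul_assoc, mul_comm u, hxy, one_mul]
    rw [e2] at this
    rw [← this]; ring

theorem Uni.of_basis {x y : K × K} (hxy : dt x y = 1) (hE : ∀ z, z ∈ E ↔ dt z x ∈ A ∧ dt z y ∈ A) :
    Uni A E := ⟨x, y, hxy, by ext z; exact hE z⟩

/-- two unimodular lattices sharing a pair with unit determinant are equal -/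
theorem Uni.eq_of_common {E' : Set (K × K)} (h : Uni A E) (h' : Uni A E') {x y : K × K}
    (hx : x ∈ E) (hy : y ∈ E) (hx' : x ∈ E') (hy' : y ∈ E') {u : K} (hu : u ∈ A)
    (hxy : dt x y * u = 1) : E = E' := by
  ext z
  rw [h.mem_iff hx hy hu hxy, h'.mem_iff hx' hy' hu hxy]

end generic

end Pool.Agent.GE2
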