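import Pool.Agent.GE2.Api

/-!
Connectivity of lines, change of coordinates, main directions.
-/

set_option autoImplicit false

namespace Pool.Agent.GE2

open LaurentPolynomial

/-- proportional vectors -/
def Sc (v w : S × S) : Prop := ∃ (i : ℤ) (q : ℚ), q ≠ 0 ∧ w = (T i * C q : S) • v

/-- connectivity of lines through frames of level less than `n` -/
def Cn (n : ℕ) : S × S → S × S → Prop :=
  Relation.ReflTransGen (fun v w => Sc v w ∨ Stp n v w)

theorem C_ne {q : ℚ} (hq : q ≠ 0) : (C q : S) * C q⁻¹ = 1 := by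
  rw [← map_mul, mul_inv_cancel₀ hq, map_one]

theorem Sc.symm {v w : S × S} (h : Sc v w) : Sc w v := by
  obtain ⟨i, q, hq, rfl⟩ := h
  refine ⟨-i, q⁻¹, inv_ne_zero hq, ?_⟩
  rw [smul_smul]
  have : (T (-i) * C q⁻¹ * (T i * C q) : S) = 1 := by
    calc (T (-i) * C q⁻¹ * (T i * C q) : S) = (T (-i) * T i) * (C q * C q⁻¹) := by ring
      _ = 1 := by rw [T_neg_mul, C_ne hq, one_mul]
  rw [this, one_smul]

theorem Stp.symm {n : ℕ} {v w : S × S} (h : Stp n v w) : Stp n w v := by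
  obtain ⟨b1, b2, h1, h2, h3, h4⟩ := h
  exact ⟨b1, b2, h1, h2, h4, h3⟩

theorem Cn.refl (n : ℕ) (v : S × S) : Cn n v v := Relation.ReflTransGen.refl

theorem Cn.trans {n : ℕ} {u v w : S × S} (h1 : Cn n u v) (h2 : Cn n v w) : Cn n u w :=
  Relation.ReflTransGen.trans h1 h2

theorem Cn.symm {n : ℕ} {v w : S × S} (h : Cn n v w) : Cn n w v := by
  induction h with
  | refl => exact Relation.ReflTransGen.refl
  | tail _ hab ih =>
    refine Relation.ReflTransGen.head ?_ ih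
    rcases hab with hab | hab
    · exact Or.inl hab.symm
    · exact Or.inr hab.symm

theorem Cn.of_Sc {n : ℕ} {v w : S × S} (h : Sc v w) : Cn n v w :=
  Relation.ReflTransGen.single (Or.inl h)

theorem Cn.of_Stp {n : ℕ} {v w : S × S} (h : Stp n v w) : Cn n v w :=
  Relation.ReflTransGen.single (Or.inr h)

theorem Stp.mono {m n : ℕ} (h : m ≤ n) {v w : S × S} (hs : Stp m v w) : Stp n v w := by
  obtain ⟨b1, b2, h1, h2, h3, h4⟩ := hs
  exact ⟨b1, b2, h1, lt_of_lt_of_le h2 h, h3, h4⟩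

theorem Cn.mono {m n : ℕ} (h : m ≤ n) {v w : S × S} (hs : Cn m v w) : Cn n v w := by
  induction hs with
  | refl => exact Relation.ReflTransGen.refl
  | tail _ hab ih =>
    refine Relation.ReflTransGen.tail ih ?_
    rcases hab with hab | hab
    · exact Or.inl hab
    · exact Or.inr (hab.mono h)

theorem Sc_T (v : S × S) (i : ℤ) : Sc v ((T i : S) • v) :=
  ⟨i, 1, one_ne_zero, by rw [map_one, mul_one]⟩

theorem Sc_C (v : S × S) {q : ℚ} (hq : q ≠ 0) : Sc v ((C q : S) • v) :=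
  ⟨0, q, hq, by rw [T_zero, one_mul]⟩

theorem Sc_neg (v : S × S) : Sc v (-v) :=
  ⟨0, -1, by norm_num, by rw [T_zero, one_mul, map_neg, map_one, neg_smul, one_smul]⟩

theorem Sc.trans {u v w : S × S} (h1 : Sc u v) (h2 : Sc v w) : Sc u w := by
  obtain ⟨i, q, hq, rfl⟩ := h1
  obtain ⟨j, r, hr, rfl⟩ := h2
  refine ⟨j + i, r * q, mul_ne_zero hr hq, ?_⟩
  rw [smul_smul, ← T_mul_T, map_mul]
  congr 1; ring

/-- the mirror preserves connectivity -/
theorem OnFr.mir {b1 b2 v : S × S} (h : OnFr b1 b2 v) : OnFr (mv b1) (mv b2) (mv v) := by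
  obtain ⟨i, x, y, hxy, rfl⟩ := h
  refine ⟨-i, x, y, hxy, ?_⟩
  rw [mv_add, mv_smul, mv_smul]
  simp only [map_mul, invert_T, invert_C]

theorem lev_mv (b1 b2 : S × S) : lev (mv b1) (mv b2) = lev b1 b2 := lev_mir b1 b2

theorem Cn.mir {n : ℕ} {v w : S × S} (h : Cn n v w) : Cn n (mv v) (mv w) := by
  induction h with
  | refl => exact Relation.ReflTransGen.refl
  | tail _ hab ih =>
    refine Relation.ReflTransGen.tail ih ?_
    rcases hab with ⟨i, q, hq, rfl⟩ | ⟨b1, b2, h1, h2, h3, h4⟩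
    · left
      refine ⟨-i, q, hq, ?_⟩
      rw [mv_smul]
      simp only [map_mul, invert_T, invert_C]
    · right
      exact ⟨mv b1, mv b2, h1.mir, by rw [lev_mv]; exact h2, h3.mir, h4.mir⟩

theorem Cn.mir_iff {n : ℕ} {v w : S × S} : Cn n (mv v) (mv w) ↔ Cn n v w := by
  constructor
  · intro h
    have := h.mir
    rwa [mv_mv, mv_mv] at this
  · exact Cn.mir

/-- vector with given coordinates -/
noncomputable def vec (b1 b2 : S × S) (u : ℚ × ℚ) : S × S := (C u.1 : S) • b1 + (C u.2 : S) • b2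

theorem vec_one (b1 b2 : S × S) : vec b1 b2 (1, 0) = b1 := by simp [vec]

theorem vec_two (b1 b2 : S × S) : vec b1 b2 (0, 1) = b2 := by simp [vec]

theorem vec_smul (b1 b2 : S × S) (q : ℚ) (u : ℚ × ℚ) :
    vec b1 b2 (q • u) = (C q : S) • vec b1 b2 u := by
  simp only [vec, Prod.smul_fst, Prod.smul_snd, smul_eq_mul, map_mul, smul_add, smul_smul]

theorem Sc_vec (b1 b2 : S × S) {q : ℚ} (hq : q ≠ 0) (u : ℚ × ℚ) :
    Sc (vec b1 b2 u) (vec b1 b2 (q • u)) := by
  rw [vec_smul]; exact Sc_C _ hq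

theorem OnFr_vec (b1 b2 : S × S) {u : ℚ × ℚ} (hu : u ≠ 0) : OnFr b1 b2 (vec b1 b2 u) := by
  refine ⟨0, u.1, u.2, ?_, ?_⟩
  · by_contra h
    push Not at h
    exact hu (Prod.ext h.1 h.2)
  · simp [vec]

theorem OnFr.exists_vec {b1 b2 v : S × S} (h : OnFr b1 b2 v) :
    ∃ u : ℚ × ℚ, u ≠ 0 ∧ Sc (vec b1 b2 u) v := by
  obtain ⟨i, x, y, hxy, rfl⟩ := h
  refine ⟨(x, y), ?_, i, 1, one_ne_zero, ?_⟩
  · intro h0
    rw [Prod.mk_eq_zero] at h0
    rcases hxy with h | h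
    · exact h h0.1
    · exact h h0.2
  · simp only [vec, map_one, mul_one, smul_add, smul_smul]

theorem OnFr.sc {b1 b2 v w : S × S} (h : OnFr b1 b2 v) (hs : Sc v w) : OnFr b1 b2 w := by
  obtain ⟨i, x, y, hxy, rfl⟩ := h
  obtain ⟨j, q, hq, rfl⟩ := hs
  refine ⟨j + i, q * x, q * y, ?_, ?_⟩
  · rcases hxy with h | h
    · exact Or.inl (mul_ne_zero hq h)
    · exact Or.inr (mul_ne_zero hq h)
  · rw [smul_add, smul_smul, smul_smul, ← T_mul_T, map_mul, map_mul]
    congr 2 <;> ring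

theorem Mi_eq (b1 b2 : S × S) :
    Mi (Lat b1 b2 : Set (S × S)) = M0 (Lat (mv b1) (mv b2) : Set (S × S)) := by
  change M0 (mir (Lat b1 b2)) = _
  rw [Lat_mir]

theorem mem_M0_iff {L : Set (S × S)} (hL : Uni AS L) {m : ℚ × ℚ} :
    m ∈ M0 L ↔ ∃ z ∈ F0 L, PowerSeries.constantCoeff z.1 = m.1 ∧
      PowerSeries.constantCoeff z.2 = m.2 := by
  constructor
  · rintro ⟨w, hw, rfl⟩
    refine ⟨_, E0_sub_F0 hL hw, ?_, ?_⟩
    · rw [← PowerSeries.coeff_zero_eq_constantCoeff_apply, Polynomial.coeff_coe]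
    · rw [← PowerSeries.coeff_zero_eq_constantCoeff_apply, Polynomial.coeff_coe]
  · rintro ⟨z, hz, h1, h2⟩
    obtain ⟨w, hw, h3, h4⟩ := F0_approx hL hz 1
    refine ⟨w, hw, ?_⟩
    rw [pow_one, PowerSeries.X_dvd_iff, map_sub, sub_eq_zero] at h3 h4
    rw [← PowerSeries.coeff_zero_eq_constantCoeff_apply ((w.1 : Polynomial ℚ) : P),
      Polynomial.coeff_coe] at h3
    rw [← PowerSeries.coeff_zero_eq_constantCoeff_apply ((w.2 : Polynomial ℚ) : P),
      Polynomial.coeff_coe] at h4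
    ext
    · rw [← h1, h3]
    · rw [← h2, h4]

end Pool.Agent.GE2
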