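import Mathlib

/-!
Shared definitions for the proof that GL_2 of the integral Laurent polynomials in one variable is
generated by elementary and diagonal matrices.
-/

set_option autoImplicit false

namespace Pool.Agent.GE2

open LaurentPolynomial

/-- rational Laurent polynomials -/
abbrev S := LaurentPolynomial ℚ

/-- integral Laurent polynomials -/
abbrev R := LaurentPolynomial ℤ

/-- rational power series -/
abbrev P := PowerSeries ℚ

/-- the inclusion of integral into rational Laurent polynomials -/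
noncomputable def iota : R →+* S := AddMonoidAlgebra.mapRingHom ℤ (Int.castRingHom ℚ)

/-- integral elements of `S` -/
noncomputable def AS : Subring S := iota.range

/-- integral elements of `P` -/
noncomputable def AP : Subring P := (PowerSeries.map (Int.castRingHom ℚ)).range

/-- integral elements of `ℚ` -/
def AQ : Subring ℚ := (Int.castRingHom ℚ).range

/-- determinant of a pair of vectors -/
def dt {K : Type*} [CommRing K] (x y : K × K) : K := x.1 * y.2 - x.2 * y.1

/-- unimodular lattices -/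
def Uni {K : Type*} [CommRing K] (A : Subring K) (E : Set (K × K)) : Prop :=
  ∃ x y : K × K, dt x y = 1 ∧ E = {z | dt z x ∈ A ∧ dt z y ∈ A}

/-- a frame: two vectors whose determinant is a power of the variable -/
def IsFr (b1 b2 : S × S) : Prop := ∃ k : ℤ, dt b1 b2 = T k

/-- coordinates (in the frame) of the integral vectors -/
noncomputable def Lat (b1 b2 : S × S) : AddSubgroup (S × S) where
  carrier := {z | (z.1 • b1 + z.2 • b2).1 ∈ AS ∧ (z.1 • b1 + z.2 • b2).2 ∈ AS}
  add_mem' := by
    rintro a b ⟨h1, h2⟩ ⟨h3, h4⟩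
    constructor
    · have := AS.add_mem h1 h3
      simp only [Prod.fst_add, Prod.snd_add, Prod.smul_fst, Prod.smul_snd, smul_eq_mul] at this ⊢
      have e : (a.1 + b.1) * b1.1 + (a.2 + b.2) * b2.1
          = a.1 * b1.1 + a.2 * b2.1 + (b.1 * b1.1 + b.2 * b2.1) := by ring
      rw [e]; exact this
    · have := AS.add_mem h2 h4
      simp only [Prod.fst_add, Prod.snd_add, Prod.smul_fst, Prod.smul_snd, smul_eq_mul] at this ⊢
      have e : (a.1 + b.1) * b1.2 + (a.2 + b.2) * b2.2
          = a.1 * b1.2 + a.2 * b2.2 + (b.1 * b1.2 + b.2 * b2.2) := by ring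
      rw [e]; exact this
  zero_mem' := by
    simp
  neg_mem' := by
    rintro a ⟨h1, h2⟩
    constructor
    · have := AS.neg_mem h1
      simp only [Prod.fst_add, Prod.fst_neg, Prod.snd_neg, Prod.smul_fst, smul_eq_mul] at this ⊢
      have e : (-a.1) * b1.1 + (-a.2) * b2.1 = -(a.1 * b1.1 + a.2 * b2.1) := by ring
      rw [e]; exact this
    · have := AS.neg_mem h2
      simp only [Prod.snd_add, Prod.fst_neg, Prod.snd_neg, Prod.smul_snd, smul_eq_mul] at this ⊢
      have e : (-a.1) * b1.2 + (-a.2) * b2.2 = -(a.1 * b1.2 + a.2 * b2.2) := by ring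
      rw [e]; exact this

/-- vectors without terms of negative degree -/
noncomputable def Pos : AddSubgroup (S × S) where
  carrier := {z | ∀ n : ℤ, n < 0 → z.1.coeff n = 0 ∧ z.2.coeff n = 0}
  add_mem' := by
    intro a b ha hb n hn
    obtain ⟨h1, h2⟩ := ha n hn
    obtain ⟨h3, h4⟩ := hb n hn
    simp [h1, h2, h3, h4]
  zero_mem' := by intro n _; simp
  neg_mem' := by
    intro a ha n hn
    obtain ⟨h1, h2⟩ := ha n hn
    simp [h1, h2]

/-- vectors with terms of negative degree only -/
noncomputable def Neg : AddSubgroup (S × S) where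
  carrier := {z | ∀ n : ℤ, 0 ≤ n → z.1.coeff n = 0 ∧ z.2.coeff n = 0}
  add_mem' := by
    intro a b ha hb n hn
    obtain ⟨h1, h2⟩ := ha n hn
    obtain ⟨h3, h4⟩ := hb n hn
    simp [h1, h2, h3, h4]
  zero_mem' := by intro n _; simp
  neg_mem' := by
    intro a ha n hn
    obtain ⟨h1, h2⟩ := ha n hn
    simp [h1, h2]

/-- the level of a frame -/
noncomputable def lev (b1 b2 : S × S) : ℕ :=
  ((Lat b1 b2 ⊓ Pos) ⊔ (Lat b1 b2 ⊓ Neg)).relIndex (Lat b1 b2)

/-- polynomial vectors of `L` -/
def E0 (L : Set (S × S)) : Set (Polynomial ℚ × Polynomial ℚ) :=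
  {w | ((Polynomial.toLaurent w.1 : S), (Polynomial.toLaurent w.2 : S)) ∈ L}

/-- the image of `L` under the substitution of the inverse variable -/
def mir (L : Set (S × S)) : Set (S × S) := {z | (invert z.1, invert z.2) ∈ L}

/-- constant vectors in `L` -/
def Mc (L : Set (S × S)) : Set (ℚ × ℚ) := {m | ((C m.1 : S), (C m.2 : S)) ∈ L}

/-- values at `0` of polynomial vectors in `L` -/
def M0 (L : Set (S × S)) : Set (ℚ × ℚ) := {m | ∃ w ∈ E0 L, m = (w.1.coeff 0, w.2.coeff 0)}

/-- values at infinity -/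
def Mi (L : Set (S × S)) : Set (ℚ × ℚ) := M0 (mir L)

/-- the local lattice at `0` -/
def F0 (L : Set (S × S)) : Set (P × P) :=
  {z | ∀ w ∈ E0 L, dt z ((w.1 : P), (w.2 : P)) ∈ AP}

/-- the local lattice at infinity -/
def Fi (L : Set (S × S)) : Set (P × P) := F0 (mir L)

/-- `v` is primitive in the subset `M` of `ℚ × ℚ` -/
def Prm (M : Set (ℚ × ℚ)) (v : ℚ × ℚ) : Prop := v ∈ M ∧ ∀ q : ℚ, q • v ∈ M → q ∈ AQ

/-- the vector `v` spans a line of the frame -/
def OnFr (b1 b2 v : S × S) : Prop :=
  ∃ (i : ℤ) (x y : ℚ), (x ≠ 0 ∨ y ≠ 0) ∧ v = (T i * C x) • b1 + (T i * C y) • b2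

/-- two lines on a common frame of level less than `n` -/
def Stp (n : ℕ) (v w : S × S) : Prop :=
  ∃ b1 b2, IsFr b1 b2 ∧ lev b1 b2 < n ∧ OnFr b1 b2 v ∧ OnFr b1 b2 w

/-- connectivity through frames of level less than `n` -/
def Conn (n : ℕ) : S × S → S × S → Prop := Relation.ReflTransGen (Stp n)

end Pool.Agent.GE2
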