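import Pool.Agent.GE2.Game3

/-!
Reducible directions and low lines.
-/

set_option autoImplicit false

namespace Pool.Agent.GE2

open LaurentPolynomial

/-- reducible directions -/
def Red (b1 b2 : S × S) (u : ℚ × ℚ) : Prop :=
  ∃ q : ℚ, (q • u ∈ M0 (Lat b1 b2 : Set (S × S)) ∨ q • u ∈ Mi (Lat b1 b2 : Set (S × S))) ∧
    q • u ∉ Mc (Lat b1 b2 : Set (S × S))

/-- lines on a frame of level less than `N` -/
def Low (N : ℕ) (v : S × S) : Prop := ∃ c1 c2, IsFr c1 c2 ∧ lev c1 c2 < N ∧ OnFr c1 c2 v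

end Pool.Agent.GE2
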