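import Pool.Agent.GE2.Defs2

/-!
Finiteness of plateau lengths, nonvanishing of the level, connectivity at some level.
-/

set_option autoImplicit false

namespace Pool.Agent.GE2

open LaurentPolynomial

/-- constants of `L` are values at `0` -/
theorem Mc_sub_M0 {b1 b2 : S × S} {m : ℚ × ℚ} (h : m ∈ Mc (Lat b1 b2 : Set (S × S))) :
    m ∈ M0 (Lat b1 b2 : Set (S × S)) := by
  refine ⟨(Polynomial.C m.1, Polynomial.C m.2), ?_, ?_⟩
  · change ((Polynomial.toLaurent (Polynomial.C m.1) : S),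
      (Polynomial.toLaurent (Polynomial.C m.2) : S)) ∈ (Lat b1 b2 : Set (S × S))
    rw [Polynomial.toLaurent_C, Polynomial.toLaurent_C]
    exact h
  · simp only [Polynomial.coeff_C_zero]

theorem Mc_mv {b1 b2 : S × S} {m : ℚ × ℚ} :
    m ∈ Mc (Lat (mv b1) (mv b2) : Set (S × S)) ↔ m ∈ Mc (Lat b1 b2 : Set (S × S)) := by
  rw [Lat_mir]
  change ((invert (C m.1 : S)), (invert (C m.2 : S))) ∈ (Lat b1 b2 : Set (S × S)) ↔
    ((C m.1 : S), (C m.2 : S)) ∈ (Lat b1 b2 : Set (S × S))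
  rw [invert_C, invert_C]

/-- constants of `L` are values at infinity -/
theorem Mc_sub_Mi {b1 b2 : S × S} {m : ℚ × ℚ} (h : m ∈ Mc (Lat b1 b2 : Set (S × S))) :
    m ∈ Mi (Lat b1 b2 : Set (S × S)) := by
  rw [Mi_eq]
  exact Mc_sub_M0 (Mc_mv.2 h)

/-- plateau lengths are finite -/
theorem exists_not_Lam1_Z0 {b1 b2 : S × S} (hB : IsFr b1 b2)
    (h : ((1, 0) : ℚ × ℚ) ∉ Mc (Lat b1 b2 : Set (S × S))) : ∃ k : ℕ, ¬ Lam1 (Z0 b1 b2) k := by
  obtain ⟨k, hk⟩ := plateau (Lat_uni hB) h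
  refine ⟨k + 1, ?_⟩
  rintro ⟨z, hz, h1, h2⟩
  obtain ⟨w, hw, h3, h4⟩ := F0_approx (Lat_uni hB) hz (k + 1)
  refine hk w hw ?_ ?_
  · have h5 := constantCoeff_eq_of_dvd (Nat.le_add_left 1 k) h3
    rw [h1, ← PowerSeries.coeff_zero_eq_constantCoeff_apply, Polynomial.coeff_coe] at h5
    exact h5.symm
  · have h6 : (PowerSeries.X : P) ^ (k + 1) ∣ (w.2 : P) := by
      have := dvd_sub h2 h4
      rwa [sub_sub_cancel] at this
    rw [PowerSeries.X_pow_dvd_iff] at h6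
    rw [Polynomial.X_pow_dvd_iff]
    intro d hd
    have := h6 d (by omega)
    rwa [Polynomial.coeff_coe] at this

theorem exists_not_Lam1_Zi {b1 b2 : S × S} (hB : IsFr b1 b2)
    (h : ((1, 0) : ℚ × ℚ) ∉ Mc (Lat b1 b2 : Set (S × S))) : ∃ k : ℕ, ¬ Lam1 (Zi b1 b2) k := by
  rw [Zi_eq]
  exact exists_not_Lam1_Z0 hB.mir (fun h' => h (Mc_mv.1 h'))

theorem Mc_swap {b1 b2 : S × S} (h : ((1, 0) : ℚ × ℚ) ∈ Mc (Lat b2 (-b1) : Set (S × S))) :
    ((0, 1) : ℚ × ℚ) ∈ Mc (Lat b1 b2 : Set (S × S)) := by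
  change ((C (1 : ℚ) : S), (C (0 : ℚ) : S)) ∈ Lat b2 (-b1) at h
  change ((C (0 : ℚ) : S), (C (1 : ℚ) : S)) ∈ Lat b1 b2
  rw [mem_Lat] at h ⊢
  simp only [map_one, map_zero, one_mul, zero_mul, add_zero, zero_add] at h ⊢
  exact h

theorem exists_not_Lam2_Z0 {b1 b2 : S × S} (hB : IsFr b1 b2)
    (h : ((0, 1) : ℚ × ℚ) ∉ Mc (Lat b1 b2 : Set (S × S))) : ∃ k : ℕ, ¬ Lam2 (Z0 b1 b2) k := by
  obtain ⟨k, hk⟩ := exists_not_Lam1_Z0 hB.swap (fun h' => h (Mc_swap h'))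
  exact ⟨k, fun h' => hk ((Lam1_Z0_swap b1 b2 k).2 h')⟩

theorem exists_not_Lam2_Zi {b1 b2 : S × S} (hB : IsFr b1 b2)
    (h : ((0, 1) : ℚ × ℚ) ∉ Mc (Lat b1 b2 : Set (S × S))) : ∃ k : ℕ, ¬ Lam2 (Zi b1 b2) k := by
  obtain ⟨k, hk⟩ := exists_not_Lam1_Zi hB.swap (fun h' => h (Mc_swap h'))
  exact ⟨k, fun h' => hk ((Lam1_Zi_swap b1 b2 k).2 h')⟩

theorem lev_right_ne_zero {b1 b2 : S × S} (hB : IsFr b1 b2) (hl : lev b1 b2 ≠ 0) :
    lev b1 ((T 1 : S) • b2) ≠ 0 := by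
  obtain ⟨r, hr, h0, -⟩ := prim_mult (M0_uni_fr hB) (u := (1, 0)) (by
    intro h; simp at h)
  obtain ⟨s, hs, hi, -⟩ := prim_mult (Mi_uni_fr hB) (u := (0, 1)) (by
    intro h; simp at h)
  have e0 : r • ((1, 0) : ℚ × ℚ) = (r, 0) := by ext <;> simp
  have ei : s • ((0, 1) : ℚ × ℚ) = (0, s) := by ext <;> simp
  rw [e0] at h0
  rw [ei] at hi
  have := lev_right hB (M0_uni_fr hB) (Mi_uni_fr hB) hr hs h0 hi hl
  intro h
  rw [h, Nat.cast_zero] at this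
  have h1 : (0 : ℚ) < (lev b1 b2 : ℚ) * (r * s) := by
    have : (0 : ℚ) < (lev b1 b2 : ℚ) := by exact_mod_cast Nat.pos_of_ne_zero hl
    positivity
  linarith

theorem lev_std : lev ((1, 0) : S × S) ((0, 1) : S × S) = 1 := by
  have hB : IsFr ((1, 0) : S × S) ((0, 1) : S × S) := ⟨0, by simp [dt]⟩
  refine lev_eq_one_of hB (M0_uni_fr hB) ?_
  rintro m ⟨w, hw, rfl⟩
  have hw' : ((Polynomial.toLaurent w.1 : S), (Polynomial.toLaurent w.2 : S)) ∈
    Lat ((1, 0) : S × S) ((0, 1) : S × S) := hw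
  change ((C (w.1.coeff 0) : S), (C (w.2.coeff 0) : S)) ∈ Lat ((1, 0) : S × S) ((0, 1) : S × S)
  rw [mem_Lat] at hw' ⊢
  simp only [mul_one, mul_zero, add_zero, zero_add] at hw' ⊢
  have key : ∀ p : Polynomial ℚ, (Polynomial.toLaurent p : S) ∈ AS → (C (p.coeff 0) : S) ∈ AS := by
    intro p hp
    rw [mem_AS] at hp
    have h0 := hp ((0 : ℕ) : ℤ)
    rw [pl_coeff_toLaurent] at h0
    obtain ⟨j, hj⟩ := mem_AQ.1 h0
    rw [hj]
    exact ⟨C j, pl_iota_C j⟩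
  exact ⟨key _ hw'.1, key _ hw'.2⟩

/-- the level never vanishes -/
theorem lev_ne_zero {b1 b2 : S × S} (hB : IsFr b1 b2) : lev b1 b2 ≠ 0 := by
  refine frame_induction (fun b1 b2 => lev b1 b2 ≠ 0) ?_ ?_ ?_ ?_ ?_ hB
  · change lev ((1, 0) : S × S) ((0, 1) : S × S) ≠ 0
    rw [lev_std]; exact one_ne_zero
  · intro b1 b2 a b c d _ h hQ
    change lev _ _ ≠ 0
    rw [lev_sl2 b1 b2 a b c d h]
    exact hQ
  · intro b1 b2 hB hQ
    exact lev_right_ne_zero hB hQ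
  · intro b1 b2 hB hQ
    change lev _ _ ≠ 0
    rw [← lev_shift b1 ((T (-1) : S) • b2) 1, smul_smul, T_mul_neg, one_smul, ← lev_swap]
    have h1 : lev b2 ((T 1 : S) • (-b1)) ≠ 0 := by
      refine lev_right_ne_zero hB.swap ?_
      rw [lev_swap]; exact hQ
    rwa [smul_neg] at h1
  · intro b1 b2 i _ hQ
    change lev _ _ ≠ 0
    rw [lev_shift]
    exact hQ

theorem Cn_of_OnFr {b1 b2 v w : S × S} (hB : IsFr b1 b2) (hv : OnFr b1 b2 v)
    (hw : OnFr b1 b2 w) : Cn (lev b1 b2 + 1) v w :=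
  Cn.of_Stp ⟨b1, b2, hB, Nat.lt_succ_self _, hv, hw⟩

theorem OnFr_first (b1 b2 : S × S) : OnFr b1 b2 b1 := by
  refine ⟨0, 1, 0, Or.inl one_ne_zero, ?_⟩
  simp

/-- every line of every frame is connected to the first coordinate line at some level -/
theorem Cn_std {b1 b2 v : S × S} (hB : IsFr b1 b2) (hv : OnFr b1 b2 v) :
    ∃ n : ℕ, Cn n ((1, 0) : S × S) v := by
  have key : ∀ b1 b2 : S × S, IsFr b1 b2 → (∃ n : ℕ, Cn n ((1, 0) : S × S) b1) →
      ∀ v : S × S, OnFr b1 b2 v → ∃ n : ℕ, Cn n ((1, 0) : S × S) v := by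
    rintro b1 b2 hB ⟨n, hn⟩ v hv
    refine ⟨max n (lev b1 b2 + 1), (hn.mono (le_max_left _ _)).trans
      ((Cn_of_OnFr hB (OnFr_first b1 b2) hv).mono (le_max_right _ _))⟩
  refine frame_induction (fun b1 b2 => ∀ v : S × S, OnFr b1 b2 v → ∃ n : ℕ,
    Cn n ((1, 0) : S × S) v) ?_ ?_ ?_ ?_ ?_ hB v hv
  · intro v hv
    exact key _ _ ⟨0, by simp [dt]⟩ ⟨0, Cn.refl _ _⟩ v hv
  · intro b1 b2 a b c d hB h hQ v hv
    obtain ⟨i, x, y, hxy, rfl⟩ := hv
    refine hQ _ ⟨i, a * x + b * y, c * x + d * y, ?_, ?_⟩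
    · by_contra h0
      push Not at h0
      obtain ⟨h1, h2⟩ := h0
      have hx : x = 0 := by linear_combination d * h1 - b * h2 - x * h
      have hy : y = 0 := by linear_combination a * h2 - c * h1 - y * h
      rcases hxy with h3 | h3
      · exact h3 hx
      · exact h3 hy
    · simp only [map_add, map_mul, smul_add, smul_smul, mul_add, add_smul]
      have e1 : (T i * C x * C a : S) = T i * (C a * C x) := by ring
      have e2 : (T i * C x * C c : S) = T i * (C c * C x) := by ring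
      have e3 : (T i * C y * C b : S) = T i * (C b * C y) := by ring
      have e4 : (T i * C y * C d : S) = T i * (C d * C y) := by ring
      rw [e1, e2, e3, e4]
      abel
  · intro b1 b2 hB hQ v hv
    exact key _ _ (hB.right 1) (hQ _ (OnFr_first b1 b2)) v hv
  · intro b1 b2 hB hQ v hv
    exact key _ _ (hB.right (-1)) (hQ _ (OnFr_first b1 b2)) v hv
  · intro b1 b2 i hB hQ v hv
    obtain ⟨j, x, y, hxy, rfl⟩ := hv
    refine hQ _ ⟨j + i, x, y, hxy, ?_⟩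
    rw [smul_smul, smul_smul, ← T_mul_T]
    have e1 : (T j * C x * T i : S) = T j * T i * C x := by ring
    have e2 : (T j * C y * T i : S) = T j * T i * C y := by ring
    rw [e1, e2]

end Pool.Agent.GE2
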