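import Pool.Agent.GE2.Basic

/-!
Frames, their lattices and how everything transforms.
-/

set_option autoImplicit false

namespace Pool.Agent.GE2

open LaurentPolynomial

theorem iota_T (k : ℤ) : iota (T k) = T k := by
  change AddMonoidAlgebra.mapRingHom ℤ (Int.castRingHom ℚ) (AddMonoidAlgebra.single k 1)
    = AddMonoidAlgebra.single k 1
  rw [AddMonoidAlgebra.mapRingHom_single, map_one]

theorem T_mem (k : ℤ) : (T k : S) ∈ AS := ⟨T k, iota_T k⟩

theorem T_mul_T (i j : ℤ) : (T i : S) * T j = T (i + j) := (T_add i j).symm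

theorem T_mul_neg (i : ℤ) : (T i : S) * T (-i) = 1 := by rw [T_mul_T, add_neg_cancel, T_zero]

theorem T_neg_mul (i : ℤ) : (T (-i) : S) * T i = 1 := by rw [T_mul_T, neg_add_cancel, T_zero]

theorem mem_Lat {b1 b2 z : S × S} : z ∈ Lat b1 b2 ↔
    z.1 * b1.1 + z.2 * b2.1 ∈ AS ∧ z.1 * b1.2 + z.2 * b2.2 ∈ AS := Iff.rfl

theorem Lat_uni {b1 b2 : S × S} (hB : IsFr b1 b2) : Uni AS (Lat b1 b2 : Set (S × S)) := by
  obtain ⟨k, hk⟩ := hB
  have hk' : b1.1 * b2.2 - b1.2 * b2.1 = T k := hk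
  refine Uni.of_basis (x := (T (-k) * b2.2, -(T (-k) * b1.2))) (y := (-b2.1, b1.1)) ?_ ?_
  · have : dt (T (-k) * b2.2, -(T (-k) * b1.2)) (-b2.1, b1.1)
        = T (-k) * (b1.1 * b2.2 - b1.2 * b2.1) := by simp only [dt]; ring
    rw [this, hk', T_neg_mul]
  · intro z
    rw [SetLike.mem_coe, mem_Lat]
    have e1 : dt z (T (-k) * b2.2, -(T (-k) * b1.2)) = -(T (-k) * (z.1 * b1.2 + z.2 * b2.2)) := by
      simp only [dt]; ring
    have e2 : dt z (-b2.1, b1.1) = z.1 * b1.1 + z.2 * b2.1 := by simp only [dt]; ring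
    rw [e1, e2]
    constructor
    · rintro ⟨h1, h2⟩
      exact ⟨AS.neg_mem (AS.mul_mem (T_mem _) h2), h1⟩
    · rintro ⟨h1, h2⟩
      refine ⟨h2, ?_⟩
      have := AS.neg_mem (AS.mul_mem (T_mem k) h1)
      have e : -(T k * -(T (-k) * (z.1 * b1.2 + z.2 * b2.2)))
          = (T k * T (-k)) * (z.1 * b1.2 + z.2 * b2.2) := by ring
      rw [e, T_mul_neg, one_mul] at this
      exact this

/-! ### frames -/

theorem IsFr.sl2 {b1 b2 : S × S} (hB : IsFr b1 b2) {a b c d : ℚ} (h : a * d - b * c = 1) :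
    IsFr ((C a : S) • b1 + (C c : S) • b2) ((C b : S) • b1 + (C d : S) • b2) := by
  obtain ⟨k, hk⟩ := hB
  refine ⟨k, ?_⟩
  have e : dt ((C a : S) • b1 + (C c : S) • b2) ((C b : S) • b1 + (C d : S) • b2)
      = (C a * C d - C b * C c) * dt b1 b2 := by
    simp only [dt, Prod.fst_add, Prod.snd_add, Prod.smul_fst, Prod.smul_snd, smul_eq_mul]; ring
  rw [e, hk, ← map_mul, ← map_mul, ← map_sub, h, map_one, one_mul]

theorem IsFr.right {b1 b2 : S × S} (hB : IsFr b1 b2) (i : ℤ) : IsFr b1 ((T i : S) • b2) := by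
  obtain ⟨k, hk⟩ := hB
  refine ⟨i + k, ?_⟩
  have e : dt b1 ((T i : S) • b2) = T i * dt b1 b2 := by
    simp only [dt, Prod.smul_fst, Prod.smul_snd, smul_eq_mul]; ring
  rw [e, hk, T_mul_T]

theorem IsFr.shift {b1 b2 : S × S} (hB : IsFr b1 b2) (i : ℤ) :
    IsFr ((T i : S) • b1) ((T i : S) • b2) := by
  obtain ⟨k, hk⟩ := hB
  refine ⟨i + (i + k), ?_⟩
  have e : dt ((T i : S) • b1) ((T i : S) • b2) = T i * (T i * dt b1 b2) := by
    simp only [dt, Prod.smul_fst, Prod.smul_snd, smul_eq_mul]; ring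
  rw [e, hk, T_mul_T, T_mul_T]

theorem IsFr.swap {b1 b2 : S × S} (hB : IsFr b1 b2) : IsFr b2 (-b1) := by
  obtain ⟨k, hk⟩ := hB
  refine ⟨k, ?_⟩
  rw [← hk]; simp only [dt, Prod.fst_neg, Prod.snd_neg]; ring

theorem IsFr.shear {b1 b2 : S × S} (hB : IsFr b1 b2) (x : ℚ) : IsFr b1 (b2 + (C x : S) • b1) := by
  obtain ⟨k, hk⟩ := hB
  refine ⟨k, ?_⟩
  rw [← hk]
  simp only [dt, Prod.fst_add, Prod.snd_add, Prod.smul_fst, Prod.smul_snd, smul_eq_mul]; ring

/-- the mirror of a vector -/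
noncomputable def mv (v : S × S) : S × S := (invert v.1, invert v.2)

theorem invert_invert (f : S) : invert (invert f) = f := by
  ext n; simp

theorem mv_mv (v : S × S) : mv (mv v) = v := by
  ext1 <;> simp [mv, invert_invert]

theorem mv_add (v w : S × S) : mv (v + w) = mv v + mv w := by
  ext1 <;> simp [mv]

theorem mv_neg (v : S × S) : mv (-v) = -mv v := by
  ext1 <;> simp [mv]

theorem mv_smul (f : S) (v : S × S) : mv (f • v) = (invert f : S) • mv v := by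
  ext1 <;> simp [mv]

theorem IsFr.mir {b1 b2 : S × S} (hB : IsFr b1 b2) : IsFr (mv b1) (mv b2) := by
  obtain ⟨k, hk⟩ := hB
  refine ⟨-k, ?_⟩
  have : dt (mv b1) (mv b2) = invert (dt b1 b2) := by
    simp only [dt, mv, map_sub, map_mul]
  rw [this, hk, invert_T]

end Pool.Agent.GE2
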