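import Pool.Agent.GE2.Main1

/-!
Lifting conditions and their behaviour under the moves.
-/

set_option autoImplicit false

namespace Pool.Agent.GE2

open LaurentPolynomial

theorem Lam1.mono {E : Set (P × P)} {j k : ℕ} (h : Lam1 E k) (hjk : j ≤ k) : Lam1 E j := by
  obtain ⟨z, hz, h1, h2⟩ := h
  exact ⟨z, hz, h1, dvd_trans (pow_dvd_pow _ hjk) h2⟩

theorem Lam2.mono {E : Set (P × P)} {j k : ℕ} (h : Lam2 E k) (hjk : j ≤ k) : Lam2 E j := by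
  obtain ⟨z, hz, h1, h2⟩ := h
  exact ⟨z, hz, h1, dvd_trans (pow_dvd_pow _ hjk) h2⟩

theorem cc_of_dvd {f : P} {k : ℕ} (hk : 1 ≤ k) (h : (PowerSeries.X : P) ^ k ∣ f) :
    PowerSeries.constantCoeff f = 0 := by
  rw [← PowerSeries.X_dvd_iff]
  exact dvd_trans (dvd_pow_self _ (by omega)) h

theorem Lam1_sh {E : Set (P × P)} {x : ℚ} {k : ℕ} (hk : 1 ≤ k) :
    Lam1 (sh x E) k ↔ Lam1 E k := by
  constructor
  · rintro ⟨z, hz, h1, h2⟩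
    refine ⟨_, hz, ?_, h2⟩
    simp [h1, cc_of_dvd hk h2]
  · rintro ⟨z, hz, h1, h2⟩
    refine ⟨(z.1 - PowerSeries.C x * z.2, z.2), ?_, ?_, h2⟩
    · change (z.1 - PowerSeries.C x * z.2 + PowerSeries.C x * z.2, z.2) ∈ E
      rw [sub_add_cancel]; exact hz
    · simp [h1, cc_of_dvd hk h2]

theorem sh_sh (E : Set (P × P)) (x y : ℚ) : sh x (sh y E) = sh (x + y) E := by
  ext z
  change (z.1 + PowerSeries.C x * z.2 + PowerSeries.C y * z.2, z.2) ∈ E ↔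
    (z.1 + PowerSeries.C (x + y) * z.2, z.2) ∈ E
  have : z.1 + PowerSeries.C x * z.2 + PowerSeries.C y * z.2
    = z.1 + PowerSeries.C (x + y) * z.2 := by rw [map_add]; ring
  rw [this]

theorem sh_zero (E : Set (P × P)) : sh 0 E = E := by
  ext z
  change (z.1 + PowerSeries.C 0 * z.2, z.2) ∈ E ↔ z ∈ E
  simp

theorem Z0_shear (b1 b2 : S × S) (x : ℚ) : Z0 b1 (b2 + (C x : S) • b1) = sh x (Z0 b1 b2) := by
  ext z
  have h : (1 : ℚ) * 1 - x * 0 = 1 := by norm_num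
  have := Z0_gen b1 b2 h z
  simp only [map_one, map_zero, one_smul, zero_smul, add_zero, one_mul, zero_mul, zero_add] at this
  rw [add_comm b2]
  exact this

theorem Zi_shear (b1 b2 : S × S) (x : ℚ) : Zi b1 (b2 + (C x : S) • b1) = sh x (Zi b1 b2) := by
  rw [Zi_eq, Zi_eq, mv_add, mv_smul, invert_C, Z0_shear]

theorem Z0_swap (b1 b2 : S × S) (z : P × P) : z ∈ Z0 b2 (-b1) ↔ (-z.2, z.1) ∈ Z0 b1 b2 := by
  have h : (0 : ℚ) * 0 - (-1) * 1 = 1 := by norm_num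
  have := Z0_gen b1 b2 h z
  simp only [map_one, map_zero, one_smul, zero_smul, add_zero, one_mul, zero_mul, zero_add,
    map_neg, neg_smul, neg_mul] at this
  exact this

theorem Zi_swap (b1 b2 : S × S) (z : P × P) : z ∈ Zi b2 (-b1) ↔ (-z.2, z.1) ∈ Zi b1 b2 := by
  rw [Zi_eq, Zi_eq, mv_neg, Z0_swap]

theorem Zi_right (b1 b2 : S × S) (k : ℕ) (z : P × P) :
    z ∈ Zi b1 ((T (k : ℤ) : S) • b2) ↔ (PowerSeries.X ^ k * z.1, z.2) ∈ Zi b1 b2 := by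
  rw [Zi_eq, Zi_eq, mv_smul, invert_T, Z0_left]

theorem Zi_left (b1 b2 : S × S) (k : ℕ) (z : P × P) :
    z ∈ Zi b1 ((T (-(k : ℤ)) : S) • b2) ↔ (z.1, PowerSeries.X ^ k * z.2) ∈ Zi b1 b2 := by
  rw [Zi_eq, Zi_eq, mv_smul, invert_T, neg_neg, Z0_right]

theorem mem_M0_fr {b1 b2 : S × S} (hB : IsFr b1 b2) {m : ℚ × ℚ} :
    m ∈ M0 (Lat b1 b2 : Set (S × S)) ↔ ∃ z ∈ Z0 b1 b2, PowerSeries.constantCoeff z.1 = m.1 ∧
      PowerSeries.constantCoeff z.2 = m.2 := mem_M0_iff (Lat_uni hB)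

theorem mem_Mi_fr {b1 b2 : S × S} (hB : IsFr b1 b2) {m : ℚ × ℚ} :
    m ∈ Mi (Lat b1 b2 : Set (S × S)) ↔ ∃ z ∈ Zi b1 b2, PowerSeries.constantCoeff z.1 = m.1 ∧
      PowerSeries.constantCoeff z.2 = m.2 := by
  rw [Mi_eq, mem_M0_fr hB.mir, Zi_eq]

theorem M0_ten {b1 b2 : S × S} (hB : IsFr b1 b2) :
    ((1, 0) : ℚ × ℚ) ∈ M0 (Lat b1 b2 : Set (S × S)) ↔ Lam1 (Z0 b1 b2) 1 := by
  rw [mem_M0_fr hB]
  simp only [Lam1, pow_one, PowerSeries.X_dvd_iff]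

theorem M0_zone {b1 b2 : S × S} (hB : IsFr b1 b2) :
    ((0, 1) : ℚ × ℚ) ∈ M0 (Lat b1 b2 : Set (S × S)) ↔ Lam2 (Z0 b1 b2) 1 := by
  rw [mem_M0_fr hB]
  simp only [Lam2, pow_one, PowerSeries.X_dvd_iff]
  constructor
  · rintro ⟨z, hz, h1, h2⟩; exact ⟨z, hz, h2, h1⟩
  · rintro ⟨z, hz, h1, h2⟩; exact ⟨z, hz, h2, h1⟩

theorem Mi_ten {b1 b2 : S × S} (hB : IsFr b1 b2) :
    ((1, 0) : ℚ × ℚ) ∈ Mi (Lat b1 b2 : Set (S × S)) ↔ Lam1 (Zi b1 b2) 1 := by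
  rw [mem_Mi_fr hB]
  simp only [Lam1, pow_one, PowerSeries.X_dvd_iff]

theorem Mi_zone {b1 b2 : S × S} (hB : IsFr b1 b2) :
    ((0, 1) : ℚ × ℚ) ∈ Mi (Lat b1 b2 : Set (S × S)) ↔ Lam2 (Zi b1 b2) 1 := by
  rw [mem_Mi_fr hB]
  simp only [Lam2, pow_one, PowerSeries.X_dvd_iff]
  constructor
  · rintro ⟨z, hz, h1, h2⟩; exact ⟨z, hz, h2, h1⟩
  · rintro ⟨z, hz, h1, h2⟩; exact ⟨z, hz, h2, h1⟩

/-- in a unimodular lattice containing `(1,0)` and `(0,1)` coordinates are integral -/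
theorem coord_int {M : Set (ℚ × ℚ)} (hM : Uni AQ M) (h1 : ((1, 0) : ℚ × ℚ) ∈ M)
    (h2 : ((0, 1) : ℚ × ℚ) ∈ M) {m : ℚ × ℚ} : m ∈ M ↔ m.1 ∈ AQ ∧ m.2 ∈ AQ := by
  have := hM.mem_iff h1 h2 AQ.one_mem (by simp [dt]) m
  rw [this]
  have e1 : dt m (1, 0) = -m.2 := by simp [dt]
  have e2 : dt m (0, 1) = m.1 := by simp [dt]
  rw [e1, e2]
  constructor
  · rintro ⟨h3, h4⟩
    refine ⟨h4, ?_⟩
    have := AQ.neg_mem h3
    rwa [neg_neg] at this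
  · rintro ⟨h3, h4⟩
    exact ⟨AQ.neg_mem h4, h3⟩

theorem prm_of_dt {M : Set (ℚ × ℚ)} (hM : Uni AQ M) {u v : ℚ × ℚ} (hu : u ∈ M) (hv : v ∈ M)
    (h : dt u v = 1) : Prm M v := by
  refine ⟨hv, fun q hq => ?_⟩
  have := hM.dt_mem hu hq
  have e : dt u (q • v) = q * dt u v := by
    simp only [dt, Prod.smul_fst, Prod.smul_snd, smul_eq_mul]; ring
  rwa [e, h, mul_one] at this

theorem int_mem_AQ (n : ℤ) : (n : ℚ) ∈ AQ := ⟨n, rfl⟩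

end Pool.Agent.GE2
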