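import Pool.Agent.GE2.Game1

/-!
Unsolved problems and their moves.
-/

set_option autoImplicit false

namespace Pool.Agent.GE2

open LaurentPolynomial

/-- an unsolved problem of level `N` -/
structure Prob (N : ℕ) (b1 b2 : S × S) (α β : ℕ) : Prop where
  fr : IsFr b1 b2
  lv : lev b1 b2 = N
  pos : N ≠ 0
  ia : Lam1 (Zi b1 b2) α
  ia' : ¬ Lam1 (Zi b1 b2) (α + 1)
  i2 : Lam2 (Zi b1 b2) 1
  oa : Lam1 (Z0 b1 b2) β
  oa' : ¬ Lam1 (Z0 b1 b2) (β + 1)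
  o2 : ¬ Lam2 (Z0 b1 b2) 1
  pr : ∀ q : ℚ, ((q, 0) : ℚ × ℚ) ∈ M0 (Lat b1 b2 : Set (S × S)) → q ∈ AQ
  hα : 1 ≤ α
  hβ : 1 ≤ β
  nc : ¬ Cn N b1 b2

theorem lev_shear (b1 b2 : S × S) (x : ℚ) : lev b1 (b2 + (C x : S) • b1) = lev b1 b2 := by
  have h : (1 : ℚ) * 1 - x * 0 = 1 := by norm_num
  have := lev_sl2 b1 b2 _ _ _ _ h
  simp only [map_one, map_zero, one_smul, zero_smul, add_zero] at this
  rw [add_comm b2]; exact this

theorem lev_swap (b1 b2 : S × S) : lev b2 (-b1) = lev b1 b2 := by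
  have h : (0 : ℚ) * 0 - (-1) * 1 = 1 := by norm_num
  have := lev_sl2 b1 b2 _ _ _ _ h
  simp only [map_one, map_zero, one_smul, zero_smul, add_zero, zero_add, map_neg, neg_smul] at this
  exact this

theorem mem_M0_shear {b1 b2 : S × S} (hB : IsFr b1 b2) (x : ℚ) (m : ℚ × ℚ) :
    m ∈ M0 (Lat b1 (b2 + (C x : S) • b1) : Set (S × S)) ↔
      (m.1 + x * m.2, m.2) ∈ M0 (Lat b1 b2 : Set (S × S)) := by
  have h : (1 : ℚ) * 1 - x * 0 = 1 := by norm_num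
  have := mem_M0_gen hB h m
  simp only [vec, map_one, map_zero, one_smul, zero_smul, add_zero, one_mul, zero_mul,
    zero_add] at this
  rw [add_comm b2]; exact this

theorem mem_Mi_shear {b1 b2 : S × S} (hB : IsFr b1 b2) (x : ℚ) (m : ℚ × ℚ) :
    m ∈ Mi (Lat b1 (b2 + (C x : S) • b1) : Set (S × S)) ↔
      (m.1 + x * m.2, m.2) ∈ Mi (Lat b1 b2 : Set (S × S)) := by
  rw [Mi_eq, Mi_eq, mv_add, mv_smul, invert_C, mem_M0_shear hB.mir]

theorem vec_shear (b1 b2 : S × S) (x : ℚ) : vec b1 b2 (x, 1) = b2 + (C x : S) • b1 := by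
  simp only [vec, map_one, one_smul]; rw [add_comm]

section
variable {N : ℕ} {b1 b2 : S × S} {α β : ℕ}

theorem Prob.i10 (h : Prob N b1 b2 α β) : ((1, 0) : ℚ × ℚ) ∈ Mi (Lat b1 b2 : Set (S × S)) :=
  (Mi_ten h.fr).2 (h.ia.mono h.hα)

theorem Prob.i01 (h : Prob N b1 b2 α β) : ((0, 1) : ℚ × ℚ) ∈ Mi (Lat b1 b2 : Set (S × S)) :=
  (Mi_zone h.fr).2 h.i2

theorem Prob.o10 (h : Prob N b1 b2 α β) : ((1, 0) : ℚ × ℚ) ∈ M0 (Lat b1 b2 : Set (S × S)) :=
  (M0_ten h.fr).2 (h.oa.mono h.hβ)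

theorem Prob.o01 (h : Prob N b1 b2 α β) : ((0, 1) : ℚ × ℚ) ∉ M0 (Lat b1 b2 : Set (S × S)) :=
  fun hh => h.o2 ((M0_zone h.fr).1 hh)

/-- right partners are main directions -/
theorem Prob.main_right (h : Prob N b1 b2 α β) {x : ℚ} (hx : x ∈ AQ) :
    MainD b1 b2 (x, 1) := by
  right
  have hMi := Mi_uni_fr h.fr
  have hM0 := M0_uni_fr h.fr
  have hm : ((x, 1) : ℚ × ℚ) ∈ Mi (Lat b1 b2 : Set (S × S)) :=
    (coord_int hMi h.i10 h.i01).2 ⟨hx, AQ.one_mem⟩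
  refine ⟨prm_of_dt hMi h.i10 hm (by simp [dt]), ?_⟩
  intro h1
  apply h.o01
  have := hM0.comb_mem h1 h.o10 AQ.one_mem (AQ.neg_mem hx)
  simpa using this

/-- left partners are main directions -/
theorem Prob.main_left (h : Prob N b1 b2 α β) {x : ℚ}
    (hx : ((x, 1) : ℚ × ℚ) ∈ M0 (Lat b1 b2 : Set (S × S))) :
    MainD b1 b2 (x, 1) := by
  left
  have hMi := Mi_uni_fr h.fr
  have hM0 := M0_uni_fr h.fr
  refine ⟨prm_of_dt hM0 h.o10 hx (by simp [dt]), ?_⟩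
  intro h1
  have h2 := ((coord_int hMi h.i10 h.i01).1 h1).1
  exact (h.main_right h2).elim (fun hh => hh.2 h1) (fun hh => hh.2 hx)

theorem Prob.shift (h : Prob N b1 b2 α β) {x : ℚ} (hx : x ∈ AQ) :
    Prob N b1 (b2 + (C x : S) • b1) α β := by
  have hf := h.fr.shear x
  refine ⟨hf, by rw [lev_shear, h.lv], h.pos, ?_, ?_, ?_, ?_, ?_, ?_, ?_, h.hα, h.hβ, ?_⟩
  · rw [Zi_shear, Lam1_sh h.hα]; exact h.ia
  · rw [Zi_shear, Lam1_sh (by omega)]; exact h.ia'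
  · rw [← Mi_zone hf, mem_Mi_shear h.fr]
    rw [coord_int (Mi_uni_fr h.fr) h.i10 h.i01]
    have e : (0 : ℚ) + x * 1 = x := by ring
    refine ⟨?_, AQ.one_mem⟩
    rw [e]; exact hx
  · rw [Z0_shear, Lam1_sh h.hβ]; exact h.oa
  · rw [Z0_shear, Lam1_sh (by omega)]; exact h.oa'
  · rw [← M0_zone hf, mem_M0_shear h.fr]
    intro h1
    have h2 : ((x, 1) : ℚ × ℚ) ∈ M0 (Lat b1 b2 : Set (S × S)) := by simpa using h1
    exact (h.main_right hx).elim (fun hh => hh.2 ((coord_int (Mi_uni_fr h.fr) h.i10 h.i01).2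
      ⟨hx, AQ.one_mem⟩)) (fun hh => hh.2 h2)
  · intro q hq
    rw [mem_M0_shear h.fr] at hq
    apply h.pr
    simpa using hq
  · intro hc
    apply h.nc
    refine hc.trans ?_
    have := main_dirs h.fr (by rw [h.lv]; exact h.pos) (h.main_right hx)
      (h.main_right AQ.zero_mem)
    rw [vec_shear, vec_two, h.lv] at this
    exact this

/-- reflection of a problem -/
theorem Prob.reflect (h : Prob N b1 b2 α β) {ρ : ℚ}
    (hρ : ((ρ, 1) : ℚ × ℚ) ∈ M0 (Lat b1 b2 : Set (S × S))) :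
    Prob N (mv b1) (mv (b2 + (C ρ : S) • b1)) β α := by
  have hf := h.fr.shear ρ
  have hMi := Mi_uni_fr h.fr
  refine ⟨hf.mir, by rw [lev_mv, lev_shear, h.lv], h.pos, ?_, ?_, ?_, ?_, ?_, ?_, ?_, h.hβ, h.hα, ?_⟩
  · rw [Zi_mv, Z0_shear, Lam1_sh h.hβ]; exact h.oa
  · rw [Zi_mv, Z0_shear, Lam1_sh (by omega)]; exact h.oa'
  · rw [Zi_mv, ← M0_zone hf, mem_M0_shear h.fr]
    simpa using hρ
  · rw [Z0_mv, Zi_shear, Lam1_sh h.hα]; exact h.ia
  · rw [Z0_mv, Zi_shear, Lam1_sh (by omega)]; exact h.ia'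
  · rw [Z0_mv, ← Mi_zone hf, mem_Mi_shear h.fr]
    intro h1
    have h2 : ((ρ, 1) : ℚ × ℚ) ∈ Mi (Lat b1 b2 : Set (S × S)) := by simpa using h1
    exact (h.main_left hρ).elim (fun hh => hh.2 h2) (fun hh => hh.2 hρ)
  · intro q hq
    rw [← Mi_eq, mem_Mi_shear h.fr] at hq
    have h1 : ((q, 0) : ℚ × ℚ) ∈ Mi (Lat b1 b2 : Set (S × S)) := by simpa using hq
    exact ((coord_int hMi h.i10 h.i01).1 h1).1
  · rw [Cn.mir_iff]
    intro hc
    apply h.nc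
    refine hc.trans ?_
    have := main_dirs h.fr (by rw [h.lv]; exact h.pos) (h.main_left hρ)
      (h.main_right AQ.zero_mem)
    rw [vec_shear, vec_two, h.lv] at this
    exact this

theorem Prob.exists_left (h : Prob N b1 b2 α β) :
    ∃ ρ : ℚ, ((ρ, 1) : ℚ × ℚ) ∈ M0 (Lat b1 b2 : Set (S × S)) := by
  have hM0 := M0_uni_fr h.fr
  obtain ⟨x, hx, y, hy, hxy⟩ := hM0.exists_basis
  -- (1,0) = p x + q y, with p = dt (1,0) y = y.2, q = dt x (1,0) = - x.2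
  -- the gcd of x.2, y.2 is one since (1,0) is primitive
  have hx2 : x.2 ∈ AQ := by
    have := hM0.dt_mem h.o10 hx
    simpa [dt] using this
  have hy2 : y.2 ∈ AQ := by
    have := hM0.dt_mem h.o10 hy
    simpa [dt] using this
  obtain ⟨a, ha⟩ := hx2
  obtain ⟨b, hb⟩ := hy2
  have ha' : (a : ℚ) = x.2 := ha
  have hb' : (b : ℚ) = y.2 := hb
  -- bezout
  obtain ⟨g, hg⟩ : ∃ g : ℤ, g = ((Int.gcd a b : ℕ) : ℤ) := ⟨_, rfl⟩
  have hbez : (g : ℤ) = a * Int.gcdA a b + b * Int.gcdB a b := by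
    rw [hg]; exact Int.gcd_eq_gcd_ab a b
  have hga : g ∣ a := by rw [hg]; exact Int.gcd_dvd_left a b
  have hgb : g ∣ b := by rw [hg]; exact Int.gcd_dvd_right a b
  obtain ⟨a', ha''⟩ := hga
  obtain ⟨b', hb''⟩ := hgb
  have hg0 : g ≠ 0 := by
    intro h0
    rw [h0, zero_mul] at ha'' hb''
    rw [ha''] at ha'
    rw [hb''] at hb'
    have e1 : x.2 = 0 := by rw [← ha']; simp
    have e2 : y.2 = 0 := by rw [← hb']; simp
    simp only [dt, e1, e2] at hxy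
    norm_num at hxy
  -- (1/g, 0) in M0
  have hmem : ((1 / (g : ℚ), 0) : ℚ × ℚ) ∈ M0 (Lat b1 b2 : Set (S × S)) := by
    have := hM0.comb_mem hx hy (int_mem_AQ b') (AQ.neg_mem (int_mem_AQ a'))
    have hgq : (g : ℚ) ≠ 0 := by exact_mod_cast hg0
    have ea : (x.2 : ℚ) = g * a' := by rw [← ha', ha'']; push_cast; ring
    have eb : (y.2 : ℚ) = g * b' := by rw [← hb', hb'']; push_cast; ring
    have e1 : (b' : ℚ) * x.1 + -(a' : ℚ) * y.1 = 1 / g := by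
      have : x.1 * y.2 - x.2 * y.1 = 1 := hxy
      rw [ea, eb] at this
      field_simp
      linear_combination this
    have e2 : (b' : ℚ) * x.2 + -(a' : ℚ) * y.2 = 0 := by rw [ea, eb]; ring
    rw [e1, e2] at this
    exact this
  have hint := h.pr _ hmem
  have hunit : g = 1 ∨ g = -1 := by
    obtain ⟨c, hc⟩ := hint
    have hc' : (c : ℚ) = 1 / g := hc
    have hgq : (g : ℚ) ≠ 0 := by exact_mod_cast hg0
    have : (c : ℚ) * g = 1 := by rw [hc']; field_simp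
    have h3 : c * g = 1 := by exact_mod_cast this
    exact Int.isUnit_iff.1 (IsUnit.of_mul_eq_one c (by rw [mul_comm]; exact h3))
  -- combination with second coordinate one
  have hcomb := hM0.comb_mem hx hy (AQ.mul_mem (int_mem_AQ g) (int_mem_AQ (Int.gcdA a b)))
    (AQ.mul_mem (int_mem_AQ g) (int_mem_AQ (Int.gcdB a b)))
  have e2 : (g : ℚ) * (Int.gcdA a b) * x.2 + (g : ℚ) * (Int.gcdB a b) * y.2 = 1 := by
    have h4 : (g : ℚ) = a * Int.gcdA a b + b * Int.gcdB a b := by exact_mod_cast hbez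
    have h5 : (g : ℚ) * g = 1 := by
      rcases hunit with h | h <;> rw [h] <;> norm_num
    rw [← ha', ← hb']
    calc (g : ℚ) * (Int.gcdA a b) * a + (g : ℚ) * (Int.gcdB a b) * b
        = g * (a * Int.gcdA a b + b * Int.gcdB a b) := by ring
      _ = 1 := by rw [← h4, h5]
  rw [e2] at hcomb
  exact ⟨_, hcomb⟩

end

end Pool.Agent.GE2
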