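import Pool.Agent.GE2.Game2

/-!
The slides.
-/

set_option autoImplicit false

namespace Pool.Agent.GE2

open LaurentPolynomial

/-- effect of `k` right moves at zero -/
def up (k : ℕ) (E : Set (P × P)) : Set (P × P) := {z | (z.1, PowerSeries.X ^ k * z.2) ∈ E}

/-- effect of `k` right moves at infinity -/
def dn (k : ℕ) (E : Set (P × P)) : Set (P × P) := {z | (PowerSeries.X ^ k * z.1, z.2) ∈ E}

theorem Z0_up (b1 b2 : S × S) (k : ℕ) : Z0 b1 ((T (k : ℤ) : S) • b2) = up k (Z0 b1 b2) := by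
  ext z; exact Z0_right b1 b2 k z

theorem Zi_dn (b1 b2 : S × S) (k : ℕ) : Zi b1 ((T (k : ℤ) : S) • b2) = dn k (Zi b1 b2) := by
  ext z; exact Zi_right b1 b2 k z

theorem Uni.of_X {E : Set (P × P)} (hE : Uni AP E) {k : ℕ} {x y : P}
    (h : (PowerSeries.X ^ k * x, PowerSeries.X ^ k * y) ∈ E) : (x, y) ∈ E := by
  obtain ⟨a, b, hab, rfl⟩ := hE
  obtain ⟨h1, h2⟩ := h
  constructor
  · apply mem_AP_of_X_mul k
    have e : dt (PowerSeries.X ^ k * x, PowerSeries.X ^ k * y) a = PowerSeries.X ^ k * dt (x, y) a := by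
      simp only [dt]; ring
    rwa [e] at h1
  · apply mem_AP_of_X_mul k
    have e : dt (PowerSeries.X ^ k * x, PowerSeries.X ^ k * y) b = PowerSeries.X ^ k * dt (x, y) b := by
      simp only [dt]; ring
    rwa [e] at h2

theorem Uni.to_X {E : Set (P × P)} (hE : Uni AP E) (k : ℕ) {x y : P} (h : (x, y) ∈ E) :
    (PowerSeries.X ^ k * x, PowerSeries.X ^ k * y) ∈ E := hE.smul_mem h (X_pow_mem_AP k)

theorem Lam1_up (E : Set (P × P)) (k j : ℕ) : Lam1 (up k E) j ↔ Lam1 E (k + j) := by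
  constructor
  · rintro ⟨z, hz, h1, h2⟩
    refine ⟨_, hz, h1, ?_⟩
    rw [pow_add]; exact mul_dvd_mul_left _ h2
  · rintro ⟨z, hz, h1, c, h2⟩
    refine ⟨(z.1, PowerSeries.X ^ j * c), ?_, h1, dvd_mul_right _ _⟩
    change (z.1, PowerSeries.X ^ k * (PowerSeries.X ^ j * c)) ∈ E
    rw [← mul_assoc, ← pow_add, ← h2]; exact hz

theorem Lam2_dn (E : Set (P × P)) (k j : ℕ) : Lam2 (dn k E) j ↔ Lam2 E (k + j) := by
  constructor
  · rintro ⟨z, hz, h1, h2⟩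
    refine ⟨_, hz, h1, ?_⟩
    rw [pow_add]; exact mul_dvd_mul_left _ h2
  · rintro ⟨z, hz, h1, c, h2⟩
    refine ⟨(PowerSeries.X ^ j * c, z.2), ?_, h1, dvd_mul_right _ _⟩
    change (PowerSeries.X ^ k * (PowerSeries.X ^ j * c), z.2) ∈ E
    rw [← mul_assoc, ← pow_add, ← h2]; exact hz

theorem Lam1_dn {E : Set (P × P)} (hE : Uni AP E) (k j : ℕ) :
    Lam1 (dn k E) (k + j) ↔ Lam1 E j := by
  constructor
  · rintro ⟨z, hz, h1, c, h2⟩
    refine ⟨(z.1, PowerSeries.X ^ j * c), ?_, h1, dvd_mul_right _ _⟩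
    apply hE.of_X (k := k)
    rw [← mul_assoc, ← pow_add, ← h2]; exact hz
  · rintro ⟨z, hz, h1, h2⟩
    refine ⟨(z.1, PowerSeries.X ^ k * z.2), hE.to_X k hz, h1, ?_⟩
    rw [pow_add]; exact mul_dvd_mul_left _ h2

theorem Lam2_up {E : Set (P × P)} (hE : Uni AP E) (k j : ℕ) :
    Lam2 (up k E) (k + j) ↔ Lam2 E j := by
  constructor
  · rintro ⟨z, hz, h1, c, h2⟩
    refine ⟨(PowerSeries.X ^ j * c, z.2), ?_, h1, dvd_mul_right _ _⟩
    apply hE.of_X (k := k)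
    rw [← mul_assoc, ← pow_add, ← h2]; exact hz
  · rintro ⟨z, hz, h1, h2⟩
    refine ⟨(PowerSeries.X ^ k * z.1, z.2), hE.to_X k hz, h1, ?_⟩
    rw [pow_add]; exact mul_dvd_mul_left _ h2

section
variable {b1 b2 : S × S}

theorem M0_q0_right (hB : IsFr b1 b2) (k : ℕ) {q : ℚ}
    (h : ((q, 0) : ℚ × ℚ) ∈ M0 (Lat b1 ((T (k : ℤ) : S) • b2) : Set (S × S))) :
    ((q, 0) : ℚ × ℚ) ∈ M0 (Lat b1 b2 : Set (S × S)) := by
  rw [mem_M0_fr (hB.right _)] at h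
  rw [mem_M0_fr hB]
  obtain ⟨z, hz, h1, h2⟩ := h
  refine ⟨_, (Z0_right b1 b2 k z).1 hz, h1, ?_⟩
  simp only [map_mul, h2, mul_zero]

theorem Mi_0q_right (hB : IsFr b1 b2) (k : ℕ) {q : ℚ}
    (h : ((0, q) : ℚ × ℚ) ∈ Mi (Lat b1 ((T (k : ℤ) : S) • b2) : Set (S × S))) :
    ((0, q) : ℚ × ℚ) ∈ Mi (Lat b1 b2 : Set (S × S)) := by
  rw [mem_Mi_fr (hB.right _)] at h
  rw [mem_Mi_fr hB]
  obtain ⟨z, hz, h1, h2⟩ := h
  refine ⟨_, (Zi_right b1 b2 k z).1 hz, ?_, h2⟩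
  simp only [map_mul, h1, mul_zero]

theorem AP_cc {f : P} (h : f ∈ AP) : PowerSeries.constantCoeff f ∈ AQ := by
  have := mem_AP.1 h 0
  rwa [PowerSeries.coeff_zero_eq_constantCoeff_apply] at this

/-- along a slide, `(0, q)` at zero is integral -/
theorem M0_0q_right (hB : IsFr b1 b2) {k : ℕ} (hk : Lam1 (Z0 b1 b2) k) {q : ℚ}
    (h : ((0, q) : ℚ × ℚ) ∈ M0 (Lat b1 ((T (k : ℤ) : S) • b2) : Set (S × S))) : q ∈ AQ := by
  have hB' := hB.right (k : ℤ)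
  rw [mem_M0_fr hB'] at h
  obtain ⟨w, hw, h1, h2⟩ := h
  have hl : Lam1 (up k (Z0 b1 b2)) 0 := (Lam1_up _ _ _).2 hk
  rw [← Z0_up] at hl
  obtain ⟨z, hz, h3, -⟩ := hl
  have := AP_cc ((Z0_uni hB').dt_mem hz hw)
  simpa [dt, h1, h2, h3] using this

theorem Mi_q0_right (hB : IsFr b1 b2) {k : ℕ} (hk : Lam2 (Zi b1 b2) k) {q : ℚ}
    (h : ((q, 0) : ℚ × ℚ) ∈ Mi (Lat b1 ((T (k : ℤ) : S) • b2) : Set (S × S))) : q ∈ AQ := by
  have hB' := hB.right (k : ℤ)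
  rw [mem_Mi_fr hB'] at h
  obtain ⟨w, hw, h1, h2⟩ := h
  have hl : Lam2 (dn k (Zi b1 b2)) 0 := (Lam2_dn _ _ _).2 hk
  rw [← Zi_dn] at hl
  obtain ⟨z, hz, h3, -⟩ := hl
  have := AP_cc ((Zi_uni hB').dt_mem hw hz)
  simpa [dt, h1, h2, h3] using this

/-- the level is constant along a slide -/
theorem slide_lev (hB : IsFr b1 b2) (hl : lev b1 b2 ≠ 0)
    (p0 : ∀ q : ℚ, ((q, 0) : ℚ × ℚ) ∈ M0 (Lat b1 b2 : Set (S × S)) → q ∈ AQ)
    (pi : ∀ q : ℚ, ((0, q) : ℚ × ℚ) ∈ Mi (Lat b1 b2 : Set (S × S)) → q ∈ AQ) :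
    ∀ k : ℕ, Lam1 (Z0 b1 b2) k → Lam2 (Zi b1 b2) k →
      lev b1 ((T (k : ℤ) : S) • b2) = lev b1 b2 := by
  intro k
  induction k with
  | zero => intro _ _; simp
  | succ k ih =>
    intro h1 h2
    have ih' := ih (h1.mono (Nat.le_succ k)) (h2.mono (Nat.le_succ k))
    have hB' := hB.right (k : ℤ)
    have e : (T ((k + 1 : ℕ) : ℤ) : S) • b2 = (T 1 : S) • ((T (k : ℤ) : S) • b2) := by
      rw [smul_smul, T_mul_T]; push_cast; rw [add_comm]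
    rw [e]
    have hu : Prm (M0 (Lat b1 ((T (k : ℤ) : S) • b2) : Set (S × S))) (1, 0) := by
      refine ⟨(M0_ten hB').2 ?_, fun q hq => ?_⟩
      · rw [Z0_up, Lam1_up]; exact h1
      · apply p0
        apply M0_q0_right hB k
        simpa using hq
    have hu' : Prm (Mi (Lat b1 ((T (k : ℤ) : S) • b2) : Set (S × S))) (0, 1) := by
      refine ⟨(Mi_zone hB').2 ?_, fun q hq => ?_⟩
      · rw [Zi_dn, Lam2_dn]; exact h2
      · apply pi
        apply Mi_0q_right hB k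
        simpa using hq
    have := (lev_edge hB' (by rw [ih']; exact hl) hu hu' (by simp [dt])).2
    have hdt : dt ((1 : ℚ), (0 : ℚ)) ((0 : ℚ), (1 : ℚ)) = 1 := by simp [dt]
    rw [hdt, inv_one, one_smul, vec_one, vec_two, abs_one, mul_one, ih'] at this
    exact_mod_cast this

end

section
variable {N : ℕ} {b1 b2 : S × S} {α β : ℕ}

theorem Prob.lev_k (h : Prob N b1 b2 α β) {k : ℕ} (hk : k ≤ β) (h2 : Lam2 (Zi b1 b2) k) :
    lev b1 ((T (k : ℤ) : S) • b2) = N := by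
  rw [slide_lev h.fr (by rw [h.lv]; exact h.pos) h.pr ?_ k (h.oa.mono hk) h2, h.lv]
  intro q hq
  exact ((coord_int (Mi_uni_fr h.fr) h.i10 h.i01).1 hq).2

theorem Prob.k_M0_01 (h : Prob N b1 b2 α β) {k : ℕ} (hk : 1 ≤ k) :
    ((0, 1) : ℚ × ℚ) ∈ M0 (Lat b1 ((T (k : ℤ) : S) • b2) : Set (S × S)) := by
  rw [M0_zone (h.fr.right _), Z0_up]
  obtain ⟨ρ, hρ⟩ := h.exists_left
  rw [mem_M0_fr h.fr] at hρ
  obtain ⟨z, hz, -, h2⟩ := hρ
  have : Lam2 (Z0 b1 b2) 0 := ⟨z, hz, h2, by rw [pow_zero]; exact one_dvd _⟩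
  exact ((Lam2_up (Z0_uni h.fr) k 0).2 this).mono (by omega)

theorem Prob.k_Mi_10 (h : Prob N b1 b2 α β) (k : ℕ) :
    ((1, 0) : ℚ × ℚ) ∈ Mi (Lat b1 ((T (k : ℤ) : S) • b2) : Set (S × S)) := by
  rw [Mi_ten (h.fr.right _), Zi_dn]
  exact ((Lam1_dn (Zi_uni h.fr) k α).2 h.ia).mono (by have := h.hα; omega)

theorem Prob.k_Mi_01 (h : Prob N b1 b2 α β) (k : ℕ) :
    ((0, 1) : ℚ × ℚ) ∈ Mi (Lat b1 ((T (k : ℤ) : S) • b2) : Set (S × S)) ↔
      Lam2 (Zi b1 b2) (k + 1) := by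
  rw [Mi_zone (h.fr.right _), Zi_dn, Lam2_dn]

theorem Prob.main01 (h : Prob N b1 b2 α β) {k : ℕ} (hk : 1 ≤ k) (hkβ : k ≤ β)
    (h3 : ¬ Lam2 (Zi b1 b2) (k + 1)) : MainD b1 ((T (k : ℤ) : S) • b2) (0, 1) := by
  left
  refine ⟨⟨h.k_M0_01 hk, fun q hq => ?_⟩, fun hh => h3 ((h.k_Mi_01 k).1 hh)⟩
  apply M0_0q_right h.fr (h.oa.mono hkβ)
  simpa using hq

/-- a partner with plateau exactly `β` solves the problem -/
theorem Prob.ne_beta (h : Prob N b1 b2 α β) (h2 : Lam2 (Zi b1 b2) β) :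
    Lam2 (Zi b1 b2) (β + 1) := by
  by_contra h3
  have hB' := h.fr.right (β : ℤ)
  have hlev := h.lev_k le_rfl h2
  have m1 := h.main01 h.hβ le_rfl h3
  have m2 : MainD b1 ((T (β : ℤ) : S) • b2) (1, 0) := by
    right
    refine ⟨⟨h.k_Mi_10 β, fun q hq => ?_⟩, fun hh => ?_⟩
    · apply Mi_q0_right h.fr h2
      simpa using hq
    · rw [M0_ten hB', Z0_up, Lam1_up] at hh
      exact h.oa' hh
  have := main_dirs hB' (by rw [hlev]; exact h.pos) m2 m1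
  rw [vec_one, vec_two, hlev] at this
  exact h.nc (this.trans (Cn.of_Sc (Sc_T b2 β).symm))

/-- right slide -/
theorem Prob.slide (h : Prob N b1 b2 α β) {k : ℕ} (hk : k < β) (h2 : Lam2 (Zi b1 b2) k)
    (h3 : ¬ Lam2 (Zi b1 b2) (k + 1)) :
    ∃ y : ℚ, Prob N b1 ((T (k : ℤ) : S) • b2 + (C y : S) • b1) (α + k) (β - k) := by
  have hk1 : 1 ≤ k := by
    by_contra hk0
    have : k = 0 := by omega
    subst this
    exact h3 h.i2
  have hB' := h.fr.right (k : ℤ)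
  have hlev := h.lev_k hk.le h2
  have hMi := Mi_uni_fr hB'
  have hM0 := M0_uni_fr hB'
  have hl : Lam2 (dn k (Zi b1 b2)) 0 := (Lam2_dn _ _ _).2 h2
  rw [← Zi_dn] at hl
  obtain ⟨w, hw, hw2, -⟩ := hl
  set y := PowerSeries.constantCoeff w.1 with hy
  have hyMi : ((y, 1) : ℚ × ℚ) ∈ Mi (Lat b1 ((T (k : ℤ) : S) • b2) : Set (S × S)) := by
    rw [mem_Mi_fr hB']; exact ⟨w, hw, rfl, hw2⟩
  have hyM0 : ((y, 1) : ℚ × ℚ) ∉ M0 (Lat b1 ((T (k : ℤ) : S) • b2) : Set (S × S)) := by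
    intro hh
    have h01 := h.k_M0_01 hk1
    have hs := hM0.sub_mem hh h01
    have e : ((y, 1) : ℚ × ℚ) - (0, 1) = (y, 0) := by ext <;> simp
    rw [e] at hs
    have hyI := h.pr y (M0_q0_right h.fr k hs)
    apply h3
    rw [← h.k_Mi_01 k]
    have := hMi.comb_mem hyMi (h.k_Mi_10 k) AQ.one_mem (AQ.neg_mem hyI)
    simpa using this
  have hmain01 := h.main01 hk1 hk.le h3
  have hmainy : MainD b1 ((T (k : ℤ) : S) • b2) (y, 1) := by
    right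
    exact ⟨prm_of_dt hMi (h.k_Mi_10 k) hyMi (by simp [dt]), hyM0⟩
  have hf := hB'.shear y
  refine ⟨y, hf, by rw [lev_shear, hlev], h.pos, ?_, ?_, ?_, ?_, ?_, ?_, ?_, by have := h.hα; omega,
    by omega, ?_⟩
  · rw [Zi_shear, Lam1_sh (by have := h.hα; omega), Zi_dn, add_comm, Lam1_dn (Zi_uni h.fr)]
    exact h.ia
  · rw [Zi_shear, Lam1_sh (by omega), Zi_dn]
    have e : α + k + 1 = k + (α + 1) := by omega
    rw [e, Lam1_dn (Zi_uni h.fr)]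
    exact h.ia'
  · rw [← Mi_zone hf, mem_Mi_shear hB']
    simpa using hyMi
  · rw [Z0_shear, Lam1_sh (by omega), Z0_up, Lam1_up]
    have e : k + (β - k) = β := by omega
    rw [e]; exact h.oa
  · rw [Z0_shear, Lam1_sh (by omega), Z0_up, Lam1_up]
    have e : k + (β - k + 1) = β + 1 := by omega
    rw [e]; exact h.oa'
  · rw [← M0_zone hf, mem_M0_shear hB']
    intro hh
    apply hyM0
    simpa using hh
  · intro q hq
    rw [mem_M0_shear hB'] at hq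
    apply h.pr
    apply M0_q0_right h.fr k
    simpa using hq
  · intro hc
    apply h.nc
    refine hc.trans ?_
    have := main_dirs hB' (by rw [hlev]; exact h.pos) hmainy hmain01
    rw [vec_shear, vec_two, hlev] at this
    exact this.trans (Cn.of_Sc (Sc_T b2 k).symm)

theorem mem_M0_swap {b1 b2 : S × S} (hB : IsFr b1 b2) (m : ℚ × ℚ) :
    m ∈ M0 (Lat b2 (-b1) : Set (S × S)) ↔ (-m.2, m.1) ∈ M0 (Lat b1 b2 : Set (S × S)) := by
  have h : (0 : ℚ) * 0 - (-1) * 1 = 1 := by norm_num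
  have := mem_M0_gen hB h m
  simp only [vec, map_one, map_zero, one_smul, zero_smul, add_zero, one_mul, zero_mul,
    zero_add, map_neg, neg_smul, neg_mul] at this
  exact this

theorem Lam1_Z0_swap (b1 b2 : S × S) (k : ℕ) : Lam1 (Z0 b2 (-b1)) k ↔ Lam2 (Z0 b1 b2) k := by
  constructor
  · rintro ⟨z, hz, h1, h2⟩
    exact ⟨(-z.2, z.1), (Z0_swap b1 b2 z).1 hz, h1, (dvd_neg).2 h2⟩
  · rintro ⟨z, hz, h1, h2⟩
    refine ⟨(z.2, -z.1), ?_, h1, (dvd_neg).2 h2⟩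
    rw [Z0_swap]
    simpa using hz

theorem Lam1_Zi_swap (b1 b2 : S × S) (k : ℕ) : Lam1 (Zi b2 (-b1)) k ↔ Lam2 (Zi b1 b2) k := by
  rw [Zi_eq, Zi_eq, mv_neg, Lam1_Z0_swap]

/-- the swap -/
theorem Prob.swap (h : Prob N b1 b2 α β) {a : ℕ} (ha : β < a) (h2 : Lam2 (Zi b1 b2) a)
    (h3 : ¬ Lam2 (Zi b1 b2) (a + 1)) :
    Prob N ((T (β : ℤ) : S) • b2) (-b1) (a - β) β := by
  have hB' := h.fr.right (β : ℤ)
  have hlev := h.lev_k le_rfl (h2.mono ha.le)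
  have hMi := Mi_uni_fr hB'
  have hM0 := M0_uni_fr hB'
  have hf := hB'.swap
  refine ⟨hf, by rw [lev_swap, hlev], h.pos, ?_, ?_, ?_, ?_, ?_, ?_, ?_, by omega, h.hβ, ?_⟩
  · rw [Lam1_Zi_swap, Zi_dn, Lam2_dn]
    have e : β + (a - β) = a := by omega
    rw [e]; exact h2
  · rw [Lam1_Zi_swap, Zi_dn, Lam2_dn]
    have e : β + (a - β + 1) = a + 1 := by omega
    rw [e]; exact h3
  · rw [← Mi_zone hf, Mi_eq, mv_neg, mem_M0_swap hB'.mir, ← Mi_eq]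
    have := hMi.neg_mem (h.k_Mi_10 β)
    simpa using this
  · rw [Lam1_Z0_swap, Z0_up]
    obtain ⟨ρ, hρ⟩ := h.exists_left
    rw [mem_M0_fr h.fr] at hρ
    obtain ⟨z, hz, -, h2⟩ := hρ
    have : Lam2 (Z0 b1 b2) 0 := ⟨z, hz, h2, by rw [pow_zero]; exact one_dvd _⟩
    exact (Lam2_up (Z0_uni h.fr) β 0).2 this
  · rw [Lam1_Z0_swap, Z0_up, Lam2_up (Z0_uni h.fr)]
    exact h.o2
  · rw [← M0_zone hf, mem_M0_swap hB']
    intro hh
    have := hM0.neg_mem hh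
    have e : -((-((0 : ℚ), (1 : ℚ)).2, ((0 : ℚ), (1 : ℚ)).1) : ℚ × ℚ) = (1, 0) := by ext <;> simp
    rw [e, M0_ten hB', Z0_up, Lam1_up] at this
    exact h.oa' this
  · intro q hq
    rw [mem_M0_swap hB'] at hq
    apply M0_0q_right h.fr h.oa
    simpa using hq
  · intro hc
    apply h.nc
    have s1 : Cn N b2 ((T (β : ℤ) : S) • b2) := Cn.of_Sc (Sc_T b2 β)
    have s2 : Cn N b1 (-b1) := Cn.of_Sc (Sc_neg b1)
    exact s2.trans (hc.symm.trans s1.symm)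

end

end Pool.Agent.GE2
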