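import Pool.Agent.GE2.JetA

/-!
Job JETC: intermediate slopes of a blocked lattice.
-/

set_option autoImplicit false

namespace Pool.Agent.GE2

/-- JETC -/
theorem left_mid_a {E : Set (P × P)} (hE : Uni AP E) {α n k : ℕ} (hk : 1 ≤ k) (hka : 2 * k < α)
    (hn : α < n) {e1 e2 : P × P} {w : P} (h : NF E α n e1 e2 w) (ρ : ℚ) :
    ∃ z1 z2 : P, (PowerSeries.X : P) ^ k ∣ z1 ∧ PowerSeries.constantCoeff z2 = 1 ∧
      (z1 + z2 + PowerSeries.C ρ * PowerSeries.X ^ k * z2, PowerSeries.X ^ k * z2) ∈ E := by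
  obtain ⟨m1, m2, hw, ⟨j, hj⟩, c1, c2, c3, d1, d2⟩ := h
  obtain ⟨r, hr⟩ := d2
  obtain ⟨i, rfl⟩ : ∃ i, α = k + i := ⟨α - k, by omega⟩
  have hn' : n = k + (n - k) := by omega
  have hc : e1.2 = PowerSeries.X ^ k * (PowerSeries.C (1 / 2) * PowerSeries.X ^ i * w * e2.2
      + PowerSeries.X ^ (n - k) * r) := by
    have h1 : (PowerSeries.X : P) ^ n = PowerSeries.X ^ k * PowerSeries.X ^ (n - k) := by
      rw [← pow_add, ← hn']
    rw [h1, pow_add] at hr
    linear_combination hr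
  refine ⟨e1.1 + PowerSeries.X ^ k * e2.1
      - (PowerSeries.C (1 / 2) * PowerSeries.X ^ i * w * e2.2 + PowerSeries.X ^ (n - k) * r + e2.2)
      - PowerSeries.C ρ * PowerSeries.X ^ k * (PowerSeries.C (1 / 2) * PowerSeries.X ^ i * w * e2.2
        + PowerSeries.X ^ (n - k) * r + e2.2),
    PowerSeries.C (1 / 2) * PowerSeries.X ^ i * w * e2.2 + PowerSeries.X ^ (n - k) * r + e2.2,
    ?_, ?_, ?_⟩
  · obtain ⟨s, hs⟩ := (pow_dvd_pow (PowerSeries.X : P) (show k ≤ n by omega)).trans d1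
    have h2 : (PowerSeries.X : P) ^ k ∣ PowerSeries.X ^ i := pow_dvd_pow _ (by omega)
    have h3 : (PowerSeries.X : P) ^ k ∣ PowerSeries.X ^ (n - k) := pow_dvd_pow _ (by omega)
    obtain ⟨u, hu⟩ := h2
    obtain ⟨v, hv⟩ := h3
    refine ⟨s + PowerSeries.C (1 / 2) * PowerSeries.X ^ i * w * e2.2 + e2.1
      - PowerSeries.C (1 / 2) * u * w * e2.2 - v * r
      - PowerSeries.C ρ * (PowerSeries.C (1 / 2) * PowerSeries.X ^ i * w * e2.2
        + PowerSeries.X ^ (n - k) * r + e2.2), ?_⟩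
    rw [pow_add] at hs
    linear_combination hs - PowerSeries.C (1 / 2) * w * e2.2 * hu - r * hv
  · have e1' : PowerSeries.constantCoeff ((PowerSeries.X : P) ^ i) = 0 :=
      constantCoeff_eq_zero_of_dvd (n := i) (by omega) dvd_rfl
    have e2' : PowerSeries.constantCoeff ((PowerSeries.X : P) ^ (n - k)) = 0 :=
      constantCoeff_eq_zero_of_dvd (n := n - k) (by omega) dvd_rfl
    rw [map_add, map_add, map_mul, map_mul, map_mul, map_mul, e1', e2', c2]
    ring
  · have h4 := hE.comb_mem m1 m2 AP.one_mem (X_pow_mem_AP k)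
    have h5 : (1 * e1.1 + PowerSeries.X ^ k * e2.1, 1 * e1.2 + PowerSeries.X ^ k * e2.2)
        = (e1.1 + PowerSeries.X ^ k * e2.1
      - (PowerSeries.C (1 / 2) * PowerSeries.X ^ i * w * e2.2 + PowerSeries.X ^ (n - k) * r + e2.2)
      - PowerSeries.C ρ * PowerSeries.X ^ k * (PowerSeries.C (1 / 2) * PowerSeries.X ^ i * w * e2.2
        + PowerSeries.X ^ (n - k) * r + e2.2)
      + (PowerSeries.C (1 / 2) * PowerSeries.X ^ i * w * e2.2 + PowerSeries.X ^ (n - k) * r + e2.2)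
      + PowerSeries.C ρ * PowerSeries.X ^ k *
        (PowerSeries.C (1 / 2) * PowerSeries.X ^ i * w * e2.2 + PowerSeries.X ^ (n - k) * r + e2.2),
      PowerSeries.X ^ k *
        (PowerSeries.C (1 / 2) * PowerSeries.X ^ i * w * e2.2 + PowerSeries.X ^ (n - k) * r
          + e2.2)) := by
      rw [hc]
      ext1 <;> simp only <;> ring
    rwa [h5] at h4

/-- JETC -/
theorem left_mid_b {E : Set (P × P)} (hE : Uni AP E) {α n k : ℕ} (hk : 1 ≤ k) (hka : 2 * k < α)
    (hn : α < n) {e1 e2 : P × P} {w : P} (h : NF E α n e1 e2 w) {ρ : ℚ} (hρ : ρ ∉ AQ)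
    {z1 z2 : P} (h1 : (PowerSeries.X : P) ^ (k + 1) ∣ z1)
    (h2 : PowerSeries.constantCoeff z2 = 1)
    (h3 : (z1 + z2 + PowerSeries.C ρ * PowerSeries.X ^ k * z2, PowerSeries.X ^ k * z2) ∈ E) :
    False := by
  obtain ⟨m1, m2, hw, ⟨j, hj⟩, c1, c2, c3, d1, d2⟩ := h
  have c3' := constantCoeff_eq_zero_of_dvd (by omega : 1 ≤ n) c3
  obtain ⟨v, hv, huv⟩ := dt_unit hE m1 m2 c1 c2 c3'
  obtain ⟨p, hp, q, hq, hpq⟩ := hE.coords m1 m2 hv huv h3
  have f1 : z1 + z2 + PowerSeries.C ρ * PowerSeries.X ^ k * z2 = p * e1.1 + q * e2.1 :=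
    congrArg Prod.fst hpq
  have g1 : PowerSeries.X ^ k * z2 = p * e1.2 + q * e2.2 := congrArg Prod.snd hpq
  obtain ⟨r, hr⟩ := d2
  obtain ⟨s, hs⟩ := d1
  obtain ⟨b, hb⟩ := c3
  obtain ⟨i, rfl⟩ : ∃ i, α = k + (k + 1) + i := ⟨α - (k + (k + 1)), by omega⟩
  obtain ⟨i', rfl⟩ : ∃ i', n = k + (k + 1) + i + i' := ⟨n - (k + (k + 1) + i), by omega⟩
  -- `q` is divisible by `X ^ k`
  have hqk : (PowerSeries.X : P) ^ k ∣ q := by
    apply dvd_of_dvd_mul_unit c2
    refine ⟨z2 - p * (PowerSeries.C (1 / 2) * PowerSeries.X ^ (k + 1 + i) * w * e2.2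
      + PowerSeries.X ^ (k + 1 + i + i') * r), ?_⟩
    have h4 : e1.2 = PowerSeries.X ^ k * (PowerSeries.C (1 / 2) * PowerSeries.X ^ (k + 1 + i) * w
        * e2.2 + PowerSeries.X ^ (k + 1 + i + i') * r) := by
      linear_combination (exp := 1) hr
    rw [h4] at g1
    linear_combination -g1
  obtain ⟨q', rfl⟩ := hqk
  have hq' : q' ∈ AP := AP_of_X_pow_mul hq
  -- congruences modulo `X ^ (k + 1)`
  have hX : (PowerSeries.X : P) ^ k ≠ 0 := pow_ne_zero _ PowerSeries.X_ne_zero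
  have g2 : z2 = p * (PowerSeries.X ^ (k + 1) * (PowerSeries.C (1 / 2) * PowerSeries.X ^ i * w
      * e2.2 + PowerSeries.X ^ (i + i') * r)) + q' * e2.2 := by
    apply mul_left_cancel₀ hX
    have h4 : e1.2 = PowerSeries.X ^ k * (PowerSeries.X ^ (k + 1) *
        (PowerSeries.C (1 / 2) * PowerSeries.X ^ i * w
        * e2.2 + PowerSeries.X ^ (i + i') * r)) := by
      linear_combination (exp := 1) hr
    rw [h4] at g1
    linear_combination g1
  have hq0 : PowerSeries.constantCoeff q' = 1 := by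
    have h4 := congrArg (fun a : P => PowerSeries.constantCoeff a) g2
    have e0 : PowerSeries.constantCoeff ((PowerSeries.X : P) ^ (k + 1)) = 0 :=
      constantCoeff_eq_zero_of_dvd (n := k + 1) (by omega) dvd_rfl
    simp only [map_add, map_mul, c2, h2, e0] at h4
    linarith
  have key : (PowerSeries.X : P) ^ (k + 1) ∣ p - q' - PowerSeries.C ρ * PowerSeries.X ^ k * q' := by
    apply dvd_of_dvd_mul_unit c2
    obtain ⟨t, ht⟩ := h1
    refine ⟨t + p * (PowerSeries.C (1 / 2) * PowerSeries.X ^ i * w * e2.2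
      + PowerSeries.X ^ (i + i') * r) * (1 + PowerSeries.C ρ * PowerSeries.X ^ k)
      - p * (PowerSeries.C (1 / 2) * PowerSeries.X ^ (k + i) * w * e2.2
        + PowerSeries.X ^ (k + i + i') * s)
      - PowerSeries.X ^ k * q' * (PowerSeries.X ^ (k + i + i') * b), ?_⟩
    linear_combination -f1 + ht + (1 + PowerSeries.C ρ * PowerSeries.X ^ k) * g2 - p * hs
      - PowerSeries.X ^ k * q' * hb
  rw [PowerSeries.X_pow_dvd_iff] at key
  have h4 := key k (by omega)
  have h5 : PowerSeries.coeff k (PowerSeries.C ρ * PowerSeries.X ^ k * q') = ρ := by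
    have h6 : PowerSeries.C ρ * PowerSeries.X ^ k * q'
        = PowerSeries.X ^ k * (PowerSeries.C ρ * q') := by ring
    rw [h6]
    have h7 := PowerSeries.coeff_X_pow_mul (PowerSeries.C ρ * q') k 0
    rw [zero_add] at h7
    rw [h7, PowerSeries.coeff_zero_eq_constantCoeff_apply, map_mul, hq0]
    simp
  rw [map_sub, map_sub, h5] at h4
  apply hρ
  have h6 : ρ = PowerSeries.coeff k p - PowerSeries.coeff k q' := by linarith
  rw [h6]
  exact AQ.sub_mem (mem_AP.mp hp k) (mem_AP.mp hq' k)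

end Pool.Agent.GE2
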