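import Pool.Agent.GE2.Defs2
import Pool.Agent.GE2.JetC
import Pool.Agent.GE2.Finite

/-!
There is no unsolved problem.
-/

set_option autoImplicit false

namespace Pool.Agent.GE2

open LaurentPolynomial

theorem mem_sh {x : ℚ} {E : Set (P × P)} {z : P × P} :
    z ∈ sh x E ↔ (z.1 + PowerSeries.C x * z.2, z.2) ∈ E := Iff.rfl

theorem exists_exact {Q : ℕ → Prop} (h1 : Q 1) (hfin : ∃ k, ¬ Q k)
    (hmono : ∀ j k, j ≤ k → Q k → Q j) : ∃ a, 1 ≤ a ∧ Q a ∧ ¬ Q (a + 1) := by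
  classical
  set k := Nat.find hfin with hk
  have hk1 : ¬ Q k := Nat.find_spec hfin
  have hk2 : 2 ≤ k := by
    by_contra hlt
    exact hk1 (hmono k 1 (by omega) h1)
  refine ⟨k - 1, by omega, ?_, ?_⟩
  · by_contra hcon
    have := Nat.find_min' hfin hcon
    omega
  · have e : k - 1 + 1 = k := by omega
    rw [e]; exact hk1

section
variable {N : ℕ} {b1 b2 : S × S} {α β : ℕ}

theorem Prob.exact (h : Prob N b1 b2 α β) :
    ∃ a, 1 ≤ a ∧ Lam2 (Zi b1 b2) a ∧ ¬ Lam2 (Zi b1 b2) (a + 1) := by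
  refine exists_exact h.i2 (exists_not_Lam2_Zi h.fr ?_) (fun j k hjk hk => hk.mono hjk)
  intro hh
  exact h.o01 (Mc_sub_M0 hh)

/-- left slide -/
theorem Prob.slide_left (h : Prob N b1 b2 α β) {ρ : ℚ}
    (hρ : ((ρ, 1) : ℚ × ℚ) ∈ M0 (Lat b1 b2 : Set (S × S))) {k : ℕ} (hk : k < α)
    (h2 : Lam2 (sh ρ (Z0 b1 b2)) k) (h3 : ¬ Lam2 (sh ρ (Z0 b1 b2)) (k + 1)) :
    Prob N b1 ((T (-(k : ℤ)) : S) • (b2 + (C ρ : S) • b1)) (α - k) (β + k) := by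
  have hr := h.reflect hρ
  have h2' : Lam2 (Zi (mv b1) (mv (b2 + (C ρ : S) • b1))) k := by
    rw [Zi_mv, Z0_shear]; exact h2
  have h3' : ¬ Lam2 (Zi (mv b1) (mv (b2 + (C ρ : S) • b1))) (k + 1) := by
    rw [Zi_mv, Z0_shear]; exact h3
  have hk1 : 1 ≤ k := by
    by_contra hk0
    have : k = 0 := by omega
    subst this
    exact h3' hr.i2
  obtain ⟨y, hy⟩ := hr.slide hk h2' h3'
  have hfr := hr.fr.right (k : ℤ)
  have hmem : ((-y, 1) : ℚ × ℚ) ∈ M0 (Lat (mv b1)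
      ((T (k : ℤ) : S) • mv (b2 + (C ρ : S) • b1) + (C y : S) • mv b1) : Set (S × S)) := by
    rw [mem_M0_shear hfr]
    have := hr.k_M0_01 hk1
    simpa using this
  have := hy.reflect hmem
  rw [mv_mv] at this
  have e : mv ((T (k : ℤ) : S) • mv (b2 + (C ρ : S) • b1) + (C y : S) • mv b1
      + (C (-y) : S) • mv b1) = (T (-(k : ℤ)) : S) • (b2 + (C ρ : S) • b1) := by
    rw [add_assoc, ← add_smul, ← map_add, add_neg_cancel, map_zero, zero_smul, add_zero,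
      mv_smul, mv_mv, invert_T]
  rw [e] at this
  exact this

end

/-- the extremal situation -/
structure Ext (N α m : ℕ) : Prop where
  le : m ≤ α
  hm : 1 ≤ m
  hs : ∀ b1 b2 α' β', Prob N b1 b2 α' β' → α + m ≤ α' + β'
  ht : ∀ b1 b2 α' β', Prob N b1 b2 α' β' → α' + β' = α + m → m ≤ α' ∧ m ≤ β'

section
variable {N : ℕ} {b1 b2 : S × S} {α m : ℕ}

theorem Ext.claim1 (hx : Ext N α m) (h : Prob N b1 b2 α m) :
    ∃ a, α + m ≤ a ∧ Lam2 (Zi b1 b2) a ∧ ¬ Lam2 (Zi b1 b2) (a + 1) := by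
  obtain ⟨a, ha1, ha2, ha3⟩ := h.exact
  refine ⟨a, ?_, ha2, ha3⟩
  rcases lt_trichotomy a m with hlt | heq | hgt
  · obtain ⟨y, hy⟩ := h.slide hlt ha2 ha3
    have := (hx.ht _ _ _ _ hy (by omega)).2
    omega
  · subst heq
    exact absurd (h.ne_beta ha2) ha3
  · have := hx.hs _ _ _ _ (h.swap hgt ha2 ha3)
    omega

theorem Ext.lam2 (hx : Ext N α m) (h : Prob N b1 b2 α m) {x : ℚ} (hxI : x ∈ AQ) :
    Lam2 (sh x (Zi b1 b2)) (α + m) := by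
  obtain ⟨a, ha, h2, -⟩ := hx.claim1 (h.shift hxI)
  rw [Zi_shear] at h2
  exact h2.mono ha

theorem one_mem_AQ' : (1 : ℚ) ∈ AQ := AQ.one_mem

theorem Ext.claim2 (hx : Ext N α m) (h : Prob N b1 b2 α m) :
    ∃ e1 e2 w, NF (Zi b1 b2) α (α + m) e1 e2 w := by
  refine nf (Zi_uni h.fr) h.hα (by have := hx.hm; omega) ?_ (hx.lam2 h AQ.one_mem)
    (hx.lam2 h (AQ.neg_mem AQ.one_mem)) h.ia h.ia'
  have := hx.lam2 h AQ.zero_mem
  rwa [sh_zero] at this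

theorem mem_swapped (b1 b2 : S × S) (m : ℕ) (z1 z2 : P) :
    (z1, z2) ∈ sh 1 (Zi ((T (m : ℤ) : S) • b2) (-b1)) ↔
      (-(PowerSeries.X ^ m * z2), z1 + z2) ∈ Zi b1 b2 := by
  rw [mem_sh, Zi_swap, Zi_right, map_one, one_mul, mul_neg]

theorem Ext.claim3 (hx : Ext N α m) (h : Prob N b1 b2 α m) :
    Prob N ((T (m : ℤ) : S) • b2) (-b1) α m := by
  obtain ⟨a, ha, h2, h3⟩ := hx.claim1 h
  have hα := h.hα
  have hm := hx.hm
  have hle := hx.le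
  have hsw := h.swap (by omega) h2 h3
  obtain ⟨e1, e2, w, hnf⟩ := hx.claim2 h
  obtain ⟨z1, z2, hz1, hz2, hz3⟩ := swap_lift (Zi_uni h.fr) hα hm hnf
  -- the partner
  have hp := hsw.shift AQ.one_mem
  obtain ⟨b, hb1, hb2, hb3⟩ := hp.exact
  have hbα : α ≤ b := by
    by_contra hlt
    apply hb3
    rw [Zi_shear]
    refine Lam2.mono ?_ (show b + 1 ≤ α by omega)
    refine ⟨(z1, z2), ?_, hz2, hz1⟩
    rw [mem_swapped]; exact hz3
  have hbm : b ≠ m := by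
    rintro rfl
    exact hb3 (hp.ne_beta hb2)
  have hbb := hx.hs _ _ _ _ (hp.swap (by omega) hb2 hb3)
  have hz : ∃ z1 z2 : P, (PowerSeries.X : P) ^ (α + 1) ∣ z1 ∧
      PowerSeries.constantCoeff z2 = 1 ∧ (-(PowerSeries.X ^ m * z2), z1 + z2) ∈ Zi b1 b2 := by
    rw [Zi_shear] at hb2
    obtain ⟨z, hz, hz1, hz2⟩ := hb2.mono (show α + 1 ≤ b by omega)
    exact ⟨z.1, z.2, hz2, hz1, (mem_swapped b1 b2 m z.1 z.2).1 hz⟩
  have hnot := swap_half (Zi_uni h.fr) hα hm hnf hz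
  have haa : a = α + m := by
    by_contra hne
    exact hnot (h2.mono (by omega))
  subst haa
  have e : α + m - m = α := by omega
  rw [e] at hsw
  exact hsw

/-- short left partners -/
theorem Ext.claim4 (hx : Ext N α m) (h : Prob N b1 b2 α m) {ρ : ℚ}
    (hρ : ((ρ, 1) : ℚ × ℚ) ∈ M0 (Lat b1 b2 : Set (S × S))) {k : ℕ} (hk1 : 1 ≤ k) (hk : k < α)
    (h2 : Lam2 (sh ρ (Z0 b1 b2)) k) (h3 : ¬ Lam2 (sh ρ (Z0 b1 b2)) (k + 1)) :
    m + k ≤ α ∧ α ≤ 2 * k := by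
  have hsl := h.slide_left hρ hk h2 h3
  have hα := h.hα
  have hm := hx.hm
  have hle := hx.le
  have hmk := (hx.ht _ _ _ _ hsl (by omega)).1
  refine ⟨by omega, ?_⟩
  by_contra hcon
  have hka : 2 * k < α := by omega
  have hρI : ρ ∉ AQ := by
    intro hI
    have := h.main_left hρ
    rcases this with h4 | h4
    · exact h4.2 ((coord_int (Mi_uni_fr h.fr) h.i10 h.i01).2 ⟨hI, AQ.one_mem⟩)
    · exact h4.2 hρ
  obtain ⟨e1, e2, w, hnf⟩ := hx.claim2 h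
  -- membership in the shifted left frame
  set c2 := (T (-(k : ℤ)) : S) • (b2 + (C ρ : S) • b1) with hc2
  have hmem : ∀ z1 z2 : P, (z1, z2) ∈ sh 1 (Zi b1 c2) ↔
      (z1 + z2 + PowerSeries.C ρ * PowerSeries.X ^ k * z2, PowerSeries.X ^ k * z2) ∈ Zi b1 b2 := by
    intro z1 z2
    rw [mem_sh, hc2, Zi_left, Zi_shear, mem_sh, map_one, one_mul, mul_assoc]
  have hp := hsl.shift AQ.one_mem
  have hp2 : Lam2 (Zi b1 (c2 + (C 1 : S) • b1)) k := by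
    rw [Zi_shear]
    obtain ⟨z1, z2, g1, g2, g3⟩ := left_mid_a (Zi_uni h.fr) hk1 hka (by omega) hnf ρ
    exact ⟨(z1, z2), (hmem z1 z2).2 g3, g2, g1⟩
  have hp3 : ¬ Lam2 (Zi b1 (c2 + (C 1 : S) • b1)) (k + 1) := by
    rw [Zi_shear]
    rintro ⟨z, hz, g1, g2⟩
    exact left_mid_b (Zi_uni h.fr) hk1 hka (by omega) hnf hρI g2 g1 ((hmem z.1 z.2).1 hz)
  obtain ⟨y, hy⟩ := hp.slide (k := k) (by omega) hp2 hp3
  have e1' : α - k + k = α := by omega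
  have e2' : m + k - k = m := by omega
  rw [e1', e2'] at hy
  have hl := hx.lam2 hy AQ.zero_mem
  rw [sh_zero] at hl
  obtain ⟨z, hz, g1, g2⟩ := hl
  rw [Zi_shear, mem_sh, Zi_right, Zi_shear] at hz
  have hz' := (hmem (PowerSeries.X ^ k * (z.1 + PowerSeries.C y * z.2)) z.2).1 hz
  refine short_left (Zi_uni h.fr) hk1 hka (by omega) hnf (y + ρ) g1 g2 ?_
  have e : PowerSeries.X ^ k * z.1 + z.2 * (1 + PowerSeries.C (y + ρ) * PowerSeries.X ^ k)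
      = PowerSeries.X ^ k * (z.1 + PowerSeries.C y * z.2) + z.2
        + PowerSeries.C ρ * PowerSeries.X ^ k * z.2 := by
    rw [map_add]; ring
  rw [e]; exact hz'

/-- exact plateau of a left partner -/
theorem Prob.exact_left {β : ℕ} (h : Prob N b1 b2 α β) {ρ : ℚ}
    (hρ : ((ρ, 1) : ℚ × ℚ) ∈ M0 (Lat b1 b2 : Set (S × S))) :
    ∃ k, 1 ≤ k ∧ k ≠ α ∧ Lam2 (sh ρ (Z0 b1 b2)) k ∧ ¬ Lam2 (sh ρ (Z0 b1 b2)) (k + 1) := by
  have hr := h.reflect hρ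
  obtain ⟨a, ha1, ha2, ha3⟩ := hr.exact
  rw [Zi_mv, Z0_shear] at ha2 ha3
  refine ⟨a, ha1, ?_, ha2, ha3⟩
  rintro rfl
  apply ha3
  have := hr.ne_beta (by rw [Zi_mv, Z0_shear]; exact ha2)
  rwa [Zi_mv, Z0_shear] at this

theorem Ext.left_big (hx : Ext N α m) (h : Prob N b1 b2 α m) {ρ : ℚ}
    (hρ : ((ρ, 1) : ℚ × ℚ) ∈ M0 (Lat b1 b2 : Set (S × S))) {k : ℕ} (hk : α < k)
    (h2 : Lam2 (sh ρ (Z0 b1 b2)) k) (h3 : ¬ Lam2 (sh ρ (Z0 b1 b2)) (k + 1)) : α + m ≤ k := by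
  have hr := h.reflect hρ
  have := hx.hs _ _ _ _ (hr.swap hk (by rw [Zi_mv, Z0_shear]; exact h2)
    (by rw [Zi_mv, Z0_shear]; exact h3))
  omega

theorem Ext.claim5 (hx : Ext N α m) (h : Prob N b1 b2 α m) {ρ : ℚ}
    (hρ : ((ρ, 1) : ℚ × ℚ) ∈ M0 (Lat b1 b2 : Set (S × S))) : Lam2 (sh ρ (Z0 b1 b2)) m := by
  obtain ⟨k, hk1, hkα, h2, h3⟩ := h.exact_left hρ
  refine h2.mono ?_
  rcases lt_or_ge k α with hlt | hge
  · have := hx.claim4 h hρ hk1 hlt h2 h3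
    omega
  · exact le_trans hx.le hge

theorem left_shift (h : Prob N b1 b2 α m) {ρ x : ℚ}
    (hρ : ((ρ, 1) : ℚ × ℚ) ∈ M0 (Lat b1 b2 : Set (S × S))) (hx : x ∈ AQ) :
    ((x + ρ, 1) : ℚ × ℚ) ∈ M0 (Lat b1 b2 : Set (S × S)) := by
  have := (M0_uni_fr h.fr).comb_mem h.o10 hρ hx AQ.one_mem
  simpa using this

theorem two_mem_AQ : (2 : ℚ) ∈ AQ := by
  have := AQ.add_mem AQ.one_mem AQ.one_mem
  have e : (1 : ℚ) + 1 = 2 := by norm_num
  rwa [e] at this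

/-- claim 7 -/
theorem Ext.claim7 (hx : Ext N α m) (h : Prob N b1 b2 α m) :
    ∃ ρ : ℚ, ∃ e1 e2 : P × P, NB (sh ρ (Z0 b1 b2)) m e1 e2 ∧
      Half (PowerSeries.coeff m e1.2) ∧
      ((α = 2 * m ∧ PowerSeries.coeff m (e1.1 - e2.2) ∈ AQ) ∨
        (α ≠ 2 * m ∧ Half (PowerSeries.coeff m (e1.1 - e2.2)))) := by
  have hα := h.hα
  have hm := hx.hm
  have hle := hx.le
  by_cases hA : α = 2 * m
  · -- case A
    obtain ⟨ρ0, hρ0⟩ := h.exists_left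
    have hex : ∃ ρ : ℚ, ((ρ, 1) : ℚ × ℚ) ∈ M0 (Lat b1 b2 : Set (S × S)) ∧
        Lam2 (sh ρ (Z0 b1 b2)) m ∧ ¬ Lam2 (sh ρ (Z0 b1 b2)) (m + 1) := by
      by_contra hcon
      push Not at hcon
      have hbig : ∀ ρ : ℚ, ((ρ, 1) : ℚ × ℚ) ∈ M0 (Lat b1 b2 : Set (S × S)) →
          Lam2 (sh ρ (Z0 b1 b2)) (α + m) := by
        intro ρ hρ
        obtain ⟨k, hk1, hkα, h2, h3⟩ := h.exact_left hρ
        have hkm : m < k := by
          have h5 := hx.claim5 h hρ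
          have h6 := hcon ρ hρ h5
          by_contra hlt
          exact h3 (h6.mono (by omega))
        rcases lt_or_gt_of_ne hkα with hlt | hgt
        · have := hx.claim4 h hρ hk1 hlt h2 h3
          omega
        · exact h2.mono (hx.left_big h hρ hgt h2 h3)
      have hF : Uni AP (sh ρ0 (Z0 b1 b2)) := by
        rw [← Z0_shear]; exact Z0_uni (h.fr.shear ρ0)
      have key := two_blocked (n := α + m) hF hm (hbig ρ0 hρ0)
        (by rw [sh_sh]; exact hbig _ (left_shift h hρ0 AQ.one_mem))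
        (by rw [sh_sh]; exact hbig _ (left_shift h hρ0 (AQ.neg_mem AQ.one_mem)))
        (by rw [sh_sh]; exact hbig _ (left_shift h hρ0 two_mem_AQ))
        ((Lam1_sh hm).2 h.oa) (fun hh => h.oa' ((Lam1_sh (by omega)).1 hh))
      omega
    obtain ⟨ρ, hρ, h2, h3⟩ := hex
    have hF : Uni AP (sh ρ (Z0 b1 b2)) := by
      rw [← Z0_shear]; exact Z0_uni (h.fr.shear ρ)
    obtain ⟨e1, e2, hnb⟩ := nb hF hm h2
      (by rw [sh_sh]; exact hx.claim5 h (left_shift h hρ AQ.one_mem))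
      (by rw [sh_sh]; exact hx.claim5 h (left_shift h hρ (AQ.neg_mem AQ.one_mem)))
      ((Lam1_sh hm).2 h.oa)
    have hr := h.reflect hρ
    obtain ⟨y, hy⟩ := hr.slide (k := m) (by omega) (by rw [Zi_mv, Z0_shear]; exact h2)
      (by rw [Zi_mv, Z0_shear]; exact h3)
    have e1' : m + m = α := by omega
    have e2' : α - m = m := by omega
    rw [e1', e2'] at hy
    obtain ⟨f1, f2, w, hnf⟩ := hx.claim2 hy
    have hset : Zi (mv b1) ((T (m : ℤ) : S) • mv (b2 + (C ρ : S) • b1) + (C y : S) • mv b1)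
        = {z : P × P | (PowerSeries.X ^ m * (z.1 + PowerSeries.C y * z.2), z.2)
            ∈ sh ρ (Z0 b1 b2)} := by
      rw [Zi_shear, Zi_dn, Zi_mv, Z0_shear]
      rfl
    rw [hset] at hnf
    have e3 : α + m = 3 * m := by omega
    rw [e3, hA] at hnf
    obtain ⟨k1, k2⟩ := case_A hF hm hnb y hnf
    exact ⟨ρ, e1, e2, hnb, k1, Or.inl ⟨hA, k2⟩⟩
  · -- case B
    have hbig : ∀ ρ : ℚ, ((ρ, 1) : ℚ × ℚ) ∈ M0 (Lat b1 b2 : Set (S × S)) →
        Lam2 (sh ρ (Z0 b1 b2)) (m + 1) := by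
      intro ρ hρ
      obtain ⟨k, hk1, hkα, h2, h3⟩ := h.exact_left hρ
      refine h2.mono ?_
      rcases lt_or_gt_of_ne hkα with hlt | hgt
      · have := hx.claim4 h hρ hk1 hlt h2 h3
        omega
      · omega
    obtain ⟨ρ, hρ⟩ := h.exists_left
    have hF : Uni AP (sh ρ (Z0 b1 b2)) := by
      rw [← Z0_shear]; exact Z0_uni (h.fr.shear ρ)
    obtain ⟨e1, e2, w, hnf⟩ := nf hF hm (Nat.lt_succ_self m) (hbig ρ hρ)
      (by rw [sh_sh]; exact hbig _ (left_shift h hρ AQ.one_mem))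
      (by rw [sh_sh]; exact hbig _ (left_shift h hρ (AQ.neg_mem AQ.one_mem)))
      ((Lam1_sh hm).2 h.oa) (fun hh => h.oa' ((Lam1_sh (by omega)).1 hh))
    obtain ⟨k1, k2, k3⟩ := case_B hF hm hnf
    exact ⟨ρ, e1, e2, k1, k2, Or.inr ⟨hA, k3⟩⟩

theorem half_not_int {q : ℚ} (h : Half q) : q ∉ AQ := by
  rintro ⟨z, hz⟩
  obtain ⟨j, hj⟩ := h
  have hz' : (z : ℚ) = q := hz
  have h1 : (2 * z : ℚ) = 2 * j + 1 := by rw [hz', hj]; ring
  have h2 : (2 * z : ℤ) = 2 * j + 1 := by exact_mod_cast h1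
  omega

theorem Ext.false (hx : Ext N α m) (h : Prob N b1 b2 α m) : False := by
  have h' := hx.claim3 h
  obtain ⟨ρ, e1, e2, he, k1, k2⟩ := hx.claim7 h
  obtain ⟨σ, f1, f2, hf, l1, l2⟩ := hx.claim7 h'
  have hF : Uni AP (sh ρ (Z0 b1 b2)) := by
    rw [← Z0_shear]; exact Z0_uni (h.fr.shear ρ)
  have hG : Uni AP (sh σ (Z0 ((T (m : ℤ) : S) • b2) (-b1))) := by
    rw [← Z0_shear]; exact Z0_uni (h'.fr.shear σ)
  have hFG : ∀ z ∈ sh σ (Z0 ((T (m : ℤ) : S) • b2) (-b1)),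
      (-z.2 - PowerSeries.C ρ * PowerSeries.X ^ m * (z.1 + PowerSeries.C σ * z.2),
        PowerSeries.X ^ m * (z.1 + PowerSeries.C σ * z.2)) ∈ sh ρ (Z0 b1 b2) := by
    intro z hz
    rw [mem_sh, Z0_swap, Z0_right] at hz
    change (-z.2 - PowerSeries.C ρ * PowerSeries.X ^ m * (z.1 + PowerSeries.C σ * z.2)
      + PowerSeries.C ρ * (PowerSeries.X ^ m * (z.1 + PowerSeries.C σ * z.2)),
      PowerSeries.X ^ m * (z.1 + PowerSeries.C σ * z.2)) ∈ Z0 b1 b2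
    have e : -z.2 - PowerSeries.C ρ * PowerSeries.X ^ m * (z.1 + PowerSeries.C σ * z.2)
      + PowerSeries.C ρ * (PowerSeries.X ^ m * (z.1 + PowerSeries.C σ * z.2)) = -z.2 := by ring
    rw [e]; exact hz
  have hhalf := parity hF hG hx.hm he hf hFG k1 l1
  rcases k2 with ⟨ka, kb⟩ | ⟨ka, kb⟩
  · rcases l2 with ⟨la, lb⟩ | ⟨la, lb⟩
    · exact half_not_int hhalf (AQ.add_mem kb lb)
    · exact la ka
  · rcases l2 with ⟨la, lb⟩ | ⟨la, lb⟩
    · exact ka la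
    · apply half_not_int hhalf
      obtain ⟨i, hi⟩ := kb
      obtain ⟨j, hj⟩ := lb
      rw [hi, hj]
      have e : ((i : ℚ) + 1 / 2 + ((j : ℚ) + 1 / 2)) = ((i + j + 1 : ℤ) : ℚ) := by
        push_cast; ring
      rw [e]; exact int_mem_AQ _

end

/-- no unsolved problem exists -/
theorem no_prob {N : ℕ} : ∀ b1 b2 α β, ¬ Prob N b1 b2 α β := by
  classical
  intro b1 b2 α β h
  have hex : ∃ s : ℕ, ∃ b1 b2 α β, Prob N b1 b2 α β ∧ α + β = s := ⟨_, b1, b2, α, β, h, rfl⟩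
  set s := Nat.find hex with hs
  obtain ⟨c1, c2, α1, β1, hp1, hs1⟩ := Nat.find_spec hex
  have hmin : ∀ b1 b2 α' β', Prob N b1 b2 α' β' → s ≤ α' + β' := by
    intro b1 b2 α' β' h'
    exact Nat.find_min' hex ⟨_, _, _, _, h', rfl⟩
  have hex2 : ∃ m : ℕ, ∃ b1 b2 α, Prob N b1 b2 α m ∧ α + m = s :=
    ⟨β1, c1, c2, α1, hp1, hs1⟩
  set m := Nat.find hex2 with hm
  obtain ⟨d1, d2, α2, hp2, hs2⟩ := Nat.find_spec hex2
  have hmin2 : ∀ b1 b2 α' β', Prob N b1 b2 α' β' → α' + β' = s → m ≤ β' := by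
    intro b1 b2 α' β' h' hsum
    exact Nat.find_min' hex2 ⟨_, _, _, h', hsum⟩
  have hmin3 : ∀ b1 b2 α' β', Prob N b1 b2 α' β' → α' + β' = s → m ≤ α' := by
    intro b1 b2 α' β' h' hsum
    obtain ⟨ρ, hρ⟩ := h'.exists_left
    exact hmin2 _ _ _ _ (h'.reflect hρ) (by omega)
  have hx : Ext N α2 m := by
    refine ⟨hmin3 _ _ _ _ hp2 hs2, hp2.hβ, ?_, ?_⟩
    · intro b1 b2 α' β' h'
      have := hmin _ _ _ _ h'
      omega
    · intro b1 b2 α' β' h' hsum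
      exact ⟨hmin3 _ _ _ _ h' (by omega), hmin2 _ _ _ _ h' (by omega)⟩
  exact hx.false hp2

end Pool.Agent.GE2
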