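import Pool.Agent.GE2.Trans

/-!
Definitions and small lemmas for local lattices in the plane over rational power series.
-/

set_option autoImplicit false

namespace Pool.Agent.GE2

/-- direction `(1,0)` of `E` lifts modulo `X ^ k` -/
def Lam1 (E : Set (P × P)) (k : ℕ) : Prop :=
  ∃ z ∈ E, PowerSeries.constantCoeff z.1 = 1 ∧ (PowerSeries.X : P) ^ k ∣ z.2

/-- direction `(0,1)` of `E` lifts modulo `X ^ k` -/
def Lam2 (E : Set (P × P)) (k : ℕ) : Prop :=
  ∃ z ∈ E, PowerSeries.constantCoeff z.2 = 1 ∧ (PowerSeries.X : P) ^ k ∣ z.1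

/-- shear -/
def sh (x : ℚ) (E : Set (P × P)) : Set (P × P) := {z | (z.1 + PowerSeries.C x * z.2, z.2) ∈ E}

/-- half integers -/
def Half (q : ℚ) : Prop := ∃ j : ℤ, q = j + 1 / 2

/-- normal form of a blocked lattice -/
def NF (E : Set (P × P)) (α n : ℕ) (e1 e2 : P × P) (w : P) : Prop :=
  e1 ∈ E ∧ e2 ∈ E ∧ w ∈ AP ∧ (∃ j : ℤ, PowerSeries.constantCoeff w = 2 * j + 1) ∧
    PowerSeries.constantCoeff e1.1 = 1 ∧ PowerSeries.constantCoeff e2.2 = 1 ∧
    (PowerSeries.X : P) ^ n ∣ e2.1 ∧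
    (PowerSeries.X : P) ^ n ∣ e1.1 - (1 + PowerSeries.C (1 / 2) * PowerSeries.X ^ α * w) * e2.2 ∧
    (PowerSeries.X : P) ^ n ∣ e1.2 - PowerSeries.C (1 / 2) * PowerSeries.X ^ α * w * e2.2

/-- normalised basis -/
def NB (E : Set (P × P)) (m : ℕ) (e1 e2 : P × P) : Prop :=
  e1 ∈ E ∧ e2 ∈ E ∧ PowerSeries.constantCoeff e1.1 = 1 ∧ PowerSeries.constantCoeff e2.2 = 1 ∧
    (PowerSeries.X : P) ^ m ∣ e2.1 ∧ (PowerSeries.X : P) ^ m ∣ e1.2 ∧
    (PowerSeries.X : P) ^ m ∣ e1.1 - e2.2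

/-! ### Unimodular lattices -/

section uni

variable {K : Type*} [CommRing K] {A : Subring K} {E : Set (K × K)}

lemma dt_mk (a b c d : K) : dt (a, b) (c, d) = a * d - b * c := rfl

lemma dt_neg_swap (x y : K × K) : dt y x = - dt x y := by
  simp only [dt]; ring

lemma Uni.mul_mem (hE : Uni A E) {z : K × K} (hz : z ∈ E) {p : K} (hp : p ∈ A) :
    (p * z.1, p * z.2) ∈ E := by
  obtain ⟨x, y, hxy, rfl⟩ := hE
  obtain ⟨h1, h2⟩ := hz
  constructor
  · have e : dt (p * z.1, p * z.2) x = p * dt z x := by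
      simp only [dt]; ring
    rw [e]; exact A.mul_mem hp h1
  · have e : dt (p * z.1, p * z.2) y = p * dt z y := by
      simp only [dt]; ring
    rw [e]; exact A.mul_mem hp h2

/-- coordinates in a basis -/
lemma Uni.coords (hE : Uni A E) {e1 e2 : K × K} (h1 : e1 ∈ E) (h2 : e2 ∈ E) {v : K} (hv : v ∈ A)
    (huv : dt e1 e2 * v = 1) {z : K × K} (hz : z ∈ E) :
    ∃ p ∈ A, ∃ q ∈ A, z = (p * e1.1 + q * e2.1, p * e1.2 + q * e2.2) := by
  refine ⟨v * dt z e2, A.mul_mem hv (hE.dt_mem hz h2), v * dt e1 z,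
    A.mul_mem hv (hE.dt_mem h1 hz), ?_⟩
  ext
  · have : z.1 = (dt e1 e2 * v) * z.1 := by rw [huv, one_mul]
    rw [this]
    simp only [dt]; ring
  · have : z.2 = (dt e1 e2 * v) * z.2 := by rw [huv, one_mul]
    rw [this]
    simp only [dt]; ring

/-- membership is detected by a basis -/
lemma Uni.mem_of_dt (hE : Uni A E) {e1 e2 : K × K} (h1 : e1 ∈ E) (h2 : e2 ∈ E) {v : K}
    (hv : v ∈ A) (huv : dt e1 e2 * v = 1) {z : K × K} (hz1 : dt z e1 ∈ A) (hz2 : dt z e2 ∈ A) :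
    z ∈ E := by
  have h : z = ((v * dt z e2) * e1.1 + (-(v * dt z e1)) * e2.1,
      (v * dt z e2) * e1.2 + (-(v * dt z e1)) * e2.2) := by
    ext
    · have : z.1 = (dt e1 e2 * v) * z.1 := by rw [huv, one_mul]
      rw [this]
      simp only [dt]; ring
    · have : z.2 = (dt e1 e2 * v) * z.2 := by rw [huv, one_mul]
      rw [this]
      simp only [dt]; ring
  rw [h]
  exact hE.comb_mem h1 h2 (A.mul_mem hv hz2) (A.neg_mem (A.mul_mem hv hz1))

end uni

/-! ### Integral power series -/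

lemma mem_AQ {q : ℚ} : q ∈ AQ ↔ ∃ j : ℤ, q = j := by
  unfold AQ
  rw [RingHom.mem_range]
  constructor
  · rintro ⟨j, rfl⟩
    exact ⟨j, rfl⟩
  · rintro ⟨j, rfl⟩
    exact ⟨j, rfl⟩

lemma map_mem_AP (a : PowerSeries ℤ) : PowerSeries.map (Int.castRingHom ℚ) a ∈ AP := ⟨a, rfl⟩

lemma exists_of_mem_AP {a : P} (h : a ∈ AP) :
    ∃ b : PowerSeries ℤ, PowerSeries.map (Int.castRingHom ℚ) b = a := h

lemma X_pow_mem_AP (n : ℕ) : (PowerSeries.X : P) ^ n ∈ AP := AP.pow_mem X_mem_AP n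

lemma C_mem_AP {q : ℚ} (h : q ∈ AQ) : PowerSeries.C q ∈ AP := by
  obtain ⟨j, rfl⟩ := mem_AQ.mp h
  exact ⟨PowerSeries.C j, by simp⟩

/-- quotients by powers of `X` -/
lemma AP_of_X_pow_mul {a : P} {n : ℕ} (h : PowerSeries.X ^ n * a ∈ AP) : a ∈ AP := by
  rw [mem_AP] at h ⊢
  intro k
  have := h (k + n)
  rwa [PowerSeries.coeff_X_pow_mul] at this

/-- units of `AP` -/
lemma AP_unit {a : P} (ha : a ∈ AP) (h : PowerSeries.constantCoeff a = 1) :
    ∃ v ∈ AP, a * v = 1 ∧ PowerSeries.constantCoeff v = 1 := by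
  obtain ⟨b, rfl⟩ := ha
  have hb : PowerSeries.constantCoeff b = 1 := by
    have h' : PowerSeries.constantCoeff (PowerSeries.map (Int.castRingHom ℚ) b) = 1 := h
    rw [← PowerSeries.coeff_zero_eq_constantCoeff_apply, PowerSeries.coeff_map,
      PowerSeries.coeff_zero_eq_constantCoeff_apply] at h'
    have h'' : ((PowerSeries.constantCoeff b : ℤ) : ℚ) = 1 := h'
    exact_mod_cast h''
  have hu : IsUnit b := by
    rw [PowerSeries.isUnit_iff_constantCoeff, hb]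
    exact isUnit_one
  obtain ⟨c, hc⟩ := hu.exists_right_inv
  refine ⟨PowerSeries.map (Int.castRingHom ℚ) c, map_mem_AP c, ?_, ?_⟩
  · change PowerSeries.map (Int.castRingHom ℚ) b * _ = 1
    rw [← map_mul, hc, map_one]
  · have h1 : PowerSeries.constantCoeff b * PowerSeries.constantCoeff c = 1 := by
      rw [← map_mul, hc, map_one]
    rw [hb, one_mul] at h1
    rw [← PowerSeries.coeff_zero_eq_constantCoeff_apply, PowerSeries.coeff_map,
      PowerSeries.coeff_zero_eq_constantCoeff_apply, h1]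
    simp

lemma constantCoeff_eq_of_dvd {n : ℕ} (hn : 1 ≤ n) {a b : P}
    (h : (PowerSeries.X : P) ^ n ∣ a - b) :
    PowerSeries.constantCoeff a = PowerSeries.constantCoeff b := by
  have h1 : (PowerSeries.X : P) ∣ a - b := (dvd_pow_self _ (by omega)).trans h
  rw [PowerSeries.X_dvd_iff, map_sub, sub_eq_zero] at h1
  exact h1

lemma constantCoeff_eq_zero_of_dvd {n : ℕ} (hn : 1 ≤ n) {a : P}
    (h : (PowerSeries.X : P) ^ n ∣ a) : PowerSeries.constantCoeff a = 0 := by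
  have h1 : (PowerSeries.X : P) ∣ a := (dvd_pow_self _ (by omega)).trans h
  rwa [PowerSeries.X_dvd_iff] at h1

/-- a power series with constant coefficient one can be cancelled -/
lemma dvd_of_dvd_mul_unit {n : ℕ} {a d : P} (hd : PowerSeries.constantCoeff d = 1)
    (h : (PowerSeries.X : P) ^ n ∣ a * d) : (PowerSeries.X : P) ^ n ∣ a := by
  have hu : IsUnit d := by
    rw [PowerSeries.isUnit_iff_constantCoeff, hd]
    exact isUnit_one
  exact (hu.dvd_mul_right).mp h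

end Pool.Agent.GE2
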