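import Pool.Agent.GE2.Conn

/-!
Change of coordinates for the value lattices, the edge formula, connectivity of main directions.
-/

set_option autoImplicit false

namespace Pool.Agent.GE2

open LaurentPolynomial

theorem M0_uni_fr {b1 b2 : S × S} (hB : IsFr b1 b2) : Uni AQ (M0 (Lat b1 b2 : Set (S × S))) :=
  M0_uni (Lat_uni hB)

theorem Mi_uni_fr {b1 b2 : S × S} (hB : IsFr b1 b2) : Uni AQ (Mi (Lat b1 b2 : Set (S × S))) := by
  rw [Mi_eq]; exact M0_uni_fr hB.mir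

theorem Z0_uni {b1 b2 : S × S} (hB : IsFr b1 b2) : Uni AP (Z0 b1 b2) := F0_uni (Lat_uni hB)

theorem Zi_uni {b1 b2 : S × S} (hB : IsFr b1 b2) : Uni AP (Zi b1 b2) := by
  rw [Zi_eq]; exact Z0_uni hB.mir

theorem mv_vec (b1 b2 : S × S) (u : ℚ × ℚ) : mv (vec b1 b2 u) = vec (mv b1) (mv b2) u := by
  simp only [vec, mv_add, mv_smul, invert_C]

theorem mem_M0_gen {b1 b2 : S × S} (hB : IsFr b1 b2) {a b c d : ℚ} (h : a * d - b * c = 1)
    (m : ℚ × ℚ) :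
    m ∈ M0 (Lat (vec b1 b2 (a, c)) (vec b1 b2 (b, d)) : Set (S × S)) ↔
      (a * m.1 + b * m.2, c * m.1 + d * m.2) ∈ M0 (Lat b1 b2 : Set (S × S)) := by
  have hB' : IsFr (vec b1 b2 (a, c)) (vec b1 b2 (b, d)) := hB.sl2 h
  rw [mem_M0_iff (Lat_uni hB'), mem_M0_iff (Lat_uni hB)]
  constructor
  · rintro ⟨z, hz, h1, h2⟩
    refine ⟨_, (Z0_gen b1 b2 h z).1 hz, ?_, ?_⟩
    · simp [h1, h2]
    · simp [h1, h2]
  · rintro ⟨z, hz, h1, h2⟩
    refine ⟨(PowerSeries.C d * z.1 - PowerSeries.C b * z.2,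
      PowerSeries.C a * z.2 - PowerSeries.C c * z.1), (Z0_gen b1 b2 h _).2 ?_, ?_, ?_⟩
    · have hc : (PowerSeries.C a * PowerSeries.C d - PowerSeries.C b * PowerSeries.C c : P) = 1 := by
        rw [← map_mul, ← map_mul, ← map_sub, h, map_one]
      have e1 : PowerSeries.C a * (PowerSeries.C d * z.1 - PowerSeries.C b * z.2)
          + PowerSeries.C b * (PowerSeries.C a * z.2 - PowerSeries.C c * z.1) = z.1 := by
        linear_combination z.1 * hc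
      have e2 : PowerSeries.C c * (PowerSeries.C d * z.1 - PowerSeries.C b * z.2)
          + PowerSeries.C d * (PowerSeries.C a * z.2 - PowerSeries.C c * z.1) = z.2 := by
        linear_combination z.2 * hc
      simp only [e1, e2]
      exact hz
    · simp only [map_sub, map_mul, PowerSeries.constantCoeff_C, h1, h2]
      linear_combination m.1 * h
    · simp only [map_sub, map_mul, PowerSeries.constantCoeff_C, h1, h2]
      linear_combination m.2 * h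

theorem mem_Mi_gen {b1 b2 : S × S} (hB : IsFr b1 b2) {a b c d : ℚ} (h : a * d - b * c = 1)
    (m : ℚ × ℚ) :
    m ∈ Mi (Lat (vec b1 b2 (a, c)) (vec b1 b2 (b, d)) : Set (S × S)) ↔
      (a * m.1 + b * m.2, c * m.1 + d * m.2) ∈ Mi (Lat b1 b2 : Set (S × S)) := by
  rw [Mi_eq, Mi_eq, mv_vec, mv_vec, mem_M0_gen hB.mir h]

theorem mem_Mc_gen {b1 b2 : S × S} {a b c d : ℚ}
    (m : ℚ × ℚ) :
    m ∈ Mc (Lat (vec b1 b2 (a, c)) (vec b1 b2 (b, d)) : Set (S × S)) ↔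
      (a * m.1 + b * m.2, c * m.1 + d * m.2) ∈ Mc (Lat b1 b2 : Set (S × S)) := by
  change (_, _) ∈ Lat _ _ ↔ (_, _) ∈ Lat _ _
  simp only [vec]
  rw [Lat_gen]
  simp only [map_add, map_mul]

theorem Prm.neg {M : Set (ℚ × ℚ)} (hM : Uni AQ M) {v : ℚ × ℚ} (h : Prm M v) : Prm M (-v) := by
  refine ⟨hM.neg_mem h.1, fun q hq => ?_⟩
  have := hM.neg_mem hq
  rw [smul_neg, neg_neg] at this
  exact h.2 q this

/-- the edge formula in arbitrary position -/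
theorem lev_edge {b1 b2 : S × S} (hB : IsFr b1 b2) (hl : lev b1 b2 ≠ 0) {u u' : ℚ × ℚ}
    (hu : Prm (M0 (Lat b1 b2 : Set (S × S))) u) (hu' : Prm (Mi (Lat b1 b2 : Set (S × S))) u')
    (hd : dt u u' ≠ 0) :
    IsFr (vec b1 b2 u) ((T 1 : S) • vec b1 b2 ((dt u u')⁻¹ • u')) ∧
    (lev (vec b1 b2 u) ((T 1 : S) • vec b1 b2 ((dt u u')⁻¹ • u')) : ℚ)
      = (lev b1 b2 : ℚ) * |dt u u'| := by
  set δ := dt u u' with hδ
  have hg : u.1 * (δ⁻¹ * u'.2) - (δ⁻¹ * u'.1) * u.2 = 1 := by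
    have : u.1 * (δ⁻¹ * u'.2) - (δ⁻¹ * u'.1) * u.2 = δ⁻¹ * δ := by
      rw [hδ]; simp only [dt]; ring
    rw [this, inv_mul_cancel₀ hd]
  have hu2 : (δ⁻¹ • u') = (δ⁻¹ * u'.1, δ⁻¹ * u'.2) := rfl
  have hB' : IsFr (vec b1 b2 u) (vec b1 b2 (δ⁻¹ • u')) := hB.sl2 hg
  refine ⟨hB'.right 1, ?_⟩
  have hlev : lev (vec b1 b2 u) (vec b1 b2 (δ⁻¹ • u')) = lev b1 b2 :=
    lev_sl2 b1 b2 _ _ _ _ hg
  have hM0 := M0_uni_fr hB'
  have hMi := Mi_uni_fr hB'
  have p0 : Prm (M0 (Lat (vec b1 b2 u) (vec b1 b2 (δ⁻¹ • u')) : Set (S × S))) (1, 0) := by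
    constructor
    · rw [show u = (u.1, u.2) from rfl, hu2, mem_M0_gen hB hg]
      simpa using hu.1
    · intro q hq
      rw [show u = (u.1, u.2) from rfl, hu2, mem_M0_gen hB hg] at hq
      apply hu.2 q
      have e : (u.1 * (q • ((1 : ℚ), (0 : ℚ))).1 + δ⁻¹ * u'.1 * (q • ((1 : ℚ), (0 : ℚ))).2,
          u.2 * (q • ((1 : ℚ), (0 : ℚ))).1 + δ⁻¹ * u'.2 * (q • ((1 : ℚ), (0 : ℚ))).2) = q • u := by
        ext <;> simp [mul_comm]
      rwa [e] at hq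
  have pi0 : Prm (Mi (Lat (vec b1 b2 u) (vec b1 b2 (δ⁻¹ • u')) : Set (S × S))) (0, δ) := by
    constructor
    · rw [show u = (u.1, u.2) from rfl, hu2, mem_Mi_gen hB hg]
      have e : (u.1 * ((0 : ℚ), δ).1 + δ⁻¹ * u'.1 * ((0 : ℚ), δ).2,
          u.2 * ((0 : ℚ), δ).1 + δ⁻¹ * u'.2 * ((0 : ℚ), δ).2) = u' := by
        ext
        · simp only; field_simp; ring
        · simp only; field_simp; ring
      rw [e]; exact hu'.1
    · intro q hq
      rw [show u = (u.1, u.2) from rfl, hu2, mem_Mi_gen hB hg] at hq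
      apply hu'.2 q
      have e : (u.1 * (q • ((0 : ℚ), δ)).1 + δ⁻¹ * u'.1 * (q • ((0 : ℚ), δ)).2,
          u.2 * (q • ((0 : ℚ), δ)).1 + δ⁻¹ * u'.2 * (q • ((0 : ℚ), δ)).2) = q • u' := by
        ext
        · simp only [Prod.smul_fst, Prod.smul_snd, smul_eq_mul]; field_simp; ring
        · simp only [Prod.smul_fst, Prod.smul_snd, smul_eq_mul]; field_simp; ring
      rwa [e] at hq
  have pi : Prm (Mi (Lat (vec b1 b2 u) (vec b1 b2 (δ⁻¹ • u')) : Set (S × S))) (0, |δ|) := by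
    rcases abs_choice δ with h | h
    · rw [h]; exact pi0
    · rw [h]
      have := pi0.neg hMi
      have e : -((0 : ℚ), δ) = ((0 : ℚ), -δ) := by ext <;> simp
      rwa [e] at this
  have := lev_right hB' hM0 hMi one_pos (abs_pos.2 hd) p0 pi (by rw [hlev]; exact hl)
  rw [this, hlev, one_mul]

/-- main directions -/
def MainD (b1 b2 : S × S) (u : ℚ × ℚ) : Prop :=
  (Prm (M0 (Lat b1 b2 : Set (S × S))) u ∧ u ∉ Mi (Lat b1 b2 : Set (S × S))) ∨
  (Prm (Mi (Lat b1 b2 : Set (S × S))) u ∧ u ∉ M0 (Lat b1 b2 : Set (S × S)))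

/-- all main directions of a frame are connected through lower frames -/
theorem main_dirs {b1 b2 : S × S} (hB : IsFr b1 b2) (hl : lev b1 b2 ≠ 0) {u w : ℚ × ℚ}
    (hu : MainD b1 b2 u) (hw : MainD b1 b2 w) :
    Cn (lev b1 b2) (vec b1 b2 u) (vec b1 b2 w) := by
  refine main_conn (M0_uni_fr hB) (Mi_uni_fr hB)
    (fun u w => Cn (lev b1 b2) (vec b1 b2 u) (vec b1 b2 w)) (fun _ _ h => h.symm)
    (fun _ _ _ h1 h2 => h1.trans h2) (fun u q _ hq => Cn.of_Sc (Sc_vec _ _ hq u)) ?_ hu hw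
  intro u u' h1 h2 hd hlt
  obtain ⟨hF, hL⟩ := lev_edge hB hl h1 h2 hd
  apply Cn.of_Stp
  refine ⟨_, _, hF, ?_, ?_, ?_⟩
  · have : (lev (vec b1 b2 u) ((T 1 : S) • vec b1 b2 ((dt u u')⁻¹ • u')) : ℚ) < lev b1 b2 := by
      rw [hL]
      have hpos : (0 : ℚ) < lev b1 b2 := by
        have := Nat.pos_of_ne_zero hl
        exact_mod_cast this
      nlinarith
    exact_mod_cast this
  · have := OnFr_vec (vec b1 b2 u) ((T 1 : S) • vec b1 b2 ((dt u u')⁻¹ • u')) (u := (1, 0))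
      (by intro h; simp at h)
    rwa [vec_one] at this
  · have := OnFr_vec (vec b1 b2 u) ((T 1 : S) • vec b1 b2 ((dt u u')⁻¹ • u')) (u := (0, 1))
      (by intro h; simp at h)
    rw [vec_two] at this
    refine this.sc ?_
    have s1 := (Sc_T (vec b1 b2 ((dt u u')⁻¹ • u')) 1).symm
    have s2 := (Sc_vec b1 b2 (inv_ne_zero hd) u').symm
    exact s1.trans s2

end Pool.Agent.GE2
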