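import Pool.Agent.GE2.Defs2

/-!
Pushing paths down and the final assembly, from the other statements of the second round (taken as
hypotheses with the same statements).
-/

set_option autoImplicit false

namespace Pool.Agent.GE2

open LaurentPolynomial

/-- statement of `low_red` -/
def HLowRed : Prop := ∀ {b1 b2 : S × S} (_ : IsFr b1 b2) {u : ℚ × ℚ} (_ : u ≠ 0)
    (_ : Low (lev b1 b2) (vec b1 b2 u)), Red b1 b2 u

/-- statement of `exists_red` -/
def HExistsRed : Prop := ∀ {b1 b2 : S × S} (_ : IsFr b1 b2) (_ : 2 ≤ lev b1 b2),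
    ∃ u : ℚ × ℚ, Red b1 b2 u

/-- statement of `star` -/
def HStar : Prop := ∀ {N : ℕ} (_ : 2 ≤ N)
    (_ : ∀ b1 b2 : S × S, IsFr b1 b2 → lev b1 b2 = N →
      ∀ u w : ℚ × ℚ, Red b1 b2 u → Red b1 b2 w → Cn N (vec b1 b2 u) (vec b1 b2 w))
    {b1 b2 c1 c2 v : S × S} (_ : IsFr b1 b2) (_ : IsFr c1 c2) (_ : lev b1 b2 = N)
    (_ : lev c1 c2 = N) (_ : OnFr b1 b2 v) (_ : OnFr c1 c2 v) (_ : ¬ Low N v)
    {u w : ℚ × ℚ} (_ : Red b1 b2 u) (_ : Red c1 c2 w),
    Cn N (vec b1 b2 u) (vec c1 c2 w)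

/-- statement of `lev_ne_zero` -/
def HLevNe : Prop := ∀ {b1 b2 : S × S} (_ : IsFr b1 b2), lev b1 b2 ≠ 0

/-- statement of `Cn_std` -/
def HCnStd : Prop := ∀ {b1 b2 v : S × S} (_ : IsFr b1 b2) (_ : OnFr b1 b2 v),
    ∃ n : ℕ, Cn n ((1, 0) : S × S) v

/-- statement of `red_conn` -/
def HRedConn : Prop := ∀ {N : ℕ} (_ : ∀ b1 b2 α β, ¬ Prob N b1 b2 α β) {b1 b2 : S × S}
    (_ : IsFr b1 b2) (_ : lev b1 b2 = N) (_ : N ≠ 0) {u w : ℚ × ℚ}
    (_ : Red b1 b2 u) (_ : Red b1 b2 w), Cn N (vec b1 b2 u) (vec b1 b2 w)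

theorem Low.sc {N : ℕ} {v w : S × S} (h : Low N v) (hs : Sc v w) : Low N w := by
  obtain ⟨c1, c2, h1, h2, h3⟩ := h
  exact ⟨c1, c2, h1, h2, h3.sc hs⟩

theorem Low.mono {m n : ℕ} (hmn : m ≤ n) {v : S × S} (h : Low m v) : Low n v := by
  obtain ⟨c1, c2, h1, h2, h3⟩ := h
  exact ⟨c1, c2, h1, lt_of_lt_of_le h2 hmn, h3⟩

/-- `push` from the other statements -/
theorem push_of (hlow : HLowRed) (hex : HExistsRed) (hstar : HStar) {N : ℕ} (hN : 2 ≤ N)
    (hred : ∀ b1 b2 : S × S, IsFr b1 b2 → lev b1 b2 = N →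
      ∀ u w : ℚ × ℚ, Red b1 b2 u → Red b1 b2 w → Cn N (vec b1 b2 u) (vec b1 b2 w))
    {v w : S × S} (hv : Low N v) (hw : Low N w) (h : Cn (N + 1) v w) : Cn N v w := by
  have key : (Low N w → Cn N v w) ∧ (¬ Low N w → ∀ b1 b2 : S × S, IsFr b1 b2 → lev b1 b2 = N →
      OnFr b1 b2 w → ∀ u : ℚ × ℚ, Red b1 b2 u → Cn N v (vec b1 b2 u)) := by
    clear hw
    induction h with
    | refl => exact ⟨fun _ => Cn.refl N v, fun hn => absurd hv hn⟩
    | @tail x y _ hxy ih =>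
      obtain ⟨ih1, ih2⟩ := ih
      rcases hxy with hs | ⟨b1, b2, hB, hl, hx, hy⟩
      · constructor
        · intro hy
          exact (ih1 (hy.sc hs.symm)).trans (Cn.of_Sc hs)
        · intro hy b1 b2 hB hl hon u hu
          exact ih2 (fun hx => hy (hx.sc hs)) b1 b2 hB hl (hon.sc hs.symm) u hu
      · rcases lt_or_eq_of_le (Nat.lt_succ_iff.1 hl) with hlt | heq
        · have lx : Low N x := ⟨b1, b2, hB, hlt, hx⟩
          have ly : Low N y := ⟨b1, b2, hB, hlt, hy⟩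
          refine ⟨fun _ => (ih1 lx).trans (Cn.of_Stp ⟨b1, b2, hB, hlt, hx, hy⟩), fun hn => ?_⟩
          exact absurd ly hn
        · -- level exactly `N`
          have hall : ∀ u : ℚ × ℚ, Red b1 b2 u → Cn N v (vec b1 b2 u) := by
            intro u hu
            by_cases lx : Low N x
            · obtain ⟨u0, hu0, hsc⟩ := hx.exists_vec
              have hr : Red b1 b2 u0 := hlow hB hu0 (by rw [heq]; exact lx.sc hsc.symm)
              exact ((ih1 lx).trans (Cn.of_Sc hsc.symm)).trans (hred b1 b2 hB heq _ _ hr hu)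
            · exact ih2 lx b1 b2 hB heq hx u hu
          constructor
          · intro ly
            obtain ⟨u0, hu0, hsc⟩ := hy.exists_vec
            have hr : Red b1 b2 u0 := hlow hB hu0 (by rw [heq]; exact ly.sc hsc.symm)
            exact (hall u0 hr).trans (Cn.of_Sc hsc)
          · intro ly c1 c2 hC hlC hon u hu
            obtain ⟨u0, hu0⟩ := hex hB (by rw [heq]; exact hN)
            exact (hall u0 hu0).trans (hstar hN hred hB hC heq hlC hy hon ly hu0 hu)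
  exact key.1 hw

/-- scaling steps can be replaced by steps on a frame -/
theorem Conn_of_Cn {v w : S × S} (hv : Low 2 v) (h : Cn 2 v w) : Conn 2 v w := by
  have key : Conn 2 v w ∧ Low 2 w := by
    induction h with
    | refl => exact ⟨Relation.ReflTransGen.refl, hv⟩
    | @tail x y _ hxy ih =>
      obtain ⟨ih1, ih2⟩ := ih
      rcases hxy with hs | hs
      · obtain ⟨c1, c2, h1, h2, h3⟩ := ih2
        exact ⟨ih1.tail ⟨c1, c2, h1, h2, h3, h3.sc hs⟩, ⟨c1, c2, h1, h2, h3.sc hs⟩⟩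
      · refine ⟨ih1.tail hs, ?_⟩
        obtain ⟨c1, c2, h1, h2, h3, h4⟩ := hs
        exact ⟨c1, c2, h1, h2, h4⟩
  exact key.1

/-- pushing down to level two -/
theorem Cn_two_of (hlow : HLowRed) (hex : HExistsRed) (hstar : HStar) (hrc : HRedConn)
    (hno : ∀ N : ℕ, ∀ b1 b2 α β, ¬ Prob N b1 b2 α β) {v w : S × S} (hv : Low 2 v) (hw : Low 2 w) :
    ∀ n : ℕ, Cn (n + 2) v w → Cn 2 v w
  | 0, h => h
  | n + 1, h => by
    refine Cn_two_of hlow hex hstar hrc hno hv hw n ?_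
    refine push_of hlow hex hstar (by omega) ?_ (hv.mono (by omega)) (hw.mono (by omega)) h
    intro b1 b2 hB hl u w hu hw
    exact hrc (hno (n + 2)) hB hl (by omega) hu hw

/-! ### frames of level one -/

theorem C_mem_AS {q : ℚ} (hq : q ∈ AQ) : (C q : S) ∈ AS := by
  obtain ⟨m, rfl⟩ := hq
  exact ⟨(m : R), fin_iota_int m⟩

theorem AQ_of_C_mem_AS {q : ℚ} (h : (C q : S) ∈ AS) : q ∈ AQ := by
  have h1 := mem_AS.1 h 0
  rw [← mul_one (C q : S), LevAux.coeff_C_mul, ← T_zero, LaurentPolynomial.T_apply] at h1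
  simpa using h1

/-- integral frames have level one -/
theorem lev_one_of_int {b1 b2 : S × S} (hB : IsFr b1 b2) (h11 : b1.1 ∈ AS) (h12 : b1.2 ∈ AS)
    (h21 : b2.1 ∈ AS) (h22 : b2.2 ∈ AS) : lev b1 b2 = 1 := by
  refine lev_eq_one_of hB (M0_uni_fr hB) ?_
  rintro m ⟨w, hw, rfl⟩
  obtain ⟨k, hk⟩ := hB
  have hk' : b1.1 * b2.2 - b1.2 * b2.1 = T k := hk
  obtain ⟨h1, h2⟩ := mem_Lat.1 hw
  have e1 : (Polynomial.toLaurent w.1 : S) ∈ AS := by
    have e : (Polynomial.toLaurent w.1 : S) = T (-k) *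
        ((Polynomial.toLaurent w.1 * b1.1 + Polynomial.toLaurent w.2 * b2.1) * b2.2 -
          (Polynomial.toLaurent w.1 * b1.2 + Polynomial.toLaurent w.2 * b2.2) * b2.1) := by
      calc (Polynomial.toLaurent w.1 : S) = (T (-k) * T k) * Polynomial.toLaurent w.1 := by
            rw [T_neg_mul, one_mul]
        _ = _ := by rw [← hk']; ring
    rw [e]
    exact AS.mul_mem (T_mem _) (AS.sub_mem (AS.mul_mem h1 h22) (AS.mul_mem h2 h21))
  have e2 : (Polynomial.toLaurent w.2 : S) ∈ AS := by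
    have e : (Polynomial.toLaurent w.2 : S) = T (-k) *
        ((Polynomial.toLaurent w.1 * b1.2 + Polynomial.toLaurent w.2 * b2.2) * b1.1 -
          (Polynomial.toLaurent w.1 * b1.1 + Polynomial.toLaurent w.2 * b2.1) * b1.2) := by
      calc (Polynomial.toLaurent w.2 : S) = (T (-k) * T k) * Polynomial.toLaurent w.2 := by
            rw [T_neg_mul, one_mul]
        _ = _ := by rw [← hk']; ring
    rw [e]
    exact AS.mul_mem (T_mem _) (AS.sub_mem (AS.mul_mem h2 h11) (AS.mul_mem h1 h12))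
  have q1 : w.1.coeff 0 ∈ AQ := by
    have := mem_AS.1 e1 0
    rw [show (0 : ℤ) = ((0 : ℕ) : ℤ) from rfl, LevAux.coeff_toLaurent_nat] at this
    exact this
  have q2 : w.2.coeff 0 ∈ AQ := by
    have := mem_AS.1 e2 0
    rw [show (0 : ℤ) = ((0 : ℕ) : ℤ) from rfl, LevAux.coeff_toLaurent_nat] at this
    exact this
  change ((C (w.1.coeff 0) : S), (C (w.2.coeff 0) : S)) ∈ Lat b1 b2
  rw [mem_Lat]
  exact ⟨AS.add_mem (AS.mul_mem (C_mem_AS q1) h11) (AS.mul_mem (C_mem_AS q2) h21),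
    AS.add_mem (AS.mul_mem (C_mem_AS q1) h12) (AS.mul_mem (C_mem_AS q2) h22)⟩

/-- integral units -/
theorem int_unit {f h : S} (hf : f ∈ AS) (hh : h ∈ AS) (hfh : f * h = 1) :
    ∃ m : ℤ, f = T m ∨ f = -T m := by
  obtain ⟨β, m, hβ, rfl⟩ := Euc.unit_form (k := 0) (by rw [hfh, T_zero])
  have hβ1 : β ∈ AQ := by
    refine AQ_of_C_mem_AS ?_
    have := AS.mul_mem hf (T_mem (-m))
    rwa [mul_assoc, T_mul_neg, mul_one] at this
  have hβ2 : β⁻¹ ∈ AQ := by
    refine AQ_of_C_mem_AS ?_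
    have h1 : h * T m = C β⁻¹ := by
      calc h * T m = (C β * C β⁻¹) * (h * T m) := by rw [C_ne hβ, one_mul]
        _ = (C β * T m * h) * C β⁻¹ := by ring
        _ = C β⁻¹ := by rw [hfh, one_mul]
    rw [← h1]
    exact AS.mul_mem hh (T_mem m)
  obtain ⟨a, ha⟩ := hβ1
  obtain ⟨b, hb⟩ := hβ2
  have ha' : (a : ℚ) = β := ha
  have hb' : (b : ℚ) = β⁻¹ := hb
  have hab : a * b = 1 := by
    have : (a : ℚ) * b = 1 := by rw [ha', hb', mul_inv_cancel₀ hβ]
    exact_mod_cast this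
  refine ⟨m, ?_⟩
  rcases Int.eq_one_or_neg_one_of_mul_eq_one hab with h | h
  · left
    rw [← ha', h]
    simp
  · right
    rw [← ha', h]
    simp

/-- the first column of an invertible integral matrix is on a frame of level one -/
theorem low_fcol (g : Matrix.GeneralLinearGroup (Fin 2) (LaurentPolynomial ℤ)) :
    ∃ b2 : S × S, IsFr (fcol g) b2 ∧ lev (fcol g) b2 = 1 := by
  have hdet : iota (g.val 0 0) * iota (g.val 1 1) - iota (g.val 1 0) * iota (g.val 0 1)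
      = iota g.val.det := by
    rw [Matrix.det_fin_two, map_sub, map_mul, map_mul]
    ring
  have hunit : iota g.val.det * iota (g⁻¹).val.det = 1 := by
    rw [← map_mul, ← Matrix.det_mul, ← Units.val_mul, mul_inv_cancel, Units.val_one,
      Matrix.det_one, map_one]
  have hm : ∀ i j, iota (g.val i j) ∈ AS := fun i j => ⟨_, rfl⟩
  obtain ⟨m, hm' | hm'⟩ := int_unit ⟨_, rfl⟩ ⟨_, rfl⟩ hunit
  · have hF : IsFr (fcol g) (iota (g.val 0 1), iota (g.val 1 1)) := by
      refine ⟨m, ?_⟩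
      rw [← hm', ← hdet]
      rfl
    exact ⟨_, hF, lev_one_of_int hF (hm 0 0) (hm 1 0) (hm 0 1) (hm 1 1)⟩
  · have hF : IsFr (fcol g) (-iota (g.val 0 1), -iota (g.val 1 1)) := by
      refine ⟨m, ?_⟩
      have : (T m : S) = -iota g.val.det := by rw [hm', neg_neg]
      rw [this, ← hdet]
      simp only [dt, fcol]
      ring
    exact ⟨_, hF, lev_one_of_int hF (hm 0 0) (hm 1 0) (AS.neg_mem (hm 0 1))
      (AS.neg_mem (hm 1 1))⟩

theorem OnFr_self (b1 b2 : S × S) : OnFr b1 b2 b1 :=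
  ⟨0, 1, 0, Or.inl one_ne_zero, by simp⟩

/-- `final` from the other statements -/
theorem final_of (hlow : HLowRed) (hex : HExistsRed) (hstar : HStar) (hne : HLevNe)
    (hstd : HCnStd) (hrc : HRedConn) (hno : ∀ N : ℕ, ∀ b1 b2 α β, ¬ Prob N b1 b2 α β) :
    Subgroup.closure gens = ⊤ := by
  refine closure_top_of (fun b1 b2 hB => hne hB) (fun L hL => M0_uni hL)
    (fun b1 b2 hB hl => Mc_of_lev_eq_one hB hl) ?_
  intro g
  obtain ⟨b2, hF, hl⟩ := low_fcol g
  have hv : Low 2 (fcol g) := ⟨fcol g, b2, hF, by omega, OnFr_self _ _⟩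
  have h0 : Low 2 ((1, 0) : S × S) := by
    obtain ⟨b2', hF', hl'⟩ := low_fcol 1
    have : fcol 1 = ((1, 0) : S × S) := by simp [fcol]
    rw [this] at hF' hl'
    exact ⟨_, b2', hF', by omega, OnFr_self _ _⟩
  obtain ⟨n, hn⟩ := hstd hF (OnFr_self (fcol g) b2)
  exact Conn_of_Cn h0 (Cn_two_of hlow hex hstar hrc hno h0 hv n (hn.mono (by omega)))

end Pool.Agent.GE2
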