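import Pool.Agent.GE2.Finite

/-!
Reducible directions and low lines; frames of the same level through a line which is not low.
-/

set_option autoImplicit false

namespace Pool.Agent.GE2

open LaurentPolynomial

/-! ### changes of coordinates -/

theorem sr_exists_compl {u : ℚ × ℚ} (hu : u ≠ 0) : ∃ u' : ℚ × ℚ, u.1 * u'.2 - u'.1 * u.2 = 1 := by
  by_cases h : u.1 = 0
  · have h2 : u.2 ≠ 0 := fun h2 => hu (Prod.ext h h2)
    refine ⟨(-(u.2)⁻¹, 0), ?_⟩
    simp only [h]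
    field_simp
    ring
  · refine ⟨(0, (u.1)⁻¹), ?_⟩
    simp only
    field_simp
    ring

theorem sr_Red_gen {b1 b2 : S × S} (hB : IsFr b1 b2) {a b c d : ℚ} (h : a * d - b * c = 1)
    (m : ℚ × ℚ) : Red (vec b1 b2 (a, c)) (vec b1 b2 (b, d)) m ↔
      Red b1 b2 (a * m.1 + b * m.2, c * m.1 + d * m.2) := by
  unfold Red
  apply exists_congr
  intro q
  rw [mem_M0_gen hB h, mem_Mi_gen hB h, mem_Mc_gen]
  have e : (a * (q • m).1 + b * (q • m).2, c * (q • m).1 + d * (q • m).2)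
      = q • (a * m.1 + b * m.2, c * m.1 + d * m.2) := by
    ext
    · simp only [Prod.smul_fst, Prod.smul_snd, smul_eq_mul]; ring
    · simp only [Prod.smul_fst, Prod.smul_snd, smul_eq_mul]; ring
  rw [e]

theorem sr_vec_gen (b1 b2 : S × S) (a b c d : ℚ) (m : ℚ × ℚ) :
    vec (vec b1 b2 (a, c)) (vec b1 b2 (b, d)) m =
      vec b1 b2 (a * m.1 + b * m.2, c * m.1 + d * m.2) := by
  simp only [vec, map_add, map_mul, smul_add, smul_smul, add_smul]
  have e1 : (C m.1 : S) * C a = C a * C m.1 := mul_comm _ _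
  have e2 : (C m.1 : S) * C c = C c * C m.1 := mul_comm _ _
  have e3 : (C m.2 : S) * C b = C b * C m.2 := mul_comm _ _
  have e4 : (C m.2 : S) * C d = C d * C m.2 := mul_comm _ _
  rw [e1, e2, e3, e4]
  abel

theorem sr_Red_shift (b1 b2 : S × S) (i : ℤ) (m : ℚ × ℚ) :
    Red ((T i : S) • b1) ((T i : S) • b2) m ↔ Red b1 b2 m := by
  unfold Red
  rw [Lat_shift]

theorem sr_vec_shift (b1 b2 : S × S) (i : ℤ) (m : ℚ × ℚ) :
    vec ((T i : S) • b1) ((T i : S) • b2) m = (T i : S) • vec b1 b2 m := by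
  simp only [vec, smul_add, smul_smul]
  rw [mul_comm (C m.1 : S), mul_comm (C m.2 : S)]

/-- a frame through `v` may be taken with first vector `v` -/
theorem OnFr.sr_through {b1 b2 v : S × S} (hv : OnFr b1 b2 v) :
    ∃ (i : ℤ) (a b c d : ℚ), a * d - b * c = 1 ∧ v = (T i : S) • vec b1 b2 (a, c) := by
  obtain ⟨i, x, y, hxy, rfl⟩ := hv
  have hu : ((x, y) : ℚ × ℚ) ≠ 0 := by
    intro h0
    rw [Prod.mk_eq_zero] at h0
    rcases hxy with h | h
    · exact h h0.1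
    · exact h h0.2
  obtain ⟨u', hu'⟩ := sr_exists_compl hu
  refine ⟨i, x, u'.1, y, u'.2, hu', ?_⟩
  simp only [vec, smul_add, smul_smul]

theorem sr_fr_gen {b1 b2 : S × S} (hB : IsFr b1 b2) {a b c d : ℚ} (h : a * d - b * c = 1) (i : ℤ) :
    IsFr ((T i : S) • vec b1 b2 (a, c)) ((T i : S) • vec b1 b2 (b, d)) :=
  IsFr.shift (hB.sl2 h) i

theorem sr_lev_gen (b1 b2 : S × S) {a b c d : ℚ} (h : a * d - b * c = 1) (i : ℤ) :
    lev ((T i : S) • vec b1 b2 (a, c)) ((T i : S) • vec b1 b2 (b, d)) = lev b1 b2 := by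
  rw [lev_shift]
  exact lev_sl2 b1 b2 a b c d h

/-! ### low lines -/

theorem Low.sr_sc {N : ℕ} {v w : S × S} (h : Low N v) (hs : Sc v w) : Low N w := by
  obtain ⟨c1, c2, h1, h2, h3⟩ := h
  exact ⟨c1, c2, h1, h2, h3.sc hs⟩

theorem low_red {b1 b2 : S × S} (hB : IsFr b1 b2) {u : ℚ × ℚ} (hu : u ≠ 0)
    (h : Low (lev b1 b2) (vec b1 b2 u)) : Red b1 b2 u := by
  by_contra hnr
  obtain ⟨c1, c2, hC, hlt, hon⟩ := h
  obtain ⟨u', hu'⟩ := sr_exists_compl hu
  obtain ⟨i, a, b, c, d, had, hv⟩ := hon.sr_through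
  have hB' : IsFr (vec b1 b2 u) (vec b1 b2 u') := hB.sl2 hu'
  have hlB : lev (vec b1 b2 u) (vec b1 b2 u') = lev b1 b2 := lev_sl2 b1 b2 _ _ _ _ hu'
  have hC' := sr_fr_gen hC had i
  have hlC := sr_lev_gen c1 c2 had i
  rw [← hv] at hC' hlC
  have hnr' : ¬ Red (vec b1 b2 u) (vec b1 b2 u') (1, 0) := by
    intro hr
    apply hnr
    have := (sr_Red_gen (a := u.1) (b := u'.1) (c := u.2) (d := u'.2) hB hu' (1, 0)).1 hr
    simpa using this
  have hq : ∀ q : ℚ, (q • ((1 : ℚ), (0 : ℚ))) = (q, 0) := by intro q; ext <;> simp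
  have := lev_le (fun L hL => gauss hL) hB' hC' (by rw [hlC]; exact lev_ne_zero hC)
    (fun q h0 => by
      by_contra hc
      exact hnr' ⟨q, by rw [hq]; exact Or.inl h0, by rw [hq]; exact hc⟩)
    (fun q h0 => by
      by_contra hc
      exact hnr' ⟨q, by rw [hq]; exact Or.inr h0, by rw [hq]; exact hc⟩)
  rw [hlB, hlC] at this
  omega

theorem Cn.sr_sc_or_low {n : ℕ} {v w : S × S} (h : Cn n v w) : Sc v w ∨ Low n v := by
  induction h using Relation.ReflTransGen.head_induction_on with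
  | refl => exact Or.inl ⟨0, 1, one_ne_zero, by simp⟩
  | head hab _ ih =>
    rcases hab with hab | hab
    · rcases ih with h | h
      · exact Or.inl (hab.trans h)
      · exact Or.inr (h.sr_sc hab.symm)
    · obtain ⟨b1, b2, h1, h2, h3, -⟩ := hab
      exact Or.inr ⟨b1, b2, h1, h2, h3⟩

theorem sr_dt_of_Sc {b1 b2 : S × S} (hB : IsFr b1 b2) {u w : ℚ × ℚ}
    (h : Sc (vec b1 b2 u) (vec b1 b2 w)) : dt u w = 0 := by
  obtain ⟨i, q, hq, h⟩ := h
  obtain ⟨k, hk⟩ := hB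
  have e1 : dt (vec b1 b2 u) (vec b1 b2 w) = C (dt u w) * dt b1 b2 := by
    simp only [vec, dt, Prod.fst_add, Prod.snd_add, Prod.smul_fst, Prod.smul_snd, smul_eq_mul,
      map_sub, map_mul]
    ring
  have e2 : dt (vec b1 b2 u) (vec b1 b2 w) = 0 := by
    rw [h]
    simp only [dt, Prod.smul_fst, Prod.smul_snd, smul_eq_mul]
    ring
  rw [e2, hk] at e1
  have e3 : (C (dt u w) : S) = 0 := by
    have : (C (dt u w) : S) * (T k * T (-k)) = 0 := by rw [← mul_assoc, ← e1, zero_mul]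
    rwa [T_mul_neg, mul_one] at this
  by_contra hq0
  have e4 := C_ne hq0
  rw [e3, zero_mul] at e4
  exact zero_ne_one e4

theorem sr_Mc_sub_mem {b1 b2 : S × S} {m m' : ℚ × ℚ} (h : m ∈ Mc (Lat b1 b2 : Set (S × S)))
    (h' : m' ∈ Mc (Lat b1 b2 : Set (S × S))) : m - m' ∈ Mc (Lat b1 b2 : Set (S × S)) := by
  have := (Lat b1 b2).sub_mem h h'
  change ((C (m.1 - m'.1) : S), (C (m.2 - m'.2) : S)) ∈ Lat b1 b2
  rw [map_sub, map_sub]
  exact this

theorem sr_exists_red_aux {b1 b2 : S × S} {M : Set (ℚ × ℚ)} (hM : Uni AQ M) {u : ℚ × ℚ}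
    (hu : u ∈ M) (hc : u ∉ Mc (Lat b1 b2 : Set (S × S))) :
    ∃ w ∈ M, w ∉ Mc (Lat b1 b2 : Set (S × S)) ∧ dt u w ≠ 0 := by
  have hu0 : u ≠ 0 := by
    rintro rfl
    apply hc
    change ((C (0 : ℚ × ℚ).1 : S), (C (0 : ℚ × ℚ).2 : S)) ∈ Lat b1 b2
    simp only [Prod.fst_zero, Prod.snd_zero, map_zero]
    exact (Lat b1 b2).zero_mem
  obtain ⟨x, hx, y, hy, hxy⟩ := hM.exists_basis
  obtain ⟨e, he, hd⟩ : ∃ e ∈ M, dt u e ≠ 0 := by
    by_cases h1 : dt u x = 0
    · refine ⟨y, hy, fun h2 => hu0 ?_⟩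
      have := dt_decomp x y u hxy
      rw [h2, dt_swap, h1, neg_zero, zero_smul, zero_smul, add_zero] at this
      exact this
    · exact ⟨x, hx, h1⟩
  by_cases h1 : e ∈ Mc (Lat b1 b2 : Set (S × S))
  · refine ⟨e + u, hM.add_mem he hu, fun h2 => hc ?_, ?_⟩
    · have := sr_Mc_sub_mem h2 h1
      rwa [add_sub_cancel_left] at this
    · rw [dt_add_right, fdt_self, add_zero]; exact hd
  · exact ⟨e, he, h1, hd⟩

theorem red_low {b1 b2 : S × S} (hB : IsFr b1 b2)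
    (hred : ∀ u w : ℚ × ℚ, Red b1 b2 u → Red b1 b2 w → Cn (lev b1 b2) (vec b1 b2 u) (vec b1 b2 w))
    {u : ℚ × ℚ} (hu : Red b1 b2 u) : Low (lev b1 b2) (vec b1 b2 u) := by
  have hw : ∃ w : ℚ × ℚ, Red b1 b2 w ∧ dt u w ≠ 0 := by
    obtain ⟨q, h1 | h1, h2⟩ := hu
    · obtain ⟨w, hw, hc, hd⟩ := sr_exists_red_aux (M0_uni_fr hB) h1 h2
      refine ⟨w, ⟨1, Or.inl (by rwa [one_smul]), by rwa [one_smul]⟩, fun h0 => hd ?_⟩
      rw [dt_smul_left, h0, mul_zero]
    · obtain ⟨w, hw, hc, hd⟩ := sr_exists_red_aux (Mi_uni_fr hB) h1 h2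
      refine ⟨w, ⟨1, Or.inr (by rwa [one_smul]), by rwa [one_smul]⟩, fun h0 => hd ?_⟩
      rw [dt_smul_left, h0, mul_zero]
  obtain ⟨w, hw, hd⟩ := hw
  rcases (hred u w hu hw).sr_sc_or_low with h | h
  · exact absurd (sr_dt_of_Sc hB h) hd
  · exact h

theorem exists_red {b1 b2 : S × S} (hB : IsFr b1 b2) (h2 : 2 ≤ lev b1 b2) :
    ∃ u : ℚ × ℚ, Red b1 b2 u := by
  by_contra hno
  have := lev_eq_one_of hB (M0_uni_fr hB) (fun m hm => by
    by_contra hc
    exact hno ⟨m, 1, Or.inl (by rwa [one_smul]), by rwa [one_smul]⟩)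
  omega

/-! ### frames of the same level through a line which is not low -/

/-- all reducible lines of two frames are connected -/
def SrSim (N : ℕ) (b1 b2 c1 c2 : S × S) : Prop :=
  ∀ u w : ℚ × ℚ, Red b1 b2 u → Red c1 c2 w → Cn N (vec b1 b2 u) (vec c1 c2 w)

/-- connectivity of reducible lines of all frames of level `N` -/
def SrHRed (N : ℕ) : Prop := ∀ b1 b2 : S × S, IsFr b1 b2 → lev b1 b2 = N →
  ∀ u w : ℚ × ℚ, Red b1 b2 u → Red b1 b2 w → Cn N (vec b1 b2 u) (vec b1 b2 w)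

theorem SrSim.symm {N : ℕ} {b1 b2 c1 c2 : S × S} (h : SrSim N b1 b2 c1 c2) : SrSim N c1 c2 b1 b2 :=
  fun u w hu hw => (h w u hw hu).symm

theorem SrSim.trans {N : ℕ} (hN : 2 ≤ N) {b1 b2 c1 c2 d1 d2 : S × S} (hC : IsFr c1 c2)
    (hl : lev c1 c2 = N) (h1 : SrSim N b1 b2 c1 c2) (h2 : SrSim N c1 c2 d1 d2) :
    SrSim N b1 b2 d1 d2 := by
  intro u w hu hw
  obtain ⟨x, hx⟩ := exists_red hC (by rw [hl]; exact hN)
  exact (h1 u x hu hx).trans (h2 x w hx hw)

/-- a frame in different coordinates -/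
theorem SrSim_coord {N : ℕ} (hred : SrHRed N) {b1 b2 : S × S} (hB : IsFr b1 b2) (hl : lev b1 b2 = N)
    {a b c d : ℚ} (h : a * d - b * c = 1) (i : ℤ) :
    SrSim N b1 b2 ((T i : S) • vec b1 b2 (a, c)) ((T i : S) • vec b1 b2 (b, d)) := by
  intro u w hu hw
  rw [sr_Red_shift, sr_Red_gen hB h] at hw
  rw [sr_vec_shift, sr_vec_gen]
  exact (hred b1 b2 hB hl u _ hu hw).trans (Cn.of_Sc (Sc_T _ i))

theorem SrSim_shear {N : ℕ} (hred : SrHRed N) {v b2 : S × S} (hB : IsFr v b2) (hl : lev v b2 = N)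
    (x : ℚ) : SrSim N v b2 v (b2 + (C x : S) • v) := by
  have h : (1 : ℚ) * 1 - x * 0 = 1 := by norm_num
  have := SrSim_coord hred hB hl h 0
  rw [T_zero, one_smul, one_smul, vec_one, vec_shear] at this
  exact this

theorem sr_mem_Mc_q0 {v b2 : S × S} {q : ℚ} :
    ((q, 0) : ℚ × ℚ) ∈ Mc (Lat v b2 : Set (S × S)) ↔ C q * v.1 ∈ AS ∧ C q * v.2 ∈ AS := by
  change ((C q : S), (C 0 : S)) ∈ Lat v b2 ↔ _
  rw [mem_Lat]
  simp only [map_zero, zero_mul, add_zero]

theorem sr_q_smul_ten (q : ℚ) : (q • ((1 : ℚ), (0 : ℚ))) = (q, 0) := by ext <;> simp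

/-- a vector which is normalised and not low -/
structure SrCtx (N : ℕ) (v : S × S) : Prop where
  hN : 2 ≤ N
  hred : SrHRed N
  nl : ¬ Low N v
  int1 : v.1 ∈ AS
  int2 : v.2 ∈ AS
  prim : ∀ q : ℚ, C q * v.1 ∈ AS → C q * v.2 ∈ AS → q ∈ AQ

theorem sr_not_red {N : ℕ} (hred : SrHRed N) {v b2 : S × S} (hB : IsFr v b2)
    (hl : lev v b2 = N) (hv : ¬ Low N v) : ¬ Red v b2 (1, 0) := by
  intro hr
  apply hv
  have := red_low hB (fun u w hu hw => by rw [hl]; exact hred v b2 hB hl u w hu hw) hr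
  rwa [vec_one, hl] at this

section
variable {N : ℕ} {v : S × S}

theorem SrCtx.mc (h : SrCtx N v) (b2 : S × S) : ((1, 0) : ℚ × ℚ) ∈ Mc (Lat v b2 : Set (S × S)) := by
  rw [sr_mem_Mc_q0]
  simp only [map_one, one_mul]
  exact ⟨h.int1, h.int2⟩

theorem SrCtx.prm0 (h : SrCtx N v) {b2 : S × S} (hB : IsFr v b2) (hl : lev v b2 = N) :
    Prm (M0 (Lat v b2 : Set (S × S))) (1, 0) := by
  refine ⟨Mc_sub_M0 (h.mc b2), fun q hq => ?_⟩
  rw [sr_q_smul_ten] at hq
  have hc : ((q, 0) : ℚ × ℚ) ∈ Mc (Lat v b2 : Set (S × S)) := by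
    by_contra hc
    exact sr_not_red h.hred hB hl h.nl
      ⟨q, by rw [sr_q_smul_ten]; exact Or.inl hq, by rw [sr_q_smul_ten]; exact hc⟩
  rw [sr_mem_Mc_q0] at hc
  exact h.prim q hc.1 hc.2

theorem SrCtx.prmi (h : SrCtx N v) {b2 : S × S} (hB : IsFr v b2) (hl : lev v b2 = N) :
    Prm (Mi (Lat v b2 : Set (S × S))) (1, 0) := by
  refine ⟨Mc_sub_Mi (h.mc b2), fun q hq => ?_⟩
  rw [sr_q_smul_ten] at hq
  have hc : ((q, 0) : ℚ × ℚ) ∈ Mc (Lat v b2 : Set (S × S)) := by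
    by_contra hc
    exact sr_not_red h.hred hB hl h.nl
      ⟨q, by rw [sr_q_smul_ten]; exact Or.inr hq, by rw [sr_q_smul_ten]; exact hc⟩
  rw [sr_mem_Mc_q0] at hc
  exact h.prim q hc.1 hc.2

theorem sr_C_mem_AS {q : ℚ} (h : q ∈ AQ) : (C q : S) ∈ AS := by
  obtain ⟨n, rfl⟩ := h
  refine ⟨C n, ?_⟩
  change AddMonoidAlgebra.mapRingHom ℤ (Int.castRingHom ℚ) (AddMonoidAlgebra.single 0 n)
    = AddMonoidAlgebra.single 0 ((Int.castRingHom ℚ) n)
  rw [AddMonoidAlgebra.mapRingHom_single]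

theorem SrCtx.not_mc (h : SrCtx N v) {b2 : S × S} (hB : IsFr v b2) (hl : lev v b2 = N) :
    ((0, 1) : ℚ × ℚ) ∉ Mc (Lat v b2 : Set (S × S)) := by
  intro hc
  have h1 := h.mc b2
  have hone := lev_eq_one_of hB (M0_uni_fr hB) (fun m hm => by
    have hm' := (coord_int (M0_uni_fr hB) (Mc_sub_M0 h1) (Mc_sub_M0 hc)).1 hm
    have := (Lat_uni hB).comb_mem h1 hc (sr_C_mem_AS hm'.1) (sr_C_mem_AS hm'.2)
    change ((C m.1 : S), (C m.2 : S)) ∈ Lat v b2
    simpa using this)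
  have := h.hN
  omega

/-- two frames sharing a reducible line -/
theorem SrCtx.share (h : SrCtx N v) {b2 : S × S} (hB : IsFr v b2) (hl : lev v b2 = N) {i : ℤ}
    (hl' : lev v ((T i : S) • b2) = N)
    (h01 : ((0, 1) : ℚ × ℚ) ∈ M0 (Lat v b2 : Set (S × S)) ∨
      ((0, 1) : ℚ × ℚ) ∈ Mi (Lat v b2 : Set (S × S))) : SrSim N v b2 v ((T i : S) • b2) := by
  have r1 : Red v b2 (0, 1) := ⟨1, by rwa [one_smul], by rw [one_smul]; exact h.not_mc hB hl⟩
  have l1 := red_low hB (fun u w hu hw => by rw [hl]; exact h.hred v b2 hB hl u w hu hw) r1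
  rw [vec_two, hl] at l1
  have r2 : Red v ((T i : S) • b2) (0, 1) := by
    apply low_red (hB.right i)
    · intro h0; simp at h0
    · rw [vec_two, hl']; exact l1.sr_sc (Sc_T b2 i)
  intro u w hu hw
  have e1 := h.hred v b2 hB hl u (0, 1) hu r1
  have e2 := h.hred v _ (hB.right i) hl' (0, 1) w r2 hw
  rw [vec_two] at e1 e2
  exact e1.trans ((Cn.of_Sc (Sc_T b2 i)).trans e2)

/-- right move -/
theorem SrCtx.tm (h : SrCtx N v) {b2 : S × S} (hB : IsFr v b2) (hl : lev v b2 = N)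
    (h01 : ((0, 1) : ℚ × ℚ) ∈ Mi (Lat v b2 : Set (S × S))) :
    lev v ((T 1 : S) • b2) = N ∧ SrSim N v b2 v ((T 1 : S) • b2) := by
  have hd : dt ((1 : ℚ), (0 : ℚ)) ((0 : ℚ), (1 : ℚ)) = 1 := by simp [dt]
  have hl' : lev v ((T 1 : S) • b2) = N := by
    have := (lev_edge hB (lev_ne_zero hB) (h.prm0 hB hl)
      (prm_of_dt (Mi_uni_fr hB) (h.prmi hB hl).1 h01 hd) (by rw [hd]; exact one_ne_zero)).2
    rw [hd, inv_one, one_smul, vec_one, vec_two, abs_one, mul_one, hl] at this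
    exact_mod_cast this
  exact ⟨hl', h.share hB hl hl' (Or.inr h01)⟩

/-- left move -/
theorem SrCtx.tm' (h : SrCtx N v) {b2 : S × S} (hB : IsFr v b2) (hl : lev v b2 = N)
    (h01 : ((0, 1) : ℚ × ℚ) ∈ M0 (Lat v b2 : Set (S × S))) :
    lev v ((T (-1) : S) • b2) = N ∧ SrSim N v b2 v ((T (-1) : S) • b2) := by
  have hd : dt ((1 : ℚ), (0 : ℚ)) ((0 : ℚ), (1 : ℚ)) = 1 := by simp [dt]
  have hd' : dt ((0 : ℚ), (1 : ℚ)) ((1 : ℚ), (0 : ℚ)) = -1 := by simp [dt]
  have hl' : lev v ((T (-1) : S) • b2) = N := by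
    have := (lev_edge hB (lev_ne_zero hB)
      (prm_of_dt (M0_uni_fr hB) (h.prm0 hB hl).1 h01 hd) (h.prmi hB hl)
      (by rw [hd']; norm_num)).2
    have e1 : ((-1 : ℚ)⁻¹ • ((1 : ℚ), (0 : ℚ))) = -((1 : ℚ), (0 : ℚ)) := by
      ext <;> norm_num
    have e2 : (T 1 : S) • vec v b2 (-((1 : ℚ), (0 : ℚ))) = -((T 1 : S) • v) := by
      simp [vec]
    have e3 : b2 = (T 1 : S) • ((T (-1) : S) • b2) := by
      rw [smul_smul, T_mul_neg, one_smul]
    rw [hd', e1, e2, vec_two, abs_neg, abs_one, mul_one, hl, lev_swap, e3, lev_shift] at this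
    exact_mod_cast this
  exact ⟨hl', h.share hB hl hl' (Or.inl h01)⟩

/-- values at zero do not change under a polynomial shear vanishing at zero -/
theorem sr_M0_poly_shear {v b2 : S × S} (p : Polynomial ℚ) {m : ℚ × ℚ}
    (hm : m ∈ M0 (Lat v b2 : Set (S × S))) :
    m ∈ M0 (Lat v (b2 + (T 1 * Polynomial.toLaurent p : S) • v) : Set (S × S)) := by
  obtain ⟨w, hw, rfl⟩ := hm
  refine ⟨(w.1 - Polynomial.X * p * w.2, w.2), ?_, ?_⟩
  · change ((Polynomial.toLaurent (w.1 - Polynomial.X * p * w.2) : S),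
      (Polynomial.toLaurent w.2 : S)) ∈ Lat v _
    have hw' : ((Polynomial.toLaurent w.1 : S), (Polynomial.toLaurent w.2 : S)) ∈ Lat v b2 := hw
    rw [mem_Lat] at hw' ⊢
    have e1 : (Polynomial.toLaurent (w.1 - Polynomial.X * p * w.2) : S) * v.1
        + Polynomial.toLaurent w.2 * (b2 + (T 1 * Polynomial.toLaurent p : S) • v).1
        = Polynomial.toLaurent w.1 * v.1 + Polynomial.toLaurent w.2 * b2.1 := by
      simp only [map_sub, map_mul, Polynomial.toLaurent_X, Prod.fst_add, Prod.smul_fst,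
        smul_eq_mul]
      ring
    have e2 : (Polynomial.toLaurent (w.1 - Polynomial.X * p * w.2) : S) * v.2
        + Polynomial.toLaurent w.2 * (b2 + (T 1 * Polynomial.toLaurent p : S) • v).2
        = Polynomial.toLaurent w.1 * v.2 + Polynomial.toLaurent w.2 * b2.2 := by
      simp only [map_sub, map_mul, Polynomial.toLaurent_X, Prod.snd_add, Prod.smul_snd,
        smul_eq_mul]
      ring
    simp only [e1, e2]
    exact hw'
  · ext
    · simp [Polynomial.mul_coeff_zero]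
    · rfl

theorem IsFr.sr_fshear {v b2 : S × S} (hB : IsFr v b2) (f : S) : IsFr v (b2 + f • v) := by
  obtain ⟨k, hk⟩ := hB
  refine ⟨k, ?_⟩
  rw [← hk]
  simp only [dt, Prod.fst_add, Prod.snd_add, Prod.smul_fst, Prod.smul_snd, smul_eq_mul]; ring

theorem SrCtx.exists_left (h : SrCtx N v) {b2 : S × S} (hB : IsFr v b2) (hl : lev v b2 = N) :
    ∃ x : ℚ, ((x, 1) : ℚ × ℚ) ∈ M0 (Lat v b2 : Set (S × S)) := by
  obtain ⟨e, he, hd⟩ := prm_compl (M0_uni_fr hB) (h.prm0 hB hl)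
  refine ⟨e.1, ?_⟩
  have e2 : e.2 = 1 := by simpa [dt] using hd
  rw [← e2]
  exact he

theorem SrCtx.exists_right (h : SrCtx N v) {b2 : S × S} (hB : IsFr v b2) (hl : lev v b2 = N) :
    ∃ x : ℚ, ((x, 1) : ℚ × ℚ) ∈ Mi (Lat v b2 : Set (S × S)) := by
  obtain ⟨e, he, hd⟩ := prm_compl (Mi_uni_fr hB) (h.prmi hB hl)
  refine ⟨e.1, ?_⟩
  have e2 : e.2 = 1 := by simpa [dt] using hd
  rw [← e2]
  exact he

theorem sr_toL_split (p : Polynomial ℚ) : (Polynomial.toLaurent p : S)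
    = T 1 * Polynomial.toLaurent p.divX + C (p.coeff 0) := by
  conv_lhs => rw [← Polynomial.divX_mul_X_add p]
  rw [map_add, map_mul, Polynomial.toLaurent_X, Polynomial.toLaurent_C, mul_comm]

theorem SrCtx.S1 (h : SrCtx N v) : ∀ (n : ℕ) (p : Polynomial ℚ), p.degree < n → ∀ b2 : S × S,
    IsFr v b2 → lev v b2 = N → lev v (b2 + (T 1 * Polynomial.toLaurent p : S) • v) = N →
    SrSim N v b2 v (b2 + (T 1 * Polynomial.toLaurent p : S) • v) := by
  intro n
  induction n with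
  | zero =>
    intro p hp b2 hB hl _
    have : p = 0 := by
      rw [← Polynomial.degree_eq_bot]
      exact Nat.WithBot.lt_zero_iff.1 (by simpa using hp)
    subst this
    rw [map_zero, mul_zero, zero_smul, add_zero]
    exact h.hred v b2 hB hl
  | succ n ih =>
    intro p hp b2 hB hl hl2
    set f : S := T 1 * Polynomial.toLaurent p with hf
    have hC : IsFr v (b2 + f • v) := hB.sr_fshear f
    obtain ⟨x, hx⟩ := h.exists_left hB hl
    have hx' : ((x, 1) : ℚ × ℚ) ∈ M0 (Lat v (b2 + f • v) : Set (S × S)) := sr_M0_poly_shear p hx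
    have hB' := hB.shear x
    have hC' := hC.shear x
    have lB' : lev v (b2 + (C x : S) • v) = N := by rw [lev_shear, hl]
    have lC' : lev v (b2 + f • v + (C x : S) • v) = N := by rw [lev_shear, hl2]
    have s1 := SrSim_shear h.hred hB hl x
    have s2 := SrSim_shear h.hred hC hl2 x
    obtain ⟨l3, s3⟩ := h.tm' hB' lB' (by rw [mem_M0_shear hB]; simpa using hx)
    obtain ⟨l4, s4⟩ := h.tm' hC' lC' (by rw [mem_M0_shear hC]; simpa using hx')
    set c2 : S × S := (T (-1) : S) • (b2 + (C x : S) • v) with hc2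
    have hc2f : IsFr v c2 := hB'.right (-1)
    set d2 : S × S := c2 + (T 1 * Polynomial.toLaurent p.divX : S) • v with hd2
    have hd2f : IsFr v d2 := hc2f.sr_fshear _
    have e : (T (-1) : S) • (b2 + f • v + (C x : S) • v) = d2 + (C (p.coeff 0) : S) • v := by
      have e1 : (T (-1) : S) * f = T 1 * Polynomial.toLaurent p.divX + C (p.coeff 0) := by
        rw [hf, ← mul_assoc, T_neg_mul, one_mul, sr_toL_split p]
      have e2 : (T (-1) : S) • (b2 + f • v + (C x : S) • v)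
          = c2 + ((T (-1) : S) * f) • v := by
        rw [hc2, smul_add, smul_add, smul_add, smul_smul, smul_smul]
        abel
      rw [e2, e1, hd2, add_smul, add_assoc]
    rw [e] at l4 s4
    have l5 : lev v d2 = N := by rwa [lev_shear] at l4
    have s5 := SrSim_shear h.hred hd2f l5 (p.coeff 0)
    have s6 : SrSim N v c2 v d2 := by
      by_cases hp0 : p = 0
      · have : d2 = c2 := by
          rw [hd2, hp0, Polynomial.divX_zero, map_zero, mul_zero, zero_smul, add_zero]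
        rw [this]
        exact h.hred v c2 hc2f l3
      · apply ih p.divX ?_ c2 hc2f l3 l5
        have h1 := Polynomial.degree_divX_lt hp0
        rw [Polynomial.degree_eq_natDegree hp0] at h1 hp
        have h2 : p.natDegree < n + 1 := by exact_mod_cast hp
        have h3 : ((p.natDegree : ℕ) : WithBot ℕ) ≤ n := by exact_mod_cast Nat.le_of_lt_succ h2
        exact lt_of_lt_of_le h1 h3
    have t1 := SrSim.trans h.hN hB' lB' s1 s3
    have t2 := SrSim.trans h.hN hc2f l3 t1 s6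
    have t3 := SrSim.trans h.hN hd2f l5 t2 s5
    have t4 := SrSim.trans h.hN (hd2f.shear _) l4 t3 s4.symm
    exact SrSim.trans h.hN hC' lC' t4 s2.symm

theorem SrCtx.S2 (h : SrCtx N v) : ∀ (n : ℕ) (p : Polynomial ℚ) (b2 : S × S),
    IsFr v b2 → lev v b2 = N → lev v (b2 + (T (-(n : ℤ)) * Polynomial.toLaurent p : S) • v) = N →
    SrSim N v b2 v (b2 + (T (-(n : ℤ)) * Polynomial.toLaurent p : S) • v) := by
  intro n
  induction n with
  | zero =>
    intro p b2 hB hl hl2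
    have e : b2 + (T (-((0 : ℕ) : ℤ)) * Polynomial.toLaurent p : S) • v
        = b2 + (T 1 * Polynomial.toLaurent p.divX : S) • v + (C (p.coeff 0) : S) • v := by
      rw [Nat.cast_zero, neg_zero, T_zero, one_mul, sr_toL_split p, add_smul, add_assoc]
    rw [e] at hl2 ⊢
    rw [lev_shear] at hl2
    have hf := hB.sr_fshear (T 1 * Polynomial.toLaurent p.divX)
    have s1 := h.S1 (p.divX.natDegree + 1) p.divX
      (lt_of_le_of_lt Polynomial.degree_le_natDegree (by exact_mod_cast Nat.lt_succ_self _))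
      b2 hB hl hl2
    exact SrSim.trans h.hN hf hl2 s1 (SrSim_shear h.hred hf hl2 _)
  | succ n ih =>
    intro p b2 hB hl hl2
    set f : S := T (-((n + 1 : ℕ) : ℤ)) * Polynomial.toLaurent p with hf
    have hC : IsFr v (b2 + f • v) := hB.sr_fshear f
    obtain ⟨x, hx⟩ := h.exists_right hB hl
    obtain ⟨y, hy⟩ := h.exists_right hC hl2
    have hB' := hB.shear x
    have hC' := hC.shear y
    have lB' : lev v (b2 + (C x : S) • v) = N := by rw [lev_shear, hl]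
    have lC' : lev v (b2 + f • v + (C y : S) • v) = N := by rw [lev_shear, hl2]
    have s1 := SrSim_shear h.hred hB hl x
    have s2 := SrSim_shear h.hred hC hl2 y
    obtain ⟨l3, s3⟩ := h.tm hB' lB' (by rw [mem_Mi_shear hB]; simpa using hx)
    obtain ⟨l4, s4⟩ := h.tm hC' lC' (by rw [mem_Mi_shear hC]; simpa using hy)
    set c2 : S × S := (T 1 : S) • (b2 + (C x : S) • v) with hc2
    have hc2f : IsFr v c2 := hB'.right 1
    have e : (T 1 : S) • (b2 + f • v + (C y : S) • v)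
        = c2 + (T (-(n : ℤ)) * Polynomial.toLaurent
          (p + Polynomial.C (y - x) * Polynomial.X ^ (n + 1)) : S) • v := by
      have e1 : (T (-(n : ℤ)) * Polynomial.toLaurent
          (p + Polynomial.C (y - x) * Polynomial.X ^ (n + 1)) : S)
          = T 1 * f + T 1 * C y - T 1 * C x := by
        rw [hf, map_add, map_mul, Polynomial.toLaurent_C, Polynomial.toLaurent_X_pow, mul_add,
          ← mul_assoc (T 1), T_mul_T, map_sub]
        have e3 : (1 : ℤ) + -((n + 1 : ℕ) : ℤ) = -(n : ℤ) := by push_cast; ring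
        have e4 : (T (-(n : ℤ)) : S) * ((C y - C x) * T ((n + 1 : ℕ) : ℤ))
            = (T (-(n : ℤ)) * T ((n + 1 : ℕ) : ℤ)) * (C y - C x) := by ring
        have e5 : -(n : ℤ) + ((n + 1 : ℕ) : ℤ) = 1 := by push_cast; ring
        rw [e3, e4, T_mul_T, e5]
        ring
      rw [e1, hc2, sub_smul, add_smul, smul_add, smul_add, smul_add, smul_smul, smul_smul,
        smul_smul]
      abel
    rw [e] at l4 s4
    have s6 := ih _ c2 hc2f l3 l4
    have t1 := SrSim.trans h.hN hB' lB' s1 s3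
    have t2 := SrSim.trans h.hN hc2f l3 t1 s6
    have t3 := SrSim.trans h.hN (hc2f.sr_fshear _) l4 t2 s4.symm
    exact SrSim.trans h.hN hC' lC' t3 s2.symm

/-- frames whose determinants differ by `T n` -/
theorem SrCtx.S3 (h : SrCtx N v) : ∀ (n : ℕ) (b2 c2 : S × S), IsFr v b2 → lev v b2 = N →
    IsFr v c2 → lev v c2 = N → dt v c2 = T (n : ℤ) * dt v b2 → SrSim N v b2 v c2 := by
  intro n
  induction n with
  | zero =>
    intro b2 c2 hB hl hC hl2 hd
    rw [Nat.cast_zero, T_zero, one_mul] at hd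
    obtain ⟨k, hk⟩ := hB
    -- c2 - b2 is a multiple of v
    obtain ⟨f, hf⟩ : ∃ f : S, c2 = b2 + f • v := by
      refine ⟨T (-k) * dt (c2 - b2) b2, ?_⟩
      have hd0 : v.1 * (c2.2 - b2.2) - v.2 * (c2.1 - b2.1) = 0 := by
        have : v.1 * c2.2 - v.2 * c2.1 = v.1 * b2.2 - v.2 * b2.1 := hd
        linear_combination this
      have hk' : v.1 * b2.2 - v.2 * b2.1 = T k := hk
      have hkk : (T (-k) : S) * T k = 1 := T_neg_mul k
      ext1
      · simp only [dt, Prod.fst_add, Prod.smul_fst, smul_eq_mul, Prod.fst_sub, Prod.snd_sub]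
        linear_combination (-(c2.1 - b2.1)) * hkk - (T (-k) * (c2.1 - b2.1)) * hk'
          + (T (-k) * b2.1) * hd0
      · simp only [dt, Prod.snd_add, Prod.smul_snd, smul_eq_mul, Prod.fst_sub, Prod.snd_sub]
        linear_combination (-(c2.2 - b2.2)) * hkk - (T (-k) * (c2.2 - b2.2)) * hk'
          + (T (-k) * b2.2) * hd0
    obtain ⟨m, p, hp⟩ := LaurentPolynomial.exists_T_pow f
    have hf' : f = T (-(m : ℤ)) * Polynomial.toLaurent p := by
      rw [hp, mul_comm f, ← mul_assoc, T_neg_mul, one_mul]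
    rw [hf, hf'] at hl2 ⊢
    exact h.S2 m p b2 ⟨k, hk⟩ hl hl2
  | succ n ih =>
    intro b2 c2 hB hl hC hl2 hd
    obtain ⟨x, hx⟩ := h.exists_right hB hl
    have hB' := hB.shear x
    have lB' : lev v (b2 + (C x : S) • v) = N := by rw [lev_shear, hl]
    obtain ⟨l3, s3⟩ := h.tm hB' lB' (by rw [mem_Mi_shear hB]; simpa using hx)
    have s1 := SrSim_shear h.hred hB hl x
    have t1 := SrSim.trans h.hN hB' lB' s1 s3
    refine SrSim.trans h.hN (hB'.right 1) l3 t1 (ih _ c2 (hB'.right 1) l3 hC hl2 ?_)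
    have e1 : dt v ((T 1 : S) • (b2 + (C x : S) • v)) = T 1 * dt v b2 := by
      simp only [dt, Prod.fst_add, Prod.snd_add, Prod.smul_fst, Prod.smul_snd, smul_eq_mul]; ring
    rw [hd, e1, ← mul_assoc, T_mul_T]
    push_cast
    rfl

theorem SrCtx.S4 (h : SrCtx N v) {b2 c2 : S × S} (hB : IsFr v b2) (hl : lev v b2 = N)
    (hC : IsFr v c2) (hl2 : lev v c2 = N) : SrSim N v b2 v c2 := by
  have hB' := hB
  have hC' := hC
  obtain ⟨k, hk⟩ := hB'
  obtain ⟨l, hk'⟩ := hC'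
  rcases le_total k l with hkl | hkl
  · obtain ⟨n, hn⟩ := Int.le.dest hkl
    apply h.S3 n b2 c2 hB hl hC hl2
    rw [hk, hk', T_mul_T, ← hn, add_comm]
  · obtain ⟨n, hn⟩ := Int.le.dest hkl
    apply SrSim.symm
    apply h.S3 n c2 b2 hC hl2 hB hl
    rw [hk, hk', T_mul_T, ← hn, add_comm]

end

theorem star {N : ℕ} (hN : 2 ≤ N)
    (hred : ∀ b1 b2 : S × S, IsFr b1 b2 → lev b1 b2 = N →
      ∀ u w : ℚ × ℚ, Red b1 b2 u → Red b1 b2 w → Cn N (vec b1 b2 u) (vec b1 b2 w))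
    {b1 b2 c1 c2 v : S × S} (hB : IsFr b1 b2) (hC : IsFr c1 c2) (hlB : lev b1 b2 = N)
    (hlC : lev c1 c2 = N) (hvB : OnFr b1 b2 v) (hvC : OnFr c1 c2 v) (hv : ¬ Low N v)
    {u w : ℚ × ℚ} (hu : Red b1 b2 u) (hw : Red c1 c2 w) :
    Cn N (vec b1 b2 u) (vec c1 c2 w) := by
  -- the normalising factor
  obtain ⟨r, hr0, hctx⟩ : ∃ r : ℚ, r ≠ 0 ∧ SrCtx N ((C r : S) • v) := by
    obtain ⟨i, a, b, c, d, had, hvv⟩ := hvB.sr_through
    have hf := sr_fr_gen hB had i
    have hl := sr_lev_gen b1 b2 had i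
    rw [← hvv] at hf hl
    rw [hlB] at hl
    obtain ⟨r, hr, hp, -⟩ := prim_mult (M0_uni_fr hf) (u := (1, 0)) (by
      intro h0; simp at h0)
    rw [sr_q_smul_ten] at hp
    have hnr := sr_not_red hred hf hl hv
    have hc : ((r, 0) : ℚ × ℚ) ∈ Mc (Lat v ((T i : S) • vec b1 b2 (b, d)) : Set (S × S)) := by
      by_contra hc
      exact hnr ⟨r, by rw [sr_q_smul_ten]; exact Or.inl hp.1, by rw [sr_q_smul_ten]; exact hc⟩
    rw [sr_mem_Mc_q0] at hc
    refine ⟨r, hr.ne', hN, hred, ?_, ?_, ?_, ?_⟩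
    · intro hlow
      exact hv (hlow.sr_sc (Sc_C v hr.ne').symm)
    · rw [Prod.smul_fst, smul_eq_mul]; exact hc.1
    · rw [Prod.smul_snd, smul_eq_mul]; exact hc.2
    · intro q h1 h2
      rw [Prod.smul_fst, smul_eq_mul, ← mul_assoc, ← map_mul] at h1
      rw [Prod.smul_snd, smul_eq_mul, ← mul_assoc, ← map_mul] at h2
      have h3 : ((q * r, 0) : ℚ × ℚ) ∈ Mc (Lat v ((T i : S) • vec b1 b2 (b, d)) : Set (S × S)) :=
        sr_mem_Mc_q0.2 ⟨h1, h2⟩
      apply hp.2 q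
      have h4 := Mc_sub_M0 h3
      have e : q • ((r, 0) : ℚ × ℚ) = (q * r, 0) := by ext <;> simp
      rw [e]; exact h4
  have hvB' := hvB.sc (Sc_C v hr0)
  have hvC' := hvC.sc (Sc_C v hr0)
  obtain ⟨i, a, b, c, d, had, h1⟩ := hvB'.sr_through
  obtain ⟨j, a', b', c', d', had', h2⟩ := hvC'.sr_through
  have f1 := sr_fr_gen hB had i
  have l1 := sr_lev_gen b1 b2 had i
  have s1 := SrSim_coord hred hB hlB had i
  have f2 := sr_fr_gen hC had' j
  have l2 := sr_lev_gen c1 c2 had' j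
  have s2 := SrSim_coord hred hC hlC had' j
  rw [← h1] at f1 l1 s1
  rw [← h2] at f2 l2 s2
  rw [hlB] at l1
  rw [hlC] at l2
  have s3 : SrSim N ((C r : S) • v) ((T i : S) • vec b1 b2 (b, d)) ((C r : S) • v)
      ((T j : S) • vec c1 c2 (b', d')) := hctx.S4 f1 l1 f2 l2
  have t1 := SrSim.trans hN f1 l1 s1 s3
  exact SrSim.trans hN f2 l2 t1 s2.symm u w hu hw

end Pool.Agent.GE2
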