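import Pool.Agent.GE2.Defs2
import Pool.Agent.GE2.Finite

/-!
Reducible directions are connected (job T3).
-/

set_option autoImplicit false

namespace Pool.Agent.GE2

open LaurentPolynomial

/-! ### exact plateaus -/

theorem t3_exact {Q : ℕ → Prop} (h1 : Q 1) (hm : ∀ j k, j ≤ k → Q k → Q j) (hk : ∃ k, ¬ Q k) :
    ∃ a : ℕ, 1 ≤ a ∧ Q a ∧ ¬ Q (a + 1) := by
  classical
  have hs := Nat.find_spec hk
  have hmin := fun m (h : m < Nat.find hk) => Nat.find_min hk h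
  generalize Nat.find hk = n at hs hmin
  have hn : 2 ≤ n := by
    by_contra hlt
    have : n ≤ 1 := by omega
    exact hs (hm n 1 this h1)
  refine ⟨n - 1, by omega, ?_, ?_⟩
  · have := hmin (n - 1) (by omega)
    exact not_not.1 this
  · have e : n - 1 + 1 = n := by omega
    rw [e]; exact hs

/-! ### constants -/

theorem t3_Mc_swap {b1 b2 : S × S} (m : ℚ × ℚ) :
    m ∈ Mc (Lat b2 (-b1) : Set (S × S)) ↔ (-m.2, m.1) ∈ Mc (Lat b1 b2 : Set (S × S)) := by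
  have := mem_Mc_gen (b1 := b1) (b2 := b2) (a := 0) (b := -1) (c := 1) (d := 0) m
  simp only [vec, map_one, map_zero, one_smul, zero_smul, add_zero, one_mul, zero_mul,
    zero_add, map_neg, neg_smul, neg_mul] at this
  exact this

theorem Mc_ten {b1 b2 : S × S} :
    ((1, 0) : ℚ × ℚ) ∈ Mc (Lat b1 b2 : Set (S × S)) ↔ b1.1 ∈ AS ∧ b1.2 ∈ AS := by
  change ((C (1 : ℚ) : S), (C (0 : ℚ) : S)) ∈ Lat b1 b2 ↔ _
  rw [mem_Lat]
  simp only [map_one, map_zero, one_mul, zero_mul, add_zero]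

theorem Mc_zone {b1 b2 : S × S} :
    ((0, 1) : ℚ × ℚ) ∈ Mc (Lat b1 b2 : Set (S × S)) ↔ b2.1 ∈ AS ∧ b2.2 ∈ AS := by
  change ((C (0 : ℚ) : S), (C (1 : ℚ) : S)) ∈ Lat b1 b2 ↔ _
  rw [mem_Lat]
  simp only [map_one, map_zero, one_mul, zero_mul, zero_add]

theorem t3_T_mem {f : S} (i : ℤ) (h : (T i : S) * f ∈ AS) : f ∈ AS := by
  have := AS.mul_mem (T_mem (-i)) h
  rwa [← mul_assoc, T_neg_mul, one_mul] at this

/-! ### one exceptional direction -/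

theorem one_exceptional {N : ℕ} (hno : ∀ b1 b2 α β, ¬ Prob N b1 b2 α β) {b1 b2 : S × S}
    (hB : IsFr b1 b2) (hl : lev b1 b2 = N) (hN : N ≠ 0)
    (i1 : ((1, 0) : ℚ × ℚ) ∈ Mi (Lat b1 b2 : Set (S × S)))
    (i2 : ((0, 1) : ℚ × ℚ) ∈ Mi (Lat b1 b2 : Set (S × S)))
    (o1 : Prm (M0 (Lat b1 b2 : Set (S × S))) (1, 0))
    (o2 : ((0, 1) : ℚ × ℚ) ∉ M0 (Lat b1 b2 : Set (S × S)))
    (c1 : ((1, 0) : ℚ × ℚ) ∉ Mc (Lat b1 b2 : Set (S × S))) : Cn N b1 b2 := by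
  by_contra nc
  obtain ⟨α, hα, ia, ia'⟩ := t3_exact (Q := Lam1 (Zi b1 b2)) ((Mi_ten hB).1 i1)
    (fun _ _ hjk h => h.mono hjk) (exists_not_Lam1_Zi hB c1)
  obtain ⟨β, hβ, oa, oa'⟩ := t3_exact (Q := Lam1 (Z0 b1 b2)) ((M0_ten hB).1 o1.1)
    (fun _ _ hjk h => h.mono hjk) (exists_not_Lam1_Z0 hB c1)
  refine hno b1 b2 α β ⟨hB, hl, hN, ia, ia', (Mi_zone hB).1 i2, oa, oa', ?_, ?_, hα, hβ, nc⟩
  · intro h; exact o2 ((M0_zone hB).2 h)
  · intro q hq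
    apply o1.2 q
    simpa using hq

/-! ### two exceptional directions -/

theorem both_exceptional {N : ℕ} (hno : ∀ b1 b2 α β, ¬ Prob N b1 b2 α β) {b1 b2 : S × S}
    (hB : IsFr b1 b2) (hl : lev b1 b2 = N) (hN : N ≠ 0)
    (o1 : ((1, 0) : ℚ × ℚ) ∈ M0 (Lat b1 b2 : Set (S × S)))
    (o2 : ((0, 1) : ℚ × ℚ) ∈ M0 (Lat b1 b2 : Set (S × S)))
    (i1 : ((1, 0) : ℚ × ℚ) ∈ Mi (Lat b1 b2 : Set (S × S)))
    (i2 : ((0, 1) : ℚ × ℚ) ∈ Mi (Lat b1 b2 : Set (S × S)))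
    (c1 : ((1, 0) : ℚ × ℚ) ∉ Mc (Lat b1 b2 : Set (S × S)))
    (c2 : ((0, 1) : ℚ × ℚ) ∉ Mc (Lat b1 b2 : Set (S × S))) : Cn N b1 b2 := by
  obtain ⟨β, hβ, oa, oa'⟩ := t3_exact (Q := Lam1 (Z0 b1 b2)) ((M0_ten hB).1 o1)
    (fun _ _ hjk h => h.mono hjk) (exists_not_Lam1_Z0 hB c1)
  obtain ⟨α, hα, ia, ia'⟩ := t3_exact (Q := Lam2 (Zi b1 b2)) ((Mi_zone hB).1 i2)
    (fun _ _ hjk h => h.mono hjk) (exists_not_Lam2_Zi hB c2)
  have p0 : ∀ q : ℚ, ((q, 0) : ℚ × ℚ) ∈ M0 (Lat b1 b2 : Set (S × S)) → q ∈ AQ :=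
    fun q hq => ((coord_int (M0_uni_fr hB) o1 o2).1 hq).1
  have pi : ∀ q : ℚ, ((0, q) : ℚ × ℚ) ∈ Mi (Lat b1 b2 : Set (S × S)) → q ∈ AQ :=
    fun q hq => ((coord_int (Mi_uni_fr hB) i1 i2).1 hq).2
  -- facts about the frame after `k` moves
  have hlev : ∀ k, k ≤ β → k ≤ α → lev b1 ((T (k : ℤ) : S) • b2) = N := fun k h1 h2 => by
    rw [slide_lev hB (by rw [hl]; exact hN) p0 pi k (oa.mono h1) (ia.mono h2), hl]
  have hM01 : ∀ k : ℕ, ((0, 1) : ℚ × ℚ) ∈ M0 (Lat b1 ((T (k : ℤ) : S) • b2) : Set (S × S)) := by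
    intro k
    rw [M0_zone (hB.right _), Z0_up]
    exact ((Lam2_up (Z0_uni hB) k 1).2 ((M0_zone hB).1 o2)).mono (by omega)
  have hMi10 : ∀ k : ℕ, ((1, 0) : ℚ × ℚ) ∈ Mi (Lat b1 ((T (k : ℤ) : S) • b2) : Set (S × S)) := by
    intro k
    rw [Mi_ten (hB.right _), Zi_dn]
    exact ((Lam1_dn (Zi_uni hB) k 1).2 ((Mi_ten hB).1 i1)).mono (by omega)
  have hM010 : ∀ k : ℕ, ((1, 0) : ℚ × ℚ) ∈ M0 (Lat b1 ((T (k : ℤ) : S) • b2) : Set (S × S)) ↔
      Lam1 (Z0 b1 b2) (k + 1) := by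
    intro k
    rw [M0_ten (hB.right _), Z0_up, Lam1_up]
  have hMi01 : ∀ k : ℕ, ((0, 1) : ℚ × ℚ) ∈ Mi (Lat b1 ((T (k : ℤ) : S) • b2) : Set (S × S)) ↔
      Lam2 (Zi b1 b2) (k + 1) := by
    intro k
    rw [Mi_zone (hB.right _), Zi_dn, Lam2_dn]
  have hp01 : ∀ k, k ≤ β → Prm (M0 (Lat b1 ((T (k : ℤ) : S) • b2) : Set (S × S))) (0, 1) :=
    fun k hk => ⟨hM01 k, fun q hq => M0_0q_right hB (oa.mono hk) (by simpa using hq)⟩
  have hp10 : ∀ k, k ≤ α → Prm (Mi (Lat b1 ((T (k : ℤ) : S) • b2) : Set (S × S))) (1, 0) :=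
    fun k hk => ⟨hMi10 k, fun q hq => Mi_q0_right hB (ia.mono hk) (by simpa using hq)⟩
  rcases lt_trichotomy β α with hlt | heq | hlt
  · -- the swapped frame
    have hB' := hB.right (β : ℤ)
    have hf := hB'.swap
    have hMi := Mi_uni_fr hB'
    have hM0 := M0_uni_fr hB'
    have hlv := hlev β le_rfl hlt.le
    have hMi01' : ((0, 1) : ℚ × ℚ) ∈ Mi (Lat b1 ((T (β : ℤ) : S) • b2) : Set (S × S)) :=
      (hMi01 β).2 (ia.mono hlt)
    have hM010' : ((1, 0) : ℚ × ℚ) ∉ M0 (Lat b1 ((T (β : ℤ) : S) • b2) : Set (S × S)) :=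
      fun h => oa' ((hM010 β).1 h)
    have key : Cn N ((T (β : ℤ) : S) • b2) (-b1) := by
      refine one_exceptional hno hf (by rw [lev_swap, hlv]) hN ?_ ?_ ⟨?_, ?_⟩ ?_ ?_
      · rw [Mi_eq, mv_neg, mem_M0_swap hB'.mir, ← Mi_eq]
        simpa using hMi01'
      · rw [Mi_eq, mv_neg, mem_M0_swap hB'.mir, ← Mi_eq]
        have := hMi.neg_mem (hMi10 β)
        simpa using this
      · rw [mem_M0_swap hB']
        simpa using hM01 β
      · intro q hq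
        rw [mem_M0_swap hB'] at hq
        apply (hp01 β le_rfl).2 q
        simpa using hq
      · rw [mem_M0_swap hB']
        intro hh
        apply hM010'
        have := hM0.neg_mem hh
        simpa using this
      · rw [Mc_ten]
        rintro ⟨h1, h2⟩
        apply c2
        rw [Mc_zone]
        exact ⟨t3_T_mem _ h1, t3_T_mem _ h2⟩
    have s1 : Cn N b2 ((T (β : ℤ) : S) • b2) := Cn.of_Sc (Sc_T b2 β)
    have s2 : Cn N b1 (-b1) := Cn.of_Sc (Sc_neg b1)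
    exact s2.trans (key.symm.trans s1.symm)
  · -- both directions become main
    subst heq
    have hB' := hB.right (β : ℤ)
    have hlv := hlev β le_rfl le_rfl
    have m1 : MainD b1 ((T (β : ℤ) : S) • b2) (0, 1) :=
      Or.inl ⟨hp01 β le_rfl, fun h => ia' ((hMi01 β).1 h)⟩
    have m2 : MainD b1 ((T (β : ℤ) : S) • b2) (1, 0) :=
      Or.inr ⟨hp10 β le_rfl, fun h => oa' ((hM010 β).1 h)⟩
    have := main_dirs hB' (by rw [hlv]; exact hN) m2 m1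
    rw [vec_one, vec_two, hlv] at this
    exact this.trans (Cn.of_Sc (Sc_T b2 β).symm)
  · -- change the partner
    have hB' := hB.right (α : ℤ)
    have hMi := Mi_uni_fr hB'
    have hM0 := M0_uni_fr hB'
    have hlv := hlev α hlt.le le_rfl
    have hl0 : Lam2 (dn α (Zi b1 b2)) 0 := (Lam2_dn _ _ _).2 ia
    rw [← Zi_dn] at hl0
    obtain ⟨w, hw, hw2, -⟩ := hl0
    set y := PowerSeries.constantCoeff w.1 with hy
    have hyMi : ((y, 1) : ℚ × ℚ) ∈ Mi (Lat b1 ((T (α : ℤ) : S) • b2) : Set (S × S)) := by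
      rw [mem_Mi_fr hB']; exact ⟨w, hw, rfl, hw2⟩
    have hMi01' : ((0, 1) : ℚ × ℚ) ∉ Mi (Lat b1 ((T (α : ℤ) : S) • b2) : Set (S × S)) :=
      fun h => ia' ((hMi01 α).1 h)
    have hM010' : ((1, 0) : ℚ × ℚ) ∈ M0 (Lat b1 ((T (α : ℤ) : S) • b2) : Set (S × S)) :=
      (hM010 α).2 (oa.mono hlt)
    have hyM0 : ((y, 1) : ℚ × ℚ) ∉ M0 (Lat b1 ((T (α : ℤ) : S) • b2) : Set (S × S)) := by
      intro hh
      have hs := hM0.sub_mem hh (hM01 α)
      have e : ((y, 1) : ℚ × ℚ) - (0, 1) = (y, 0) := by ext <;> simp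
      rw [e] at hs
      have hyI := p0 y (M0_q0_right hB α hs)
      apply hMi01'
      have := hMi.comb_mem hyMi (hMi10 α) AQ.one_mem (AQ.neg_mem hyI)
      simpa using this
    have m1 : MainD b1 ((T (α : ℤ) : S) • b2) (0, 1) := Or.inl ⟨hp01 α hlt.le, hMi01'⟩
    have m2 : MainD b1 ((T (α : ℤ) : S) • b2) (y, 1) :=
      Or.inr ⟨prm_of_dt hMi (hMi10 α) hyMi (by simp [dt]), hyM0⟩
    have hf := hB'.shear y
    have key : Cn N b1 ((T (α : ℤ) : S) • b2 + (C y : S) • b1) := by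
      refine one_exceptional hno hf (by rw [lev_shear, hlv]) hN ?_ ?_ ⟨?_, ?_⟩ ?_ ?_
      · rw [mem_Mi_shear hB']
        simpa using hMi10 α
      · rw [mem_Mi_shear hB']
        simpa using hyMi
      · rw [mem_M0_shear hB']
        simpa using hM010'
      · intro q hq
        rw [mem_M0_shear hB'] at hq
        apply p0
        apply M0_q0_right hB α
        simpa using hq
      · rw [mem_M0_shear hB']
        intro hh
        apply hyM0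
        simpa using hh
      · rw [Mc_ten]
        rw [Mc_ten] at c1
        exact c1
    have := main_dirs hB' (by rw [hlv]; exact hN) m2 m1
    rw [vec_shear, vec_two, hlv] at this
    exact key.trans (this.trans (Cn.of_Sc (Sc_T b2 α).symm))

/-! ### reducible directions -/

/-- the constant vectors form a subgroup -/
noncomputable def t3_Mc (b1 b2 : S × S) : AddSubgroup (ℚ × ℚ) where
  carrier := Mc (Lat b1 b2 : Set (S × S))
  add_mem' := by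
    intro a b ha hb
    change ((C (a.1 + b.1) : S), (C (a.2 + b.2) : S)) ∈ Lat b1 b2
    have := (Lat b1 b2).add_mem (show ((C a.1 : S), (C a.2 : S)) ∈ Lat b1 b2 from ha)
      (show ((C b.1 : S), (C b.2 : S)) ∈ Lat b1 b2 from hb)
    simpa using this
  zero_mem' := by
    change ((C 0 : S), (C 0 : S)) ∈ Lat b1 b2
    rw [map_zero]
    exact (Lat b1 b2).zero_mem
  neg_mem' := by
    intro a ha
    change ((C (-a.1) : S), (C (-a.2) : S)) ∈ Lat b1 b2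
    have := (Lat b1 b2).neg_mem (show ((C a.1 : S), (C a.2 : S)) ∈ Lat b1 b2 from ha)
    simpa using this

theorem t3_Mc_smul {b1 b2 : S × S} {p : ℚ × ℚ} (hp : p ∈ Mc (Lat b1 b2 : Set (S × S))) {q : ℚ}
    (hq : q ∈ AQ) : q • p ∈ Mc (Lat b1 b2 : Set (S × S)) := by
  obtain ⟨n, rfl⟩ := fmem_AQ.1 hq
  have h : n • p ∈ t3_Mc b1 b2 := (t3_Mc b1 b2).zsmul_mem hp n
  have e : ((n : ℚ) • p) = n • p := by
    ext <;> simp
  rw [e]; exact h

theorem t3_ne_zero {b1 b2 : S × S} {p : ℚ × ℚ} (hp : p ∉ Mc (Lat b1 b2 : Set (S × S))) :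
    p ≠ 0 := by
  rintro rfl
  exact hp (t3_Mc b1 b2).zero_mem

theorem t3_one_of_inv {c : ℚ} (hc : 0 < c) (h1 : c ∈ AQ) (h2 : c⁻¹ ∈ AQ) : c = 1 := by
  obtain ⟨m, hm⟩ := fmem_AQ.1 h1
  obtain ⟨n, hn⟩ := fmem_AQ.1 h2
  have h3 : m * n = 1 := by
    have : (m : ℚ) * n = 1 := by rw [hm, hn, mul_inv_cancel₀ hc.ne']
    exact_mod_cast this
  have hm0 : 0 < m := by
    have : (0 : ℚ) < m := by rw [hm]; exact hc
    exact_mod_cast this
  have : m = 1 := by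
    rcases Int.eq_one_or_neg_one_of_mul_eq_one h3 with h | h
    · exact h
    · omega
  rw [← hm, this]; norm_num

/-- the primitive vector on the line of a reducible direction -/
theorem t3_prim {b1 b2 : S × S} (hB : IsFr b1 b2) {u : ℚ × ℚ} {q : ℚ}
    (h0 : q • u ∈ M0 (Lat b1 b2 : Set (S × S))) (hc : q • u ∉ Mc (Lat b1 b2 : Set (S × S)))
    (N : ℕ) :
    ∃ p, Prm (M0 (Lat b1 b2 : Set (S × S))) p ∧ p ∉ Mc (Lat b1 b2 : Set (S × S)) ∧
      Cn N (vec b1 b2 u) (vec b1 b2 p) := by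
  have hne := t3_ne_zero hc
  have hq : q ≠ 0 := by
    rintro rfl; rw [zero_smul] at hne; exact hne rfl
  obtain ⟨c, hc0, hp, -⟩ := prim_mult (M0_uni_fr hB) hne
  have hi : c⁻¹ ∈ AQ := by
    apply hp.2
    rw [smul_smul, inv_mul_cancel₀ hc0.ne', one_smul]; exact h0
  refine ⟨c • q • u, hp, ?_, ?_⟩
  · intro h
    have := t3_Mc_smul h hi
    rw [smul_smul, inv_mul_cancel₀ hc0.ne', one_smul] at this
    exact hc this
  · rw [smul_smul]
    exact Cn.of_Sc (Sc_vec _ _ (mul_ne_zero hc0.ne' hq) u)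

/-- reducible directions at zero are connected to main directions -/
theorem t3_red_main {N : ℕ} (hno : ∀ b1 b2 α β, ¬ Prob N b1 b2 α β) {b1 b2 : S × S}
    (hB : IsFr b1 b2) (hl : lev b1 b2 = N) (hN : N ≠ 0)
    (hne : M0 (Lat b1 b2 : Set (S × S)) ≠ Mi (Lat b1 b2 : Set (S × S))) {u : ℚ × ℚ} {q : ℚ}
    (h0 : q • u ∈ M0 (Lat b1 b2 : Set (S × S))) (hc : q • u ∉ Mc (Lat b1 b2 : Set (S × S))) :
    ∃ v, MainD b1 b2 v ∧ Cn N (vec b1 b2 u) (vec b1 b2 v) := by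
  obtain ⟨p, hp, hpc, hup⟩ := t3_prim hB h0 hc N
  by_cases hpi : p ∈ Mi (Lat b1 b2 : Set (S × S))
  swap
  · exact ⟨p, Or.inl ⟨hp, hpi⟩, hup⟩
  obtain ⟨c, hc0, hp1, -⟩ := prim_mult (Mi_uni_fr hB) hp.ne_zero
  by_cases h1 : c • p ∈ M0 (Lat b1 b2 : Set (S × S))
  swap
  · exact ⟨c • p, Or.inr ⟨hp1, h1⟩, hup.trans (Cn.of_Sc (Sc_vec _ _ hc0.ne' p))⟩
  have hci : c⁻¹ ∈ AQ := by
    apply hp1.2
    rw [smul_smul, inv_mul_cancel₀ hc0.ne', one_smul]; exact hpi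
  have hc1 : c = 1 := t3_one_of_inv hc0 (hp.2 c h1) hci
  rw [hc1, one_smul] at hp1
  obtain ⟨e, he, hd⟩ := prm_compl (Mi_uni_fr hB) hp1
  have he0 : e ∉ M0 (Lat b1 b2 : Set (S × S)) := fun h =>
    hne (Uni.eq_of_common (M0_uni_fr hB) (Mi_uni_fr hB) hp.1 h hp1.1 he AQ.one_mem
      (by rw [mul_one]; exact hd))
  refine ⟨e, Or.inr ⟨fprm_of_dt' (Mi_uni_fr hB) hp1.1 he (Or.inl hd), he0⟩, hup.trans ?_⟩
  have hg : p.1 * e.2 - e.1 * p.2 = 1 := by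
    have : p.1 * e.2 - p.2 * e.1 = 1 := hd
    linear_combination this
  have hB' : IsFr (vec b1 b2 p) (vec b1 b2 e) := hB.sl2 hg
  have hlv : lev (vec b1 b2 p) (vec b1 b2 e) = lev b1 b2 := lev_sl2 b1 b2 _ _ _ _ hg
  have k1 : (p.1 * 1 + e.1 * 0, p.2 * 1 + e.2 * 0) = p := by ext <;> simp
  have k2 : (p.1 * 0 + e.1 * 1, p.2 * 0 + e.2 * 1) = e := by ext <;> simp
  refine one_exceptional hno hB' (by rw [hlv, hl]) hN ?_ ?_ ⟨?_, ?_⟩ ?_ ?_
  · change _ ∈ Mi (Lat (vec b1 b2 (p.1, p.2)) (vec b1 b2 (e.1, e.2)) : Set (S × S))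
    rw [mem_Mi_gen hB hg, k1]; exact hp1.1
  · change _ ∈ Mi (Lat (vec b1 b2 (p.1, p.2)) (vec b1 b2 (e.1, e.2)) : Set (S × S))
    rw [mem_Mi_gen hB hg, k2]; exact he
  · change _ ∈ M0 (Lat (vec b1 b2 (p.1, p.2)) (vec b1 b2 (e.1, e.2)) : Set (S × S))
    rw [mem_M0_gen hB hg, k1]; exact hp.1
  · intro r hr
    change _ ∈ M0 (Lat (vec b1 b2 (p.1, p.2)) (vec b1 b2 (e.1, e.2)) : Set (S × S)) at hr
    rw [mem_M0_gen hB hg] at hr
    apply hp.2 r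
    have k3 : (p.1 * (r • ((1 : ℚ), (0 : ℚ))).1 + e.1 * (r • ((1 : ℚ), (0 : ℚ))).2,
        p.2 * (r • ((1 : ℚ), (0 : ℚ))).1 + e.2 * (r • ((1 : ℚ), (0 : ℚ))).2) = r • p := by
      ext <;> simp [mul_comm]
    rwa [k3] at hr
  · change _ ∉ M0 (Lat (vec b1 b2 (p.1, p.2)) (vec b1 b2 (e.1, e.2)) : Set (S × S))
    rw [mem_M0_gen hB hg, k2]; exact he0
  · change _ ∉ Mc (Lat (vec b1 b2 (p.1, p.2)) (vec b1 b2 (e.1, e.2)) : Set (S × S))
    rw [mem_Mc_gen, k1]; exact hpc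

theorem t3_MainD_mv {b1 b2 : S × S} {v : ℚ × ℚ} (h : MainD (mv b1) (mv b2) v) :
    MainD b1 b2 v := by
  have e1 := Mi_eq b1 b2
  have e2 := Mi_eq (mv b1) (mv b2)
  rw [mv_mv, mv_mv] at e2
  unfold MainD at h ⊢
  rw [e2, ← e1] at h
  exact h.symm

/-- all reducible directions are connected -/
theorem red_conn {N : ℕ} (hno : ∀ b1 b2 α β, ¬ Prob N b1 b2 α β) {b1 b2 : S × S}
    (hB : IsFr b1 b2) (hl : lev b1 b2 = N) (hN : N ≠ 0) {u w : ℚ × ℚ}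
    (hu : Red b1 b2 u) (hw : Red b1 b2 w) : Cn N (vec b1 b2 u) (vec b1 b2 w) := by
  by_cases hne : M0 (Lat b1 b2 : Set (S × S)) = Mi (Lat b1 b2 : Set (S × S))
  · have red : ∀ v : ℚ × ℚ, Red b1 b2 v → ∃ p, Prm (M0 (Lat b1 b2 : Set (S × S))) p ∧
        p ∉ Mc (Lat b1 b2 : Set (S × S)) ∧ Cn N (vec b1 b2 v) (vec b1 b2 p) := by
      rintro v ⟨q, h, hc⟩
      rw [← hne, or_self] at h
      exact t3_prim hB h hc N
    obtain ⟨p, hp, hpc, hup⟩ := red u hu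
    obtain ⟨r, hr, hrc, hwr⟩ := red w hw
    refine hup.trans (Cn.trans ?_ hwr.symm)
    refine farey (M0_uni_fr hB) (t3_Mc b1 b2) (fun u w => Cn N (vec b1 b2 u) (vec b1 b2 w))
      (fun _ _ h => h.symm) (fun _ _ _ h1 h2 => h1.trans h2) ?_ hp hr hpc hrc
    intro p e hp he hd hpc hec
    have hpc' : p ∉ Mc (Lat b1 b2 : Set (S × S)) := hpc
    have hec' : e ∉ Mc (Lat b1 b2 : Set (S × S)) := hec
    have hg : p.1 * e.2 - e.1 * p.2 = 1 := by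
      have : p.1 * e.2 - p.2 * e.1 = 1 := hd
      linear_combination this
    have hB' : IsFr (vec b1 b2 p) (vec b1 b2 e) := hB.sl2 hg
    have hlv : lev (vec b1 b2 p) (vec b1 b2 e) = lev b1 b2 := lev_sl2 b1 b2 _ _ _ _ hg
    have k1 : (p.1 * 1 + e.1 * 0, p.2 * 1 + e.2 * 0) = p := by ext <;> simp
    have k2 : (p.1 * 0 + e.1 * 1, p.2 * 0 + e.2 * 1) = e := by ext <;> simp
    refine both_exceptional hno hB' (by rw [hlv, hl]) hN ?_ ?_ ?_ ?_ ?_ ?_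
    · change _ ∈ M0 (Lat (vec b1 b2 (p.1, p.2)) (vec b1 b2 (e.1, e.2)) : Set (S × S))
      rw [mem_M0_gen hB hg, k1]; exact hp
    · change _ ∈ M0 (Lat (vec b1 b2 (p.1, p.2)) (vec b1 b2 (e.1, e.2)) : Set (S × S))
      rw [mem_M0_gen hB hg, k2]; exact he
    · change _ ∈ Mi (Lat (vec b1 b2 (p.1, p.2)) (vec b1 b2 (e.1, e.2)) : Set (S × S))
      rw [mem_Mi_gen hB hg, k1, ← hne]; exact hp
    · change _ ∈ Mi (Lat (vec b1 b2 (p.1, p.2)) (vec b1 b2 (e.1, e.2)) : Set (S × S))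
      rw [mem_Mi_gen hB hg, k2, ← hne]; exact he
    · change _ ∉ Mc (Lat (vec b1 b2 (p.1, p.2)) (vec b1 b2 (e.1, e.2)) : Set (S × S))
      rw [mem_Mc_gen, k1]; exact hpc'
    · change _ ∉ Mc (Lat (vec b1 b2 (p.1, p.2)) (vec b1 b2 (e.1, e.2)) : Set (S × S))
      rw [mem_Mc_gen, k2]; exact hec'
  · have red : ∀ v : ℚ × ℚ, Red b1 b2 v → ∃ p, MainD b1 b2 p ∧
        Cn N (vec b1 b2 v) (vec b1 b2 p) := by
      rintro v ⟨q, h, hc⟩
      rcases h with h | h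
      · exact t3_red_main hno hB hl hN hne h hc
      · have e1 := Mi_eq b1 b2
        have e2 := Mi_eq (mv b1) (mv b2)
        rw [mv_mv, mv_mv] at e2
        have hne' : M0 (Lat (mv b1) (mv b2) : Set (S × S)) ≠
            Mi (Lat (mv b1) (mv b2) : Set (S × S)) := by
          rw [e2, ← e1]; exact fun h => hne h.symm
        rw [e1] at h
        obtain ⟨p, hp, hcn⟩ := t3_red_main hno hB.mir (by rw [lev_mv]; exact hl) hN hne' h
          (fun h' => hc (Mc_mv.1 h'))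
        refine ⟨p, t3_MainD_mv hp, ?_⟩
        rw [← mv_vec, ← mv_vec, Cn.mir_iff] at hcn
        exact hcn
    obtain ⟨p, hp, hup⟩ := red u hu
    obtain ⟨r, hr, hwr⟩ := red w hw
    have := main_dirs hB (by rw [hl]; exact hN) hp hr
    rw [hl] at this
    exact hup.trans (this.trans hwr.symm)

end Pool.Agent.GE2
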