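import Pool.Agent.GE2.Defs

/-!
Exact statements of the separable jobs (not imported by the final proof; each job replaces its part by
a proved file).
-/

set_option autoImplicit false

namespace Pool.Agent.GE2.Targets

open LaurentPolynomial Pool.Agent.GE2

/-! ## JOB IDX -/

theorem index_lemma {G : Type*} [AddCommGroup G] (H : AddSubgroup G) (φ : G →+ ℚ) (e e' : G)
    (hH : ∀ h ∈ H, φ h = 0) (he : φ e ≠ 0) (he' : φ e' ≠ 0)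
    (hfin : (H ⊔ AddSubgroup.zmultiples e).index ≠ 0) :
    ((H ⊔ AddSubgroup.zmultiples e').index : ℚ) * |φ e|
      = ((H ⊔ AddSubgroup.zmultiples e).index : ℚ) * |φ e'| := by sorry

/-! ## JOB FAREY -/

theorem farey {E : Set (ℚ × ℚ)} (hE : Uni AQ E) (B : AddSubgroup (ℚ × ℚ))
    (Rel : ℚ × ℚ → ℚ × ℚ → Prop) (hs : ∀ u w, Rel u w → Rel w u)
    (ht : ∀ u v w, Rel u v → Rel v w → Rel u w)
    (hadj : ∀ u w, u ∈ E → w ∈ E → dt u w = 1 → u ∉ B → w ∉ B → Rel u w)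
    {u w : ℚ × ℚ} (hu : Prm E u) (hw : Prm E w) (huB : u ∉ B) (hwB : w ∉ B) : Rel u w := by sorry

theorem mink {E' : Set (ℚ × ℚ)} (hE' : Uni AQ E') {u1 u2 : ℚ × ℚ} (h : dt u1 u2 = 1)
    (n1 : u1 ∉ E') (n2 : u2 ∉ E') :
    ∃ u' ∈ E', u' ≠ 0 ∧ |dt u1 u'| < 1 ∧ |dt u2 u'| < 1 := by sorry

theorem main_conn {E E' : Set (ℚ × ℚ)} (hE : Uni AQ E) (hE' : Uni AQ E')
    (Rel : ℚ × ℚ → ℚ × ℚ → Prop) (hs : ∀ u w, Rel u w → Rel w u)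
    (ht : ∀ u v w, Rel u v → Rel v w → Rel u w)
    (hpar : ∀ (u : ℚ × ℚ) (q : ℚ), u ≠ 0 → q ≠ 0 → Rel u (q • u))
    (hadj : ∀ u u', Prm E u → Prm E' u' → dt u u' ≠ 0 → |dt u u'| < 1 → Rel u u')
    {u w : ℚ × ℚ} (hu : (Prm E u ∧ u ∉ E') ∨ (Prm E' u ∧ u ∉ E))
    (hw : (Prm E w ∧ w ∉ E') ∨ (Prm E' w ∧ w ∉ E)) : Rel u w := by sorry

/-! ## JOB LOC -/

theorem mir_uni {L : Set (S × S)} (hL : Uni AS L) : Uni AS (mir L) := by sorry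

theorem M0_uni {L : Set (S × S)} (hL : Uni AS L) : Uni AQ (M0 L) := by sorry

theorem F0_uni {L : Set (S × S)} (hL : Uni AS L) : Uni AP (F0 L) := by sorry

theorem E0_sub_F0 {L : Set (S × S)} (hL : Uni AS L) {w : Polynomial ℚ × Polynomial ℚ}
    (hw : w ∈ E0 L) : ((w.1 : P), (w.2 : P)) ∈ F0 L := by sorry

theorem F0_approx {L : Set (S × S)} (hL : Uni AS L) {z : P × P} (hz : z ∈ F0 L) (k : ℕ) :
    ∃ w ∈ E0 L, (PowerSeries.X : P) ^ k ∣ z.1 - (w.1 : P) ∧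
      (PowerSeries.X : P) ^ k ∣ z.2 - (w.2 : P) := by sorry

/-! ## JOB LEV -/

theorem lev_sl2 (b1 b2 : S × S) (a b c d : ℚ) (h : a * d - b * c = 1) :
    lev ((C a : S) • b1 + (C c : S) • b2) ((C b : S) • b1 + (C d : S) • b2) = lev b1 b2 := by sorry

theorem lev_shift (b1 b2 : S × S) (i : ℤ) : lev ((T i : S) • b1) ((T i : S) • b2) = lev b1 b2 := by
  sorry

theorem lev_mir (b1 b2 : S × S) :
    lev (invert b1.1, invert b1.2) (invert b2.1, invert b2.2) = lev b1 b2 := by sorry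

theorem lev_right {b1 b2 : S × S} (hB : IsFr b1 b2)
    (hM0 : Uni AQ (M0 (Lat b1 b2 : Set (S × S)))) (hMi : Uni AQ (Mi (Lat b1 b2 : Set (S × S))))
    {r s : ℚ} (hr : 0 < r) (hs : 0 < s)
    (h0 : Prm (M0 (Lat b1 b2 : Set (S × S))) (r, 0))
    (hi : Prm (Mi (Lat b1 b2 : Set (S × S))) (0, s)) (hl : lev b1 b2 ≠ 0) :
    (lev b1 ((T 1 : S) • b2) : ℚ) = (lev b1 b2 : ℚ) * (r * s) := by sorry

theorem lev_eq_one_of {b1 b2 : S × S} (hB : IsFr b1 b2)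
    (hM0 : Uni AQ (M0 (Lat b1 b2 : Set (S × S))))
    (h : ∀ m ∈ M0 (Lat b1 b2 : Set (S × S)), m ∈ Mc (Lat b1 b2 : Set (S × S))) :
    lev b1 b2 = 1 := by sorry

theorem Mc_of_lev_eq_one {b1 b2 : S × S} (hB : IsFr b1 b2) (h : lev b1 b2 = 1) :
    ∀ m ∈ M0 (Lat b1 b2 : Set (S × S)), m ∈ Mc (Lat b1 b2 : Set (S × S)) := by sorry

/-! ## JOB PLAT -/

theorem gauss {L : Set (S × S)} (hL : Uni AS L) :
    ∃ n : ℚ, 0 < n ∧ ∀ f : S, (f, 0) ∈ L ↔ C n⁻¹ * f ∈ AS := by sorry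

theorem unit_at_zero {L : Set (S × S)} (hL : Uni AS L) {n : ℚ} (hn : 0 < n)
    (h : ∀ f : S, (f, 0) ∈ L ↔ C n⁻¹ * f ∈ AS) :
    ∃ s ∈ L, ∃ p : Polynomial ℤ, p.coeff 0 = 1 ∧
      C n * s.2 = Polynomial.toLaurent (p.map (Int.castRingHom ℚ)) := by sorry

theorem plateau {L : Set (S × S)} (hL : Uni AS L) (h : ((1, 0) : ℚ × ℚ) ∉ Mc L) :
    ∃ k : ℕ, ∀ w ∈ E0 L, w.1.coeff 0 = 1 → ¬ ((Polynomial.X : Polynomial ℚ) ^ k ∣ w.2) := by sorry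

/-! ## JOB LB -/

theorem lev_le (hG : ∀ L : Set (S × S), Uni AS L → ∃ n : ℚ, 0 < n ∧ ∀ f : S, (f, 0) ∈ L ↔ C n⁻¹ * f ∈ AS)
    {b1 b2 c2 : S × S} (hB : IsFr b1 b2) (hC : IsFr b1 c2) (hl : lev b1 c2 ≠ 0)
    (h0 : ∀ q : ℚ, ((q, 0) : ℚ × ℚ) ∈ M0 (Lat b1 b2 : Set (S × S)) →
      ((q, 0) : ℚ × ℚ) ∈ Mc (Lat b1 b2 : Set (S × S)))
    (hi : ∀ q : ℚ, ((q, 0) : ℚ × ℚ) ∈ Mi (Lat b1 b2 : Set (S × S)) →
      ((q, 0) : ℚ × ℚ) ∈ Mc (Lat b1 b2 : Set (S × S))) :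
    lev b1 b2 ≤ lev b1 c2 := by sorry

/-! ## JOB EUC -/

theorem frame_induction (Q : S × S → S × S → Prop) (h0 : Q (1, 0) (0, 1))
    (hsl : ∀ (b1 b2 : S × S) (a b c d : ℚ), IsFr b1 b2 → a * d - b * c = 1 → Q b1 b2 →
      Q ((C a : S) • b1 + (C c : S) • b2) ((C b : S) • b1 + (C d : S) • b2))
    (hr : ∀ b1 b2, IsFr b1 b2 → Q b1 b2 → Q b1 ((T 1 : S) • b2))
    (hl : ∀ b1 b2, IsFr b1 b2 → Q b1 b2 → Q b1 ((T (-1) : S) • b2))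
    (hsh : ∀ b1 b2 (i : ℤ), IsFr b1 b2 → Q b1 b2 → Q ((T i : S) • b1) ((T i : S) • b2))
    {b1 b2 : S × S} (hB : IsFr b1 b2) : Q b1 b2 := by sorry

/-! ## JOBS JETA, JETB : local lattices -/

/-- direction `(1,0)` of `E` lifts modulo `X ^ k` -/
def Lam1 (E : Set (P × P)) (k : ℕ) : Prop :=
  ∃ z ∈ E, PowerSeries.constantCoeff z.1 = 1 ∧ (PowerSeries.X : P) ^ k ∣ z.2

/-- direction `(0,1)` of `E` lifts modulo `X ^ k` -/
def Lam2 (E : Set (P × P)) (k : ℕ) : Prop :=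
  ∃ z ∈ E, PowerSeries.constantCoeff z.2 = 1 ∧ (PowerSeries.X : P) ^ k ∣ z.1

/-- shear -/
def sh (x : ℚ) (E : Set (P × P)) : Set (P × P) := {z | (z.1 + PowerSeries.C x * z.2, z.2) ∈ E}

/-- half integers -/
def Half (q : ℚ) : Prop := ∃ j : ℤ, q = j + 1 / 2

/-- normal form of a blocked lattice -/
def NF (E : Set (P × P)) (α n : ℕ) (e1 e2 : P × P) (w : P) : Prop :=
  e1 ∈ E ∧ e2 ∈ E ∧ w ∈ AP ∧ (∃ j : ℤ, PowerSeries.constantCoeff w = 2 * j + 1) ∧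
    PowerSeries.constantCoeff e1.1 = 1 ∧ PowerSeries.constantCoeff e2.2 = 1 ∧
    (PowerSeries.X : P) ^ n ∣ e2.1 ∧
    (PowerSeries.X : P) ^ n ∣ e1.1 - (1 + PowerSeries.C (1 / 2) * PowerSeries.X ^ α * w) * e2.2 ∧
    (PowerSeries.X : P) ^ n ∣ e1.2 - PowerSeries.C (1 / 2) * PowerSeries.X ^ α * w * e2.2

/-- normalised basis -/
def NB (E : Set (P × P)) (m : ℕ) (e1 e2 : P × P) : Prop :=
  e1 ∈ E ∧ e2 ∈ E ∧ PowerSeries.constantCoeff e1.1 = 1 ∧ PowerSeries.constantCoeff e2.2 = 1 ∧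
    (PowerSeries.X : P) ^ m ∣ e2.1 ∧ (PowerSeries.X : P) ^ m ∣ e1.2 ∧
    (PowerSeries.X : P) ^ m ∣ e1.1 - e2.2

/-- JETA -/
theorem nf {E : Set (P × P)} (hE : Uni AP E) {α n : ℕ} (hα : 1 ≤ α) (hn : α < n)
    (h0 : Lam2 E n) (h1 : Lam2 (sh 1 E) n) (h2 : Lam2 (sh (-1) E) n)
    (ha : Lam1 E α) (hb : ¬ Lam1 E (α + 1)) : ∃ e1 e2 w, NF E α n e1 e2 w := by sorry

/-- JETA -/
theorem nb {E : Set (P × P)} (hE : Uni AP E) {m : ℕ} (hm : 1 ≤ m)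
    (h0 : Lam2 E m) (h1 : Lam2 (sh 1 E) m) (h2 : Lam2 (sh (-1) E) m)
    (ha : Lam1 E m) : ∃ e1 e2, NB E m e1 e2 := by sorry

/-- JETA -/
theorem two_blocked {E : Set (P × P)} (hE : Uni AP E) {α n : ℕ} (hα : 1 ≤ α)
    (h0 : Lam2 E n) (h1 : Lam2 (sh 1 E) n) (h2 : Lam2 (sh (-1) E) n) (h3 : Lam2 (sh 2 E) n)
    (ha : Lam1 E α) (hb : ¬ Lam1 E (α + 1)) : n ≤ 2 * α := by sorry

/-- JETB -/
theorem swap_lift {E : Set (P × P)} (hE : Uni AP E) {α m : ℕ} (hα : 1 ≤ α) (hm : 1 ≤ m)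
    {e1 e2 : P × P} {w : P} (h : NF E α (α + m) e1 e2 w) :
    ∃ z1 z2 : P, (PowerSeries.X : P) ^ α ∣ z1 ∧ PowerSeries.constantCoeff z2 = 1 ∧
      (-(PowerSeries.X ^ m * z2), z1 + z2) ∈ E := by sorry

/-- JETB -/
theorem swap_half {E : Set (P × P)} (hE : Uni AP E) {α m : ℕ} (hα : 1 ≤ α) (hm : 1 ≤ m)
    {e1 e2 : P × P} {w : P} (h : NF E α (α + m) e1 e2 w)
    (hz : ∃ z1 z2 : P, (PowerSeries.X : P) ^ (α + 1) ∣ z1 ∧ PowerSeries.constantCoeff z2 = 1 ∧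
      (-(PowerSeries.X ^ m * z2), z1 + z2) ∈ E) : ¬ Lam2 E (α + m + 1) := by sorry

/-- JETB -/
theorem short_left {E : Set (P × P)} (hE : Uni AP E) {α n k : ℕ} (hk : 1 ≤ k) (hka : 2 * k < α)
    (hn : α < n) {e1 e2 : P × P} {w : P} (h : NF E α n e1 e2 w) (y : ℚ) {f g : P}
    (hg : PowerSeries.constantCoeff g = 1) (hf : (PowerSeries.X : P) ^ n ∣ f) :
    (PowerSeries.X ^ k * f + g * (1 + PowerSeries.C y * PowerSeries.X ^ k),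
      PowerSeries.X ^ k * g) ∉ E := by sorry

/-- JETB -/
theorem case_A {F : Set (P × P)} (hF : Uni AP F) {m : ℕ} (hm : 1 ≤ m) {e1 e2 : P × P}
    (he : NB F m e1 e2) (y : ℚ) {f1 f2 : P × P} {w : P}
    (h : NF {z : P × P | (PowerSeries.X ^ m * (z.1 + PowerSeries.C y * z.2), z.2) ∈ F}
      (2 * m) (3 * m) f1 f2 w) :
    Half (PowerSeries.coeff m e1.2) ∧ PowerSeries.coeff m (e1.1 - e2.2) ∈ AQ := by sorry

/-- JETB -/
theorem case_B {F : Set (P × P)} (hF : Uni AP F) {m : ℕ} (hm : 1 ≤ m) {e1 e2 : P × P} {w : P}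
    (h : NF F m (m + 1) e1 e2 w) :
    NB F m e1 e2 ∧ Half (PowerSeries.coeff m e1.2) ∧
      Half (PowerSeries.coeff m (e1.1 - e2.2)) := by sorry

/-- JETB -/
theorem parity {F G : Set (P × P)} (hF : Uni AP F) (hG : Uni AP G) {m : ℕ} (hm : 1 ≤ m)
    {e1 e2 f1 f2 : P × P} (he : NB F m e1 e2) (hf : NB G m f1 f2) {ρ σ : ℚ}
    (hFG : ∀ z ∈ G, (-z.2 - PowerSeries.C ρ * PowerSeries.X ^ m * (z.1 + PowerSeries.C σ * z.2),
      PowerSeries.X ^ m * (z.1 + PowerSeries.C σ * z.2)) ∈ F)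
    (h1 : Half (PowerSeries.coeff m e1.2)) (h2 : Half (PowerSeries.coeff m f1.2)) :
    Half (PowerSeries.coeff m (e1.1 - e2.2) + PowerSeries.coeff m (f1.1 - f2.2)) := by sorry

/-! ## JOB FIN -/

/-- the generators in the frozen statement -/
def gens : Set (Matrix.GeneralLinearGroup (Fin 2) (LaurentPolynomial ℤ)) :=
  {g | (∃ i j : Fin 2, ∃ c : LaurentPolynomial ℤ, i ≠ j ∧
            (g : Matrix (Fin 2) (Fin 2) (LaurentPolynomial ℤ)) = Matrix.transvection i j c) ∨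
        (∃ d : Fin 2 → (LaurentPolynomial ℤ)ˣ,
            (g : Matrix (Fin 2) (Fin 2) (LaurentPolynomial ℤ)) =
              Matrix.diagonal (fun k => (d k : LaurentPolynomial ℤ)))}

/-- uses `M0_uni`, `Mc_of_lev_eq_one`; `hlev` is provided by the assembly -/
theorem closure_top_of (hlev : ∀ b1 b2 : S × S, IsFr b1 b2 → lev b1 b2 ≠ 0)
    (hM : ∀ L : Set (S × S), Uni AS L → Uni AQ (M0 L))
    (hone : ∀ b1 b2 : S × S, IsFr b1 b2 → lev b1 b2 = 1 →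
      ∀ m ∈ M0 (Lat b1 b2 : Set (S × S)), m ∈ Mc (Lat b1 b2 : Set (S × S)))
    (h : ∀ g : Matrix.GeneralLinearGroup (Fin 2) (LaurentPolynomial ℤ),
      Conn 2 (1, 0) (iota (g.val 0 0), iota (g.val 1 0))) :
    Subgroup.closure gens = ⊤ := by sorry

end Pool.Agent.GE2.Targets
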