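import Pool.Agent.GE2.Defs2

/-!
Exact statements of the second round of jobs (not imported by the final proof).
-/

set_option autoImplicit false

namespace Pool.Agent.GE2.Targets2

open LaurentPolynomial Pool.Agent.GE2

/-! ## JOB JETC -/

theorem left_mid_a {E : Set (P × P)} (hE : Uni AP E) {α n k : ℕ} (hk : 1 ≤ k) (hka : 2 * k < α)
    (hn : α < n) {e1 e2 : P × P} {w : P} (h : NF E α n e1 e2 w) (ρ : ℚ) :
    ∃ z1 z2 : P, (PowerSeries.X : P) ^ k ∣ z1 ∧ PowerSeries.constantCoeff z2 = 1 ∧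
      (z1 + z2 + PowerSeries.C ρ * PowerSeries.X ^ k * z2, PowerSeries.X ^ k * z2) ∈ E := by sorry

theorem left_mid_b {E : Set (P × P)} (hE : Uni AP E) {α n k : ℕ} (hk : 1 ≤ k) (hka : 2 * k < α)
    (hn : α < n) {e1 e2 : P × P} {w : P} (h : NF E α n e1 e2 w) {ρ : ℚ} (hρ : ρ ∉ AQ)
    {z1 z2 : P} (h1 : (PowerSeries.X : P) ^ (k + 1) ∣ z1)
    (h2 : PowerSeries.constantCoeff z2 = 1)
    (h3 : (z1 + z2 + PowerSeries.C ρ * PowerSeries.X ^ k * z2, PowerSeries.X ^ k * z2) ∈ E) :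
    False := by sorry

/-! ## JOB FINITE -/

/-- plateau lengths are finite -/
theorem exists_not_Lam1_Z0 {b1 b2 : S × S} (hB : IsFr b1 b2)
    (h : ((1, 0) : ℚ × ℚ) ∉ Mc (Lat b1 b2 : Set (S × S))) : ∃ k : ℕ, ¬ Lam1 (Z0 b1 b2) k := by sorry

theorem exists_not_Lam1_Zi {b1 b2 : S × S} (hB : IsFr b1 b2)
    (h : ((1, 0) : ℚ × ℚ) ∉ Mc (Lat b1 b2 : Set (S × S))) : ∃ k : ℕ, ¬ Lam1 (Zi b1 b2) k := by sorry

theorem exists_not_Lam2_Z0 {b1 b2 : S × S} (hB : IsFr b1 b2)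
    (h : ((0, 1) : ℚ × ℚ) ∉ Mc (Lat b1 b2 : Set (S × S))) : ∃ k : ℕ, ¬ Lam2 (Z0 b1 b2) k := by sorry

theorem exists_not_Lam2_Zi {b1 b2 : S × S} (hB : IsFr b1 b2)
    (h : ((0, 1) : ℚ × ℚ) ∉ Mc (Lat b1 b2 : Set (S × S))) : ∃ k : ℕ, ¬ Lam2 (Zi b1 b2) k := by sorry

/-- constants of `L` are values at `0` and at infinity; the level never vanishes -/
theorem Mc_sub_M0 {b1 b2 : S × S} {m : ℚ × ℚ} (h : m ∈ Mc (Lat b1 b2 : Set (S × S))) :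
    m ∈ M0 (Lat b1 b2 : Set (S × S)) := by sorry

theorem Mc_sub_Mi {b1 b2 : S × S} {m : ℚ × ℚ} (h : m ∈ Mc (Lat b1 b2 : Set (S × S))) :
    m ∈ Mi (Lat b1 b2 : Set (S × S)) := by sorry

theorem lev_ne_zero {b1 b2 : S × S} (hB : IsFr b1 b2) : lev b1 b2 ≠ 0 := by sorry

/-- every line of every frame is connected to the first coordinate line at some level -/
theorem Cn_std {b1 b2 v : S × S} (hB : IsFr b1 b2) (hv : OnFr b1 b2 v) :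
    ∃ n : ℕ, Cn n ((1, 0) : S × S) v := by sorry

/-! ## JOB T3 -/

theorem both_exceptional {N : ℕ} (hno : ∀ b1 b2 α β, ¬ Prob N b1 b2 α β) {b1 b2 : S × S}
    (hB : IsFr b1 b2) (hl : lev b1 b2 = N) (hN : N ≠ 0)
    (o1 : ((1, 0) : ℚ × ℚ) ∈ M0 (Lat b1 b2 : Set (S × S)))
    (o2 : ((0, 1) : ℚ × ℚ) ∈ M0 (Lat b1 b2 : Set (S × S)))
    (i1 : ((1, 0) : ℚ × ℚ) ∈ Mi (Lat b1 b2 : Set (S × S)))
    (i2 : ((0, 1) : ℚ × ℚ) ∈ Mi (Lat b1 b2 : Set (S × S)))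
    (c1 : ((1, 0) : ℚ × ℚ) ∉ Mc (Lat b1 b2 : Set (S × S)))
    (c2 : ((0, 1) : ℚ × ℚ) ∉ Mc (Lat b1 b2 : Set (S × S))) : Cn N b1 b2 := by sorry

theorem one_exceptional {N : ℕ} (hno : ∀ b1 b2 α β, ¬ Prob N b1 b2 α β) {b1 b2 : S × S}
    (hB : IsFr b1 b2) (hl : lev b1 b2 = N) (hN : N ≠ 0)
    (i1 : ((1, 0) : ℚ × ℚ) ∈ Mi (Lat b1 b2 : Set (S × S)))
    (i2 : ((0, 1) : ℚ × ℚ) ∈ Mi (Lat b1 b2 : Set (S × S)))
    (o1 : Prm (M0 (Lat b1 b2 : Set (S × S))) (1, 0))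
    (o2 : ((0, 1) : ℚ × ℚ) ∉ M0 (Lat b1 b2 : Set (S × S)))
    (c1 : ((1, 0) : ℚ × ℚ) ∉ Mc (Lat b1 b2 : Set (S × S))) : Cn N b1 b2 := by sorry

/-- all reducible directions are connected; uses both_exceptional, one_exceptional, main_dirs, farey -/
theorem red_conn {N : ℕ} (hno : ∀ b1 b2 α β, ¬ Prob N b1 b2 α β) {b1 b2 : S × S}
    (hB : IsFr b1 b2) (hl : lev b1 b2 = N) (hN : N ≠ 0) {u w : ℚ × ℚ}
    (hu : Red b1 b2 u) (hw : Red b1 b2 w) : Cn N (vec b1 b2 u) (vec b1 b2 w) := by sorry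

/-! ## JOB STAR -/

theorem low_red {b1 b2 : S × S} (hB : IsFr b1 b2) {u : ℚ × ℚ} (hu : u ≠ 0)
    (h : Low (lev b1 b2) (vec b1 b2 u)) : Red b1 b2 u := by sorry

theorem red_low {b1 b2 : S × S} (hB : IsFr b1 b2)
    (hred : ∀ u w : ℚ × ℚ, Red b1 b2 u → Red b1 b2 w → Cn (lev b1 b2) (vec b1 b2 u) (vec b1 b2 w))
    {u : ℚ × ℚ} (hu : Red b1 b2 u) : Low (lev b1 b2) (vec b1 b2 u) := by sorry

theorem exists_red {b1 b2 : S × S} (hB : IsFr b1 b2) (h2 : 2 ≤ lev b1 b2) :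
    ∃ u : ℚ × ℚ, Red b1 b2 u := by sorry

theorem star {N : ℕ} (hN : 2 ≤ N)
    (hred : ∀ b1 b2 : S × S, IsFr b1 b2 → lev b1 b2 = N →
      ∀ u w : ℚ × ℚ, Red b1 b2 u → Red b1 b2 w → Cn N (vec b1 b2 u) (vec b1 b2 w))
    {b1 b2 c1 c2 v : S × S} (hB : IsFr b1 b2) (hC : IsFr c1 c2) (hlB : lev b1 b2 = N)
    (hlC : lev c1 c2 = N) (hvB : OnFr b1 b2 v) (hvC : OnFr c1 c2 v) (hv : ¬ Low N v)
    {u w : ℚ × ℚ} (hu : Red b1 b2 u) (hw : Red c1 c2 w) :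
    Cn N (vec b1 b2 u) (vec c1 c2 w) := by sorry

/-! ## JOB PUSH -/

theorem push {N : ℕ} (hN : 2 ≤ N)
    (hred : ∀ b1 b2 : S × S, IsFr b1 b2 → lev b1 b2 = N →
      ∀ u w : ℚ × ℚ, Red b1 b2 u → Red b1 b2 w → Cn N (vec b1 b2 u) (vec b1 b2 w))
    {v w : S × S} (hv : Low N v) (hw : Low N w) (h : Cn (N + 1) v w) : Cn N v w := by sorry

theorem final (hno : ∀ N : ℕ, ∀ b1 b2 α β, ¬ Prob N b1 b2 α β) :
    Subgroup.closure gens = ⊤ := by sorry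

end Pool.Agent.GE2.Targets2
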