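import Pool.Agent.GE2.Frames

/-!
How the lattices of frames transform.
-/

set_option autoImplicit false

namespace Pool.Agent.GE2

open LaurentPolynomial

theorem mem_AP {f : P} : f ∈ AP ↔ ∀ n, PowerSeries.coeff n f ∈ AQ := by
  constructor
  · rintro ⟨g, rfl⟩ n
    rw [PowerSeries.coeff_map]
    exact ⟨_, rfl⟩
  · intro h
    choose g hg using h
    refine ⟨PowerSeries.mk g, ?_⟩
    ext n
    rw [PowerSeries.coeff_map, PowerSeries.coeff_mk, hg]

theorem mem_AP_of_X_mul {f : P} (k : ℕ) (h : (PowerSeries.X : P) ^ k * f ∈ AP) : f ∈ AP := by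
  rw [mem_AP] at h ⊢
  intro n
  have := h (n + k)
  rwa [PowerSeries.coeff_X_pow_mul] at this

theorem X_mem_AP : (PowerSeries.X : P) ∈ AP := ⟨PowerSeries.X, PowerSeries.map_X _⟩

theorem mem_AS {f : S} : f ∈ AS ↔ ∀ n : ℤ, f.coeff n ∈ AQ := by
  constructor
  · rintro ⟨g, rfl⟩ n
    refine ⟨g.coeff n, ?_⟩
    simp [iota]
  · intro h
    choose g hg using h
    refine ⟨AddMonoidAlgebra.ofCoeff (Finsupp.onFinset f.coeff.support g ?_), ?_⟩
    · intro a ha
      rw [Finsupp.mem_support_iff]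
      intro h0
      apply ha
      have := hg a
      rw [h0] at this
      simpa using this
    · ext n
      simp only [iota, AddMonoidAlgebra.coeff_mapRingHom]
      rw [← hg n]
      rfl

/-- general transformation rule of the local lattice at zero -/
theorem F0_gen {L L' : Set (S × S)} (a b c d : Polynomial ℚ) (k : ℕ)
    (hdet : a * d - b * c = Polynomial.X ^ k)
    (hL : ∀ z ∈ L, ((T k : S) * z.1, (T k : S) * z.2) ∈ L)
    (hL' : ∀ z, z ∈ L' ↔ ((Polynomial.toLaurent a : S) * z.1 + Polynomial.toLaurent b * z.2,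
      (Polynomial.toLaurent c : S) * z.1 + Polynomial.toLaurent d * z.2) ∈ L) (z : P × P) :
    z ∈ F0 L' ↔ ((a : P) * z.1 + (b : P) * z.2, (c : P) * z.1 + (d : P) * z.2) ∈ F0 L := by
  have hdetP : (a : P) * (d : P) - (b : P) * (c : P) = PowerSeries.X ^ k := by
    have := congrArg (fun f : Polynomial ℚ => (f : P)) hdet
    simpa using this
  constructor
  · intro hz w hw
    -- the adjugate
    have hw' : ((d * w.1 - b * w.2, a * w.2 - c * w.1) : Polynomial ℚ × Polynomial ℚ) ∈ E0 L' := by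
      change ((Polynomial.toLaurent (d * w.1 - b * w.2) : S),
        (Polynomial.toLaurent (a * w.2 - c * w.1) : S)) ∈ L'
      rw [hL']
      have h1 := hL _ hw
      have e1 : (Polynomial.toLaurent a : S) * Polynomial.toLaurent (d * w.1 - b * w.2)
          + Polynomial.toLaurent b * Polynomial.toLaurent (a * w.2 - c * w.1)
          = T k * Polynomial.toLaurent w.1 := by
        rw [← Polynomial.toLaurent_X_pow, ← hdet]
        simp only [map_sub, map_mul]; ring
      have e2 : (Polynomial.toLaurent c : S) * Polynomial.toLaurent (d * w.1 - b * w.2)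
          + Polynomial.toLaurent d * Polynomial.toLaurent (a * w.2 - c * w.1)
          = T k * Polynomial.toLaurent w.2 := by
        rw [← Polynomial.toLaurent_X_pow, ← hdet]
        simp only [map_sub, map_mul]; ring
      simp only [e1, e2]
      exact h1
    have := hz _ hw'
    have e : dt z (((d * w.1 - b * w.2 : Polynomial ℚ) : P), ((a * w.2 - c * w.1 : Polynomial ℚ) : P))
        = dt ((a : P) * z.1 + (b : P) * z.2, (c : P) * z.1 + (d : P) * z.2) ((w.1 : P), (w.2 : P)) := by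
      simp only [dt, Polynomial.coe_sub, Polynomial.coe_mul]; ring
    rw [e] at this
    exact this
  · intro hz w hw
    have hw' : ((a * w.1 + b * w.2, c * w.1 + d * w.2) : Polynomial ℚ × Polynomial ℚ) ∈ E0 L := by
      change ((Polynomial.toLaurent (a * w.1 + b * w.2) : S),
        (Polynomial.toLaurent (c * w.1 + d * w.2) : S)) ∈ L
      have := (hL' _).1 hw
      simpa only [map_add, map_mul] using this
    have := hz _ hw'
    have e : dt ((a : P) * z.1 + (b : P) * z.2, (c : P) * z.1 + (d : P) * z.2)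
        (((a * w.1 + b * w.2 : Polynomial ℚ) : P), ((c * w.1 + d * w.2 : Polynomial ℚ) : P))
        = PowerSeries.X ^ k * dt z ((w.1 : P), (w.2 : P)) := by
      rw [← hdetP]
      simp only [dt, Polynomial.coe_add, Polynomial.coe_mul]; ring
    rw [e] at this
    exact mem_AP_of_X_mul k this

/-! ### lattices of frames -/

theorem Lat_smul_T {b1 b2 z : S × S} (hz : z ∈ Lat b1 b2) (i : ℤ) :
    ((T i : S) * z.1, (T i : S) * z.2) ∈ Lat b1 b2 := by
  rw [mem_Lat] at hz ⊢
  have h1 := AS.mul_mem (T_mem i) hz.1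
  have h2 := AS.mul_mem (T_mem i) hz.2
  constructor
  · have e : T i * z.1 * b1.1 + T i * z.2 * b2.1 = T i * (z.1 * b1.1 + z.2 * b2.1) := by ring
    simp only [e]; exact h1
  · have e : T i * z.1 * b1.2 + T i * z.2 * b2.2 = T i * (z.1 * b1.2 + z.2 * b2.2) := by ring
    simp only [e]; exact h2

theorem Lat_smul_T_iff {b1 b2 : S × S} (x y : S) (i : ℤ) :
    ((T i : S) * x, (T i : S) * y) ∈ Lat b1 b2 ↔ (x, y) ∈ Lat b1 b2 := by
  constructor
  · intro h
    have := Lat_smul_T h (-i)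
    simp only [← mul_assoc, T_neg_mul, one_mul] at this
    exact this
  · intro h; exact Lat_smul_T h i

theorem Lat_right {b1 b2 z : S × S} (i : ℤ) :
    z ∈ Lat b1 ((T i : S) • b2) ↔ (z.1, (T i : S) * z.2) ∈ Lat b1 b2 := by
  rw [mem_Lat, mem_Lat]
  have e1 : z.1 * b1.1 + z.2 * ((T i : S) • b2).1 = z.1 * b1.1 + T i * z.2 * b2.1 := by
    simp only [Prod.smul_fst, smul_eq_mul]; ring
  have e2 : z.1 * b1.2 + z.2 * ((T i : S) • b2).2 = z.1 * b1.2 + T i * z.2 * b2.2 := by
    simp only [Prod.smul_snd, smul_eq_mul]; ring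
  rw [e1, e2]

theorem Lat_shift (b1 b2 : S × S) (i : ℤ) :
    Lat ((T i : S) • b1) ((T i : S) • b2) = Lat b1 b2 := by
  ext z
  rw [← Lat_smul_T_iff (b1 := b1) (b2 := b2) z.1 z.2 i, mem_Lat, mem_Lat]
  have e1 : z.1 * ((T i : S) • b1).1 + z.2 * ((T i : S) • b2).1
      = T i * z.1 * b1.1 + T i * z.2 * b2.1 := by
    simp only [Prod.smul_fst, smul_eq_mul]; ring
  have e2 : z.1 * ((T i : S) • b1).2 + z.2 * ((T i : S) • b2).2
      = T i * z.1 * b1.2 + T i * z.2 * b2.2 := by
    simp only [Prod.smul_snd, smul_eq_mul]; ring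
  rw [e1, e2]

theorem Lat_gen {b1 b2 z : S × S} (a b c d : S) :
    z ∈ Lat (a • b1 + c • b2) (b • b1 + d • b2) ↔
      (a * z.1 + b * z.2, c * z.1 + d * z.2) ∈ Lat b1 b2 := by
  rw [mem_Lat, mem_Lat]
  have e1 : z.1 * (a • b1 + c • b2).1 + z.2 * (b • b1 + d • b2).1
      = (a * z.1 + b * z.2) * b1.1 + (c * z.1 + d * z.2) * b2.1 := by
    simp only [Prod.fst_add, Prod.smul_fst, smul_eq_mul]; ring
  have e2 : z.1 * (a • b1 + c • b2).2 + z.2 * (b • b1 + d • b2).2
      = (a * z.1 + b * z.2) * b1.2 + (c * z.1 + d * z.2) * b2.2 := by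
    simp only [Prod.snd_add, Prod.smul_snd, smul_eq_mul]; ring
  rw [e1, e2]

theorem invert_mem_AS {f : S} : invert f ∈ AS ↔ f ∈ AS := by
  rw [mem_AS, mem_AS]
  constructor
  · intro h n
    have := h (-n)
    rwa [invert_apply, neg_neg] at this
  · intro h n
    rw [invert_apply]; exact h _

theorem Lat_mir (b1 b2 : S × S) : (Lat (mv b1) (mv b2) : Set (S × S)) = mir (Lat b1 b2) := by
  ext z
  rw [SetLike.mem_coe, mem_Lat]
  change _ ↔ (invert z.1, invert z.2) ∈ Lat b1 b2
  rw [mem_Lat, ← invert_mem_AS, ← invert_mem_AS (f := z.1 * (mv b1).2 + z.2 * (mv b2).2)]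
  simp only [mv, map_add, map_mul, invert_invert]

theorem mir_mir (L : Set (S × S)) : mir (mir L) = L := by
  ext z
  change (invert (invert z.1), invert (invert z.2)) ∈ L ↔ z ∈ L
  rw [invert_invert, invert_invert]

/-! ### local lattices of frames -/

/-- local lattice at zero of a frame -/
noncomputable abbrev Z0 (b1 b2 : S × S) : Set (P × P) := F0 (Lat b1 b2 : Set (S × S))

/-- local lattice at infinity of a frame -/
noncomputable abbrev Zi (b1 b2 : S × S) : Set (P × P) := Fi (Lat b1 b2 : Set (S × S))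

theorem Zi_eq (b1 b2 : S × S) : Zi b1 b2 = Z0 (mv b1) (mv b2) := by
  change F0 (mir (Lat b1 b2)) = F0 _
  rw [Lat_mir]

theorem Z0_mv (b1 b2 : S × S) : Z0 (mv b1) (mv b2) = Zi b1 b2 := (Zi_eq b1 b2).symm

theorem Zi_mv (b1 b2 : S × S) : Zi (mv b1) (mv b2) = Z0 b1 b2 := by
  rw [Zi_eq, mv_mv, mv_mv]

theorem Z0_right (b1 b2 : S × S) (k : ℕ) (z : P × P) :
    z ∈ Z0 b1 ((T (k : ℤ) : S) • b2) ↔ (z.1, PowerSeries.X ^ k * z.2) ∈ Z0 b1 b2 := by
  have := F0_gen (L := (Lat b1 b2 : Set (S × S))) (L' := (Lat b1 ((T (k : ℤ) : S) • b2) : Set (S × S)))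
    1 0 0 (Polynomial.X ^ k) k (by simp) (fun z hz => Lat_smul_T hz _) (fun z => by
      rw [SetLike.mem_coe, Lat_right]; simp) z
  rw [this]
  simp

theorem Z0_left (b1 b2 : S × S) (k : ℕ) (z : P × P) :
    z ∈ Z0 b1 ((T (-(k : ℤ)) : S) • b2) ↔ (PowerSeries.X ^ k * z.1, z.2) ∈ Z0 b1 b2 := by
  have := F0_gen (L := (Lat b1 b2 : Set (S × S)))
    (L' := (Lat b1 ((T (-(k : ℤ)) : S) • b2) : Set (S × S)))
    (Polynomial.X ^ k) 0 0 1 k (by simp) (fun z hz => Lat_smul_T hz _) (fun z => by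
      rw [SetLike.mem_coe, Lat_right, ← Lat_smul_T_iff _ _ k]
      simp only [← mul_assoc, T_mul_neg, one_mul]
      simp) z
  rw [this]
  simp

theorem Z0_gen (b1 b2 : S × S) {a b c d : ℚ} (h : a * d - b * c = 1) (z : P × P) :
    z ∈ Z0 ((C a : S) • b1 + (C c : S) • b2) ((C b : S) • b1 + (C d : S) • b2) ↔
      (PowerSeries.C a * z.1 + PowerSeries.C b * z.2, PowerSeries.C c * z.1 + PowerSeries.C d * z.2)
        ∈ Z0 b1 b2 := by
  have := F0_gen (L := (Lat b1 b2 : Set (S × S)))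
    (L' := (Lat ((C a : S) • b1 + (C c : S) • b2) ((C b : S) • b1 + (C d : S) • b2) : Set (S × S)))
    (Polynomial.C a) (Polynomial.C b) (Polynomial.C c) (Polynomial.C d) 0
    (by rw [← Polynomial.C_mul, ← Polynomial.C_mul, ← Polynomial.C_sub, h]; simp)
    (fun z hz => Lat_smul_T hz _) (fun z => by
      rw [SetLike.mem_coe, Lat_gen]; simp) z
  rw [this]
  simp

end Pool.Agent.GE2
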